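import Pool.Agent.Lib.MP_2b5695_lc.GameA

/-!
World B: definition and basic properties.
-/

namespace Pool.Agent.Lib.MP_2b5695_lc

/-- code of a pair `(x, y)` -/
def codeG (x y : ℕ) : List Bool := blk (Nat.bits y).reverse ++ false :: Nat.bits x

theorem bits_inj {x y : ℕ} (h : Nat.bits x = Nat.bits y) : x = y := by
  rw [← val_bits x, h, val_bits]

theorem codeG_inj {x y x' y' : ℕ} (h : codeG x y = codeG x' y') : x = x' ∧ y = y' := by
  obtain ⟨h1, h2⟩ := blk_append_inj h
  exact ⟨bits_inj h2, bits_inj (List.reverse_injective h1)⟩

theorem blk_length (x : List Bool) : (blk x).length = 2 * x.length := by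
  induction x with
  | nil => rfl
  | cons b x ih =>
    have : blk (b :: x) = true :: b :: blk x := rfl
    rw [this, List.length_cons, List.length_cons, ih, List.length_cons]
    ring

theorem codeG_length (x y : ℕ) :
    (codeG x y).length = 2 * (Nat.bits y).length + 1 + (Nat.bits x).length := by
  rw [codeG, List.length_append, blk_length, List.length_reverse, List.length_cons]
  ring

/-- reversed question string -/
def quesRev (j : ℕ) (x : List Bool) (k m : ℕ) : List Bool :=
  false :: false :: false :: (List.replicate j true ++ false :: (blk x ++ false ::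
    (List.replicate k true ++ false :: (List.replicate m true ++ [false]))))

/-- question string: statement `j` about `x` and `k`, with padding `m` -/
def ques (j : ℕ) (x : List Bool) (k m : ℕ) : List Bool := (quesRev j x k m).reverse

theorem ques_length (j : ℕ) (x : List Bool) (k m : ℕ) :
    (ques j x k m).length = j + 2 * x.length + k + m + 7 := by
  simp only [ques, quesRev, List.length_reverse, List.length_cons, List.length_append,
    List.length_replicate, blk_length, List.length_nil]
  ring

theorem quesRev_inj {j j' k k' m m' : ℕ} {x x' r r' : List Bool}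
    (h : quesRev j x k m ++ r = quesRev j' x' k' m' ++ r') :
    j = j' ∧ x = x' ∧ k = k' ∧ m = m' ∧ r = r' := by
  simp only [quesRev, List.cons_append, List.append_assoc, List.cons.injEq, true_and,
    List.nil_append] at h
  obtain ⟨h1, h2⟩ := replicate_false_inj h
  obtain ⟨h3, h4⟩ := blk_append_inj h2
  obtain ⟨h5, h6⟩ := replicate_false_inj h4
  obtain ⟨h7, h8⟩ := replicate_false_inj h6
  exact ⟨h1, h3, h5, h7, h8⟩

theorem ques_inj {j j' k k' m m' : ℕ} {x x' u u' : List Bool}
    (h : u ++ ques j x k m = u' ++ ques j' x' k' m') :
    j = j' ∧ x = x' ∧ k = k' ∧ m = m' ∧ u = u' := by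
  have h1 := congrArg List.reverse h
  simp only [ques, List.reverse_append, List.reverse_reverse] at h1
  obtain ⟨h2, h3, h4, h5, h6⟩ := quesRev_inj h1
  exact ⟨h2, h3, h4, h5, List.reverse_injective h6⟩

theorem bits_reverse_head {x : ℕ} (hx : x ≠ 0) : ∃ w, (Nat.bits x).reverse = true :: w := by
  induction x using Nat.binaryRec' with
  | zero => exact absurd rfl hx
  | bit b n h ih =>
    rw [Nat.bits_append_bit n b h]
    rcases eq_or_ne n 0 with rfl | hn
    · have hb := h rfl
      subst hb
      exact ⟨[], by simp⟩
    · obtain ⟨w, hw⟩ := ih hn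
      exact ⟨w ++ [b], by simp [hw]⟩

theorem codeG_ne_ques {x y j k m : ℕ} {w u : List Bool} : codeG x y ≠ u ++ ques j w k m := by
  intro h
  have h1 := congrArg List.reverse h
  simp only [ques, List.reverse_append, List.reverse_reverse, codeG, List.reverse_cons,
    quesRev, List.append_assoc, List.cons_append, List.nil_append] at h1
  rcases eq_or_ne x 0 with rfl | hx
  · simp only [Nat.zero_bits, List.reverse_nil, List.nil_append, List.cons.injEq,
      true_and] at h1
    rcases hy : Nat.bits y with _ | ⟨b, v⟩
    · rw [hy] at h1; simp [blk] at h1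
    · rw [hy] at h1
      have : (blk (b :: v).reverse).reverse = b :: true :: (blk v.reverse).reverse := by
        simp [blk]
      rw [this] at h1
      simp at h1
  · obtain ⟨v, hv⟩ := bits_reverse_head hx
    rw [hv] at h1
    simp at h1

/-- pad or truncate to length `m` -/
def fit (m : ℕ) (u : List Bool) : List Bool := (u ++ List.replicate m false).take m

theorem fit_length (m : ℕ) (u : List Bool) : (fit m u).length = m := by
  simp [fit]

theorem fit_of_length {m : ℕ} {u : List Bool} (h : u.length = m) : fit m u = u := by
  subst h
  simp [fit]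

/-- parameters of the world: at each length, a set of strings and a choice of certificates -/
abbrev Par := ℕ → Set (List Bool) × (List Bool → List Bool)

/-- the feasible-solutions part -/
def partG (θ : Par) : Set (List Bool) :=
  {s | ∃ x y, s = codeG x y ∧ (y = 0 ∨ (y ≤ x ∧ s ∈ (θ s.length).1))}

/-- codes of statements: a co-nondeterministic computation, or a bit of an optimal solution -/
noncomputable def decB : ℕ → (Prog × Polynomial ℕ × Polynomial ℕ) ⊕ Data :=
  (exists_surjective_nat _).choose

theorem decB_surj : Function.Surjective decB := (exists_surjective_nat _).choose_spec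

/-- truth of statements relative to an oracle -/
noncomputable def holds (j : ℕ) (x : List Bool) (k : ℕ) (X : Set (List Bool)) : Prop :=
  match decB j with
  | .inl (Q, q, p) => ¬ sigE X Q q [p] [x]
  | .inr d => Nat.testBit (d.opt (cut (d.b.eval x.length) X) (val x)) k = true

/-- the functional for world B -/
def funB (F : Set (List Bool)) (θ : Par) (X : Set (List Bool)) (s : List Bool) : Prop :=
  match s with
  | [] => False
  | true :: v => v ∈ F
  | false :: v => v ∈ partG θ ∨ ∃ j x k m, v = fit (ques j x k m).length
      ((θ (ques j x k m).length).2 (ques j x k m)) ++ ques j x k m ∧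
      holds j x k (cut (ques j x k m).length X)

/-- world B -/
def oraB (F : Set (List Bool)) (θ : Par) : Set (List Bool) := fixSet (funB F θ)

/-- the certificates -/
def partC (F : Set (List Bool)) (θ : Par) : Set (List Bool) :=
  {v | ∃ j x k m, v = fit (ques j x k m).length
      ((θ (ques j x k m).length).2 (ques j x k m)) ++ ques j x k m ∧
      holds j x k (cut (ques j x k m).length (oraB F θ))}

theorem oraB_eq (F : Set (List Bool)) (θ : Par) :
    oraB F θ = join F (partG θ ∪ partC F θ) := by
  ext s
  rw [oraB, mem_fixSet, ← oraB]
  rcases s with _ | ⟨a, v⟩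
  · simp [funB]
  · cases a
    · rw [false_mem_join]
      simp only [funB]
      refine or_congr Iff.rfl ?_
      refine exists_congr fun j => exists_congr fun x => exists_congr fun k =>
        exists_congr fun m => and_congr_right fun hv => ?_
      rw [cut_cut]
      rw [hv]
      simp only [List.length_cons, List.length_append]
      omega
    · rw [true_mem_join]
      simp only [funB]

/-- agreement of worlds below `n` -/
theorem cut_oraB {F : Set (List Bool)} {θ θ' : Par} {n : ℕ} (h : ∀ k < n, θ' k = θ k) :
    cut n (oraB F θ') = cut n (oraB F θ) := by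
  have key : ∀ n (θ θ' : Par), (∀ k < n, θ' k = θ k) → ∀ w : List Bool, w.length < n →
      w ∈ oraB F θ → w ∈ oraB F θ' := by
    intro n
    induction n using Nat.strong_induction_on with
    | _ n ih =>
      intro θ θ' h w hw hmem
      rw [oraB_eq] at hmem ⊢
      rcases w with _ | ⟨a, v⟩
      · exact absurd hmem nil_mem_join
      · cases a
        · rw [false_mem_join] at hmem ⊢
          rcases hmem with ⟨x, y, h1, h2⟩ | ⟨j, x, k, m, h1, h2⟩
          · refine Or.inl ⟨x, y, h1, ?_⟩
            rcases h2 with h2 | ⟨h2, h3⟩
            · exact Or.inl h2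
            · refine Or.inr ⟨h2, ?_⟩
              rw [h _ (by simp at hw; omega)]
              exact h3
          · have hlt : (ques j x k m).length < n := by
              have := congrArg List.length h1
              simp only [List.length_append, fit_length] at this
              simp only [List.length_cons] at hw
              omega
            refine Or.inr ⟨j, x, k, m, ?_, ?_⟩
            · rw [h _ hlt]; exact h1
            · have hc : cut (ques j x k m).length (oraB F θ') =
                  cut (ques j x k m).length (oraB F θ) := by
                ext z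
                simp only [cut]
                constructor
                · rintro ⟨hz1, hz2⟩
                  exact ⟨ih _ hlt θ' θ (fun i hi => (h i (hi.trans hlt)).symm) z hz2 hz1, hz2⟩
                · rintro ⟨hz1, hz2⟩
                  exact ⟨ih _ hlt θ θ' (fun i hi => h i (hi.trans hlt)) z hz2 hz1, hz2⟩
              rw [hc]
              exact h2
        · rw [true_mem_join] at hmem ⊢
          exact hmem
  ext w
  simp only [cut]
  constructor
  · rintro ⟨h1, h2⟩
    exact ⟨key n θ' θ (fun k hk => (h k hk).symm) w h2 h1, h2⟩
  · rintro ⟨h1, h2⟩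
    exact ⟨key n θ θ' h w h2 h1, h2⟩

/-- a question has a certificate iff it is true -/
theorem ques_mem {F : Set (List Bool)} {θ : Par} {j k m : ℕ} {x u : List Bool} :
    (u ++ ques j x k m) ∈ partG θ ∪ partC F θ ↔
      u = fit (ques j x k m).length ((θ (ques j x k m).length).2 (ques j x k m)) ∧
      holds j x k (cut (ques j x k m).length (oraB F θ)) := by
  constructor
  · rintro (⟨x', y, h1, -⟩ | ⟨j', x', k', m', h1, h2⟩)
    · exact absurd h1.symm codeG_ne_ques
    · obtain ⟨rfl, rfl, rfl, rfl, h3⟩ := ques_inj h1
      exact ⟨h3, h2⟩
  · rintro ⟨h1, h2⟩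
    exact Or.inr ⟨j, x, k, m, by rw [h1], h2⟩

theorem codeG_mem {F : Set (List Bool)} {θ : Par} {x y : ℕ} :
    codeG x y ∈ partG θ ∪ partC F θ ↔ (y = 0 ∨ (y ≤ x ∧ codeG x y ∈ (θ (codeG x y).length).1)) := by
  constructor
  · rintro (⟨x', y', h1, h2⟩ | ⟨j', x', k', m', h1, h2⟩)
    · obtain ⟨rfl, rfl⟩ := codeG_inj h1
      exact h2
    · exact absurd h1 codeG_ne_ques
  · intro h
    exact Or.inl ⟨x, y, rfl, h⟩

theorem ques_search {F : Set (List Bool)} {θ : Par} {j k m : ℕ} {x : List Bool} :
    ques j x k m ∈ searchSet (partG θ ∪ partC F θ) ↔
      holds j x k (cut (ques j x k m).length (oraB F θ)) := by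
  constructor
  · rintro ⟨u, -, h⟩
    exact (ques_mem.1 h).2
  · intro h
    refine ⟨(fit (ques j x k m).length
      ((θ (ques j x k m).length).2 (ques j x k m))).reverse, ?_, ?_⟩
    · simp [fit_length]
    · rw [List.reverse_reverse]
      exact ques_mem.2 ⟨rfl, h⟩

end Pool.Agent.Lib.MP_2b5695_lc
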