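import Pool.Agent.Lib.MP_2b5695_lc.BDef

/-!
World B: NP = coNP, and all levels `i ≥ 1` are computed.
-/

namespace Pool.Agent.Lib.MP_2b5695_lc

/-- padding for the questions about a nondeterministic computation -/
noncomputable def bndB (Q : Prog) (q p : Polynomial ℕ) : Polynomial ℕ :=
  (sigE_local Q q [p]).choose

theorem bndB_spec (Q : Prog) (q p : Polynomial ℕ) (A A' : Set (List Bool))
    (v : List (List Bool)) (h : cut ((bndB Q q p).eval (size v)) A =
      cut ((bndB Q q p).eval (size v)) A') : sigE A Q q [p] v ↔ sigE A' Q q [p] v :=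
  (sigE_local Q q [p]).choose_spec A A' v h

/-- ask for the bits of the optimal solution -/
def askBits (j : ℕ) (x : List Bool) (m : ℕ) : ℕ → List Bool → (List Bool → Tree) → Tree
  | 0, acc, f => f acc
  | k + 1, acc, f => write (ques j x k m)
      (.query fun b => dropT (ques j x k m).length (askBits j x m k (b :: acc) f))

/-- trees of world B -/
noncomputable def taskB (j : ℕ) (x u : List Bool) (_X : Set (List Bool)) : Tree :=
  match decB j with
  | .inl (Q, q, p) => write (u ++ ques j x 0 ((bndB Q q p).eval x.length))
      (.query fun b => .halt (!b))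
  | .inr d => askBits j x (d.b.eval x.length) x.length [] fun l => write l (.halt true)

/-- the brain of world B -/
noncomputable def brainB : Set (List Bool) := brain (fun _ _ _ => 0) taskB

theorem val_testBit (K a : ℕ) : val ((List.range K).map fun k => a.testBit k) = a % 2 ^ K := by
  induction K generalizing a with
  | zero => simp [val, Nat.mod_one]
  | succ K ih =>
    rw [List.range_succ_eq_map, List.map_cons, List.map_map]
    have h1 : ((fun k => a.testBit k) ∘ Nat.succ) = fun k => (a / 2).testBit k := by
      funext k
      simp [Nat.testBit_succ]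
    rw [h1, val, ih]
    have h2 : a % 2 ^ (K + 1) = 2 * (a / 2 % 2 ^ K) + a % 2 := by
      rw [pow_succ, mul_comm (2 ^ K) 2, Nat.mod_mul]
      ring
    rw [h2, Nat.bit_val]
    congr 1
    have h3 := Nat.mod_two_eq_zero_or_one a
    rcases h3 with h3 | h3
    · simp [Nat.testBit_zero, h3]
    · simp [Nat.testBit_zero, h3]

theorem askBits_ens {D : Set (List Bool)} {Adv : ℕ → Option ℕ → Prop}
    {good : Bool → List Bool → Prop} {f : List Bool → Tree} {c j m K : ℕ} {x : List Bool}
    (tb : ℕ → Bool) (hD : ∀ k, ques j x k m ∈ D ↔ tb k = true) :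
    ∀ (k : ℕ) (acc : List Bool), k ≤ K →
      Tree.Ens D Adv good c (f ((List.range k).map tb ++ acc)) [] →
      Tree.Ens D Adv good (c + k * (2 * (j + 2 * x.length + K + m + 7) + 1))
        (askBits j x m k acc f) []
  | 0, acc, _, h => by
    have : Tree.Ens D Adv good c (f acc) [] := by simpa using h
    simpa [askBits] using this
  | k + 1, acc, hk, h => by
    have ih := askBits_ens (Adv := Adv) (good := good) (f := f) (c := c) (K := K) tb hD k
      (tb k :: acc) (by omega)
      (by
        rw [List.range_succ, List.map_append, List.append_assoc] at h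
        exact h)
    have hql := ques_length j x k m
    have hstep : Tree.Ens D Adv good
        ((c + k * (2 * (j + 2 * x.length + K + m + 7) + 1) + (ques j x k m).length + 1) +
          (ques j x k m).length) (askBits j x m (k + 1) acc f) [] := by
      refine write_ens _ [] ?_
      rw [List.append_nil]
      refine ⟨fun hq => ?_, fun hq => ?_⟩
      · refine dropT_ens' _ rfl ?_
        have : tb k = true := (hD k).1 hq
        rw [this] at ih
        exact ih
      · refine dropT_ens' _ rfl ?_
        have : tb k = false := by
          rcases hb : tb k with _ | _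
          · rfl
          · exact absurd ((hD k).2 hb) hq
        rw [this] at ih
        exact ih
    refine hstep.mono ?_
    rw [hql]
    nlinarith

/-- coNP is contained in NP in world B -/
theorem compl_sigma (θ : Par) (L : List (List Bool) → Prop)
    (h : InSigma (oraB brainB θ) 1 1 L) : InSigma (oraB brainB θ) 1 1 (fun v => ¬ L v) := by
  obtain ⟨Q, q, ps, hps, hL⟩ := exists_sigE 1 1 L h
  obtain ⟨p, rfl⟩ := List.length_eq_one_iff.1 hps
  obtain ⟨j, hj⟩ := decB_surj (.inl (Q, q, p))
  set b := bndB Q q p with hb
  set D := partG θ ∪ partC brainB θ with hD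
  refine ⟨fun v => (v.getD 1 [] ++ ques j (v.getD 0 []) 0 (b.eval (v.getD 0 []).length)) ∉ D,
    (j : Polynomial ℕ) + 2 * Polynomial.X + b + 7, ?_, ?_⟩
  · refine ⟨driver 2 j, 18 * (Polynomial.X + ((j : Polynomial ℕ) + 2 * Polynomial.X + b + 7) + 2) +
      3 * Polynomial.X + 3 * Polynomial.X + (j : Polynomial ℕ) + 6, fun v hv => ?_⟩
    obtain ⟨x, u, rfl⟩ := List.length_eq_two.1 hv
    simp only [List.getD_cons_zero, List.getD_cons_succ]
    have hm : taskB j x u (cut 0 (brain (fun _ _ _ => 0) taskB)) =
        write (u ++ ques j x 0 (b.eval x.length)) (.query fun b => .halt (!b)) := by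
      unfold taskB
      rw [hj]
    refine brain_run (N := fun _ _ _ => 0) (main := taskB) (D := D) (x := x) (u := u)
      (n := (1 + 1) + (u ++ ques j x 0 (b.eval x.length)).length)
      (fun w => by rw [oraB_eq]; exact true_mem_join)
      (fun w => by rw [oraB_eq]; exact false_mem_join) le_rfl ?_ ?_ rfl rfl rfl
    · rw [hm]
      refine write_ens _ [] ?_
      rw [List.append_nil]
      refine ⟨fun hq => ?_, fun hq => ?_⟩
      · have : ((!true) = true ↔ (u ++ ques j x 0 (b.eval x.length)) ∉ D) := by simp [hq]
        exact this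
      · have : ((!false) = true ↔ (u ++ ques j x 0 (b.eval x.length)) ∉ D) := by simp [hq]
        exact this
    · have hs : size [x, u] = x.length + u.length := by simp [size]
      have h1 := eval_mono b (show x.length ≤ size [x, u] by omega)
      simp only [Polynomial.eval_add, Polynomial.eval_mul, Polynomial.eval_X,
        Polynomial.eval_ofNat, Polynomial.eval_natCast, List.length_append, ques_length]
      simp only [Nat.cast_id]
      omega
  · intro v hv
    obtain ⟨x, rfl⟩ : ∃ x, v = [x] := List.length_eq_one_iff.1 hv
    have hs : size [x] = x.length := by simp [size]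
    show ¬ L [x] ↔ _
    rw [hL [x] rfl]
    simp only [List.cons_append, List.nil_append, List.getD_cons_zero, List.getD_cons_succ,
      not_not]
    set w := ques j x 0 (b.eval x.length) with hw
    have hwl : w.length = j + 2 * x.length + 0 + b.eval x.length + 7 := ques_length _ _ _ _
    have hholds : holds j x 0 (cut w.length (oraB brainB θ)) ↔
        ¬ sigE (oraB brainB θ) Q q [p] [x] := by
      unfold holds
      rw [hj]
      simp only
      refine not_congr (bndB_spec Q q p _ _ _ ?_)
      rw [cut_cut]
      rw [hs, ← hb]
      omega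
    constructor
    · intro hn
      refine ⟨fit w.length ((θ w.length).2 w), ?_, ques_mem.2 ⟨rfl, hholds.2 hn⟩⟩
      rw [fit_length, hwl, hs]
      simp only [Polynomial.eval_add, Polynomial.eval_mul, Polynomial.eval_X,
        Polynomial.eval_ofNat, Polynomial.eval_natCast, Nat.cast_id]
      omega
    · rintro ⟨u, -, hu⟩
      exact hholds.1 (ques_mem.1 hu).2

/-- all levels `i ≥ 1` are computed in world B -/
theorem computedB (θ : Par) (i : ℕ) (C : ℕ → ℕ → Prop) (ρ : ℕ → ℕ)
    (h : OptProblem (oraB brainB θ) (i + 1) C ρ) : Computed (oraB brainB θ) (i + 1) C ρ := by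
  obtain ⟨d, -, hC, hρ, hloc, -⟩ := exists_data h
  obtain ⟨j, hj⟩ := decB_surj (.inr d)
  set D := partG θ ∪ partC brainB θ with hD
  refine ⟨join brainB (searchSet D), driver 2 j,
    18 * ((1 + Polynomial.X) + Polynomial.X * (2 * ((j : Polynomial ℕ) + 2 * Polynomial.X +
      Polynomial.X + d.b + 7) + 1)) + 3 * Polynomial.X + (j : Polynomial ℕ) + 6, ?_, fun x => ?_⟩
  · rw [oraB_eq]
    exact search_inSigma _ _ _
  set nx := (Nat.bits x).length with hnx
  set m := d.b.eval nx with hm
  set y := d.opt (cut m (oraB brainB θ)) x with hy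
  have hcut : cut m (oraB brainB θ) = cut m (cut m (oraB brainB θ)) := (cut_cut le_rfl _).symm
  have hopt : Optimal C ρ x y := by
    have hyx := d.opt_le (cut m (oraB brainB θ)) x
    obtain ⟨o1, o2⟩ := d.opt_spec (cut m (oraB brainB θ)) x
    have hfe : ∀ z ≤ x, (d.feas (oraB brainB θ) x z ↔ d.feas (cut m (oraB brainB θ)) x z) := by
      intro z hz
      unfold Data.feas
      rw [(hloc _ _ x z hz hcut).1]
    have hco : ∀ z ≤ x, d.cost (oraB brainB θ) z = d.cost (cut m (oraB brainB θ)) z :=
      fun z hz => (hloc _ _ x z hz hcut).2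
    refine ⟨(hC _ _).1 ((hfe _ hyx).2 o1), fun z hz => ?_⟩
    have hzx := h.le _ _ hz
    have := o2 z ((hfe z hzx).1 ((hC _ _).2 hz))
    rwa [← hco z hzx, ← hco _ hyx, hρ, hρ] at this
  have hyx : y ≤ x := d.opt_le _ x
  have hylt : y < 2 ^ nx := lt_of_le_of_lt hyx (lt_two_pow_bits x)
  have hmn : taskB j (Nat.bits x) [] (cut 0 (brain (fun _ _ _ => 0) taskB)) =
      askBits j (Nat.bits x) m nx [] fun l => write l (.halt true) := by
    unfold taskB
    rw [hj]
  have hask : ∀ k, ques j (Nat.bits x) k m ∈ searchSet D ↔ y.testBit k = true := by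
    intro k
    rw [hD, ques_search]
    unfold holds
    rw [hj]
    simp only
    rw [cut_cut, val_bits]
    · rw [ques_length, ← hnx, ← hm]; omega
  refine brain_run (N := fun _ _ _ => 0) (main := taskB) (D := searchSet D) (x := Nat.bits x)
      (u := []) (n := (1 + nx) + nx * (2 * (j + 2 * nx + nx + m + 7) + 1))
      (fun w => true_mem_join) (fun w => false_mem_join) le_rfl ?_ ?_ rfl rfl rfl
  · rw [hmn]
    refine askBits_ens (K := nx) (fun k => y.testBit k) hask nx [] le_rfl ?_
    rw [List.append_nil]
    have hval : val ((List.range nx).map fun k => y.testBit k) = y := by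
      rw [val_testBit, Nat.mod_eq_of_lt hylt]
    have hl : ((List.range nx).map fun k => y.testBit k).length = nx := by simp
    have hgoal : Tree.Ens (searchSet D) (Answers C ρ x) (fun _ w => Optimal C ρ x (val w))
        (1 + ((List.range nx).map fun k => y.testBit k).length)
        (write ((List.range nx).map fun k => y.testBit k) (.halt true)) [] := by
      refine write_ens _ [] ?_
      rw [List.append_nil]
      have hg : Optimal C ρ x (val ((List.range nx).map fun k => y.testBit k)) := by
        rw [hval]; exact hopt
      exact hg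
    rw [hl] at hgoal
    exact hgoal
  · simp only [Polynomial.eval_add, Polynomial.eval_mul, Polynomial.eval_X,
      Polynomial.eval_ofNat, Polynomial.eval_one, Polynomial.eval_natCast, List.length_nil,
      Nat.cast_id]
    rw [← hnx, ← hm]
    omega

end Pool.Agent.Lib.MP_2b5695_lc
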