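import Pool.Agent.Lib.MP_2b5695_lc.BEasy

/-!
World B: an optimization problem in `P` that is not computed by any type 1 counterexample
computation with an oracle in `P`.
-/

namespace Pool.Agent.Lib.MP_2b5695_lc

/-- the feasible solutions of the hard problem -/
def CB (θ : Par) (x y : ℕ) : Prop := y = 0 ∨ (y ≤ x ∧ codeG x y ∈ (θ (codeG x y).length).1)

/-- program that decides the code of a pair, with verdicts `b` and `!b` -/
def progC (b : Bool) : Prog :=
  [.push 0 false 1,
   .pop 1 2 4 6,
   .push 0 false 3,
   .push 0 true 1,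
   .push 0 true 5,
   .push 0 true 1,
   .push 0 false 7,
   .query 0 8 9,
   .halt b,
   .halt (!b)]

theorem progC_loop (A : Set (List Bool)) (b : Bool) (good : Bool → List Bool → Prop) :
    ∀ (u w : List Bool) (stk : ℕ → List Bool), stk 0 = w → stk 1 = u →
      ((false :: (blk u.reverse ++ w)) ∈ A → ∀ s, good b s) →
      ((false :: (blk u.reverse ++ w)) ∉ A → ∀ s, good (!b) s) →
      Ensures (progC b) A noAdversary good (3 * u.length + 4) 1 stk
  | [], w, stk, h0, h1, hg1, hg2 => by
    refine ens_pop_nil rfl h1 (ens_push rfl (ens_query rfl ?_ ?_))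
    · intro h
      rw [Function.update_self, h0] at h
      exact ens_halt rfl (hg1 h _)
    · intro h
      rw [Function.update_self, h0] at h
      exact ens_halt rfl (hg2 h _)
  | a :: u, w, stk, h0, h1, hg1, hg2 => by
    have ih := progC_loop A b good u (true :: a :: w)
    have e : 3 * (a :: u).length + 4 = (3 * u.length + 4) + 1 + 1 + 1 := by
      simp only [List.length_cons]; ring
    rw [e]
    have hb : blk (a :: u).reverse ++ w = blk u.reverse ++ (true :: a :: w) := by
      simp [blk]
    rw [hb] at hg1 hg2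
    refine ens_pop_cons rfl h1 ?_
    cases a
    · refine ens_push rfl (ens_push rfl (ih _ ?_ ?_ hg1 hg2))
      · simp [Function.update_of_ne, h0]
      · simp [Function.update_of_ne]
    · refine ens_push rfl (ens_push rfl (ih _ ?_ ?_ hg1 hg2))
      · simp [Function.update_of_ne, h0]
      · simp [Function.update_of_ne]

theorem optB (F : Set (List Bool)) (θ : Par) : OptProblem (oraB F θ) 0 (CB θ) id := by
  refine ⟨fun x => Or.inl rfl, ?_, ?_, ?_⟩
  · rintro x y (rfl | ⟨h, -⟩)
    · exact Nat.zero_le _
    · exact h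
  · refine ⟨[.halt true], 1, fun y => ?_⟩
    rw [Polynomial.eval_one]
    refine ens_halt rfl ?_
    exact val_bits y
  · refine ⟨fun v => (false :: (blk (v.getD 1 []).reverse ++ false :: v.getD 0 [])) ∈ oraB F θ,
      ?_, ?_⟩
    · refine ⟨progC false, 3 * Polynomial.X + 5, fun v hv => ?_⟩
      have h0 : load v 0 = v.getD 0 [] := rfl
      have h1 : load v 1 = v.getD 1 [] := rfl
      have hl : (v.getD 1 []).length ≤ size v := load_length_le v 1
      refine Ensures.mono (fun _ _ h => h) (t := (3 * (v.getD 1 []).length + 4) + 1) ?_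
        (ens_push rfl (progC_loop _ false _ (v.getD 1 []) (false :: v.getD 0 []) _ ?_ ?_ ?_ ?_))
      · simp only [Polynomial.eval_add, Polynomial.eval_mul, Polynomial.eval_X,
          Polynomial.eval_ofNat]
        omega
      · simp [h0]
      · simp [Function.update_of_ne, h1]
      · intro h s
        simp only [Bool.false_eq_true, false_iff, not_not]
        exact h
      · intro h s
        simp only [Bool.not_false, true_iff]
        exact h
    · intro x y
      simp only [List.getD_cons_zero, List.getD_cons_succ]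
      rw [oraB_eq, false_mem_join]
      exact codeG_mem.symm

section game

variable (F : Set (List Bool)) (θ : Par) (n : ℕ)

/-- the part of the oracle determined by the information below `n` -/
def partD0 : Set (List Bool) :=
  {s | (∃ x y, s = codeG x y ∧ (y = 0 ∨ (y ≤ x ∧ s ∈ (θ s.length).1 ∧ s.length < n))) ∨
    ∃ j x k m, s = fit (ques j x k m).length
      ((θ (ques j x k m).length).2 (ques j x k m)) ++ ques j x k m ∧
      (ques j x k m).length < n ∧ holds j x k (cut (ques j x k m).length (oraB F θ))}

/-- codes of the solutions in `g` -/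
def codes (x : ℕ) (g : Finset ℕ) : Set (List Bool) := {s | ∃ y ∈ g, s = codeG x y}

/-- the world is compatible with positive information `g` and negative information `N` -/
structure Compat (x : ℕ) (θ'' : Par) (g : Finset ℕ) (N : Finset (List Bool)) : Prop where
  sub : ∀ s ∈ partD0 F θ n, s ∈ partG θ'' ∪ partC F θ''
  pos : ∀ y ∈ g, codeG x y ∈ partG θ'' ∪ partC F θ''
  neg : ∀ s ∈ N, s ∉ partG θ'' ∪ partC F θ''

variable {F θ n}

theorem Compat.anti {x : ℕ} {θ'' : Par} {g g' : Finset ℕ} {N N' : Finset (List Bool)}
    (h : Compat F θ n x θ'' g' N') (hg : g ⊆ g') (hN : N ⊆ N') : Compat F θ n x θ'' g N :=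
  ⟨h.sub, fun y hy => h.pos y (hg hy), fun s hs => h.neg s (hN hs)⟩

theorem exists_fresh (x μ : ℕ) (N : Finset (List Bool)) :
    ∃ z, μ < z ∧ z ≤ μ + N.card + 1 ∧ codeG x z ∉ N := by
  classical
  by_contra hcon
  push Not at hcon
  have h1 : ((Finset.Ioc μ (μ + N.card + 1)).image (codeG x)) ⊆ N := by
    intro s hs
    obtain ⟨z, hz, rfl⟩ := Finset.mem_image.1 hs
    rw [Finset.mem_Ioc] at hz
    exact hcon z hz.1 hz.2
  have h2 := Finset.card_le_card h1
  rw [Finset.card_image_of_injective _ (fun a b hab => (codeG_inj hab).2), Nat.card_Ioc] at h2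
  omega

theorem codeG_not_D0 {x y : ℕ} (hx : n < (Nat.bits x).length) (hy : y ≠ 0) :
    codeG x y ∉ partD0 F θ n := by
  rintro (⟨x', y', h1, h2⟩ | ⟨j, x', k, m, h1, -⟩)
  · obtain ⟨rfl, rfl⟩ := codeG_inj h1
    rcases h2 with h2 | ⟨-, -, h2⟩
    · exact hy h2
    · rw [codeG_length] at h2
      omega
  · exact codeG_ne_ques h1

theorem query_agree {x : ℕ} {Q : Prog} {q : Polynomial ℕ} {w : List Bool} {θ'' : Par}
    {g : Finset ℕ} {N : Finset (List Bool)} (hc : Compat F θ n x θ'' g N)
    (hN : ∀ v ∈ falsePart (qrs Q (join F (partD0 F θ n ∪ codes x g)) (q.eval (size [w])) 0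
      (load [w])), v ∉ partD0 F θ n ∪ codes x g → v ∈ N) :
    w ∈ decO Q q (oraB F θ'') ↔ w ∈ decO Q q (join F (partD0 F θ n ∪ codes x g)) := by
  have hout : out Q (oraB F θ'') (q.eval (size [w])) 0 (load [w]) =
      out Q (join F (partD0 F θ n ∪ codes x g)) (q.eval (size [w])) 0 (load [w]) := by
    refine out_congr _ _ _ fun s hs => ?_
    rw [oraB_eq]
    rcases s with _ | ⟨a, v⟩
    · simp
    · cases a
      · rw [false_mem_join, false_mem_join]
        constructor
        · rintro (h | ⟨y, hy, rfl⟩)
          · exact hc.sub v h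
          · exact hc.pos y hy
        · intro h
          by_contra hcon
          exact hc.neg v (hN v (mem_falsePart.2 hs) hcon) h
      · rw [true_mem_join, true_mem_join]
  unfold decO
  show sigE _ _ _ _ _ ↔ sigE _ _ _ _ _
  unfold sigE
  rw [hout]

theorem game {P Q : Prog} {q : Polynomial ℕ} {T κ Λ : ℕ}
    (hκ : κ = q.eval (n + 1 + T) + 1)
    (hΛ : Λ = 3 * (n + 1 + T) + 1 + q.eval (n + 1 + T))
    (hbig : (T + 1) * (T * κ + κ + 1) < 2 ^ n) :
    ∀ (t e : ℕ), e + t = T → ∀ (pc : ℕ) (stk : ℕ → List Bool) (g : Finset ℕ)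
      (N : Finset (List Bool)),
      (∀ s, (stk s).length ≤ n + 1 + e) → (∀ y ∈ g, 0 < y ∧ y ≤ e * (T * κ + κ + 1)) →
      N.card ≤ e * κ → (∀ s ∈ N, s.length ≤ Λ) → (∀ y ∈ g, codeG (2 ^ n) y ∉ N) →
      (∀ s ∈ N, s ∉ partD0 F θ n) →
      ∃ (g' : Finset ℕ) (N' : Finset (List Bool)), g ⊆ g' ∧ N ⊆ N' ∧
        (∀ y ∈ g', 0 < y ∧ y ≤ 2 ^ n) ∧ N'.card < 2 ^ n ∧ (∀ s ∈ N', s.length ≤ Λ) ∧
        (∀ y ∈ g', codeG (2 ^ n) y ∉ N') ∧ (∀ s ∈ N', s ∉ partD0 F θ n) ∧
        ∀ θ'' : Par, Compat F θ n (2 ^ n) θ'' g' N' →
          ¬ Ensures P (decO Q q (oraB F θ'')) (Answers (CB θ'') id (2 ^ n))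
            (fun _ w => Optimal (CB θ'') id (2 ^ n) (val w)) t pc stk := by
  classical
  have hbits : (Nat.bits (2 ^ n)).length = n + 1 := bits_two_pow n
  intro t
  induction t with
  | zero =>
    intro e he pc stk g N h1 h2 h3 h4 h5 h6
    have hle : e * κ ≤ T * κ := Nat.mul_le_mul_right _ (by omega)
    have hle2 : e * (T * κ + κ + 1) ≤ T * (T * κ + κ + 1) := Nat.mul_le_mul_right _ (by omega)
    refine ⟨g, N, Finset.Subset.refl _, Finset.Subset.refl _, fun y hy => ⟨(h2 y hy).1, ?_⟩, ?_,
      h4, h5, h6, fun θ'' _ h => h⟩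
    · have := (h2 y hy).2; nlinarith
    · nlinarith
  | succ t ih =>
    intro e he pc stk g N h1 h2 h3 h4 h5 h6
    have he' : (e + 1) + t = T := by omega
    have hleκ : e * κ ≤ T * κ := Nat.mul_le_mul_right _ (by omega)
    have hle2 : (e + 1) * (T * κ + κ + 1) ≤ T * (T * κ + κ + 1) :=
      Nat.mul_le_mul_right _ (by omega)
    have hexp : (e + 1) * (T * κ + κ + 1) = e * (T * κ + κ + 1) + (T * κ + κ + 1) := by ring
    have hexpT : (T + 1) * (T * κ + κ + 1) = T * (T * κ + κ + 1) + (T * κ + κ + 1) := by ring
    have hexpκ : (e + 1) * κ = e * κ + κ := by ring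
    have hκpos : 1 ≤ κ := by omega
    have h2' : ∀ y ∈ g, 0 < y ∧ y ≤ (e + 1) * (T * κ + κ + 1) :=
      fun y hy => ⟨(h2 y hy).1, by have := (h2 y hy).2; omega⟩
    -- a fresh better solution
    obtain ⟨z, hz1, hz2, hz3⟩ := exists_fresh (2 ^ n) (e * (T * κ + κ + 1)) N
    have hz2' : z ≤ (e + 1) * (T * κ + κ + 1) := by omega
    have hzx : z ≤ 2 ^ n := by omega
    have hg1 : ∀ y ∈ insert z g, 0 < y ∧ y ≤ (e + 1) * (T * κ + κ + 1) := by
      intro y hy
      rcases Finset.mem_insert.1 hy with rfl | hy
      · exact ⟨by omega, hz2'⟩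
      · exact h2' y hy
    have hd1 : ∀ y ∈ insert z g, codeG (2 ^ n) y ∉ N := by
      intro y hy
      rcases Finset.mem_insert.1 hy with rfl | hy
      · exact hz3
      · exact h5 y hy
    have hbetter : ∀ y, (y = 0 ∨ y ∈ g) → y < z := by
      rintro y (rfl | hy)
      · omega
      · have := (h2 y hy).2; omega
    -- forbidding a presented number
    have hforb : ∀ v : ℕ, v ≠ 0 → v ∉ g → (Nat.bits v).length ≤ n + 1 + T →
        (insert (codeG (2 ^ n) v) N).card ≤ (e + 1) * κ ∧
        (∀ s ∈ insert (codeG (2 ^ n) v) N, s.length ≤ Λ) ∧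
        (∀ y ∈ g, codeG (2 ^ n) y ∉ insert (codeG (2 ^ n) v) N) ∧
        (∀ s ∈ insert (codeG (2 ^ n) v) N, s ∉ partD0 F θ n) := by
      intro v hv0 hvg hvl
      refine ⟨?_, ?_, ?_, ?_⟩
      · have := Finset.card_insert_le (codeG (2 ^ n) v) N
        omega
      · intro s hs
        rcases Finset.mem_insert.1 hs with rfl | hs
        · rw [codeG_length, hbits]; omega
        · exact h4 s hs
      · intro y hy hcon
        rcases Finset.mem_insert.1 hcon with hcon | hcon
        · rw [(codeG_inj hcon).2] at hy
          exact hvg hy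
        · exact h5 y hy hcon
      · intro s hs
        rcases Finset.mem_insert.1 hs with rfl | hs
        · exact codeG_not_D0 (by omega) hv0
        · exact h6 s hs
    have fin : ∀ (g₁ : Finset ℕ) (N₁ : Finset (List Bool)),
        (∀ y ∈ g₁, 0 < y ∧ y ≤ (e + 1) * (T * κ + κ + 1)) → N₁.card ≤ (e + 1) * κ →
        (∀ y ∈ g₁, 0 < y ∧ y ≤ 2 ^ n) ∧ N₁.card < 2 ^ n := by
      intro g₁ N₁ a1 a2
      have : (e + 1) * κ ≤ T * κ := Nat.mul_le_mul_right _ (by omega)
      refine ⟨fun y hy => ⟨(a1 y hy).1, ?_⟩, ?_⟩
      · have := (a1 y hy).2; omega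
      · nlinarith
    have hN3 : N.card ≤ (e + 1) * κ := by omega
    cases hP : P[pc]? with
    | none =>
      obtain ⟨f1, f2⟩ := fin g N h2' hN3
      exact ⟨g, N, Finset.Subset.refl _, Finset.Subset.refl _, f1, f2, h4, h5, h6,
        fun θ'' _ h => by simp only [Ensures, hP] at h⟩
    | some ins =>
      cases ins with
      | push s b l =>
        have hl : ∀ s', (Function.update stk s (b :: stk s) s').length ≤ n + 1 + (e + 1) := by
          intro s'
          by_cases hs : s' = s
          · subst hs; rw [Function.update_self]; have := h1 s'; simp; omega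
          · rw [Function.update_of_ne hs]; have := h1 s'; omega
        obtain ⟨g', N', a1, a2, a3, a4, a5, a6, a7, a8⟩ := ih (e + 1) he' l
          (Function.update stk s (b :: stk s)) g N hl h2' hN3 h4 h5 h6
        refine ⟨g', N', a1, a2, a3, a4, a5, a6, a7, fun θ'' hc h => a8 θ'' hc ?_⟩
        simp only [Ensures, hP] at h
        exact h
      | pop s l₀ l₁ e₀ =>
        rcases hs : stk s with _ | ⟨b, w⟩
        · obtain ⟨g', N', a1, a2, a3, a4, a5, a6, a7, a8⟩ := ih (e + 1) he' e₀ stk g N
            (fun s' => by have := h1 s'; omega) h2' hN3 h4 h5 h6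
          refine ⟨g', N', a1, a2, a3, a4, a5, a6, a7, fun θ'' hc h => a8 θ'' hc ?_⟩
          simp only [Ensures, hP, hs] at h
          exact h
        · have hl : ∀ s', (Function.update stk s w s').length ≤ n + 1 + (e + 1) := by
            intro s'
            by_cases hs' : s' = s
            · subst hs'; rw [Function.update_self]; have := h1 s'; rw [hs] at this
              simp at this; omega
            · rw [Function.update_of_ne hs']; have := h1 s'; omega
          obtain ⟨g', N', a1, a2, a3, a4, a5, a6, a7, a8⟩ := ih (e + 1) he'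
            (if b then l₁ else l₀) (Function.update stk s w) g N hl h2' hN3 h4 h5 h6
          refine ⟨g', N', a1, a2, a3, a4, a5, a6, a7, fun θ'' hc h => a8 θ'' hc ?_⟩
          cases b <;> (simp only [Ensures, hP, hs] at h; simpa using h)
      | query s y' n' =>
        set w := stk s with hw
        have hwl : w.length ≤ n + 1 + T := by have := h1 s; rw [← hw] at this; omega
        have hsz : size [w] = w.length := by simp [size]
        have hqle := eval_mono q hwl
        set A := join F (partD0 F θ n ∪ codes (2 ^ n) g) with hA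
        set new := ((falsePart (qrs Q A (q.eval (size [w])) 0 (load [w]))).toFinset).filter
          (fun v => v ∉ partD0 F θ n ∪ codes (2 ^ n) g) with hnew
        have hnewcard : new.card ≤ κ := by
          have b1 := Finset.card_filter_le
            (falsePart (qrs Q A (q.eval (size [w])) 0 (load [w]))).toFinset
            (fun v => v ∉ partD0 F θ n ∪ codes (2 ^ n) g)
          have b2 := (falsePart (qrs Q A (q.eval (size [w])) 0 (load [w]))).toFinset_card_le
          have b3 := length_falsePart_le (qrs Q A (q.eval (size [w])) 0 (load [w]))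
          have b4 := qrs_length_le (P := Q) (A := A) (q.eval (size [w])) 0 (load [w])
          have b5 : q.eval (size [w]) + 1 ≤ κ := by rw [hκ, hsz]; omega
          rw [hnew]
          omega
        have hNN : ∀ s ∈ N ∪ new, s.length ≤ Λ ∧ s ∉ partD0 F θ n ∧
            ∀ y ∈ g, s ≠ codeG (2 ^ n) y := by
          intro s' hs'
          rcases Finset.mem_union.1 hs' with hs' | hs'
          · refine ⟨h4 s' hs', h6 s' hs', ?_⟩
            rintro y hy rfl
            exact h5 y hy hs'
          · rw [hnew, Finset.mem_filter, List.mem_toFinset, mem_falsePart] at hs'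
            obtain ⟨c1, c2⟩ := hs'
            have c3 := qrs_mem_length _ 0 (load [w]) (size [w]) (load_length_le _) _ c1
            rw [hsz] at c3
            simp only [List.length_cons] at c3
            refine ⟨by omega, fun h => c2 (Or.inl h), ?_⟩
            rintro y hy rfl
            exact c2 (Or.inr ⟨y, hy, rfl⟩)
        have hNc : (N ∪ new).card ≤ (e + 1) * κ := by
          have := Finset.card_union_le N new
          omega
        have hstk : ∀ s', (stk s').length ≤ n + 1 + (e + 1) := fun s' => by
          have := h1 s'; omega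
        have hag : ∀ (θ'' : Par) (g' : Finset ℕ) (N' : Finset (List Bool)), g ⊆ g' →
            N ∪ new ⊆ N' → Compat F θ n (2 ^ n) θ'' g' N' →
            (w ∈ decO Q q (oraB F θ'') ↔ w ∈ decO Q q A) := by
          intro θ'' g' N' b1 b2 hc
          refine query_agree (hc.anti b1 b2) fun v hv hv2 => ?_
          exact Finset.mem_union_right _ (Finset.mem_filter.2 ⟨List.mem_toFinset.2 hv, hv2⟩)
        by_cases hacc : w ∈ decO Q q A
        · obtain ⟨g', N', a1, a2, a3, a4, a5, a6, a7, a8⟩ := ih (e + 1) he' y' stk g (N ∪ new)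
            hstk h2' hNc (fun s hs => (hNN s hs).1)
            (fun y hy hcon => (hNN _ hcon).2.2 y hy rfl) (fun s hs => (hNN s hs).2.1)
          refine ⟨g', N', a1, Finset.union_subset_left a2, a3, a4, a5, a6, a7,
            fun θ'' hc h => a8 θ'' hc ?_⟩
          simp only [Ensures, hP] at h
          exact h.1 ((hag θ'' g' N' a1 a2 hc).2 hacc)
        · obtain ⟨g', N', a1, a2, a3, a4, a5, a6, a7, a8⟩ := ih (e + 1) he' n' stk g (N ∪ new)
            hstk h2' hNc (fun s hs => (hNN s hs).1)
            (fun y hy hcon => (hNN _ hcon).2.2 y hy rfl) (fun s hs => (hNN s hs).2.1)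
          refine ⟨g', N', a1, Finset.union_subset_left a2, a3, a4, a5, a6, a7,
            fun θ'' hc h => a8 θ'' hc ?_⟩
          simp only [Ensures, hP] at h
          exact h.2 (fun hh => hacc ((hag θ'' g' N' a1 a2 hc).1 hh))
      | present s y' n' =>
        set v := val (stk s) with hv
        have hvl : (Nat.bits v).length ≤ n + 1 + T := by
          have b1 := bits_val_length (stk s)
          have b2 := h1 s
          rw [hv]
          omega
        by_cases hvg : v = 0 ∨ v ∈ g
        · have hzl : (Nat.bits z).length ≤ n + 1 := by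
            rw [← hbits]; exact bits_length_mono hzx
          have hl : ∀ s', (Function.update stk s (Nat.bits z) s').length ≤ n + 1 + (e + 1) := by
            intro s'
            by_cases hs' : s' = s
            · subst hs'; rw [Function.update_self]; omega
            · rw [Function.update_of_ne hs']; have := h1 s'; omega
          obtain ⟨g', N', a1, a2, a3, a4, a5, a6, a7, a8⟩ := ih (e + 1) he' n'
            (Function.update stk s (Nat.bits z)) (insert z g) N hl hg1 hN3 h4 hd1 h6
          refine ⟨g', N', fun y hy => a1 (Finset.mem_insert_of_mem hy), a2, a3, a4, a5, a6, a7,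
            fun θ'' hc h => a8 θ'' hc ?_⟩
          simp only [Ensures, hP] at h
          refine h.2 z ⟨hzx, fun hB => ?_⟩
          rw [← hv] at hB
          have hlt := hbetter v hvg
          refine hB.2 hlt ?_
          exact codeG_mem.1 (hc.pos z (a1 (Finset.mem_insert_self _ _)))
        · push Not at hvg
          obtain ⟨k1, k2, k3, k4⟩ := hforb v hvg.1 hvg.2 hvl
          have hl : ∀ s', (Function.update stk s (Nat.bits 0) s').length ≤ n + 1 + (e + 1) := by
            intro s'
            by_cases hs' : s' = s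
            · subst hs'; rw [Function.update_self]; simp
            · rw [Function.update_of_ne hs']; have := h1 s'; omega
          obtain ⟨g', N', a1, a2, a3, a4, a5, a6, a7, a8⟩ := ih (e + 1) he' n'
            (Function.update stk s (Nat.bits 0)) g (insert (codeG (2 ^ n) v) N) hl
            h2' k1 k2 k3 k4
          refine ⟨g', N', a1, fun y hy => a2 (Finset.mem_insert_of_mem hy), a3, a4, a5, a6, a7,
            fun θ'' hc h => a8 θ'' hc ?_⟩
          simp only [Ensures, hP] at h
          refine h.2 0 ⟨Nat.zero_le _, fun hB => ?_⟩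
          rw [← hv] at hB
          exact hc.neg _ (a2 (Finset.mem_insert_self _ _)) (codeG_mem.2 hB.1)
      | halt b =>
        set v := val (stk 0) with hv
        have hvl : (Nat.bits v).length ≤ n + 1 + T := by
          have b1 := bits_val_length (stk 0)
          have b2 := h1 0
          rw [hv]
          omega
        by_cases hvg : v = 0 ∨ v ∈ g
        · obtain ⟨f1, f2⟩ := fin (insert z g) N hg1 hN3
          refine ⟨insert z g, N, Finset.subset_insert _ _, Finset.Subset.refl _, f1, f2, h4, hd1,
            h6, fun θ'' hc h => ?_⟩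
          simp only [Ensures, hP] at h
          have hz := h.2 z (codeG_mem.1 (hc.pos z (Finset.mem_insert_self _ _)))
          have hlt := hbetter v hvg
          simp only [id] at hz
          omega
        · push Not at hvg
          obtain ⟨k1, k2, k3, k4⟩ := hforb v hvg.1 hvg.2 hvl
          obtain ⟨f1, f2⟩ := fin g _ h2' k1
          refine ⟨g, insert (codeG (2 ^ n) v) N, Finset.Subset.refl _, Finset.subset_insert _ _,
            f1, f2, k2, k3, k4, fun θ'' hc h => ?_⟩
          simp only [Ensures, hP] at h
          exact hc.neg _ (Finset.mem_insert_self _ _) (codeG_mem.2 h.1)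

end game

end Pool.Agent.Lib.MP_2b5695_lc
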