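import Pool.Agent.Lib.MP_2b5695_lc.Model

/-!
Basic lemmas on the machine model.
-/

namespace Pool.Agent.Lib.MP_2b5695_lc

theorem val_bits (n : ℕ) : val (Nat.bits n) = n := by
  induction n using Nat.binaryRec' with
  | zero => simp [val]
  | bit b n h ih =>
    rw [Nat.bits_append_bit n b h]
    simp [val, ih]

theorem eval_mono (p : Polynomial ℕ) {a b : ℕ} (h : a ≤ b) : p.eval a ≤ p.eval b := by
  induction p using Polynomial.induction_on' with
  | add p q hp hq => simpa using Nat.add_le_add hp hq
  | monomial n c =>
    simp only [Polynomial.eval_monomial]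
    exact Nat.mul_le_mul_left _ (Nat.pow_le_pow_left h n)

section steps

variable {P : Prog} {O : Set (List Bool)} {Adv : ℕ → Option ℕ → Prop}
  {good : Bool → List Bool → Prop} {t pc : ℕ} {stk : ℕ → List Bool}

theorem ens_halt {b : Bool} (h : P[pc]? = some (.halt b)) (hg : good b (stk 0)) :
    Ensures P O Adv good (t + 1) pc stk := by
  simp only [Ensures, h]; exact hg

theorem ens_push {s l : ℕ} {b : Bool} (h : P[pc]? = some (.push s b l))
    (hg : Ensures P O Adv good t l (Function.update stk s (b :: stk s))) :
    Ensures P O Adv good (t + 1) pc stk := by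
  simp only [Ensures, h]; exact hg

theorem ens_pop_nil {s l₀ l₁ e : ℕ} (h : P[pc]? = some (.pop s l₀ l₁ e)) (hs : stk s = [])
    (hg : Ensures P O Adv good t e stk) :
    Ensures P O Adv good (t + 1) pc stk := by
  simp only [Ensures, h, hs]; exact hg

theorem ens_pop_cons {s l₀ l₁ e : ℕ} {b : Bool} {w : List Bool}
    (h : P[pc]? = some (.pop s l₀ l₁ e)) (hs : stk s = b :: w)
    (hg : Ensures P O Adv good t (if b then l₁ else l₀) (Function.update stk s w)) :
    Ensures P O Adv good (t + 1) pc stk := by
  cases b <;> (simp only [Ensures, h, hs]; simpa using hg)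

theorem ens_query {s y n : ℕ} (h : P[pc]? = some (.query s y n))
    (h1 : stk s ∈ O → Ensures P O Adv good t y stk)
    (h2 : stk s ∉ O → Ensures P O Adv good t n stk) :
    Ensures P O Adv good (t + 1) pc stk := by
  simp only [Ensures, h]; exact ⟨h1, h2⟩

theorem ens_present {s y n : ℕ} (h : P[pc]? = some (.present s y n))
    (h1 : Adv (val (stk s)) none → Ensures P O Adv good t y stk)
    (h2 : ∀ z, Adv (val (stk s)) (some z) →
      Ensures P O Adv good t n (Function.update stk s (Nat.bits z))) :
    Ensures P O Adv good (t + 1) pc stk := by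
  simp only [Ensures, h]; exact ⟨h1, h2⟩

end steps

theorem Ensures.mono {P : Prog} {O : Set (List Bool)} {Adv : ℕ → Option ℕ → Prop}
    {good good' : Bool → List Bool → Prop} (hgg : ∀ b w, good b w → good' b w) :
    ∀ {t t' : ℕ} (_ : t ≤ t') {pc : ℕ} {stk : ℕ → List Bool},
      Ensures P O Adv good t pc stk → Ensures P O Adv good' t' pc stk
  | 0, _, _, _, _, h => h.elim
  | t + 1, 0, hle, _, _, _ => absurd hle (by omega)
  | t + 1, t' + 1, hle, pc, stk, h => by
    have hle' : t ≤ t' := by omega
    have ih : ∀ {pc : ℕ} {stk : ℕ → List Bool},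
      Ensures P O Adv good t pc stk → Ensures P O Adv good' t' pc stk :=
      fun {pc} {stk} => Ensures.mono hgg hle'
    unfold Ensures at h ⊢
    cases hP : P[pc]? with
    | none => rw [hP] at h; exact h
    | some ins =>
      rw [hP] at h
      cases ins with
      | push s b l => exact ih h
      | pop s l₀ l₁ e =>
        dsimp only at h ⊢
        cases hs : stk s with
        | nil => rw [hs] at h; exact ih h
        | cons b w =>
          rw [hs] at h
          cases b
          · exact ih h
          · exact ih h
      | query s y n => exact ⟨fun hh => ih (h.1 hh), fun hh => ih (h.2 hh)⟩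
      | present s y n => exact ⟨fun hh => ih (h.1 hh), fun z hh => ih (h.2 z hh)⟩
      | halt b => exact hgg _ _ h

end Pool.Agent.Lib.MP_2b5695_lc
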