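import Pool.Agent.Lib.MP_2b5695_lc.Model

/-!
The random oracle, and conditional probabilities given finitely many values.
-/

namespace Pool.Agent.Lib.MP_2b5695_lc

open MeasureTheory

/-- The random oracle: a word belongs to it with probability `1/2`, independently of the other
words. -/
noncomputable def coin : Measure (List Bool → Bool) :=
  Measure.infinitePi fun _ => (PMF.uniformOfFintype Bool).toMeasure

instance : IsProbabilityMeasure coin := by
  unfold coin; infer_instance

/-- the oracles that agree with `v` on `d` -/
def Zc (d : Finset (List Bool)) (v : List Bool → Bool) : Set (List Bool → Bool) :=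
  {ω | ∀ i ∈ d, ω i = v i}

theorem coin_Zc (d : Finset (List Bool)) (v : List Bool → Bool) :
    coin.real (Zc d v) = (1 / 2) ^ d.card := by
  have h1 : Zc d v = Set.pi (d : Set (List Bool)) fun i => {v i} := by
    ext ω; simp [Zc, Set.mem_pi]
  have h2 : coin (Zc d v) = (1 / 2) ^ d.card := by
    rw [h1, coin, Measure.infinitePi_pi _ (fun i _ => measurableSet_singleton _)]
    have : ∀ i ∈ d, (PMF.uniformOfFintype Bool).toMeasure {v i} = 1 / 2 := by
      intro i _
      rw [PMF.toMeasure_apply_singleton _ _ (measurableSet_singleton _)]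
      simp
    rw [Finset.prod_congr rfl this, Finset.prod_const]
  rw [Measure.real, h2]
  simp

/-- conditional (outer) probability of `S` given the values `v` on `d` -/
noncomputable def pr (d : Finset (List Bool)) (v : List Bool → Bool)
    (S : Set (List Bool → Bool)) : ℝ := 2 ^ d.card * coin.real (S ∩ Zc d v)

theorem pr_mono {d : Finset (List Bool)} {v : List Bool → Bool} {S S' : Set (List Bool → Bool)}
    (h : S ∩ Zc d v ⊆ S') : pr d v S ≤ pr d v S' := by
  unfold pr
  refine mul_le_mul_of_nonneg_left (measureReal_mono ?_) (by positivity)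
  exact fun ω hω => ⟨h hω, hω.2⟩

theorem pr_le_one (d : Finset (List Bool)) (v : List Bool → Bool)
    (S : Set (List Bool → Bool)) : pr d v S ≤ 1 := by
  have h1 : pr d v S ≤ 2 ^ d.card * coin.real (Zc d v) := by
    unfold pr
    exact mul_le_mul_of_nonneg_left (measureReal_mono Set.inter_subset_right) (by positivity)
  rw [coin_Zc] at h1
  refine h1.trans (le_of_eq ?_)
  rw [← mul_pow]; norm_num

theorem pr_nonneg (d : Finset (List Bool)) (v : List Bool → Bool)
    (S : Set (List Bool → Bool)) : 0 ≤ pr d v S := by
  unfold pr; positivity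

theorem pr_empty {d : Finset (List Bool)} {v : List Bool → Bool} {S : Set (List Bool → Bool)}
    (h : S ∩ Zc d v ⊆ ∅) : pr d v S = 0 := by
  unfold pr
  rw [Set.subset_empty_iff.1 h]
  simp

theorem pr_split {d : Finset (List Bool)} {v : List Bool → Bool} {S : Set (List Bool → Bool)}
    {c : List Bool} (hc : c ∉ d) :
    pr d v S ≤ (pr (insert c d) (Function.update v c true) S +
      pr (insert c d) (Function.update v c false) S) / 2 := by
  have hsub : S ∩ Zc d v ⊆ (S ∩ Zc (insert c d) (Function.update v c true)) ∪
      (S ∩ Zc (insert c d) (Function.update v c false)) := by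
    rintro ω ⟨h1, h2⟩
    have key : ∀ b, ω c = b → ω ∈ Zc (insert c d) (Function.update v c b) := by
      intro b hb i hi
      rcases Finset.mem_insert.1 hi with rfl | hi'
      · rw [Function.update_self, hb]
      · have : i ≠ c := fun h => hc (h ▸ hi')
        rw [Function.update_of_ne this]
        exact h2 i hi'
    rcases hb : ω c with _ | _
    · exact Or.inr ⟨h1, key _ hb⟩
    · exact Or.inl ⟨h1, key _ hb⟩
  have h3 := (measureReal_mono hsub (μ := coin)).trans (measureReal_union_le _ _)
  unfold pr
  rw [Finset.card_insert_of_notMem hc, pow_succ]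
  have : (0 : ℝ) < 2 ^ d.card := by positivity
  nlinarith

/-- reveal a list of cells, with the same bound in all cases -/
theorem pr_reveal {S : Set (List Bool → Bool)} {β : ℝ} :
    ∀ (l : List (List Bool)) (d : Finset (List Bool)) (v : List Bool → Bool),
      l.Nodup → (∀ c ∈ l, c ∉ d) →
      (∀ v' : List Bool → Bool, (∀ i, i ∉ l → v' i = v i) →
        pr (d ∪ l.toFinset) v' S ≤ β) → pr d v S ≤ β
  | [], d, v, _, _, h => by simpa using h v (fun _ _ => rfl)
  | c :: l, d, v, hl, hd, h => by
    have hc : c ∉ d := hd c (by simp)
    obtain ⟨hcl, hl'⟩ := List.nodup_cons.1 hl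
    have step : ∀ b, pr (insert c d) (Function.update v c b) S ≤ β := by
      intro b
      refine pr_reveal l _ _ hl' (fun c' hc' hmem => ?_) (fun v' hv' => ?_)
      · rcases Finset.mem_insert.1 hmem with rfl | hmem
        · exact hcl hc'
        · exact hd c' (by simp [hc']) hmem
      · have e : insert c d ∪ l.toFinset = d ∪ (c :: l).toFinset := by
          ext i; simp only [Finset.mem_union, Finset.mem_insert, List.mem_toFinset,
            List.mem_cons]; tauto
        rw [e]
        refine h v' fun i hi => ?_
        have h1 : i ∉ l := fun hh => hi (by simp [hh])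
        have h2 : i ≠ c := by rintro rfl; exact hi (by simp)
        rw [hv' i h1, Function.update_of_ne h2]
    have h1 := pr_split (S := S) (v := v) hc
    have h2 := step true
    have h3 := step false
    linarith

/-- reveal a list of cells; a special bound if all values are `true` -/
theorem pr_group {S : Set (List Bool → Bool)} {b₁ b₂ : ℝ} :
    ∀ (l : List (List Bool)) (d : Finset (List Bool)) (v : List Bool → Bool),
      l.Nodup → (∀ c ∈ l, c ∉ d) →
      (∀ v' : List Bool → Bool, (∀ i, i ∉ l → v' i = v i) → (∀ c ∈ l, v' c = true) →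
        pr (d ∪ l.toFinset) v' S ≤ b₁) →
      (∀ v' : List Bool → Bool, (∀ i, i ∉ l → v' i = v i) → (∃ c ∈ l, v' c = false) →
        pr (d ∪ l.toFinset) v' S ≤ b₂) →
      pr d v S ≤ (1 / 2) ^ l.length * b₁ + (1 - (1 / 2) ^ l.length) * b₂
  | [], d, v, _, _, h, _ => by simpa using h v (fun _ _ => rfl) (by simp)
  | c :: l, d, v, hl, hd, h, h' => by
    have hc : c ∉ d := hd c (by simp)
    obtain ⟨hcl, hl'⟩ := List.nodup_cons.1 hl
    have e : insert c d ∪ l.toFinset = d ∪ (c :: l).toFinset := by
      ext i; simp only [Finset.mem_union, Finset.mem_insert, List.mem_toFinset,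
        List.mem_cons]; tauto
    have hdl : ∀ c' ∈ l, c' ∉ insert c d := by
      intro c' hc' hmem
      rcases Finset.mem_insert.1 hmem with rfl | hmem
      · exact hcl hc'
      · exact hd c' (by simp [hc']) hmem
    have hag : ∀ (b : Bool) (v' : List Bool → Bool),
        (∀ i, i ∉ l → v' i = Function.update v c b i) → ∀ i, i ∉ c :: l → v' i = v i := by
      intro b v' hv' i hi
      have h1 : i ∉ l := fun hh => hi (by simp [hh])
      have h2 : i ≠ c := by rintro rfl; exact hi (by simp)
      rw [hv' i h1, Function.update_of_ne h2]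
    have ht : pr (insert c d) (Function.update v c true) S ≤
        (1 / 2) ^ l.length * b₁ + (1 - (1 / 2) ^ l.length) * b₂ := by
      refine pr_group l _ _ hl' hdl (fun v' hv' hall => ?_) (fun v' hv' hex => ?_)
      · rw [e]
        refine h v' (hag true v' hv') fun c' hc' => ?_
        rcases List.mem_cons.1 hc' with rfl | hc'
        · rw [hv' _ hcl, Function.update_self]
        · exact hall c' hc'
      · rw [e]
        obtain ⟨c', hc', hf⟩ := hex
        exact h' v' (hag true v' hv') ⟨c', by simp [hc'], hf⟩
    have hf : pr (insert c d) (Function.update v c false) S ≤ b₂ := by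
      refine pr_reveal l _ _ hl' hdl fun v' hv' => ?_
      rw [e]
      exact h' v' (hag false v' hv') ⟨c, by simp, by rw [hv' _ hcl, Function.update_self]⟩
    have h1 := pr_split (S := S) (v := v) hc
    rw [List.length_cons, pow_succ]
    nlinarith

end Pool.Agent.Lib.MP_2b5695_lc
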