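import Pool.Agent.Lib.MP_2b5695_lc.Data

/-!
Tree combinators, and the oracle for searching.
-/

namespace Pool.Agent.Lib.MP_2b5695_lc

section trees

variable {D : Set (List Bool)} {Adv : ℕ → Option ℕ → Prop} {good : Bool → List Bool → Prop}

/-- write `s` on top of the buffer -/
def write : List Bool → Tree → Tree
  | [], t => t
  | b :: s, t => write s (.push b t)

theorem write_ens : ∀ {t : Tree} {n : ℕ} (s buf : List Bool),
    Tree.Ens D Adv good n t (s ++ buf) → Tree.Ens D Adv good (n + s.length) (write s t) buf
  | _, _, [], _, h => h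
  | t, n, b :: s, buf, h => by
    have h1 : Tree.Ens D Adv good (n + 1) (.push b t) (s ++ buf) := h
    have := write_ens s buf h1
    rw [List.length_cons, add_comm s.length 1, ← add_assoc]
    exact this

/-- remove `k` bits from the buffer -/
def dropT : ℕ → Tree → Tree
  | 0, t => t
  | k + 1, t => .pop fun _ => dropT k t

theorem dropT_ens {t : Tree} {n : ℕ} : ∀ (s buf : List Bool),
    Tree.Ens D Adv good n t buf → Tree.Ens D Adv good (n + s.length) (dropT s.length t) (s ++ buf)
  | [], _, h => h
  | _ :: s, buf, h => dropT_ens s buf h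

theorem dropT_ens' {t : Tree} {n k : ℕ} (s : List Bool) (hk : s.length = k)
    (h : Tree.Ens D Adv good n t []) : Tree.Ens D Adv good (n + k) (dropT k t) s := by
  subst hk
  have := dropT_ens s [] h
  rwa [List.append_nil] at this

/-- read and empty the buffer -/
def readAll : ℕ → List Bool → (List Bool → Tree) → Tree
  | 0, acc, f => f acc.reverse
  | m + 1, acc, f => .pop fun o => match o with
    | none => f acc.reverse
    | some b => readAll m (b :: acc) f

theorem readAll_ens {f : List Bool → Tree} {n : ℕ} : ∀ (m : ℕ) (s acc : List Bool),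
    s.length < m → Tree.Ens D Adv good n (f (acc.reverse ++ s)) [] →
    Tree.Ens D Adv good (n + s.length + 1) (readAll m acc f) s
  | 0, s, acc, hm, _ => absurd hm (by omega)
  | m + 1, [], acc, hm, h => by
    rw [List.append_nil] at h
    exact h
  | m + 1, b :: s, acc, hm, h => by
    have ih := readAll_ens (f := f) (n := n) m s (b :: acc)
      (by simp only [List.length_cons] at hm; omega)
      (by simpa using h)
    exact ih

end trees

/-- the join of two oracles -/
def join (E D : Set (List Bool)) : Set (List Bool) :=
  {w | ∃ v, (w = true :: v ∧ v ∈ E) ∨ (w = false :: v ∧ v ∈ D)}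

@[simp] theorem true_mem_join {E D : Set (List Bool)} {w : List Bool} :
    (true :: w) ∈ join E D ↔ w ∈ E := by
  simp [join]

@[simp] theorem false_mem_join {E D : Set (List Bool)} {w : List Bool} :
    (false :: w) ∈ join E D ↔ w ∈ D := by
  simp [join]

@[simp] theorem nil_mem_join {E D : Set (List Bool)} : [] ∉ join E D := by
  simp [join]

/-- words that have an extension (at the front) in `D` by a word that is not much longer -/
def searchSet (D : Set (List Bool)) : Set (List Bool) :=
  {w | ∃ u : List Bool, u.length ≤ w.length + 1 ∧ (u.reverse ++ w) ∈ D}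

/-- the matrix of the search oracle -/
def relR (A : Set (List Bool)) (v : List (List Bool)) : Prop :=
  match v.getD 0 [] with
  | [] => False
  | true :: w => (true :: w) ∈ A
  | false :: w => (false :: ((v.getD 1 []).reverse ++ w)) ∈ A

/-- a program for `relR`, with verdicts `b` and `!b` -/
def progR (b : Bool) : Prog :=
  [.pop 0 1 4 8,
   .pop 1 2 3 5,
   .push 0 false 1,
   .push 0 true 1,
   .push 0 true 6,
   .push 0 false 6,
   .query 0 7 8,
   .halt b,
   .halt (!b)]

theorem progR_loop (A : Set (List Bool)) (b : Bool) (good : Bool → List Bool → Prop) :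
    ∀ (u w : List Bool) (stk : ℕ → List Bool), stk 0 = w → stk 1 = u →
      ((false :: (u.reverse ++ w)) ∈ A → ∀ s, good b s) →
      ((false :: (u.reverse ++ w)) ∉ A → ∀ s, good (!b) s) →
      Ensures (progR b) A noAdversary good (2 * u.length + 4) 1 stk
  | [], w, stk, h0, h1, hg1, hg2 => by
    refine ens_pop_nil rfl h1 (ens_push rfl (ens_query rfl ?_ ?_))
    · intro h
      rw [Function.update_self, h0] at h
      exact ens_halt rfl (hg1 h _)
    · intro h
      rw [Function.update_self, h0] at h
      exact ens_halt rfl (hg2 h _)
  | a :: u, w, stk, h0, h1, hg1, hg2 => by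
    have ih := progR_loop A b good u (a :: w)
    have e : 2 * (a :: u).length + 4 = (2 * u.length + 4) + 1 + 1 := by
      simp only [List.length_cons]; ring
    rw [e]
    refine ens_pop_cons rfl h1 ?_
    simp only [List.reverse_cons, List.append_assoc, List.cons_append, List.nil_append]
      at hg1 hg2
    cases a
    · refine ens_push rfl (ih _ ?_ ?_ hg1 hg2)
      · simp [Function.update_of_ne, h0]
      · simp [Function.update_of_ne]
    · refine ens_push rfl (ih _ ?_ ?_ hg1 hg2)
      · simp [Function.update_of_ne, h0]
      · simp [Function.update_of_ne]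

theorem progR_run (A : Set (List Bool)) (b : Bool) (good : Bool → List Bool → Prop)
    (v : List (List Bool)) (hg1 : relR A v → ∀ s, good b s) (hg2 : ¬ relR A v → ∀ s, good (!b) s) :
    Ensures (progR b) A noAdversary good (2 * (v.getD 1 []).length + 6) 0 (load v) := by
  have h0 : load v 0 = v.getD 0 [] := rfl
  have h1 : load v 1 = v.getD 1 [] := rfl
  rcases hw : v.getD 0 [] with _ | ⟨a, w⟩
  · rw [hw] at h0
    refine ens_pop_nil rfl h0 (ens_halt rfl (hg2 ?_ _))
    unfold relR; rw [hw]; exact id
  · rw [hw] at h0
    refine ens_pop_cons rfl h0 ?_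
    cases a
    · have hr : relR A v ↔ (false :: ((v.getD 1 []).reverse ++ w)) ∈ A := by
        unfold relR; rw [hw]
      refine Ensures.mono (fun _ _ h => h) ?_ (progR_loop A b good (v.getD 1 []) w _ ?_ ?_ ?_ ?_)
      · omega
      · simp
      · simp [Function.update_of_ne, h1]
      · exact fun h => hg1 (hr.2 h)
      · exact fun h => hg2 fun hh => h (hr.1 hh)
    · have hr : relR A v ↔ (true :: w) ∈ A := by
        unfold relR; rw [hw]
      refine ens_push rfl (ens_query rfl ?_ ?_)
      · intro h
        simp only [Function.update_self] at h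
        exact ens_halt rfl (hg1 (hr.2 h) _)
      · intro h
        simp only [Function.update_self] at h
        exact ens_halt rfl (hg2 (fun hh => h (hr.1 hh)) _)

theorem relR_inP (A : Set (List Bool)) (r : ℕ) :
    InP A r (relR A) ∧ InP A r (fun v => ¬ relR A v) := by
  have hlen : ∀ v : List (List Bool), (v.getD 1 []).length ≤ size v := by
    intro v
    exact load_length_le v 1
  constructor
  · refine ⟨progR true, 2 * Polynomial.X + 6, fun v hv => ?_⟩
    refine Ensures.mono (fun _ _ h => h) ?_ (progR_run A true _ v (fun h s => ?_) fun h s => ?_)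
    · have := hlen v
      simp only [Polynomial.eval_add, Polynomial.eval_mul, Polynomial.eval_X,
        Polynomial.eval_ofNat]
      omega
    · simp [h]
    · simp [h]
  · refine ⟨progR false, 2 * Polynomial.X + 6, fun v hv => ?_⟩
    refine Ensures.mono (fun _ _ h => h) ?_ (progR_run A false _ v (fun h s => ?_) fun h s => ?_)
    · have := hlen v
      simp only [Polynomial.eval_add, Polynomial.eval_mul, Polynomial.eval_X,
        Polynomial.eval_ofNat]
      omega
    · simp [h]
    · simp [h]

theorem relR_append {A : Set (List Bool)} {v : List (List Bool)} (hv : 2 ≤ v.length)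
    (u : List Bool) : relR A (v ++ [u]) ↔ relR A v := by
  have h0 : (v ++ [u]).getD 0 [] = v.getD 0 [] := by
    rw [List.getD_append _ _ _ _ (by omega)]
  have h1 : (v ++ [u]).getD 1 [] = v.getD 1 [] := by
    rw [List.getD_append _ _ _ _ (by omega)]
  unfold relR
  rw [h0, h1]

theorem relR_inSigma (A : Set (List Bool)) : ∀ (i : ℕ) {r : ℕ} (_ : 2 ≤ r),
    InSigma A i r (relR A) ∧ InSigma A i r (fun v => ¬ relR A v)
  | 0, r, _ => relR_inP A r
  | i + 1, r, hr => by
    have ih := relR_inSigma A i (r := r + 1) (by omega)
    constructor
    · refine ⟨_, 0, ih.2, fun v hv => ?_⟩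
      constructor
      · intro h
        exact ⟨[], by simp, by rw [not_not]; exact (relR_append (by omega) _).2 h⟩
      · rintro ⟨u, -, h⟩
        rw [not_not] at h
        exact (relR_append (by omega) _).1 h
    · refine ⟨_, 0, ih.1, fun v hv => ?_⟩
      constructor
      · intro h
        exact ⟨[], by simp, fun hh => h ((relR_append (by omega) _).1 hh)⟩
      · rintro ⟨u, -, h⟩ hh
        exact h ((relR_append (by omega) _).2 hh)

/-- the search oracle belongs to all `Σ_{i+1}^p` -/
theorem search_inSigma (E D : Set (List Bool)) (i : ℕ) :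
    InSigma (join E D) (i + 1) 1 (fun v => ∃ w ∈ join E (searchSet D), v = [w]) := by
  refine ⟨_, Polynomial.X, (relR_inSigma (join E D) i (r := 2) le_rfl).2, fun v hv => ?_⟩
  obtain ⟨w, rfl⟩ : ∃ w, v = [w] := List.length_eq_one_iff.1 hv
  have hs : (Polynomial.X : Polynomial ℕ).eval (size [w]) = w.length := by simp [size]
  rw [hs]
  simp only [not_not]
  constructor
  · rintro ⟨w', hw', h⟩
    obtain rfl : w = w' := by simpa using h
    rcases w with _ | ⟨a, w⟩
    · exact absurd hw' nil_mem_join
    · cases a
      · rw [false_mem_join] at hw'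
        obtain ⟨u, h1, h2⟩ := hw'
        refine ⟨u, by simpa using h1, ?_⟩
        simp only [relR, List.cons_append, List.nil_append, List.getD_cons_zero,
          List.getD_cons_succ, false_mem_join]
        exact h2
      · rw [true_mem_join] at hw'
        refine ⟨[], by simp, ?_⟩
        simp only [relR, List.cons_append, List.nil_append, List.getD_cons_zero, true_mem_join]
        exact hw'
  · rintro ⟨u, h1, h2⟩
    refine ⟨w, ?_, rfl⟩
    rcases w with _ | ⟨a, w⟩
    · simp [relR] at h2
    · cases a
      · simp only [relR, List.cons_append, List.nil_append, List.getD_cons_zero,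
          List.getD_cons_succ, false_mem_join] at h2
        rw [false_mem_join]
        exact ⟨u, by simpa using h1, h2⟩
      · simp only [relR, List.cons_append, List.nil_append, List.getD_cons_zero,
          true_mem_join] at h2
        rw [true_mem_join]
        exact h2

/-- every oracle is in `P` relative to itself -/
theorem self_inSigma (A : Set (List Bool)) : InSigma A 0 1 (fun v => ∃ w ∈ A, v = [w]) := by
  refine ⟨[.query 0 1 2, .halt true, .halt false], 2, fun v hv => ?_⟩
  obtain ⟨w, rfl⟩ : ∃ w, v = [w] := List.length_eq_one_iff.1 hv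
  have hs : (2 : Polynomial ℕ).eval (size [w]) = 1 + 1 := by
    have : (2 : Polynomial ℕ) = Polynomial.C 2 := rfl
    rw [this, Polynomial.eval_C]
  rw [hs]
  have hl : load [w] 0 = w := rfl
  refine ens_query rfl ?_ ?_
  · intro h
    rw [hl] at h
    exact ens_halt rfl (by simpa using h)
  · intro h
    rw [hl] at h
    exact ens_halt rfl (by simpa using h)

end Pool.Agent.Lib.MP_2b5695_lc
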