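import Pool.Agent.Lib.MP_2b5695_lc.Drive

/-!
Deterministic runs: outcome, list of queries, dependence on the oracle; a countable family of
codes for all relativised optimization problems.
-/

namespace Pool.Agent.Lib.MP_2b5695_lc

open Classical in
/-- outcome (verdict, stack 0) of an ordinary computation -/
noncomputable def out (P : Prog) (A : Set (List Bool)) :
    ℕ → ℕ → (ℕ → List Bool) → Option (Bool × List Bool)
  | 0, _, _ => none
  | t + 1, pc, stk =>
    match P[pc]? with
    | none => none
    | some (.halt b) => some (b, stk 0)
    | some (.push s b l) => out P A t l (Function.update stk s (b :: stk s))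
    | some (.pop s l₀ l₁ e) =>
      match stk s with
      | [] => out P A t e stk
      | false :: w => out P A t l₀ (Function.update stk s w)
      | true :: w => out P A t l₁ (Function.update stk s w)
    | some (.query s y n) => out P A t (if stk s ∈ A then y else n) stk
    | some (.present _ y _) => out P A t y stk

open Classical in
/-- the queries of an ordinary computation -/
noncomputable def qrs (P : Prog) (A : Set (List Bool)) :
    ℕ → ℕ → (ℕ → List Bool) → List (List Bool)
  | 0, _, _ => []
  | t + 1, pc, stk =>
    match P[pc]? with
    | none => []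
    | some (.halt _) => []
    | some (.push s b l) => qrs P A t l (Function.update stk s (b :: stk s))
    | some (.pop s l₀ l₁ e) =>
      match stk s with
      | [] => qrs P A t e stk
      | false :: w => qrs P A t l₀ (Function.update stk s w)
      | true :: w => qrs P A t l₁ (Function.update stk s w)
    | some (.query s y n) => stk s :: qrs P A t (if stk s ∈ A then y else n) stk
    | some (.present _ y _) => qrs P A t y stk

theorem ensures_iff_out {P : Prog} {A : Set (List Bool)} {good : Bool → List Bool → Prop} :
    ∀ (t pc : ℕ) (stk : ℕ → List Bool), Ensures P A noAdversary good t pc stk ↔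
      ∃ r, out P A t pc stk = some r ∧ good r.1 r.2
  | 0, pc, stk => by simp [Ensures, out]
  | t + 1, pc, stk => by
    have ih := fun pc stk => ensures_iff_out (P := P) (A := A) (good := good) t pc stk
    unfold Ensures out
    cases hP : P[pc]? with
    | none => simp
    | some ins =>
      cases ins with
      | push s b l => exact ih _ _
      | pop s l₀ l₁ e =>
        dsimp only
        cases hs : stk s with
        | nil => exact ih _ _
        | cons b w => cases b <;> exact ih _ _
      | query s y n =>
        dsimp only
        by_cases h : stk s ∈ A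
        · simp only [h, not_true_eq_false, false_imp_iff, and_true, true_imp_iff, if_true]
          exact ih _ _
        · simp only [h, not_false_eq_true, false_imp_iff, true_and, true_imp_iff, if_false]
          exact ih _ _
      | present s y n =>
        simp only [noAdversary]
        constructor
        · rintro ⟨h, -⟩
          exact (ih _ _).1 (h trivial)
        · intro h
          exact ⟨fun _ => (ih _ _).2 h, fun z hz => absurd hz (by simp)⟩
      | halt b => simp

theorem out_congr {P : Prog} {A A' : Set (List Bool)} :
    ∀ (t pc : ℕ) (stk : ℕ → List Bool), (∀ q ∈ qrs P A t pc stk, (q ∈ A ↔ q ∈ A')) →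
      out P A' t pc stk = out P A t pc stk
  | 0, pc, stk, _ => rfl
  | t + 1, pc, stk, h => by
    have ih := fun pc stk => out_congr (P := P) (A := A) (A' := A') t pc stk
    unfold out
    unfold qrs at h
    cases hP : P[pc]? with
    | none => rfl
    | some ins =>
      rw [hP] at h
      cases ins with
      | push s b l => exact ih _ _ h
      | pop s l₀ l₁ e =>
        dsimp only at h ⊢
        cases hs : stk s with
        | nil => rw [hs] at h; exact ih _ _ h
        | cons b w =>
          rw [hs] at h
          cases b
          · exact ih _ _ h
          · exact ih _ _ h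
      | query s y n =>
        dsimp only at h ⊢
        have h1 := h (stk s) (by simp)
        by_cases hA : stk s ∈ A
        · rw [if_pos hA, if_pos (h1.1 hA)]
          exact ih _ _ fun q hq => h q (by simp [hA, hq])
        · rw [if_neg hA, if_neg (fun hh => hA (h1.2 hh))]
          exact ih _ _ fun q hq => h q (by simp [hA, hq])
      | present s y n => exact ih _ _ h
      | halt b => rfl

theorem qrs_length_le {P : Prog} {A : Set (List Bool)} :
    ∀ (t pc : ℕ) (stk : ℕ → List Bool), (qrs P A t pc stk).length ≤ t
  | 0, pc, stk => by simp [qrs]
  | t + 1, pc, stk => by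
    have ih := fun pc stk => qrs_length_le (P := P) (A := A) t pc stk
    unfold qrs
    cases hP : P[pc]? with
    | none => simp
    | some ins =>
      cases ins with
      | push s b l => exact (ih _ _).trans (by omega)
      | pop s l₀ l₁ e =>
        dsimp only
        cases hs : stk s with
        | nil => exact (ih _ _).trans (by omega)
        | cons b w =>
          cases b
          · exact (ih _ _).trans (by omega)
          · exact (ih _ _).trans (by omega)
      | query s y n =>
        simp only [List.length_cons]
        exact Nat.add_le_add_right (ih _ _) 1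
      | present s y n => exact (ih _ _).trans (by omega)
      | halt b => simp

theorem qrs_mem_length {P : Prog} {A : Set (List Bool)} :
    ∀ (t pc : ℕ) (stk : ℕ → List Bool) (m : ℕ), (∀ s, (stk s).length ≤ m) →
      ∀ q ∈ qrs P A t pc stk, q.length ≤ m + t
  | 0, pc, stk, m, _ => by simp [qrs]
  | t + 1, pc, stk, m, hm => by
    have ih := fun pc stk m => qrs_mem_length (P := P) (A := A) t pc stk m
    unfold qrs
    cases hP : P[pc]? with
    | none => simp
    | some ins =>
      cases ins with
      | push s b l =>
        intro q hq
        have := ih _ _ (m + 1) (fun s' => ?_) q hq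
        · omega
        · by_cases h : s' = s
          · subst h; rw [Function.update_self]; have := hm s'; simp; omega
          · rw [Function.update_of_ne h]; have := hm s'; omega
      | pop s l₀ l₁ e =>
        dsimp only
        cases hs : stk s with
        | nil =>
          intro q hq
          have := ih _ _ m hm q hq
          omega
        | cons b w =>
          have hup : ∀ s', (Function.update stk s w s').length ≤ m := by
            intro s'
            by_cases h : s' = s
            · subst h; rw [Function.update_self]; have := hm s'; rw [hs] at this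
              simp at this; omega
            · rw [Function.update_of_ne h]; exact hm s'
          cases b
          · intro q hq
            have := ih _ _ m hup q hq
            omega
          · intro q hq
            have := ih _ _ m hup q hq
            omega
      | query s y n =>
        intro q hq
        simp only [List.mem_cons] at hq
        rcases hq with rfl | hq
        · have := hm s; omega
        · have := ih _ _ m hm q hq
          omega
      | present s y n =>
        intro q hq
        have := ih _ _ m hm q hq
        omega
      | halt b => simp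

theorem load_length_le (v : List (List Bool)) (s : ℕ) : (load v s).length ≤ size v := by
  unfold load size
  induction v generalizing s with
  | nil => simp
  | cons a v ih =>
    cases s with
    | zero => simp
    | succ s =>
      have := ih s
      simp only [List.getD_cons_succ, List.map_cons, List.sum_cons]
      omega

theorem size_append_singleton (v : List (List Bool)) (u : List Bool) :
    size (v ++ [u]) = size v + u.length := by
  simp [size]

/-- evaluation of a `Σ`-formula with quantifier bounds `ps` and matrix `(Q, q)` -/
def sigE (A : Set (List Bool)) (Q : Prog) (q : Polynomial ℕ) :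
    List (Polynomial ℕ) → List (List Bool) → Prop
  | [], v => ∃ r, out Q A (q.eval (size v)) 0 (load v) = some r ∧ r.1 = true
  | p :: ps, v => ∃ u : List Bool, u.length ≤ p.eval (size v) ∧ ¬ sigE A Q q ps (v ++ [u])

theorem exists_sigE {A : Set (List Bool)} : ∀ (i r : ℕ) (L : List (List Bool) → Prop),
    InSigma A i r L → ∃ (Q : Prog) (q : Polynomial ℕ) (ps : List (Polynomial ℕ)),
      ps.length = i ∧ ∀ v : List (List Bool), v.length = r → (L v ↔ sigE A Q q ps v)
  | 0, r, L, h => by
    obtain ⟨P, p, hP⟩ := h
    refine ⟨P, p, [], rfl, fun v hv => ?_⟩
    obtain ⟨o, h1, h2⟩ := (ensures_iff_out _ _ _).1 (hP v hv)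
    unfold sigE
    rw [← h2]
    constructor
    · intro h; exact ⟨o, h1, h⟩
    · rintro ⟨o', h3, h4⟩
      rw [h1] at h3
      cases h3
      exact h4
  | i + 1, r, L, h => by
    obtain ⟨L', p, h1, h2⟩ := h
    obtain ⟨Q, q, ps, h3, h4⟩ := exists_sigE i (r + 1) L' h1
    refine ⟨Q, q, p :: ps, by simp [h3], fun v hv => ?_⟩
    rw [h2 v hv]
    unfold sigE
    refine exists_congr fun u => and_congr_right fun _ => not_congr (h4 _ ?_)
    simp [hv]

theorem cut_eq_of_le {A A' : Set (List Bool)} {m n : ℕ} (h : cut n A = cut n A') (hmn : m ≤ n) :
    cut m A = cut m A' := by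
  rw [← cut_cut hmn A, h, cut_cut hmn]

theorem mem_iff_of_cut {A A' : Set (List Bool)} {n : ℕ} (h : cut n A = cut n A') {w : List Bool}
    (hw : w.length < n) : w ∈ A ↔ w ∈ A' := by
  have h1 : w ∈ cut n A ↔ w ∈ cut n A' := by rw [h]
  simpa [cut, hw] using h1

theorem out_local {P : Prog} {A A' : Set (List Bool)} {t n : ℕ} {v : List (List Bool)}
    (h : cut n A = cut n A') (hn : size v + t < n) :
    out P A' t 0 (load v) = out P A t 0 (load v) := by
  refine out_congr _ _ _ fun q hq => mem_iff_of_cut h ?_
  have := qrs_mem_length t 0 (load v) (size v) (load_length_le v) q hq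
  omega

theorem sigE_local (Q : Prog) (q : Polynomial ℕ) : ∀ ps : List (Polynomial ℕ),
    ∃ b : Polynomial ℕ, ∀ (A A' : Set (List Bool)) (v : List (List Bool)),
      cut (b.eval (size v)) A = cut (b.eval (size v)) A' →
      (sigE A Q q ps v ↔ sigE A' Q q ps v)
  | [] => by
    refine ⟨Polynomial.X + q + 1, fun A A' v h => ?_⟩
    unfold sigE
    rw [out_local h (by simp)]
  | p :: ps => by
    obtain ⟨b, hb⟩ := sigE_local Q q ps
    refine ⟨b.comp (Polynomial.X + p), fun A A' v h => ?_⟩
    unfold sigE
    refine exists_congr fun u => and_congr_right fun hu => not_congr (hb _ _ _ ?_)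
    refine cut_eq_of_le h ?_
    rw [Polynomial.eval_comp]
    apply eval_mono
    rw [size_append_singleton]
    simp only [Polynomial.eval_add, Polynomial.eval_X]
    omega

deriving instance Encodable for Instr

instance : Countable (Polynomial ℕ) := by
  rw [← Cardinal.mk_le_aleph0_iff]
  refine Polynomial.cardinalMk_le_max.trans ?_
  simp

/-- code of a relativised optimization problem -/
structure Data where
  /-- matrix -/
  Q : Prog
  /-- its time bound -/
  q : Polynomial ℕ
  /-- quantifier bounds -/
  ps : List (Polynomial ℕ)
  /-- cost program -/
  R : Prog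
  /-- its time bound -/
  r : Polynomial ℕ
  /-- bound for everything -/
  b : Polynomial ℕ

instance : Countable Data := by
  have : Function.Injective (fun d : Data => (d.Q, d.q, d.ps, d.R, d.r, d.b)) := by
    intro d d' h
    cases d; cases d'
    simpa using h
  exact this.countable

/-- feasible solutions according to the code, relative to `A` -/
def Data.feas (d : Data) (A : Set (List Bool)) (x y : ℕ) : Prop :=
  y = 0 ∨ (y ≤ x ∧ ¬ sigE A d.Q d.q d.ps [Nat.bits x, Nat.bits y])

/-- cost according to the code, relative to `A` -/
noncomputable def Data.cost (d : Data) (A : Set (List Bool)) (y : ℕ) : ℕ :=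
  match out d.R A (d.r.eval (Nat.bits y).length) 0 (load [Nat.bits y]) with
  | some r => val r.2
  | none => 0

theorem Data.exists_opt (d : Data) (A : Set (List Bool)) (x : ℕ) :
    ∃ y, d.feas A x y ∧ ∀ z, d.feas A x z → d.cost A z ≤ d.cost A y := by
  classical
  have hfin : ({y | d.feas A x y} : Set ℕ).Finite := by
    refine (Set.finite_le_nat x).subset fun y hy => ?_
    rcases hy with rfl | ⟨h, -⟩
    · exact Nat.zero_le _
    · exact h
  obtain ⟨y, hy, hmax⟩ := Set.exists_max_image {y | d.feas A x y} (d.cost A) hfin
    ⟨0, Or.inl rfl⟩
  exact ⟨y, hy, hmax⟩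

/-- an optimal solution according to the code, relative to `A` -/
noncomputable def Data.opt (d : Data) (A : Set (List Bool)) (x : ℕ) : ℕ :=
  (d.exists_opt A x).choose

theorem Data.opt_spec (d : Data) (A : Set (List Bool)) (x : ℕ) :
    d.feas A x (d.opt A x) ∧ ∀ z, d.feas A x z → d.cost A z ≤ d.cost A (d.opt A x) :=
  (d.exists_opt A x).choose_spec

theorem Data.opt_le (d : Data) (A : Set (List Bool)) (x : ℕ) : d.opt A x ≤ x := by
  rcases (d.opt_spec A x).1 with h | ⟨h, -⟩
  · rw [h]; exact Nat.zero_le _
  · exact h

theorem bits_length_mono {y x : ℕ} (h : y ≤ x) : (Nat.bits y).length ≤ (Nat.bits x).length := by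
  rw [Nat.size_eq_bits_len, Nat.size_eq_bits_len]
  exact Nat.size_le_size h

/-- Every relativised optimization problem has a code. -/
theorem exists_data {A : Set (List Bool)} {i : ℕ} {C : ℕ → ℕ → Prop} {ρ : ℕ → ℕ}
    (h : OptProblem A i C ρ) : ∃ d : Data, d.ps.length = i ∧ (∀ x y, d.feas A x y ↔ C x y) ∧
      (∀ y, d.cost A y = ρ y) ∧
      (∀ (A A' : Set (List Bool)) (x y : ℕ), y ≤ x →
        cut (d.b.eval (Nat.bits x).length) A = cut (d.b.eval (Nat.bits x).length) A' →
        ((sigE A d.Q d.q d.ps [Nat.bits x, Nat.bits y] ↔
          sigE A' d.Q d.q d.ps [Nat.bits x, Nat.bits y]) ∧ d.cost A y = d.cost A' y)) ∧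
      (∀ x, (Nat.bits x).length + (Nat.bits x).length +
        d.q.eval ((Nat.bits x).length + (Nat.bits x).length) + d.r.eval (Nat.bits x).length <
        d.b.eval (Nat.bits x).length) := by
  obtain ⟨L, hL, hC⟩ := h.feas
  obtain ⟨Q, q, ps, hps, hQ⟩ := exists_sigE i 2 _ hL
  obtain ⟨R, r, hR⟩ := h.cost
  obtain ⟨b, hb⟩ := sigE_local Q q ps
  have hfe : ∀ x y, (¬ sigE A Q q ps [Nat.bits x, Nat.bits y]) ↔ C x y := by
    intro x y
    rw [← hQ _ rfl, not_not, hC]
  refine ⟨⟨Q, q, ps, R, r, b.comp (2 * Polynomial.X) + 2 * Polynomial.X +
    q.comp (2 * Polynomial.X) + r + 1⟩, hps, ?_, ?_, ?_, ?_⟩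
  · intro x y
    unfold Data.feas
    simp only
    rw [hfe]
    constructor
    · rintro (rfl | ⟨-, h⟩)
      · exact h.zero x
      · exact h
    · intro hc
      exact Or.inr ⟨h.le _ _ hc, hc⟩
  · intro y
    obtain ⟨o, h1, h2⟩ := (ensures_iff_out _ _ _).1 (hR y)
    unfold Data.cost
    simp only
    rw [h1]
    exact h2
  · intro A A' x y hy hcut
    simp only at hcut ⊢
    have hlen := bits_length_mono hy
    have hsz : size [Nat.bits x, Nat.bits y] ≤ 2 * (Nat.bits x).length := by
      simp [size]; omega
    constructor
    · refine hb _ _ _ (cut_eq_of_le hcut ?_)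
      have h1 := eval_mono b hsz
      simp only [Polynomial.eval_add, Polynomial.eval_comp, Polynomial.eval_mul,
        Polynomial.eval_X, Polynomial.eval_ofNat, Polynomial.eval_one]
      omega
    · unfold Data.cost
      simp only
      rw [out_local (A := A') (A' := A) hcut.symm]
      have h1 := eval_mono r hlen
      have h2 : size [Nat.bits y] = (Nat.bits y).length := by simp [size]
      rw [h2]
      simp only [Polynomial.eval_add, Polynomial.eval_comp, Polynomial.eval_mul,
        Polynomial.eval_X, Polynomial.eval_ofNat, Polynomial.eval_one]
      omega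
  · intro x
    simp only [Polynomial.eval_add, Polynomial.eval_comp, Polynomial.eval_mul,
        Polynomial.eval_X, Polynomial.eval_ofNat, Polynomial.eval_one]
    have : (Nat.bits x).length + (Nat.bits x).length = 2 * (Nat.bits x).length := by ring
    rw [this]
    omega

end Pool.Agent.Lib.MP_2b5695_lc
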