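import Pool.Agent.Lib.MP_2b5695_lc.Tree

/-!
The driver reads its input, and a self-referential oracle that drives it.
-/

namespace Pool.Agent.Lib.MP_2b5695_lc

section

variable {O : Set (List Bool)} {Adv : ℕ → Option ℕ → Prop}
  {good : Bool → List Bool → Prop} {τ j : ℕ}

theorem driver_get_pro {i : ℕ} (hi : i < j) :
    (driver τ j)[62 + i]? = some (.push τ true (62 + i + 1)) := by
  have h1 : (driverFixed τ).length = 62 := rfl
  rw [driver, List.getElem?_append_right (by omega), h1, List.getElem?_append_left (by simp; omega)]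
  simp [hi]

theorem driver_get_last : (driver τ j)[62 + j]? = some (.push τ false 1) := by
  have h1 : (driverFixed τ).length = 62 := rfl
  rw [driver, List.getElem?_append_right (by omega), h1, List.getElem?_append_right (by simp)]
  simp

theorem read0 (hτ : 2 ≤ τ) (u : List Bool) (t : ℕ) : ∀ (x T : List Bool) (stk : ℕ → List Bool),
    stk 0 = x → stk 1 = u → stk τ = T →
    (∀ stk' : ℕ → List Bool, stk' 0 = [] → stk' 1 = u → stk' τ = (blk x).reverse ++ T →
      Ensures (driver τ j) O Adv good t 6 stk') →
    Ensures (driver τ j) O Adv good (t + 3 * x.length + 1) 1 stk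
  | [], T, stk, h0, h1, hT, h => by
    refine ens_pop_nil rfl h0 (h stk h0 h1 ?_)
    simpa [blk] using hT
  | b :: x, T, stk, h0, h1, hT, h => by
    have ih := read0 hτ u t x (b :: true :: T)
    have e : t + 3 * (b :: x).length + 1 = (t + 3 * x.length + 1) + 1 + 1 + 1 := by
      simp only [List.length_cons]; ring
    rw [e]
    have hne0 : τ ≠ 0 := by omega
    have hne1 : τ ≠ 1 := by omega
    have hh : ∀ stk' : ℕ → List Bool, stk' 0 = [] → stk' 1 = u →
        stk' τ = (blk x).reverse ++ (b :: true :: T) →
        Ensures (driver τ j) O Adv good t 6 stk' := by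
      intro stk' a1 a2 a3
      refine h stk' a1 a2 ?_
      rw [a3]
      simp [blk]
    refine ens_pop_cons rfl h0 ?_
    cases b
    · refine ens_push rfl (ens_push rfl ?_)
      refine ih _ ?_ ?_ ?_ hh
      · simp [Function.update_of_ne hne0.symm]
      · simp [Function.update_of_ne hne1.symm, h1]
      · simp [Function.update_of_ne hne0, hT]
    · refine ens_push rfl (ens_push rfl ?_)
      refine ih _ ?_ ?_ ?_ hh
      · simp [Function.update_of_ne hne0.symm]
      · simp [Function.update_of_ne hne1.symm, h1]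
      · simp [Function.update_of_ne hne0, hT]

theorem read1 (hτ : 2 ≤ τ) (t : ℕ) : ∀ (u T : List Bool) (stk : ℕ → List Bool),
    stk 0 = [] → stk 1 = u → stk τ = T →
    (∀ stk' : ℕ → List Bool, stk' 0 = [] → stk' τ = (blk u).reverse ++ T →
      Ensures (driver τ j) O Adv good t 12 stk') →
    Ensures (driver τ j) O Adv good (t + 3 * u.length + 1) 7 stk
  | [], T, stk, h0, h1, hT, h => by
    refine ens_pop_nil rfl h1 (h stk h0 ?_)
    simpa [blk] using hT
  | b :: u, T, stk, h0, h1, hT, h => by
    have ih := read1 hτ t u (b :: true :: T)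
    have e : t + 3 * (b :: u).length + 1 = (t + 3 * u.length + 1) + 1 + 1 + 1 := by
      simp only [List.length_cons]; ring
    rw [e]
    have hne0 : τ ≠ 0 := by omega
    have hne1 : τ ≠ 1 := by omega
    have hh : ∀ stk' : ℕ → List Bool, stk' 0 = [] →
        stk' τ = (blk u).reverse ++ (b :: true :: T) →
        Ensures (driver τ j) O Adv good t 12 stk' := by
      intro stk' a1 a3
      refine h stk' a1 ?_
      rw [a3]
      simp [blk]
    refine ens_pop_cons rfl h1 ?_
    cases b
    · refine ens_push rfl (ens_push rfl ?_)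
      refine ih _ ?_ ?_ ?_ hh
      · simp [Function.update_of_ne hne0.symm, h0]
      · simp [Function.update_of_ne hne1.symm]
      · simp [Function.update_of_ne hne1, hT]
    · refine ens_push rfl (ens_push rfl ?_)
      refine ih _ ?_ ?_ ?_ hh
      · simp [Function.update_of_ne hne0.symm, h0]
      · simp [Function.update_of_ne hne1.symm]
      · simp [Function.update_of_ne hne1, hT]

theorem prologue (t : ℕ) : ∀ (m i : ℕ) (stk : ℕ → List Bool), i + m = j →
    (∀ stk' : ℕ → List Bool, (∀ s, s ≠ τ → stk' s = stk s) →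
      stk' τ = false :: (List.replicate m true ++ stk τ) →
      Ensures (driver τ j) O Adv good t 1 stk') →
    Ensures (driver τ j) O Adv good (t + m + 1) (62 + i) stk
  | 0, i, stk, hi, h => by
    obtain rfl : i = j := by omega
    refine ens_push driver_get_last (h _ (fun s hs => ?_) ?_)
    · rw [Function.update_of_ne hs]
    · simp
  | m + 1, i, stk, hi, h => by
    have e : t + (m + 1) + 1 = (t + m + 1) + 1 := by ring
    rw [e]
    refine ens_push (driver_get_pro (by omega)) ?_
    refine prologue t m (i + 1) _ (by omega) ?_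
    intro stk' h1 h2
    refine h stk' (fun s hs => ?_) ?_
    · rw [h1 s hs, Function.update_of_ne hs]
    · rw [h2, Function.update_self, List.replicate_succ']
      simp

/-- The driver reads its inputs (on stacks 0 and 1) and then follows the tree. -/
theorem driver_start (hτ : 2 ≤ τ) (x u : List Bool) (D : Set (List Bool)) (t₀ : Tree)
    (hD : ∀ w, (false :: w) ∈ O ↔ w ∈ D)
    (hO : ∀ resp, (resp = [] ∨ ∃ r, resp = r ++ [false]) →
      Tells O (Tr j x u resp) (t₀.walk resp).idx) (n : ℕ)
    (h : Tree.Ens D Adv good n t₀ []) (stk : ℕ → List Bool) (h0 : stk 0 = x) (h1 : stk 1 = u)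
    (h2 : stk τ = []) :
    Ensures (driver τ j) O Adv good (18 * n + 3 * u.length + 3 * x.length + j + 6) 0 stk := by
  have hne0 : τ ≠ 0 := by omega
  have hne1 : τ ≠ 1 := by omega
  have e : 18 * n + 3 * u.length + 3 * x.length + j + 6 =
    (((((18 * n + 1) + 3 * u.length + 1) + 1) + 3 * x.length + 1) + j + 1) + 1 := by ring
  rw [e]
  refine ens_pop_nil rfl h2 ?_
  refine prologue _ j 0 stk (by omega) ?_
  intro stk1 a1 a2
  refine read0 hτ u _ x _ stk1 (by rw [a1 0 hne0.symm, h0]) (by rw [a1 1 hne1.symm, h1]) a2 ?_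
  intro stk2 b0 b1 b2
  refine ens_push rfl ?_
  refine read1 hτ _ u _ _ ?_ ?_ rfl ?_
  · rw [Function.update_of_ne hne0.symm, b0]
  · rw [Function.update_of_ne hne1.symm, b1]
  intro stk3 c0 c1
  refine ens_push rfl ?_
  have hloop := driver_loop (Adv := Adv) (good := good) hne0 x u D t₀ hD hO n t₀ [] []
    (Or.inl rfl) (fun r => rfl) h
  refine hloop _ ?_ ?_
  · rw [Function.update_of_ne hne0.symm, c0]
  · rw [Function.update_self, c1, Function.update_self, b2, h2]
    simp [Tr, pre]

end

/-! ### the self-referential oracle -/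

/-- strings shorter than `n` -/
def cut (n : ℕ) (X : Set (List Bool)) : Set (List Bool) := {w | w ∈ X ∧ w.length < n}

theorem cut_cut {m n : ℕ} (h : n ≤ m) (X : Set (List Bool)) : cut n (cut m X) = cut n X := by
  ext w
  simp only [cut, Set.mem_ofPred_eq]
  constructor
  · rintro ⟨⟨h1, _⟩, h3⟩; exact ⟨h1, h3⟩
  · rintro ⟨h1, h3⟩; exact ⟨⟨h1, by omega⟩, h3⟩

/-- fixed point by recursion on the length -/
def fixBelow (Φ : Set (List Bool) → List Bool → Prop) : ℕ → Set (List Bool)
  | 0 => ∅
  | n + 1 => {w | w ∈ fixBelow Φ n ∨ (w.length = n ∧ Φ (fixBelow Φ n) w)}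

/-- the fixed point -/
def fixSet (Φ : Set (List Bool) → List Bool → Prop) : Set (List Bool) :=
  {w | w ∈ fixBelow Φ (w.length + 1)}

theorem fixBelow_lt {Φ : Set (List Bool) → List Bool → Prop} {n : ℕ} {w : List Bool}
    (h : w ∈ fixBelow Φ n) : w.length < n := by
  induction n with
  | zero => exact h.elim
  | succ n ih =>
    rcases h with h | ⟨h, -⟩
    · have := ih h; omega
    · omega

theorem fixBelow_eq {Φ : Set (List Bool) → List Bool → Prop} (n : ℕ) :
    fixBelow Φ n = cut n (fixSet Φ) := by
  have key : ∀ n w, w ∈ fixBelow Φ n ↔ (w ∈ fixBelow Φ (w.length + 1) ∧ w.length < n) := by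
    intro n
    induction n with
    | zero => intro w; simp [fixBelow]
    | succ n ih =>
      intro w
      constructor
      · intro h
        have hlt := fixBelow_lt h
        refine ⟨?_, hlt⟩
        rcases Nat.lt_succ_iff_lt_or_eq.1 hlt with h' | h'
        · rcases h with h | ⟨h, -⟩
          · exact ((ih w).1 h).1
          · omega
        · rw [h']; exact h
      · rintro ⟨h1, h2⟩
        rcases Nat.lt_succ_iff_lt_or_eq.1 h2 with h' | h'
        · exact Or.inl ((ih w).2 ⟨h1, h'⟩)
        · rw [← h'] ; exact h1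
  ext w
  exact key n w

theorem mem_fixSet {Φ : Set (List Bool) → List Bool → Prop} {w : List Bool} :
    w ∈ fixSet Φ ↔ Φ (cut w.length (fixSet Φ)) w := by
  rw [← fixBelow_eq]
  constructor
  · intro h
    rcases (h : w ∈ fixBelow Φ (w.length + 1)) with h | ⟨-, h⟩
    · exact absurd (fixBelow_lt h) (lt_irrefl _)
    · exact h
  · intro h
    exact Or.inr ⟨rfl, h⟩

/-! ### uniqueness of reading -/

theorem blk_append_inj : ∀ {x y r s : List Bool}, blk x ++ false :: r = blk y ++ false :: s →
    x = y ∧ r = s
  | [], [], r, s, h => by simpa [blk] using h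
  | [], b :: y, r, s, h => by simp [blk] at h
  | a :: x, [], r, s, h => by simp [blk] at h
  | a :: x, b :: y, r, s, h => by
    have h' : a = b ∧ blk x ++ false :: r = blk y ++ false :: s := by simpa [blk] using h
    obtain ⟨h1, h2⟩ := blk_append_inj h'.2
    exact ⟨by rw [h'.1, h1], h2⟩

theorem replicate_false_inj : ∀ {j k : ℕ} {r s : List Bool},
    List.replicate j true ++ false :: r = List.replicate k true ++ false :: s → j = k ∧ r = s
  | 0, 0, r, s, h => by simpa using h
  | 0, k + 1, r, s, h => by simp [List.replicate_succ] at h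
  | j + 1, 0, r, s, h => by simp [List.replicate_succ] at h
  | j + 1, k + 1, r, s, h => by
    have h' : List.replicate j true ++ false :: r = List.replicate k true ++ false :: s := by
      simpa [List.replicate_succ] using h
    obtain ⟨h1, h2⟩ := replicate_false_inj h'
    exact ⟨by rw [h1], h2⟩

theorem pre_inj {j j' : ℕ} {x x' u u' r r' : List Bool}
    (h : pre j x u ++ r = pre j' x' u' ++ r') : j = j' ∧ x = x' ∧ u = u' ∧ r = r' := by
  simp only [pre, List.append_assoc, List.cons_append, List.nil_append] at h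
  obtain ⟨h1, h2⟩ := replicate_false_inj h
  obtain ⟨h3, h4⟩ := blk_append_inj h2
  obtain ⟨h5, h6⟩ := blk_append_inj h4
  exact ⟨h1, h3, h5, h6⟩

theorem Tr_head {j : ℕ} {x u resp : List Bool} (h : resp = [] ∨ ∃ r, resp = r ++ [false]) :
    ∃ T, Tr j x u resp = false :: T := by
  rcases h with rfl | ⟨r, rfl⟩
  · refine ⟨(List.replicate j true ++ false :: (blk x ++ false :: blk u)).reverse, ?_⟩
    simp [Tr, pre]
  · refine ⟨(pre j x u ++ r).reverse, ?_⟩
    simp [Tr]

theorem Tr_inj {k k' j j' : ℕ} {x x' u u' r r' : List Bool}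
    (hr : r = [] ∨ ∃ s, r = s ++ [false]) (hr' : r' = [] ∨ ∃ s, r' = s ++ [false])
    (h : List.replicate k true ++ Tr j x u r = List.replicate k' true ++ Tr j' x' u' r') :
    k = k' ∧ j = j' ∧ x = x' ∧ u = u' ∧ r = r' := by
  obtain ⟨T, hT⟩ := Tr_head (j := j) (x := x) (u := u) hr
  obtain ⟨T', hT'⟩ := Tr_head (j := j') (x := x') (u := u') hr'
  rw [hT, hT'] at h
  obtain ⟨h1, h2⟩ := replicate_false_inj h
  have h3 : Tr j x u r = Tr j' x' u' r' := by rw [hT, hT', h2]
  have h4 := List.reverse_injective h3
  exact ⟨h1, pre_inj h4⟩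

/-- `n` dummy queries before `t` -/
def wait : ℕ → Tree → Tree
  | 0, t => t
  | n + 1, t => .query fun _ => wait n t

theorem wait_ens {D : Set (List Bool)} {Adv : ℕ → Option ℕ → Prop}
    {good : Bool → List Bool → Prop} {n : ℕ} {t : Tree} {buf : List Bool}
    (h : Tree.Ens D Adv good n t buf) : ∀ m, Tree.Ens D Adv good (n + m) (wait m t) buf
  | 0 => h
  | m + 1 => ⟨fun _ => wait_ens h m, fun _ => wait_ens h m⟩

theorem wait_walk {t t' : Tree} : ∀ (n : ℕ) (resp : List Bool),
    (2 * n ≤ resp.length → t = t') →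
    ((wait n t).walk resp).idx = ((wait n t').walk resp).idx
  | 0, resp, h => by rw [h (by omega)]
  | n + 1, [], h => rfl
  | n + 1, [_], h => rfl
  | n + 1, _ :: _ :: r, h => wait_walk n r fun hh => h (by simp; omega)

/-- The defining functional of the driving oracle. -/
def driveFun (N : ℕ → List Bool → List Bool → ℕ)
    (main : ℕ → List Bool → List Bool → Set (List Bool) → Tree)
    (X : Set (List Bool)) (w : List Bool) : Prop :=
  ∃ (k j : ℕ) (x u resp : List Bool), w = List.replicate k true ++ Tr j x u resp ∧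
    (resp = [] ∨ ∃ r, resp = r ++ [false]) ∧
    ((wait (N j x u) (main j x u (cut (N j x u) X))).walk resp).idx = k

/-- The driving oracle. -/
def brain (N : ℕ → List Bool → List Bool → ℕ)
    (main : ℕ → List Bool → List Bool → Set (List Bool) → Tree) : Set (List Bool) :=
  fixSet (driveFun N main)

theorem brain_tells {N : ℕ → List Bool → List Bool → ℕ}
    {main : ℕ → List Bool → List Bool → Set (List Bool) → Tree} {O : Set (List Bool)}
    (hE : ∀ w, (true :: w) ∈ O ↔ w ∈ brain N main) (j : ℕ) (x u resp : List Bool)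
    (hr : resp = [] ∨ ∃ r, resp = r ++ [false]) :
    Tells O (Tr j x u resp)
      ((wait (N j x u) (main j x u (cut (N j x u) (brain N main)))).walk resp).idx := by
  intro k _
  rw [hE, brain, mem_fixSet, ← brain]
  have hlen : resp.length ≤ (List.replicate k true ++ Tr j x u resp).length := by
    simp [Tr]; omega
  have key : ∀ m, resp.length ≤ m →
      ((wait (N j x u) (main j x u (cut (N j x u) (cut m (brain N main))))).walk resp).idx =
      ((wait (N j x u) (main j x u (cut (N j x u) (brain N main)))).walk resp).idx := by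
    intro m hm
    refine wait_walk _ _ fun hh => ?_
    rw [cut_cut (by omega)]
  constructor
  · rintro ⟨k', j', x', u', resp', h1, h2, h3⟩
    obtain ⟨rfl, rfl, rfl, rfl, rfl⟩ := Tr_inj hr h2 h1
    rw [← key _ hlen, h3]
  · intro h
    exact ⟨k, j, x, u, resp, rfl, hr, by rw [key _ hlen, h]⟩

/-- **Self-driving lemma.** There is an oracle part `brain N main` such that every machine that
has it as the `true`-part of its oracle can run the trees
`main j x u (cut (N j x u) (brain N main))`. -/
theorem brain_run {N : ℕ → List Bool → List Bool → ℕ}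
    {main : ℕ → List Bool → List Bool → Set (List Bool) → Tree} {O D : Set (List Bool)}
    (hE : ∀ w, (true :: w) ∈ O ↔ w ∈ brain N main) (hD : ∀ w, (false :: w) ∈ O ↔ w ∈ D)
    {Adv : ℕ → Option ℕ → Prop} {good : Bool → List Bool → Prop} {τ : ℕ} (hτ : 2 ≤ τ)
    {j n t : ℕ} {x u : List Bool}
    (h : Tree.Ens D Adv good n (main j x u (cut (N j x u) (brain N main))) [])
    (ht : 18 * (n + N j x u) + 3 * u.length + 3 * x.length + j + 6 ≤ t)
    {stk : ℕ → List Bool} (h0 : stk 0 = x) (h1 : stk 1 = u) (h2 : stk τ = []) :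
    Ensures (driver τ j) O Adv good t 0 stk :=
  Ensures.mono (fun _ _ h => h) ht (driver_start hτ x u D _ hD
    (fun resp hr => brain_tells hE j x u resp hr) (n + N j x u) (wait_ens h _) stk h0 h1 h2)

end Pool.Agent.Lib.MP_2b5695_lc
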