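import Pool.Agent.Lib.MP_2b5695_lc.Generic

/-!
World A: computations with a bounded number of adversary queries fail.
-/

namespace Pool.Agent.Lib.MP_2b5695_lc

theorem bits_val_append_true (g : List Bool) :
    Nat.bits (val (g ++ [true])) = g ++ [true] := by
  induction g with
  | nil => simp [val]
  | cons b g ih =>
    have hne : val (g ++ [true]) ≠ 0 := by
      intro h0
      rw [h0] at ih
      simp at ih
    rw [List.cons_append, val, Nat.bits_append_bit _ _ (fun h => absurd h hne), ih]

theorem sol_val (g : List Bool) : sol (val (g ++ [true])) = g ++ pad g.length := by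
  unfold sol
  rw [bits_val_append_true]
  simp

theorem lt_two_pow_bits (x : ℕ) : x < 2 ^ (Nat.bits x).length := by
  rw [Nat.size_eq_bits_len]
  exact Nat.lt_size_self x

theorem val_append_true_bounds (g : List Bool) :
    2 ^ g.length ≤ val (g ++ [true]) ∧ val (g ++ [true]) < 2 ^ (g.length + 1) := by
  constructor
  · rw [← Nat.lt_size, ← Nat.size_eq_bits_len, bits_val_append_true]
    simp
  · have := lt_two_pow_bits (val (g ++ [true]))
    rw [bits_val_append_true] at this
    simpa using this

/-- the oracle of the student is decided by `(Q, q)` -/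
def decO (Q : Prog) (q : Polynomial ℕ) (B : Set (List Bool)) : Set (List Bool) :=
  {w | sigE B Q q [] [w]}

theorem hid_agree {θ θ' : ℕ → Option (List Bool)} {Λ : ℕ} (h : ∀ l < Λ + 1, θ' l = θ l)
    {v : List Bool} (hv : v.length ≤ Λ) : v ∈ hid θ' ↔ v ∈ hid θ := by
  constructor
  · rintro ⟨n, g, h1, h2, rfl⟩
    refine ⟨n, g, ?_, h2, rfl⟩
    rw [← h n, h1]
    simp [pad] at hv; omega
  · rintro ⟨n, g, h1, h2, rfl⟩
    refine ⟨n, g, ?_, h2, rfl⟩
    rw [h n, h1]
    simp [pad] at hv; omega

/-- a feasible presented number is smaller than the code of any longer string -/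
theorem lt_of_feasible {cur : ℕ → Option (List Bool)} {m y : ℕ} (hcur : ∀ l, m ≤ l → cur l = none)
    (hy : y = 0 ∨ sol y ∈ hid cur) {g : List Bool} (hg : g.length = m) :
    y < val (g ++ [true]) := by
  have h1 := (val_append_true_bounds g).1
  rw [hg] at h1
  have h2 : 0 < 2 ^ m := by positivity
  rcases hy with rfl | ⟨l, g', h3, h4, h5⟩
  · omega
  · have hl : l < m := by
      by_contra hcon
      rw [hcur l (by omega)] at h3
      cases h3
    obtain ⟨h6, h7⟩ := pad_inj h5
    have h8 : (Nat.bits y).length ≤ l + 1 := by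
      rw [← h7]; simp; omega
    have h9 := lt_two_pow_bits y
    have h10 : 2 ^ (Nat.bits y).length ≤ 2 ^ m := Nat.pow_le_pow_right (by norm_num) (by omega)
    omega

theorem gameA {E : Set (List Bool)} {P Q : Prog} {q : Polynomial ℕ} {T κ Λ n c₀ : ℕ}
    (hκ : κ = q.eval (n + c₀ + 3 + T) + 1)
    (hΛ : Λ = 3 * (n + c₀ + 3 + T) + 1 + q.eval (n + c₀ + 3 + T))
    (hbig : T * κ + κ < 2 ^ n) :
    ∀ (t e : ℕ), e + t = T → ∀ (c m pc : ℕ) (stk : ℕ → List Bool)
      (cur : ℕ → Option (List Bool)) (N : Finset (List Bool)),
      n ≤ m → m + c ≤ n + c₀ →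
      (∀ s, (stk s).length ≤ n + c₀ + 3 + e) → (∀ l, m ≤ l → cur l = none) →
      N.card ≤ e * κ → (∀ s ∈ N, s.length ≤ Λ) → (∀ s ∈ N, s ∉ hid cur) →
      ∃ θf : ℕ → Option (List Bool), (∀ l < m, θf l = cur l) ∧ (∀ s ∈ N, s ∉ hid θf) ∧
        ∀ θ'' : ℕ → Option (List Bool), (∀ l < Λ + 1, θ'' l = θf l) →
          ¬ EnsuresBounded P (decO Q q (join E (hid θ'')))
            (Answers (CA θ'') id (2 ^ (n + c₀ + 2)))
            (fun _ w => Optimal (CA θ'') id (2 ^ (n + c₀ + 2)) (val w)) t c pc stk := by
  classical
  set x := 2 ^ (n + c₀ + 2) with hx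
  have hbits : (Nat.bits x).length = n + c₀ + 3 := bits_two_pow _
  intro t
  induction t with
  | zero =>
    intro e he c m pc stk cur N h1 h2 h3 h4 h5 h6 h7
    exact ⟨cur, fun _ _ => rfl, h7, fun θ'' _ h => h⟩
  | succ t ih =>
    intro e he c m pc stk cur N h1 h2 h3 h4 h5 h6 h7
    have he' : (e + 1) + t = T := by omega
    have hleκ : e * κ ≤ T * κ := Nat.mul_le_mul_right _ (by omega)
    have hexpκ : (e + 1) * κ = e * κ + κ := by ring
    have hκpos : 1 ≤ κ := by omega
    have hN3 : N.card ≤ (e + 1) * κ := by omega
    have h3' : ∀ s, (stk s).length ≤ n + c₀ + 3 + (e + 1) := fun s => by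
      have := h3 s; omega
    -- a fresh better solution
    have hNc : N.toList.length < 2 ^ m := by
      rw [Finset.length_toList]
      have : 2 ^ n ≤ 2 ^ m := Nat.pow_le_pow_right (by norm_num) h1
      omega
    obtain ⟨g, hg, hgN⟩ := exists_word_not_mem N.toList m hNc (fun g => g ++ pad m)
      (fun a b hab => (pad_inj hab).1)
    have hgN' : g ++ pad m ∉ N := by simpa using hgN
    set z := val (g ++ [true]) with hz
    have hzb := val_append_true_bounds g
    rw [hg, ← hz] at hzb
    have hzx : m ≤ n + c₀ → z ≤ x := by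
      intro hm
      have : 2 ^ (m + 1) ≤ x := Nat.pow_le_pow_right (by norm_num) (by omega)
      omega
    set cur' := Function.update cur m (some g) with hcur'
    have hcur'N : ∀ s ∈ N, s ∉ hid cur' := by
      rintro s hs ⟨l, g', h8, h9, h10⟩
      by_cases hl : l = m
      · subst hl
        rw [hcur', Function.update_self] at h8
        cases h8
        rw [h10] at hs
        exact hgN' hs
      · rw [hcur', Function.update_of_ne hl] at h8
        exact h7 s hs ⟨l, g', h8, h9, h10⟩
    have hcur'none : ∀ l, m + 1 ≤ l → cur' l = none := by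
      intro l hl
      rw [hcur', Function.update_of_ne (by omega)]
      exact h4 l (by omega)
    have hΛm : m ≤ n + c₀ → m < Λ + 1 := by intro h; omega
    have hzfeas : ∀ θf θ'' : ℕ → Option (List Bool), m ≤ n + c₀ →
        (∀ l < m + 1, θf l = cur' l) → (∀ l < Λ + 1, θ'' l = θf l) → CA θ'' x z := by
      intro θf θ'' hm a1 a2
      refine Or.inr ⟨hzx hm, ?_⟩
      rw [hz, sol_val, hg]
      refine ⟨m, g, ?_, hg, rfl⟩
      rw [a2 m (hΛm hm), a1 m (by omega), hcur', Function.update_self]
    -- forbidding a presented number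
    have hforb : ∀ v : ℕ, sol v ∉ hid cur → (Nat.bits v).length ≤ n + c₀ + 3 + T →
        (insert (sol v) N).card ≤ (e + 1) * κ ∧
        (∀ s ∈ insert (sol v) N, s.length ≤ Λ) ∧
        (∀ s ∈ insert (sol v) N, s ∉ hid cur) := by
      intro v hv hvl
      refine ⟨?_, ?_, ?_⟩
      · have := Finset.card_insert_le (sol v) N
        omega
      · intro s hs
        rcases Finset.mem_insert.1 hs with rfl | hs
        · have := sol_length v; omega
        · exact h6 s hs
      · intro s hs
        rcases Finset.mem_insert.1 hs with rfl | hs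
        · exact hv
        · exact h7 s hs
    have hvlen : ∀ s, (Nat.bits (val (stk s))).length ≤ n + c₀ + 3 + T := by
      intro s
      have b1 := bits_val_length (stk s)
      have b2 := h3 s
      omega
    have hinf : ∀ (v : ℕ) (θf θ'' : ℕ → Option (List Bool)), v ≠ 0 →
        (Nat.bits v).length ≤ n + c₀ + 3 + T → sol v ∉ hid θf →
        (∀ l < Λ + 1, θ'' l = θf l) → ¬ CA θ'' x v := by
      rintro v θf θ'' hv0 hvl hv a2 (h | ⟨-, h⟩)
      · exact hv0 h
      · refine hv ((hid_agree a2 ?_).1 h)
        have := sol_length v; omega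
    cases hP : P[pc]? with
    | none =>
      exact ⟨cur, fun _ _ => rfl, h7, fun θ'' _ h => by simp only [EnsuresBounded, hP] at h⟩
    | some ins =>
      cases ins with
      | push s b l =>
        have hl : ∀ s', (Function.update stk s (b :: stk s) s').length ≤
            n + c₀ + 3 + (e + 1) := by
          intro s'
          by_cases hs : s' = s
          · subst hs; rw [Function.update_self]; have := h3 s'; simp; omega
          · rw [Function.update_of_ne hs]; have := h3 s'; omega
        obtain ⟨θf, a1, a2, a3⟩ := ih (e + 1) he' c m l _ cur N h1 h2 hl h4 hN3 h6 h7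
        refine ⟨θf, a1, a2, fun θ'' hc h => a3 θ'' hc ?_⟩
        simp only [EnsuresBounded, hP] at h
        exact h
      | pop s l₀ l₁ e₀ =>
        rcases hs : stk s with _ | ⟨b, w⟩
        · obtain ⟨θf, a1, a2, a3⟩ := ih (e + 1) he' c m e₀ stk cur N h1 h2 h3' h4 hN3 h6 h7
          refine ⟨θf, a1, a2, fun θ'' hc h => a3 θ'' hc ?_⟩
          simp only [EnsuresBounded, hP, hs] at h
          exact h
        · have hl : ∀ s', (Function.update stk s w s').length ≤ n + c₀ + 3 + (e + 1) := by
            intro s'
            by_cases hs' : s' = s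
            · subst hs'; rw [Function.update_self]; have := h3 s'; rw [hs] at this
              simp at this; omega
            · rw [Function.update_of_ne hs']; have := h3 s'; omega
          obtain ⟨θf, a1, a2, a3⟩ := ih (e + 1) he' c m (if b then l₁ else l₀) _ cur N h1 h2 hl
            h4 hN3 h6 h7
          refine ⟨θf, a1, a2, fun θ'' hc h => a3 θ'' hc ?_⟩
          cases b <;> (simp only [EnsuresBounded, hP, hs] at h; simpa using h)
      | query s y' n' =>
        set w := stk s with hw
        have hwl : w.length ≤ n + c₀ + 3 + T := by have := h3 s; rw [← hw] at this; omega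
        have hsz : size [w] = w.length := by simp [size]
        have hqle := eval_mono q hwl
        set A := join E (hid cur) with hA
        set new := ((falsePart (qrs Q A (q.eval (size [w])) 0 (load [w]))).toFinset).filter
          (fun v => v ∉ hid cur) with hnew
        have hnewcard : new.card ≤ κ := by
          have b1 := Finset.card_filter_le
            (falsePart (qrs Q A (q.eval (size [w])) 0 (load [w]))).toFinset
            (fun v => v ∉ hid cur)
          have b2 := (falsePart (qrs Q A (q.eval (size [w])) 0 (load [w]))).toFinset_card_le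
          have b3 := length_falsePart_le (qrs Q A (q.eval (size [w])) 0 (load [w]))
          have b4 := qrs_length_le (P := Q) (A := A) (q.eval (size [w])) 0 (load [w])
          have b5 : q.eval (size [w]) + 1 ≤ κ := by rw [hκ, hsz]; omega
          rw [hnew]
          omega
        have hqlen : ∀ v ∈ falsePart (qrs Q A (q.eval (size [w])) 0 (load [w])),
            v.length ≤ Λ := by
          intro v hv
          rw [mem_falsePart] at hv
          have c3 := qrs_mem_length _ 0 (load [w]) (size [w]) (load_length_le _) _ hv
          rw [hsz] at c3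
          simp only [List.length_cons] at c3
          omega
        have hNN : ∀ s ∈ N ∪ new, s.length ≤ Λ ∧ s ∉ hid cur := by
          intro s' hs'
          rcases Finset.mem_union.1 hs' with hs' | hs'
          · exact ⟨h6 s' hs', h7 s' hs'⟩
          · rw [hnew, Finset.mem_filter, List.mem_toFinset] at hs'
            exact ⟨hqlen s' hs'.1, hs'.2⟩
        have hNc : (N ∪ new).card ≤ (e + 1) * κ := by
          have := Finset.card_union_le N new
          omega
        have hag : ∀ (θf θ'' : ℕ → Option (List Bool)), (∀ l < m, θf l = cur l) →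
            (∀ s ∈ N ∪ new, s ∉ hid θf) → (∀ l < Λ + 1, θ'' l = θf l) →
            (w ∈ decO Q q (join E (hid θ'')) ↔ w ∈ decO Q q A) := by
          intro θf θ'' b1 b2 hc
          have hout : out Q (join E (hid θ'')) (q.eval (size [w])) 0 (load [w]) =
              out Q A (q.eval (size [w])) 0 (load [w]) := by
            refine out_congr _ _ _ fun s hs => ?_
            rcases s with _ | ⟨a, v⟩
            · simp [hA]
            · cases a
              · rw [hA, false_mem_join, false_mem_join, hid_agree hc
                  (hqlen v (mem_falsePart.2 hs))]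
                constructor
                · rintro ⟨l, g', k1, k2, k3⟩
                  have hlm : l < m := by
                    by_contra hcon
                    rw [h4 l (by omega)] at k1
                    cases k1
                  exact ⟨l, g', by rw [b1 l hlm, k1], k2, k3⟩
                · intro h
                  by_contra hcon
                  exact b2 v (Finset.mem_union_right _ (Finset.mem_filter.2
                    ⟨List.mem_toFinset.2 (mem_falsePart.2 hs), hcon⟩)) h
              · rw [hA, true_mem_join, true_mem_join]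
          unfold decO
          show sigE _ _ _ _ _ ↔ sigE _ _ _ _ _
          unfold sigE
          rw [hout]
        by_cases hacc : w ∈ decO Q q A
        · obtain ⟨θf, a1, a2, a3⟩ := ih (e + 1) he' c m y' stk cur (N ∪ new) h1 h2 h3' h4 hNc
            (fun s hs => (hNN s hs).1) (fun s hs => (hNN s hs).2)
          refine ⟨θf, a1, fun s hs => a2 s (Finset.mem_union_left _ hs),
            fun θ'' hc h => a3 θ'' hc ?_⟩
          simp only [EnsuresBounded, hP] at h
          exact h.1 ((hag θf θ'' a1 a2 hc).2 hacc)
        · obtain ⟨θf, a1, a2, a3⟩ := ih (e + 1) he' c m n' stk cur (N ∪ new) h1 h2 h3' h4 hNc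
            (fun s hs => (hNN s hs).1) (fun s hs => (hNN s hs).2)
          refine ⟨θf, a1, fun s hs => a2 s (Finset.mem_union_left _ hs),
            fun θ'' hc h => a3 θ'' hc ?_⟩
          simp only [EnsuresBounded, hP] at h
          exact h.2 (fun hh => hacc ((hag θf θ'' a1 a2 hc).1 hh))
      | present s y' n' =>
        rcases Nat.eq_zero_or_pos c with rfl | hc0
        · refine ⟨cur, fun _ _ => rfl, h7, fun θ'' _ h => ?_⟩
          simp only [EnsuresBounded, hP] at h
          exact absurd h.1 (lt_irrefl _)
        · set v := val (stk s) with hv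
          have hvl := hvlen s
          rw [← hv] at hvl
          by_cases hvg : v = 0 ∨ sol v ∈ hid cur
          · have hzl : (Nat.bits z).length ≤ n + c₀ + 3 := by
              rw [← hbits]; exact bits_length_mono (hzx (by omega))
            have hl : ∀ s', (Function.update stk s (Nat.bits z) s').length ≤
                n + c₀ + 3 + (e + 1) := by
              intro s'
              by_cases hs' : s' = s
              · subst hs'; rw [Function.update_self]; omega
              · rw [Function.update_of_ne hs']; have := h3 s'; omega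
            obtain ⟨θf, a1, a2, a3⟩ := ih (e + 1) he' (c - 1) (m + 1) n' _ cur' N (by omega)
              (by omega) hl hcur'none hN3 h6 hcur'N
            refine ⟨θf, fun l hlm => ?_, a2, fun θ'' hc h => a3 θ'' hc ?_⟩
            · rw [a1 l (by omega), hcur', Function.update_of_ne (by omega)]
            · simp only [EnsuresBounded, hP] at h
              refine h.2.2 z ⟨hzx (by omega), fun hB => ?_⟩
              rw [← hv] at hB
              exact hB.2 (lt_of_feasible h4 hvg hg) (hzfeas θf θ'' (by omega) a1 hc)
          · push Not at hvg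
            obtain ⟨k1, k2, k3⟩ := hforb v hvg.2 hvl
            have hl : ∀ s', (Function.update stk s (Nat.bits 0) s').length ≤
                n + c₀ + 3 + (e + 1) := by
              intro s'
              by_cases hs' : s' = s
              · subst hs'; rw [Function.update_self]; simp
              · rw [Function.update_of_ne hs']; have := h3 s'; omega
            obtain ⟨θf, a1, a2, a3⟩ := ih (e + 1) he' (c - 1) m n' _ cur (insert (sol v) N) h1
              (by omega) hl h4 k1 k2 k3
            refine ⟨θf, a1, fun s hs => a2 s (Finset.mem_insert_of_mem hs),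
              fun θ'' hc h => a3 θ'' hc ?_⟩
            simp only [EnsuresBounded, hP] at h
            refine h.2.2 0 ⟨Nat.zero_le _, fun hB => ?_⟩
            rw [← hv] at hB
            exact hinf v θf θ'' hvg.1 hvl (a2 _ (Finset.mem_insert_self _ _)) hc hB.1
      | halt b =>
        set v := val (stk 0) with hv
        have hvl := hvlen 0
        rw [← hv] at hvl
        by_cases hvg : v = 0 ∨ sol v ∈ hid cur
        · refine ⟨cur', fun l hlm => ?_, hcur'N, fun θ'' hc h => ?_⟩
          · rw [hcur', Function.update_of_ne (by omega)]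
          · simp only [EnsuresBounded, hP] at h
            have hz' := h.2 z (hzfeas cur' θ'' (by omega) (fun _ _ => rfl) hc)
            have hlt := lt_of_feasible h4 hvg hg
            simp only [id] at hz'
            omega
        · push Not at hvg
          refine ⟨cur, fun _ _ => rfl, h7, fun θ'' hc h => ?_⟩
          simp only [EnsuresBounded, hP] at h
          exact hinf v cur θ'' hvg.1 hvl hvg.2 hc h.1

theorem stepBounded (E : Set (List Bool)) (P : Prog) (p : Polynomial ℕ) (Q : Prog)
    (q : Polynomial ℕ) (c₀ : ℕ) (θ : ℕ → Option (List Bool)) (n₀ : ℕ) :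
    ∃ (θ' : ℕ → Option (List Bool)) (m : ℕ), (∀ k < n₀, θ' k = θ k) ∧
      ∀ θ'' : ℕ → Option (List Bool), (∀ k < m, θ'' k = θ' k) →
        ¬ ∀ x : ℕ, EnsuresBounded P (decO Q q (join E (hid θ'')))
          (Answers (CA θ'') id x) (fun _ w => Optimal (CA θ'') id x (val w))
          (p.eval (Nat.bits x).length) c₀ 0 (load [Nat.bits x]) := by
  classical
  set pT := p.comp (Polynomial.X + (c₀ : Polynomial ℕ) + 3) with hpT
  set pκ := q.comp (Polynomial.X + (c₀ : Polynomial ℕ) + 3 + pT) + 1 with hpκ
  obtain ⟨n, hn₀, hn⟩ := exists_pow_gt (pT * pκ + pκ) n₀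
  set T := p.eval (n + c₀ + 3) with hT
  set κ := q.eval (n + c₀ + 3 + T) + 1 with hκ
  have hTe : pT.eval n = T := by simp [hpT, hT]
  have hκe : pκ.eval n = κ := by
    rw [hpκ]
    simp only [Polynomial.eval_add, Polynomial.eval_comp, Polynomial.eval_X,
      Polynomial.eval_one, Polynomial.eval_natCast, Polynomial.eval_ofNat, hTe, Nat.cast_id]
    rfl
  have hbig : T * κ + κ < 2 ^ n := by
    simp only [Polynomial.eval_mul, Polynomial.eval_add, hTe, hκe] at hn
    exact hn
  set x := 2 ^ (n + c₀ + 2) with hx
  have hbits : (Nat.bits x).length = n + c₀ + 3 := bits_two_pow _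
  set cur : ℕ → Option (List Bool) := fun k => if k < n₀ then θ k else none with hcur
  obtain ⟨θf, a1, -, a3⟩ := gameA (E := E) (P := P) (Q := Q) (c₀ := c₀) hκ rfl
    hbig T 0 (by omega) c₀ n 0 (load [Nat.bits x]) cur ∅ le_rfl le_rfl
    (fun s => by
      have := load_length_le [Nat.bits x] s
      have h2 : size [Nat.bits x] = n + c₀ + 3 := by simp [size, hbits]
      omega)
    (fun l hl => by simp [hcur]; omega)
    (by simp) (by simp) (by simp)
  refine ⟨θf, _, fun k hk => ?_, fun θ'' hθ'' hcon => a3 θ'' hθ'' ?_⟩
  · rw [a1 k (by omega)]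
    simp [hcur, hk]
  · have := hcon x
    rw [hbits] at this
    exact this

/-- World A. -/
theorem worldA : ∃ A : Set (List Bool),
    (∃ L, InSigma A 1 1 L ∧ ¬ InPi A 1 1 L) ∧
    (∃ (C : ℕ → ℕ → Prop) (ρ : ℕ → ℕ), OptProblem A 0 C ρ ∧ ¬ ComputedBounded A 0 C ρ) ∧
    ∀ (i : ℕ) (C : ℕ → ℕ → Prop) (ρ : ℕ → ℕ), OptProblem A i C ρ → Computed A i C ρ := by
  classical
  set E := brainA with hE
  obtain ⟨code, hcode⟩ := exists_surjective_nat
    ((Prog × Polynomial ℕ × Polynomial ℕ) ⊕ (Prog × Polynomial ℕ × Prog × Polynomial ℕ × ℕ))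
  let Req : ((Prog × Polynomial ℕ × Polynomial ℕ) ⊕
      (Prog × Polynomial ℕ × Prog × Polynomial ℕ × ℕ)) → (ℕ → Option (List Bool)) → Prop :=
    fun c θ => match c with
      | .inl (Q, q, p) => ¬ ∀ v : List (List Bool), v.length = 1 →
          (¬ langA E θ v ↔ sigE (join E (hid θ)) Q q [p] v)
      | .inr (P, p, Q, q, c₀) => ¬ ∀ x : ℕ, EnsuresBounded P (decO Q q (join E (hid θ)))
          (Answers (CA θ) id x) (fun _ w => Optimal (CA θ) id x (val w))
          (p.eval (Nat.bits x).length) c₀ 0 (load [Nat.bits x])
  have hstep : ∀ (θ : ℕ → Option (List Bool)) (n e : ℕ),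
      ∃ (θ' : ℕ → Option (List Bool)) (m : ℕ), (∀ k < n, θ' k = θ k) ∧
      ∀ θ'' : ℕ → Option (List Bool), (∀ k < m, θ'' k = θ' k) → Req (code e) θ'' := by
    intro θ n e
    rcases hc : code e with ⟨Q, q, p⟩ | ⟨P, p, Q, q, c₀⟩
    · exact stepNP E Q q p θ n
    · exact stepBounded E P p Q q c₀ θ n
  obtain ⟨θ, hθ⟩ := generic (α := Option (List Bool)) (fun e θ => Req (code e) θ)
    (fun _ => none) hstep
  refine ⟨join E (hid θ), ⟨_, search_inSigma E (hid θ) 0, fun h => ?_⟩,
    ⟨CA θ, id, optA θ, ?_⟩, computedA θ⟩
  · obtain ⟨Q, q, ps, h1, h2⟩ := exists_sigE 1 1 _ h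
    obtain ⟨p, rfl⟩ := List.length_eq_one_iff.1 h1
    obtain ⟨e, he⟩ := hcode (.inl (Q, q, p))
    have := hθ e
    rw [he] at this
    exact this h2
  · rintro ⟨O, P, p, c₀, hO, hP⟩
    obtain ⟨Q, q, ps, h1, h2⟩ := exists_sigE 0 1 _ hO
    have hps : ps = [] := List.eq_nil_of_length_eq_zero h1
    subst hps
    have hOe : O = decO Q q (join E (hid θ)) := by
      ext w
      have := h2 [w] rfl
      simp only [List.cons.injEq, and_true] at this
      unfold decO
      show _ ↔ sigE _ _ _ _ _
      rw [← this]
      constructor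
      · intro h; exact ⟨w, h, rfl⟩
      · rintro ⟨w', h, rfl⟩; exact h
    obtain ⟨e, he⟩ := hcode (.inr (P, p, Q, q, c₀))
    have := hθ e
    rw [he] at this
    refine this ?_
    rw [← hOe]
    exact hP

end Pool.Agent.Lib.MP_2b5695_lc
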