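import Pool.Agent.Lib.MP_2b5695_lc.WorldA

/-!
Finite extension argument; relative to a generic world A the classes NP and coNP differ.
-/

namespace Pool.Agent.Lib.MP_2b5695_lc

/-- finite extension construction -/
theorem generic {α : Type} (Req : ℕ → (ℕ → α) → Prop) (θ₀ : ℕ → α)
    (step : ∀ (θ : ℕ → α) (n e : ℕ), ∃ (θ' : ℕ → α) (m : ℕ), (∀ k < n, θ' k = θ k) ∧
      ∀ θ'' : ℕ → α, (∀ k < m, θ'' k = θ' k) → Req e θ'') : ∃ θ, ∀ e, Req e θ := by
  choose f g hf hg using step
  -- sequence of conditions
  let s : ℕ → (ℕ → α) × ℕ := fun e => Nat.rec (θ₀, 0)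
    (fun e p => (f p.1 p.2 e, max (g p.1 p.2 e) (p.2 + 1))) e
  have s_succ : ∀ e, s (e + 1) = (f (s e).1 (s e).2 e, max (g (s e).1 (s e).2 e) ((s e).2 + 1)) :=
    fun e => rfl
  have hn : ∀ e, e ≤ (s e).2 := by
    intro e
    induction e with
    | zero => exact Nat.zero_le _
    | succ e ih => rw [s_succ]; simp only; omega
  have hmono : ∀ e d, (s e).2 ≤ (s (e + d)).2 := by
    intro e d
    induction d with
    | zero => exact le_rfl
    | succ d ih => rw [← add_assoc, s_succ]; simp only; omega
  have hagree : ∀ e d k, k < (s e).2 → (s (e + d)).1 k = (s e).1 k := by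
    intro e d
    induction d with
    | zero => intro k _; rfl
    | succ d ih =>
      intro k hk
      rw [← add_assoc, s_succ]
      simp only
      rw [hf _ _ _ k (lt_of_lt_of_le hk (hmono e d)), ih k hk]
  refine ⟨fun k => (s (k + 1)).1 k, fun e => ?_⟩
  have hlim : ∀ e k, k < (s e).2 → (s (k + 1)).1 k = (s e).1 k := by
    intro e k hk
    rcases le_total e (k + 1) with h | h
    · obtain ⟨d, hd⟩ := Nat.exists_eq_add_of_le h
      rw [hd, hagree e d k hk]
    · obtain ⟨d, hd⟩ := Nat.exists_eq_add_of_le h
      rw [hd, hagree (k + 1) d k (by have := hn (k + 1); omega)]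
  refine hg (s e).1 (s e).2 e _ fun k hk => ?_
  have h1 : k < (s (e + 1)).2 := by rw [s_succ]; simp only; omega
  rw [hlim (e + 1) k h1, s_succ]

theorem exists_pow_gt (p : Polynomial ℕ) (n₀ : ℕ) : ∃ n, n₀ ≤ n ∧ p.eval n < 2 ^ n := by
  have key : ∀ p : Polynomial ℕ, ∃ N, ∀ n ≥ N, p.eval n < 2 ^ n := by
    intro p
    have h1 : Filter.Tendsto (fun n : ℕ => ((p.map (Nat.castRingHom ℝ)).eval (n : ℝ)) /
        (2 : ℝ) ^ n) Filter.atTop (nhds 0) := by
      have h2 : ∀ q : Polynomial ℝ, Filter.Tendsto (fun n : ℕ => (q.eval (n : ℝ)) /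
          (2 : ℝ) ^ n) Filter.atTop (nhds 0) := by
        intro q
        induction q using Polynomial.induction_on' with
        | add p q hp hq =>
          have := hp.add hq
          simp only [add_zero] at this
          refine this.congr fun n => ?_
          rw [Polynomial.eval_add, add_div]
        | monomial k c =>
          have h3 := (tendsto_pow_const_div_const_pow_of_one_lt k (r := (2 : ℝ))
            (by norm_num)).const_mul c
          rw [mul_zero] at h3
          refine h3.congr fun n => ?_
          rw [Polynomial.eval_monomial]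
          ring
      exact h2 _
    have h2 := h1.eventually (gt_mem_nhds (show (0 : ℝ) < 1 by norm_num))
    obtain ⟨N, hN⟩ := Filter.eventually_atTop.1 h2
    refine ⟨N, fun n hn => ?_⟩
    have h3 := hN n hn
    have h4 : (p.map (Nat.castRingHom ℝ)).eval (n : ℝ) = ((p.eval n : ℕ) : ℝ) := by
      rw [Polynomial.eval_map, ← Nat.coe_castRingHom, Polynomial.eval₂_at_apply]
    rw [h4, div_lt_one (by positivity)] at h3
    exact_mod_cast h3
  obtain ⟨N, hN⟩ := key p
  exact ⟨max N n₀, le_max_right _ _, hN _ (le_max_left _ _)⟩

theorem exists_word_not_mem (l : List (List Bool)) (n : ℕ) (h : l.length < 2 ^ n)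
    (f : List Bool → List Bool) (hf : Function.Injective f) :
    ∃ g : List Bool, g.length = n ∧ f g ∉ l := by
  classical
  by_contra hcon
  push Not at hcon
  have h1 : Fintype.card (List.Vector Bool n) = 2 ^ n := by simp
  have h2 : (Finset.univ.image fun g : List.Vector Bool n => f g.toList) ⊆ l.toFinset := by
    intro w hw
    obtain ⟨g, -, rfl⟩ := Finset.mem_image.1 hw
    exact List.mem_toFinset.2 (hcon g.toList g.toList_length)
  have h3 := Finset.card_le_card h2
  rw [Finset.card_image_of_injective, Finset.card_univ, h1] at h3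
  · have := l.toFinset_card_le
    omega
  · intro a b hab
    exact Subtype.ext (hf hab)

theorem cut_join_hid {E : Set (List Bool)} {θ θ' : ℕ → Option (List Bool)} {M : ℕ}
    (h : ∀ k < M, θ k = θ' k) : cut M (join E (hid θ)) = cut M (join E (hid θ')) := by
  have key : ∀ (θ θ' : ℕ → Option (List Bool)), (∀ k < M, θ k = θ' k) →
      cut M (join E (hid θ)) ⊆ cut M (join E (hid θ')) := by
    intro θ θ' h w hw
    obtain ⟨h1, h2⟩ := hw
    refine ⟨?_, h2⟩
    rcases w with _ | ⟨a, w⟩
    · exact absurd h1 nil_mem_join
    · cases a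
      · rw [false_mem_join] at h1 ⊢
        obtain ⟨n, g, h3, h4, h5⟩ := h1
        refine ⟨n, g, ?_, h4, h5⟩
        rw [← h n, h3]
        rw [h5] at h2
        simp [pad] at h2
        omega
      · rw [true_mem_join] at h1 ⊢
        exact h1
  exact Set.Subset.antisymm (key _ _ h) (key _ _ fun k hk => (h k hk).symm)

/-- the search language over world `θ` -/
def langA (E : Set (List Bool)) (θ : ℕ → Option (List Bool)) (v : List (List Bool)) : Prop :=
  ∃ w ∈ join E (searchSet (hid θ)), v = [w]

theorem stepNP (E : Set (List Bool)) (Q : Prog) (q p : Polynomial ℕ)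
    (θ : ℕ → Option (List Bool)) (n₀ : ℕ) :
    ∃ (θ' : ℕ → Option (List Bool)) (m : ℕ), (∀ k < n₀, θ' k = θ k) ∧
      ∀ θ'' : ℕ → Option (List Bool), (∀ k < m, θ'' k = θ' k) →
        ¬ ∀ v : List (List Bool), v.length = 1 →
          (¬ langA E θ'' v ↔ sigE (join E (hid θ'')) Q q [p] v) := by
  classical
  obtain ⟨n, hn₀, hn⟩ := exists_pow_gt (q.comp (Polynomial.X + 2 + p.comp (Polynomial.X + 2))) n₀
  simp only [Polynomial.eval_comp, Polynomial.eval_add, Polynomial.eval_X,
    Polynomial.eval_ofNat] at hn
  set θ₀ : ℕ → Option (List Bool) := fun k => if k < n₀ then θ k else none with hθ₀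
  set x : List Bool := false :: pad n with hx
  have hxl : x.length = n + 2 := by simp [hx, pad]
  have hsx : size [x] = n + 2 := by simp [size, hxl]
  set M := n + 2 + p.eval (n + 2) + q.eval (n + 2 + p.eval (n + 2)) + 1 with hM
  have hθ₀n : θ₀ n = none := by simp [hθ₀, hn₀]
  have hsz : ∀ u : List Bool, u.length ≤ p.eval (n + 2) →
      size [x, u] ≤ n + 2 + p.eval (n + 2) ∧
      q.eval (size [x, u]) ≤ q.eval (n + 2 + p.eval (n + 2)) := by
    intro u hu
    have h1 : size [x, u] ≤ n + 2 + p.eval (n + 2) := by
      simp [size, hxl]; omega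
    exact ⟨h1, eval_mono q h1⟩
  by_cases hcase : ∃ u : List Bool, u.length ≤ p.eval (n + 2) ∧
      ¬ sigE (join E (hid θ₀)) Q q [] [x, u]
  · obtain ⟨u, hu, hacc⟩ := hcase
    obtain ⟨hs1, hs2⟩ := hsz u hu
    have hlen := qrs_length_le (P := Q) (A := join E (hid θ₀)) (q.eval (size [x, u])) 0
      (load [x, u])
    obtain ⟨g, hg, hgq⟩ := exists_word_not_mem
      (qrs Q (join E (hid θ₀)) (q.eval (size [x, u])) 0 (load [x, u])) n (by omega)
      (fun g => false :: (g ++ pad n)) (by
        intro a b hab
        simp only [List.cons.injEq, true_and] at hab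
        exact (pad_inj hab).1)
    refine ⟨Function.update θ₀ n (some g), M, fun k hk => ?_, fun θ'' hθ'' => ?_⟩
    · rw [Function.update_of_ne (by omega)]
      simp [hθ₀, hk]
    · have hθn : θ'' n = some g := by
        rw [hθ'' n (by omega), Function.update_self]
      intro hcon
      have h1 := (hcon [x] rfl).2 ?_
      · apply h1
        refine ⟨x, ?_, rfl⟩
        rw [hx, false_mem_join]
        exact mem_search_pad.2 ⟨g, hθn, hg⟩
      · refine ⟨u, by rw [hsx]; exact hu, ?_⟩
        have hout : out Q (join E (hid θ'')) (q.eval (size [x, u])) 0 (load [x, u]) =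
            out Q (join E (hid θ₀)) (q.eval (size [x, u])) 0 (load [x, u]) := by
          refine out_congr _ _ _ fun qq hqq => ?_
          have hql := qrs_mem_length (q.eval (size [x, u])) 0 (load [x, u]) (size [x, u])
            (load_length_le _) qq hqq
          rcases qq with _ | ⟨a, w⟩
          · simp
          · cases a
            · rw [false_mem_join, false_mem_join]
              constructor
              · rintro ⟨k, g', h3, h4, rfl⟩
                have hkn : k ≠ n := by rintro rfl; rw [hθ₀n] at h3; cases h3
                have hkM : k < M := by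
                  simp [pad] at hql; omega
                refine ⟨k, g', ?_, h4, rfl⟩
                rw [hθ'' k hkM, Function.update_of_ne hkn, h3]
              · rintro ⟨k, g', h3, h4, rfl⟩
                have hkM : k < M := by
                  simp [pad] at hql; omega
                by_cases hkn : k = n
                · subst hkn
                  rw [hθn] at h3
                  cases h3
                  exact absurd hqq hgq
                · refine ⟨k, g', ?_, h4, rfl⟩
                  rw [hθ'' k hkM, Function.update_of_ne hkn] at h3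
                  exact h3
            · simp
        unfold sigE at hacc ⊢
        rw [List.cons_append, List.nil_append, hout]
        exact hacc
  · push Not at hcase
    refine ⟨θ₀, M, fun k hk => by simp [hθ₀, hk], fun θ'' hθ'' => ?_⟩
    have hθn : θ'' n = none := by rw [hθ'' n (by omega), hθ₀n]
    have hcut := cut_join_hid (E := E) hθ''
    intro hcon
    have h1 := (hcon [x] rfl).1 ?_
    · obtain ⟨u, hu, hacc⟩ := h1
      rw [hsx] at hu
      obtain ⟨hs1, hs2⟩ := hsz u hu
      apply hacc
      have h2 := hcase u hu
      have hout : out Q (join E (hid θ'')) (q.eval (size [x, u])) 0 (load [x, u]) =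
          out Q (join E (hid θ₀)) (q.eval (size [x, u])) 0 (load [x, u]) :=
        out_local hcut.symm (by omega)
      unfold sigE at h2 ⊢
      rw [List.cons_append, List.nil_append, hout]
      exact h2
    · rintro ⟨w, hw, hxw⟩
      obtain rfl : x = w := by simpa using hxw
      rw [hx, false_mem_join] at hw
      obtain ⟨g, h3, -⟩ := mem_search_pad.1 hw
      rw [hθn] at h3
      cases h3

end Pool.Agent.Lib.MP_2b5695_lc
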