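import Pool.Agent.Lib.MP_2b5695_lc.LvProg

/-!
A world in which the value of the alternating tree of each word `q` is a prescribed function of
`q` and the shorter words of the oracle.
-/

namespace Pool.Agent.Lib.MP_2b5695_lc

theorem codeW_inj' {i i' : ℕ} {v v' : List (List Bool)} (h : codeW i v = codeW i' v') :
    i = i' ∧ (v.length = v'.length → v = v') := by
  obtain ⟨h1, h2⟩ := replicate_false_inj h
  refine ⟨h1, fun hl => List.reverse_injective (cr_inj (by simp [hl]) h2)⟩

theorem NT_congr {A A' : Set (List Bool)} {i : ℕ} : ∀ (j : ℕ) (v : List (List Bool)),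
    (∀ us : List (List Bool), us.length = j → (codeW i (v ++ us) ∈ A ↔ codeW i (v ++ us) ∈ A')) →
    (NT A i j v ↔ NT A' i j v)
  | 0, v, h => by
    have := h [] rfl
    rw [List.append_nil] at this
    exact this
  | j + 1, v, h => by
    unfold NT
    refine exists_congr fun u => and_congr_right fun _ => not_congr (NT_congr j _ fun us hus => ?_)
    have := h (u :: us) (by simp [hus])
    simpa using this

/-- the words that are asked with a leading zero -/
def dpart (A : Set (List Bool)) : Set (List Bool) := {v | (false :: v) ∈ A}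

/-- parameters of the world -/
abbrev ParK := ℕ → Set (List Bool) × Set (List Bool)

/-- functional of the world -/
def funK (k : ℕ) (F : Set (List Bool)) (tr : List Bool → Set (List Bool) → Prop) (θ : ParK)
    (X : Set (List Bool)) (s : List Bool) : Prop :=
  match s with
  | [] => False
  | true :: v => v ∈ F
  | false :: v =>
    (∃ (i x y : ℕ) (us : List (List Bool)), i < k ∧ us.length = i ∧
      v = codeW i (Nat.bits x :: Nat.bits y :: us) ∧
      ((y = 0 ∧ ¬ Even i) ∨ (x < y ∧ Even i) ∨ (0 < y ∧ y ≤ x ∧ v ∈ (θ v.length).1))) ∨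
    (∃ (q : List Bool) (us : List (List Bool)), us.length = k ∧ v = codeW k (q :: us) ∧
      (((NT (θ q.length).2 k k [q] ↔ tr q (cut q.length X)) ∧ v ∈ (θ q.length).2) ∨
        (¬ (NT (θ q.length).2 k k [q] ↔ tr q (cut q.length X)) ∧
          (Even k ↔ tr q (cut q.length X)))))

/-- the world -/
def oraK (k : ℕ) (F : Set (List Bool)) (tr : List Bool → Set (List Bool) → Prop) (θ : ParK) :
    Set (List Bool) := fixSet (funK k F tr θ)

section world

variable {k : ℕ} {F : Set (List Bool)} {tr : List Bool → Set (List Bool) → Prop} {θ : ParK}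

theorem oraK_nil : [] ∉ oraK k F tr θ := by
  rw [oraK, mem_fixSet]
  exact id

theorem oraK_true {v : List Bool} : (true :: v) ∈ oraK k F tr θ ↔ v ∈ F := by
  rw [oraK, mem_fixSet]
  rfl

theorem oraK_diag {i x y : ℕ} {us : List (List Bool)} (hi : i < k) (hus : us.length = i) :
    (false :: codeW i (Nat.bits x :: Nat.bits y :: us)) ∈ oraK k F tr θ ↔
      ((y = 0 ∧ ¬ Even i) ∨ (x < y ∧ Even i) ∨ (0 < y ∧ y ≤ x ∧
        codeW i (Nat.bits x :: Nat.bits y :: us) ∈
          (θ (codeW i (Nat.bits x :: Nat.bits y :: us)).length).1)) := by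
  rw [oraK, mem_fixSet, ← oraK]
  constructor
  · rintro (⟨i', x', y', us', h1, h2, h3, h4⟩ | ⟨q, us', h1, h2, -⟩)
    · obtain ⟨rfl, h5⟩ := codeW_inj' h3
      have h6 := h5 (by simp [hus, h2])
      simp only [List.cons.injEq] at h6
      obtain ⟨h6, h7, h8⟩ := h6
      obtain rfl := bits_inj h6
      obtain rfl := bits_inj h7
      exact h4
    · obtain ⟨h5, -⟩ := codeW_inj' h2
      omega
  · intro h
    exact Or.inl ⟨i, x, y, us, hi, hus, rfl, h⟩

theorem oraK_code {q : List Bool} {us : List (List Bool)} (hus : us.length = k) :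
    (false :: codeW k (q :: us)) ∈ oraK k F tr θ ↔
      (((NT (θ q.length).2 k k [q] ↔ tr q (cut q.length (oraK k F tr θ))) ∧
        codeW k (q :: us) ∈ (θ q.length).2) ∨
        (¬ (NT (θ q.length).2 k k [q] ↔ tr q (cut q.length (oraK k F tr θ))) ∧
          (Even k ↔ tr q (cut q.length (oraK k F tr θ))))) := by
  have hl : q.length < (codeW k (q :: us)).length := codeW_length
  have hcut : cut q.length (cut (false :: codeW k (q :: us)).length (oraK k F tr θ)) =
      cut q.length (oraK k F tr θ) := cut_cut (by simp; omega) _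
  conv_lhs => rw [oraK, mem_fixSet, ← oraK]
  constructor
  · rintro (⟨i', x', y', us', h1, h2, h3, h4⟩ | ⟨q', us', h1, h2, h3⟩)
    · obtain ⟨h5, -⟩ := codeW_inj' h3
      omega
    · obtain ⟨-, h5⟩ := codeW_inj' h2
      have h6 := h5 (by simp [hus, h1])
      simp only [List.cons.injEq] at h6
      obtain ⟨rfl, rfl⟩ := h6
      rw [hcut] at h3
      exact h3
  · intro h
    refine Or.inr ⟨q, us, hus, rfl, ?_⟩
    rw [hcut]
    exact h

theorem oraK_other {v : List Bool}
    (h1 : ¬ ∃ (i x y : ℕ) (us : List (List Bool)), i < k ∧ us.length = i ∧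
      v = codeW i (Nat.bits x :: Nat.bits y :: us))
    (h2 : ¬ ∃ (q : List Bool) (us : List (List Bool)), us.length = k ∧ v = codeW k (q :: us)) :
    (false :: v) ∉ oraK k F tr θ := by
  rw [oraK, mem_fixSet, ← oraK]
  rintro (⟨i, x, y, us, h3, h4, h5, -⟩ | ⟨q, us, h3, h4, -⟩)
  · exact h1 ⟨i, x, y, us, h3, h4, h5⟩
  · exact h2 ⟨q, us, h3, h4⟩

/-- the value of the tree of `q` -/
theorem oraK_value (q : List Bool) : NT (dpart (oraK k F tr θ)) k k [q] ↔
    tr q (cut q.length (oraK k F tr θ)) := by
  by_cases hV : NT (θ q.length).2 k k [q] ↔ tr q (cut q.length (oraK k F tr θ))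
  · rw [← hV]
    refine NT_congr k [q] fun us hus => ?_
    show (false :: codeW k ([q] ++ us)) ∈ oraK k F tr θ ↔ _
    rw [List.singleton_append, oraK_code hus]
    simp only [hV, not_true_eq_false, false_and, or_false, true_and]
  · rw [NT_const (c := (Even k ↔ tr q (cut q.length (oraK k F tr θ))))]
    · tauto
    · intro us hus
      show (false :: codeW k ([q] ++ us)) ∈ oraK k F tr θ ↔ _
      rw [List.singleton_append, oraK_code hus]
      simp only [hV, false_and, false_or, not_false_eq_true, true_and]

/-- locality in the parameters -/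
theorem cut_oraK {θ' : ParK} {n : ℕ} (h : ∀ l < n, θ' l = θ l) :
    cut n (oraK k F tr θ') = cut n (oraK k F tr θ) := by
  have key : ∀ (n : ℕ) (θ θ' : ParK), (∀ l < n, θ' l = θ l) → ∀ w : List Bool, w.length < n →
      w ∈ oraK k F tr θ → w ∈ oraK k F tr θ' := by
    intro n
    induction n using Nat.strong_induction_on with
    | _ n ih =>
      intro θ θ' h w hw hmem
      rcases w with _ | ⟨a, v⟩
      · exact absurd hmem oraK_nil
      · cases a
        · simp only [List.length_cons] at hw
          by_cases h1 : ∃ (i x y : ℕ) (us : List (List Bool)), i < k ∧ us.length = i ∧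
              v = codeW i (Nat.bits x :: Nat.bits y :: us)
          · obtain ⟨i, x, y, us, hi, hus, rfl⟩ := h1
            rw [oraK_diag hi hus] at hmem ⊢
            rw [h _ (by omega)]
            exact hmem
          · by_cases h2 : ∃ (q : List Bool) (us : List (List Bool)), us.length = k ∧
                v = codeW k (q :: us)
            · obtain ⟨q, us, hus, rfl⟩ := h2
              have hl : q.length < (codeW k (q :: us)).length := codeW_length
              rw [oraK_code hus] at hmem ⊢
              have hc : cut q.length (oraK k F tr θ') = cut q.length (oraK k F tr θ) := by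
                ext z
                simp only [cut]
                constructor
                · rintro ⟨hz1, hz2⟩
                  exact ⟨ih q.length (by omega) θ' θ (fun i hi => (h i (by omega)).symm) z hz2 hz1,
                    hz2⟩
                · rintro ⟨hz1, hz2⟩
                  exact ⟨ih q.length (by omega) θ θ' (fun i hi => h i (by omega)) z hz2 hz1, hz2⟩
              rw [hc, h _ (by omega)]
              exact hmem
            · exact absurd hmem (oraK_other h1 h2)
        · rw [oraK_true] at hmem ⊢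
          exact hmem
  ext w
  simp only [cut]
  constructor
  · rintro ⟨h1, h2⟩
    exact ⟨key n θ' θ (fun k hk => (h k hk).symm) w h2 h1, h2⟩
  · rintro ⟨h1, h2⟩
    exact ⟨key n θ θ' h w h2 h1, h2⟩

end world

/-- the feasible solutions at level `i`, relative to the oracle `A` -/
def CLD (A : Set (List Bool)) (i x y : ℕ) : Prop :=
  ¬ NT (dpart A) i i [Nat.bits x, Nat.bits y]

section opt

variable {k : ℕ} {F : Set (List Bool)} {tr : List Bool → Set (List Bool) → Prop} {θ : ParK}

theorem CLD_zero {i : ℕ} (hi : i < k) (x : ℕ) : CLD (oraK k F tr θ) i x 0 := by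
  unfold CLD
  rw [NT_const (c := ¬ Even i)]
  · tauto
  · intro us hus
    show (false :: codeW i (Nat.bits x :: Nat.bits 0 :: us)) ∈ oraK k F tr θ ↔ _
    rw [oraK_diag hi hus]
    simp

theorem CLD_le {i : ℕ} (hi : i < k) (x y : ℕ) (h : CLD (oraK k F tr θ) i x y) : y ≤ x := by
  by_contra hxy
  apply h
  rw [NT_const (c := Even i)]
  · tauto
  · intro us hus
    show (false :: codeW i (Nat.bits x :: Nat.bits y :: us)) ∈ oraK k F tr θ ↔ _
    rw [oraK_diag hi hus]
    have h1 : y ≠ 0 := by omega
    have h2 : x < y := by omega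
    have h3 : ¬ y ≤ x := by omega
    simp [h1, h2, h3]

theorem NTD_inSigma (A : Set (List Bool)) (i : ℕ) : ∀ (k r : ℕ), r + k = i + 2 →
    InSigma A k r (NT (dpart A) i k)
  | 0, r, h => by
    obtain rfl : r = i + 2 := by omega
    exact prog1_inP A i
  | k + 1, r, h => ⟨NT (dpart A) i k, Polynomial.X, NTD_inSigma A i k (r + 1) (by omega),
      fun v _ => Iff.rfl⟩

theorem optK {i : ℕ} (hi : i < k) :
    OptProblem (oraK k F tr θ) i (CLD (oraK k F tr θ) i) id := by
  refine ⟨CLD_zero hi, CLD_le hi, ?_, ?_⟩
  · refine ⟨[.halt true], 1, fun y => ?_⟩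
    rw [Polynomial.eval_one]
    refine ens_halt rfl ?_
    exact val_bits y
  · refine ⟨fun v => ¬ NT (dpart (oraK k F tr θ)) i i v, ?_, fun x y => Iff.rfl⟩
    unfold InPi
    simp only [not_not]
    exact NTD_inSigma _ i i 2 (by omega)

end opt

end Pool.Agent.Lib.MP_2b5695_lc
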