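import Pool.Agent.Lib.MP_2b5695_lc.LvStage
import Pool.Agent.Lib.MP_2b5695_lc.Generic

/-!
One oracle for all levels.
-/

namespace Pool.Agent.Lib.MP_2b5695_lc

/-- the machine `P` with oracle `(Q, q, ps)` wins against all adversaries on the input `x`,
relative to the oracle built from `E` -/
def Wins (P : Prog) (p : Polynomial ℕ) (Q : Prog) (q : Polynomial ℕ) (ps : List (Polynomial ℕ))
    (E : Set (List Bool)) (x : ℕ) : Prop :=
  Ensures P {v | sigE (wd E) Q q ps [v]} (Answers (CL (wd E) ps.length) id x)
    (fun _ v => Optimal (CL (wd E) ps.length) id x (val v)) (p.eval (Nat.bits x).length) 0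
    (load [Nat.bits x])

/-- the stage for levels `k + 1` -/
theorem stage_succ (P Q : Prog) (p q : Polynomial ℕ) (ps : List (Polynomial ℕ)) (k : ℕ)
    (hps : ps.length = k + 1) (θ : ℕ → Set (List Bool)) (n₁ : ℕ) :
    ∃ (x : ℕ) (E : Set (List Bool)), (∀ s : List Bool, s.length < n₁ → (s ∈ E ↔ s ∈ θ s.length)) ∧
      ¬ Wins P p Q q ps E x := by
  classical
  -- polynomials
  set Tp : Polynomial ℕ := p.comp (Polynomial.X + 1) with hTp
  set Sp : Polynomial ℕ := bdP ps (Polynomial.X + 1 + Tp) with hSp
  set tp : Polynomial ℕ := q.comp Sp + (Sp + 1) * ((ps.length + 1 : ℕ) : Polynomial ℕ) + 2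
    with htp
  set gp : Polynomial ℕ := (40 * tp + 1) *
    (Polynomial.X * ((k + 2 : ℕ) : Polynomial ℕ) + 2) with hgp
  set wp : Polynomial ℕ := (Tp + 1) * (Tp * (tp + 1) + 1) + tp + 1 with hwp
  obtain ⟨n, hn₁, hn⟩ := exists_pow_gt (wp * gp ^ k) n₁
  -- their values
  obtain ⟨T, hT⟩ : ∃ T, T = p.eval (n + 1) := ⟨_, rfl⟩
  obtain ⟨Λ, hΛ⟩ : ∃ Λ, Λ = n + 1 + T := ⟨_, rfl⟩
  obtain ⟨S, hS⟩ : ∃ S, S = bdl ps Λ := ⟨_, rfl⟩
  obtain ⟨t, ht⟩ : ∃ t, t = q.eval S + (S + 1) * (ps.length + 1) + 2 := ⟨_, rfl⟩
  obtain ⟨g, hg⟩ : ∃ g, g = (5 * (8 * t) + 1) * (n * (k + 2) + 2) := ⟨_, rfl⟩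
  obtain ⟨w, hw⟩ : ∃ w, w = (T + 1) * (T * (t + 1) + 1) + t + 1 := ⟨_, rfl⟩
  have e1 : Tp.eval n = T := by
    rw [hTp, Polynomial.eval_comp, hT]; simp
  have e2 : Sp.eval n = S := by
    rw [hSp, eval_bdP, hS, hΛ]
    simp [e1]
  have e3 : tp.eval n = t := by
    rw [htp, ht]
    simp [Polynomial.eval_comp, e2]
  have e4 : gp.eval n = g := by
    rw [hgp, hg]
    simp only [Polynomial.eval_mul, Polynomial.eval_add, Polynomial.eval_ofNat, e3,
      Polynomial.eval_one, Polynomial.eval_X, Polynomial.eval_natCast, Nat.cast_id]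
    ring
  have e5 : wp.eval n = w := by
    rw [hwp, hw]
    simp [e1, e3]
  have hbig : w * g ^ k < 2 ^ n := by
    have := hn
    simp only [Polynomial.eval_mul, Polynomial.eval_pow, e4, e5] at this
    exact this
  have hw0 : 0 < w := by omega
  have ht2 : 2 ≤ t := by omega
  have hg0 : 0 < g := by rw [hg]; positivity
  have hwt : t < w := by omega
  set x : ℕ := 2 ^ n with hx
  have hxb : (Nat.bits x).length = n + 1 := bits_two_pow n
  -- decoding
  set τ : ℕ → Ut (Fin w) (Fin g) k := dcd hw0 hg0 k with hτdef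
  have hτ : ∀ u : Ut (Fin w) (Fin g) k, ∃ b : List Bool,
      b.length ≤ (Nat.bits x).length ∧ τ (val b) = u := by
    intro u
    obtain ⟨m, hm, hmu⟩ := dcd_surj hw0 hg0 k u
    refine ⟨Nat.bits m, bits_len_mono (by omega), ?_⟩
    rw [val_bits]
    exact hmu
  haveI : Nonempty (Fin w) := ⟨⟨0, hw0⟩⟩
  -- the rounds
  obtain ⟨Φ, alive, r1, r2, r3⟩ := rounds (W := Fin w) (G := Fin g) (K := 8 * t) (t := t)
    (h := n * (k + 2) + 2) (M := 2 ^ ((S + 1) * (ps.length + 1))) (by omega) (by omega)
    (by rw [Nat.card_eq_fintype_card, Fintype.card_fin, hg])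
    (by
      have h1 : (8 * t) ^ t = 2 ^ t * (4 * t) ^ t := by
        rw [← mul_pow]; congr 1; ring
      rw [h1]
      refine Nat.mul_le_mul_right _ ?_
      calc 4 * 2 ^ ((S + 1) * (ps.length + 1)) = 2 ^ ((S + 1) * (ps.length + 1) + 2) := by ring
        _ ≤ 2 ^ t := Nat.pow_le_pow_right (by norm_num) (by omega))
    k
    (by
      rw [card_Ut, Nat.card_eq_fintype_card, Nat.card_eq_fintype_card, Fintype.card_fin,
        Fintype.card_fin]
      calc 4 * (w * g ^ k) ^ (k + 2) ≤ 4 * (2 ^ n) ^ (k + 2) := by gcongr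
        _ = 2 ^ (n * (k + 2) + 2) := by rw [← pow_mul]; ring)
    (fam τ θ n₁ x (k + 1) Q q ps) (nds ps Λ)
    (fun m => by rw [hS]; exact card_nds ps Λ m)
    (fam_zero τ θ n₁ x (k + 1) Q q ps Λ (by rw [← hS]; omega))
    (fun m hm => fam_succ τ θ n₁ x (k + 1) Q q ps Λ m (by omega))
  -- the game
  let zz : (Fin w → Fin w → Bool) → (Nd (Fin w) 2 → Bool) := fun z v => z v.1.2 v.2
  let Es : (Fin w → Fin w → Bool) → Set (List Bool) := fun z =>
    stg τ θ n₁ x (k + 1) (Φ (zz z))
  let D : GameData (Fin w → Bool) w :=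
    { fe := fun r => ∀ u, r u = true
      r1 := fun _ => true
      r0 := fun _ => false
      C := fun z => CL (wd (Es z)) (k + 1)
      x := x
      κ := fun y => if y ≤ x ∧ alive (τ (y - 1)) then some (Ut.base k (τ (y - 1))) else none
      O := fun z => {v | sigE (wd (Es z)) Q q ps [v]}
      Λ := Λ
      τ := t
      hr1 := fun _ => rfl
      hr0 := fun h => by simpa using h ⟨0, hw0⟩
      hC0 := fun z => CL_zero _ _ _
      hC := by
        intro z y hy
        by_cases hyx : y ≤ x
        · rw [CL_stg (by omega) hτ hy hyx]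
          have h1 := r2 (zz z) (τ (y - 1))
          have h2 : rv (k + 1) (Φ (zz z)) (τ (y - 1)) = false ↔
              (alive (τ (y - 1)) ∧ rv 1 (zz z) (Ut.base k (τ (y - 1))) = false) := by
            rw [← Bool.not_eq_true, ← Bool.not_eq_true, h1]
            push Not
            rfl
          rw [h2]
          have h3 : rv 1 (zz z) (Ut.base k (τ (y - 1))) = false ↔
              ∀ u, z (Ut.base k (τ (y - 1))) u = true := by
            show col (P := Nd (Fin w) 1) (U := Fin w) (zz z) ((), _) = false ↔ _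
            rw [col_false]
          rw [h3]
          constructor
          · rintro ⟨h4, h5⟩
            exact ⟨_, if_pos ⟨hyx, h4⟩, h5⟩
          · rintro ⟨r, h4, h5⟩
            by_cases h6 : y ≤ x ∧ alive (τ (y - 1))
            · rw [if_pos h6] at h4
              obtain rfl := Option.some.inj h4
              exact ⟨h6.2, h5⟩
            · rw [if_neg h6] at h4
              cases h4
        · constructor
          · intro h
            exact absurd (CL_le _ _ _ _ h) hyx
          · rintro ⟨r, h4, -⟩
            rw [if_neg (fun h => hyx h.1)] at h4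
            cases h4
      hmono := by
        intro y y' r r' h1 h2 h3
        by_cases h4 : y ≤ x ∧ alive (τ (y - 1))
        · by_cases h5 : y' ≤ x ∧ alive (τ (y' - 1))
          · rw [if_pos h4] at h1
            rw [if_pos h5] at h2
            by_contra hcon
            have h6 : y' - 1 ≤ y - 1 := by omega
            have h7 := base_dcd_mono hw0 hg0 k h6
            rw [← Option.some.inj h1, ← Option.some.inj h2] at h3
            exact absurd h3 (not_lt.2 h7)
          · rw [if_neg h5] at h2
            cases h2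
        · rw [if_neg h4] at h1
          cases h1
      hsurj := by
        intro r
        obtain ⟨y₀, hy₀, hal⟩ := r3 r
        obtain ⟨m, hm, hmu⟩ := dcd_surj hw0 hg0 k y₀
        refine ⟨m + 1, by omega, by omega, ?_⟩
        have h1 : τ (m + 1 - 1) = y₀ := hmu
        rw [h1, if_pos ⟨by omega, hal⟩, hy₀]
      hO := by
        intro v hv S₀ z₀
        have hcert := r1 [v] (by rw [← hps]; exact mem_nds_top ps Λ hv)
        have hOz : ∀ z, v ∈ {v | sigE (wd (Es z)) Q q ps [v]} ↔
            fam τ θ n₁ x (k + 1) Q q ps (k + 1) [v] (Φ (zz z)) := by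
          intro z
          have h1 := fam_top τ θ n₁ x (k + 1) Q q ps (Φ (zz z)) [v]
          rw [hps] at h1
          exact h1.symm
        by_cases hex : ∃ z : Fin w → Fin w → Bool, (∀ r ∈ S₀, z r = z₀ r) ∧
            fam τ θ n₁ x (k + 1) Q q ps (k + 1) [v] (Φ (zz z))
        · obtain ⟨z, hz, hzO⟩ := hex
          obtain ⟨X, hX, hXc⟩ := hcert (zz z) hzO
          have htrue : ∀ z'' : Fin w → Fin w → Bool,
              (∀ r ∈ S₀ ∪ X.image (fun x => x.1.2), z'' r =
                (if r ∈ S₀ then z₀ r else fun u => if (((), r), u) ∈ X then z r u else false)) →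
              v ∈ {v | sigE (wd (Es z'')) Q q ps [v]} := by
            intro z'' hz''
            rw [hOz]
            refine hXc (zz z'') fun y hy => ?_
            have h1 := hz'' y.1.2 (Finset.mem_union_right _ (Finset.mem_image_of_mem _ hy))
            show z'' y.1.2 y.2 = z y.1.2 y.2
            rw [h1]
            by_cases h2 : y.1.2 ∈ S₀
            · rw [if_pos h2, hz _ h2]
            · rw [if_neg h2]
              have h3 : (((), y.1.2), y.2) ∈ X := hy
              simp only [h3, if_true]
          refine ⟨S₀ ∪ X.image (fun x => x.1.2), fun r => if r ∈ S₀ then z₀ r else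
            fun u => if (((), r), u) ∈ X then z r u else false, Finset.subset_union_left,
            ?_, fun r hr => by simp only [hr, if_true], fun r hr hr' hfe => ?_,
            fun z'' hz'' => iff_of_true (htrue z'' hz'') (htrue _ fun r _ => rfl)⟩
          · refine (Finset.card_union_le _ _).trans (Nat.add_le_add_left ?_ _)
            exact Finset.card_image_le.trans hX
          · simp only [hr', if_false] at hfe
            have hcard : (X.image fun x => x.2).card < Fintype.card (Fin w) := by
              rw [Fintype.card_fin]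
              exact (Finset.card_image_le.trans hX).trans_lt hwt
            obtain ⟨u, hu⟩ : ∃ u : Fin w, u ∉ X.image fun x => x.2 := by
              by_contra hcon
              push Not at hcon
              have : (X.image fun x => x.2) = Finset.univ :=
                Finset.eq_univ_iff_forall.2 hcon
              rw [this, Finset.card_univ] at hcard
              exact lt_irrefl _ hcard
            have h4 := hfe u
            have h5 : (((), r), u) ∉ X := fun hc => hu (Finset.mem_image.2 ⟨_, hc, rfl⟩)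
            simp only [h5, if_false] at h4
            cases h4
        · push Not at hex
          refine ⟨S₀, z₀, Finset.Subset.refl _, Nat.le_add_right _ _, fun _ _ => rfl,
            fun r hr hr' => absurd hr hr', fun z hz => iff_of_false ?_ ?_⟩
          · rw [hOz]; exact hex z hz
          · rw [hOz]; exact hex z₀ fun _ _ => rfl }
  obtain ⟨z, hz⟩ := D.lose P (T := T) (B := T * (t + 1)) rfl (by
    show (T + 1) * (T * (t + 1) + 1) ≤ w
    omega) (by
    show (Nat.bits x).length + T ≤ Λ
    omega)
  refine ⟨x, Es z, fun s hs => ?_, ?_⟩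
  · constructor
    · rintro (⟨-, h⟩ | ⟨h, -⟩)
      · exact h
      · omega
    · intro h
      exact Or.inl ⟨hs, h⟩
  · unfold Wins
    rw [hps, hxb, ← hT]
    exact hz

/-- the stage for level `0` -/
theorem stage_zero (P Q : Prog) (p q : Polynomial ℕ) (θ : ℕ → Set (List Bool)) (n₁ : ℕ) :
    ∃ (x : ℕ) (E : Set (List Bool)), (∀ s : List Bool, s.length < n₁ → (s ∈ E ↔ s ∈ θ s.length)) ∧
      ¬ Wins P p Q q [] E x := by
  classical
  set Tp : Polynomial ℕ := p.comp (Polynomial.X + 1) with hTp
  set tp : Polynomial ℕ := q.comp (Polynomial.X + 1 + Tp) with htp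
  set wp : Polynomial ℕ := (Tp + 1) * (Tp * (tp + 1) + 1) with hwp
  obtain ⟨n, hn₁, hn⟩ := exists_pow_gt wp n₁
  obtain ⟨T, hT⟩ : ∃ T, T = p.eval (n + 1) := ⟨_, rfl⟩
  obtain ⟨Λ, hΛ⟩ : ∃ Λ, Λ = n + 1 + T := ⟨_, rfl⟩
  obtain ⟨t, ht⟩ : ∃ t, t = q.eval Λ := ⟨_, rfl⟩
  obtain ⟨w, hw⟩ : ∃ w, w = (T + 1) * (T * (t + 1) + 1) := ⟨_, rfl⟩
  have e1 : Tp.eval n = T := by
    rw [hTp, Polynomial.eval_comp, hT]; simp
  have e3 : tp.eval n = t := by
    rw [htp, ht, Polynomial.eval_comp, hΛ]
    simp [e1]
  have e5 : wp.eval n = w := by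
    rw [hwp, hw]
    simp [e1, e3]
  have hbig : w < 2 ^ n := by rw [← e5]; exact hn
  have hw0 : 0 < w := by rw [hw]; positivity
  set x : ℕ := 2 ^ n with hx
  have hxb : (Nat.bits x).length = n + 1 := bits_two_pow n
  set τ : ℕ → Ut (Fin w) (Fin 1) 0 := dcd hw0 Nat.one_pos 0 with hτdef
  have hτ : ∀ u : Ut (Fin w) (Fin 1) 0, ∃ b : List Bool,
      b.length ≤ (Nat.bits x).length ∧ τ (val b) = u := by
    intro u
    obtain ⟨m, hm, hmu⟩ := dcd_surj hw0 Nat.one_pos 0 u
    refine ⟨Nat.bits m, bits_len_mono ?_, ?_⟩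
    · rw [pow_zero, mul_one] at hm
      omega
    · rw [val_bits]
      exact hmu
  let Es : (Fin w → Bool) → Set (List Bool) := fun z =>
    stg τ θ n₁ x 0 (fun v => z v.2)
  let D : GameData Bool w :=
    { fe := fun b => b = false
      r1 := false
      r0 := true
      C := fun z => CL (wd (Es z)) 0
      x := x
      κ := fun y => if y ≤ x then some (τ (y - 1)) else none
      O := fun z => {v | sigE (wd (Es z)) Q q [] [v]}
      Λ := Λ
      τ := t
      hr1 := rfl
      hr0 := by simp
      hC0 := fun z => CL_zero _ _ _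
      hC := by
        intro z y hy
        by_cases hyx : y ≤ x
        · rw [CL_stg (by omega) hτ hy hyx, if_pos hyx]
          constructor
          · intro h
            exact ⟨_, rfl, h⟩
          · rintro ⟨r, h1, h2⟩
            obtain rfl := Option.some.inj h1
            exact h2
        · constructor
          · intro h
            exact absurd (CL_le _ _ _ _ h) hyx
          · rintro ⟨r, h4, -⟩
            rw [if_neg hyx] at h4
            cases h4
      hmono := by
        intro y y' r r' h1 h2 h3
        by_cases h4 : y ≤ x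
        · by_cases h5 : y' ≤ x
          · rw [if_pos h4] at h1
            rw [if_pos h5] at h2
            by_contra hcon
            have h6 : y' - 1 ≤ y - 1 := by omega
            have h7 := base_dcd_mono hw0 Nat.one_pos 0 h6
            rw [← Option.some.inj h1, ← Option.some.inj h2] at h3
            exact absurd h3 (not_lt.2 h7)
          · rw [if_neg h5] at h2
            cases h2
        · rw [if_neg h4] at h1
          cases h1
      hsurj := by
        intro r
        obtain ⟨m, hm, hmu⟩ := dcd_surj hw0 Nat.one_pos 0 r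
        rw [pow_zero, mul_one] at hm
        refine ⟨m + 1, by omega, by omega, ?_⟩
        have h1 : τ (m + 1 - 1) = r := hmu
        rw [h1, if_pos (by omega)]
      hO := by
        intro v hv S₀ z₀
        have hsz : q.eval (size [v]) ≤ t := by
          rw [ht]
          exact eval_mono q (by simpa [size] using hv)
        have hcert := (cert_out (τ := τ) (θ := θ) (n₁ := n₁) (x := x) (i := 0) Q
          (q.eval (size [v])) [v]).mono hsz
        obtain ⟨X, hX, hXc⟩ := hcert (fun u : Nd (Ut (Fin w) (Fin 1) 0) 1 =>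
          if u.2 ∈ S₀ then z₀ u.2 else true)
        refine ⟨S₀ ∪ X.image (fun u => u.2), fun r => if r ∈ S₀ then z₀ r else true,
          Finset.subset_union_left, ?_, fun r hr => if_pos hr, fun r _ hr' => ?_,
          fun z hz => ?_⟩
        · refine (Finset.card_union_le _ _).trans (Nat.add_le_add_left ?_ _)
          exact Finset.card_image_le.trans hX
        · simp [hr']
        · refine hXc (fun u => z u.2) fun u hu => ?_
          exact hz u.2 (Finset.mem_union_right _ (Finset.mem_image_of_mem _ hu)) }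
  obtain ⟨z, hz⟩ := D.lose P (T := T) (B := T * (t + 1)) rfl (by
    show (T + 1) * (T * (t + 1) + 1) ≤ w
    omega) (by
    show (Nat.bits x).length + T ≤ Λ
    omega)
  refine ⟨x, Es z, fun s hs => ?_, ?_⟩
  · constructor
    · rintro (⟨-, h⟩ | ⟨h, -⟩)
      · exact h
      · omega
    · intro h
      exact Or.inl ⟨hs, h⟩
  · unfold Wins
    rw [hxb, ← hT]
    exact hz

/-! ### dependence on short words only -/

theorem cut_wd {E E' : Set (List Bool)} {m : ℕ}
    (h : ∀ s : List Bool, s.length < m → (s ∈ E ↔ s ∈ E')) : cut m (wd E) = cut m (wd E') := by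
  have key : ∀ {E E' : Set (List Bool)},
      (∀ s : List Bool, s.length < m → (s ∈ E ↔ s ∈ E')) → cut m (wd E) ⊆ cut m (wd E') := by
    rintro E E' h s ⟨⟨i, x, y, us, h1, h2, h3⟩, hs⟩
    refine ⟨⟨i, x, y, us, h1, h2, ?_⟩, hs⟩
    rw [← h s hs]
    exact h3
  exact Set.Subset.antisymm (key h) (key fun s hs => (h s hs).symm)

theorem NT_local (i : ℕ) : ∀ (k : ℕ) (v : List (List Bool)), ∃ m : ℕ,
    ∀ A A' : Set (List Bool), cut m A = cut m A' → (NT A i k v ↔ NT A' i k v)
  | 0, v => ⟨(codeW i v).length + 1, fun A A' h => mem_iff_of_cut h (Nat.lt_succ_self _)⟩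
  | k + 1, v => by
    choose m hm using fun u : List Bool => NT_local i k (v ++ [u])
    refine ⟨(wordsF ((Polynomial.X : Polynomial ℕ).eval (size v))).sup m, fun A A' h => ?_⟩
    unfold NT
    refine exists_congr fun u => and_congr_right fun hu => not_congr (hm u A A' ?_)
    exact cut_eq_of_le h (Finset.le_sup (f := m) (mem_wordsF hu))

theorem CL_local (i x : ℕ) : ∃ m : ℕ, ∀ E E' : Set (List Bool),
    (∀ s : List Bool, s.length < m → (s ∈ E ↔ s ∈ E')) →
    ∀ y, (CL (wd E) i x y ↔ CL (wd E') i x y) := by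
  choose m hm using fun y : ℕ => NT_local i i [Nat.bits x, Nat.bits y]
  refine ⟨(Finset.range (x + 1)).sup m, fun E E' h y => ?_⟩
  by_cases hy : y ≤ x
  · refine not_congr (hm y _ _ ?_)
    refine cut_eq_of_le (cut_wd h) (Finset.le_sup (f := m) ?_)
    rw [Finset.mem_range]
    omega
  · exact iff_of_false (fun hc => hy (CL_le _ _ _ _ hc)) fun hc => hy (CL_le _ _ _ _ hc)

theorem ens_congr {P : Prog} {O O' : Set (List Bool)} {C C' : ℕ → ℕ → Prop} {x Λ : ℕ}
    (hC : ∀ y, C x y ↔ C' x y) (hO : ∀ v : List Bool, v.length ≤ Λ → (v ∈ O ↔ v ∈ O')) :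
    ∀ (t pc : ℕ) (stk : ℕ → List Bool), (∀ s, (stk s).length + t ≤ Λ) →
      (Nat.bits x).length + t ≤ Λ →
      Ensures P O (Answers C id x) (fun _ v => Optimal C id x (val v)) t pc stk →
      Ensures P O' (Answers C' id x) (fun _ v => Optimal C' id x (val v)) t pc stk
  | 0, pc, stk, _, _, h => h.elim
  | t + 1, pc, stk, h1, h2, h => by
    have ih := fun pc stk => ens_congr (P := P) (O := O) (O' := O') hC hO t pc stk
    have hopt : ∀ y, Optimal C id x y ↔ Optimal C' id x y := by
      intro y
      unfold Optimal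
      rw [hC y]
      refine and_congr_right fun _ => forall_congr' fun z => ?_
      rw [hC z]
    have hrel : ∀ y z, RelB C id x y z ↔ RelB C' id x y z := by
      intro y z
      unfold RelB
      rw [hC y, hC z]
    unfold Ensures at h ⊢
    cases hP : P[pc]? with
    | none => rw [hP] at h; exact h
    | some ins =>
      rw [hP] at h
      cases ins with
      | push s b l =>
        refine ih l _ (fun s' => ?_) (by omega) h
        by_cases hs : s' = s
        · subst hs; rw [Function.update_self]; have := h1 s'; simp; omega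
        · rw [Function.update_of_ne hs]; have := h1 s'; omega
      | pop s l₀ l₁ e =>
        dsimp only at h ⊢
        cases hs : stk s with
        | nil =>
          rw [hs] at h
          exact ih e stk (fun s' => by have := h1 s'; omega) (by omega) h
        | cons b w =>
          have hup : ∀ s', (Function.update stk s w s').length + t ≤ Λ := by
            intro s'
            by_cases h' : s' = s
            · subst h'; rw [Function.update_self]; have := h1 s'; rw [hs] at this
              simp at this; omega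
            · rw [Function.update_of_ne h']; have := h1 s'; omega
          rw [hs] at h
          cases b
          · exact ih l₀ _ hup (by omega) h
          · exact ih l₁ _ hup (by omega) h
      | query s y n =>
        have hs : ∀ s', (stk s').length + t ≤ Λ := fun s' => by have := h1 s'; omega
        have hq := hO (stk s) (by have := h1 s; omega)
        exact ⟨fun hh => ih y stk hs (by omega) (h.1 (hq.2 hh)),
          fun hh => ih n stk hs (by omega) (h.2 fun hc => hh (hq.1 hc))⟩
      | present s y n =>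
        refine ⟨fun hh => ih y stk (fun s' => by have := h1 s'; omega) (by omega)
          (h.1 ((hopt _).2 hh)), fun z hz => ?_⟩
        refine ih n _ (fun s' => ?_) (by omega)
          (h.2 z ⟨hz.1, fun hc => hz.2 ((hrel _ _).1 hc)⟩)
        by_cases hs : s' = s
        · subst hs; rw [Function.update_self]; have := bits_len_mono hz.1; omega
        · rw [Function.update_of_ne hs]; have := h1 s'; omega
      | halt b => exact (hopt _).1 h

theorem wins_local (P : Prog) (p : Polynomial ℕ) (Q : Prog) (q : Polynomial ℕ)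
    (ps : List (Polynomial ℕ)) (x : ℕ) : ∃ m : ℕ, ∀ E E' : Set (List Bool),
      (∀ s : List Bool, s.length < m → (s ∈ E ↔ s ∈ E')) →
      Wins P p Q q ps E x → Wins P p Q q ps E' x := by
  obtain ⟨m₁, hm₁⟩ := CL_local ps.length x
  obtain ⟨b, hb⟩ := sigE_local Q q ps
  set T := p.eval (Nat.bits x).length with hT
  set Λ := (Nat.bits x).length + T with hΛ
  refine ⟨max m₁ (b.eval Λ), fun E E' h hw => ?_⟩
  unfold Wins at hw ⊢
  refine ens_congr (hm₁ E E' fun s hs => h s (by omega)) (Λ := Λ) (fun v hv => ?_) T 0 _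
    (fun s => ?_) le_rfl hw
  · refine hb _ _ _ (cut_eq_of_le (cut_wd h) ?_)
    refine (eval_mono b ?_).trans (le_max_right _ _)
    simpa [size] using hv
  · have := load_length_le [Nat.bits x] s
    have h2 : size [Nat.bits x] = (Nat.bits x).length := by simp [size]
    omega

/-! ### the oracle -/

/-- codes of all requirements -/
abbrev Code := Prog × Polynomial ℕ × Prog × Polynomial ℕ × List (Polynomial ℕ)

theorem exists_oracle : ∃ E : Set (List Bool), ∀ (P : Prog) (p : Polynomial ℕ) (Q : Prog)
    (q : Polynomial ℕ) (ps : List (Polynomial ℕ)), ∃ x, ¬ Wins P p Q q ps E x := by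
  classical
  obtain ⟨f, hf⟩ : ∃ f : ℕ → Code, Function.Surjective f := exists_surjective_nat Code
  obtain ⟨θ, hθ⟩ := generic
    (fun e (θ : ℕ → Set (List Bool)) => ∃ x, ¬ Wins (f e).1 (f e).2.1 (f e).2.2.1 (f e).2.2.2.1
      (f e).2.2.2.2 {s | s ∈ θ s.length} x) (fun _ => ∅) (by
    intro θ n e
    obtain ⟨x, E, hE, hx⟩ : ∃ (x : ℕ) (E : Set (List Bool)),
        (∀ s : List Bool, s.length < n → (s ∈ E ↔ s ∈ θ s.length)) ∧
        ¬ Wins (f e).1 (f e).2.1 (f e).2.2.1 (f e).2.2.2.1 (f e).2.2.2.2 E x := by
      rcases hps : (f e).2.2.2.2 with _ | ⟨p₀, ps⟩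
      · exact stage_zero _ _ _ _ θ n
      · exact stage_succ _ _ _ _ (p₀ :: ps) ps.length rfl θ n
    obtain ⟨m, hm⟩ := wins_local (f e).1 (f e).2.1 (f e).2.2.1 (f e).2.2.2.1 (f e).2.2.2.2 x
    refine ⟨fun k => if k < n then θ k else E, m, fun k hk => if_pos hk, fun θ'' hθ'' =>
      ⟨x, fun hw => hx (hm _ _ (fun s hs => ?_) hw)⟩⟩
    show s ∈ θ'' s.length ↔ s ∈ E
    rw [hθ'' _ hs]
    by_cases hsn : s.length < n
    · simp only [hsn, if_true]
      exact (hE s hsn).symm
    · simp only [hsn, if_false])
  refine ⟨{s | s ∈ θ s.length}, fun P p Q q ps => ?_⟩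
  obtain ⟨e, he⟩ := hf (P, p, Q, q, ps)
  have := hθ e
  rw [he] at this
  exact this

/-- **One oracle for all levels.** -/
theorem all_levels : ∃ A : Set (List Bool), ∀ i : ℕ, ∃ (C : ℕ → ℕ → Prop) (ρ : ℕ → ℕ),
    OptProblem A i C ρ ∧ ¬ Computed A i C ρ := by
  obtain ⟨E, hE⟩ := exists_oracle
  refine ⟨wd E, fun i => ⟨CL (wd E) i, id, optL E i, ?_⟩⟩
  rintro ⟨O, P, p, hO, hP⟩
  obtain ⟨Q, q, ps, hps, hQ⟩ := exists_sigE i 1 _ hO
  obtain ⟨x, hx⟩ := hE P p Q q ps
  apply hx
  have hOeq : {v | sigE (wd E) Q q ps [v]} = O := by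
    ext v
    have := hQ [v] rfl
    simp only [List.cons.injEq, and_true, exists_eq_right'] at this
    exact this.symm
  unfold Wins
  rw [hOeq, hps]
  exact hP x

end Pool.Agent.Lib.MP_2b5695_lc
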