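import Pool.Agent.Lib.MP_2b5695_lc.LvForest

/-!
Iteration of the rounds for forests, and extension of small pieces of assignments to assignments
with a prescribed value at the root.
-/

namespace Pool.Agent.Lib.MP_2b5695_lc

theorem card_Vr (U Q : Type) [Finite U] [Finite Q] (a c : ℕ) :
    Nat.card (Vr U Q a c) = Nat.card U ^ a + Nat.card Q * Nat.card U ^ c := by
  show Nat.card (Nd U a ⊕ (Q × Nd U c)) = _
  rw [Nat.card_sum, Nat.card_prod, card_Nd, card_Nd]

theorem card_Vr_le (U Q : Type) [Finite U] [Finite Q] {a c e : ℕ} (hU : 1 ≤ Nat.card U)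
    (ha : a ≤ e) (hc : c ≤ e) :
    Nat.card (Vr U Q a c) ≤ (1 + Nat.card Q) * Nat.card U ^ e := by
  rw [card_Vr]
  have h1 : Nat.card U ^ a ≤ Nat.card U ^ e := Nat.pow_le_pow_right hU ha
  have h2 : Nat.card U ^ c ≤ Nat.card U ^ e := Nat.pow_le_pow_right hU hc
  have h3 := Nat.mul_le_mul_left (Nat.card Q) h2
  calc Nat.card U ^ a + Nat.card Q * Nat.card U ^ c
      ≤ Nat.card U ^ e + Nat.card Q * Nat.card U ^ e := Nat.add_le_add h1 h3
    _ = (1 + Nat.card Q) * Nat.card U ^ e := by ring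

/-- all rounds for a forest -/
theorem rounds_forest {W G Q : Type} [Finite W] [Finite G] [Finite Q] [Nonempty W]
    {K t h M d : ℕ} (hK : 0 < K) (hh : 0 < h) (hG : Nat.card G = (5 * K + 1) * h)
    (hM : 4 * M * (4 * t) ^ t ≤ K ^ t) {J : Type} :
    ∀ (r : ℕ) (_ : 4 * ((1 + Nat.card Q) * Nat.card (Ut W G r) ^ (d + r + 2)) ≤ 2 ^ h)
      (F : ℕ → J → (Vr (Ut W G r) Q (r + 2) (d + r + 2) → Bool) → Prop)
      (Vs : ℕ → Finset J), (∀ m, (Vs m).card ≤ M) → (∀ i ∈ Vs 0, Cert t (F 0 i)) →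
      (∀ m < r + 1, ∀ i ∈ Vs (m + 1), ∃ S : Set J, (∀ i' ∈ S, i' ∈ Vs m) ∧
        ∀ α, F (m + 1) i α ↔ ∃ i' ∈ S, ¬ F m i' α) →
      ∃ (Φ : (Vr W Q 2 (d + 2) → Bool) → (Vr (Ut W G r) Q (r + 2) (d + r + 2) → Bool))
        (alive : Ut W G r → Prop),
        (∀ i ∈ Vs (r + 1), Cert1 t fun z => F (r + 1) i (Φ z)) ∧
        (∀ z y, rv (r + 1) (fun n => Φ z (.inl n)) y = true ↔
          (alive y → rv 1 (fun n => z (.inl n)) (Ut.base r y) = true)) ∧
        (∀ w, ∃ y, Ut.base r y = w ∧ alive y) ∧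
        (∀ z q, rootv (d + r + 2) (fun n => Φ z (.inr (q, n))) =
          rootv (d + 2) (fun n => z (.inr (q, n)))) ∧
        (∀ z z', (∀ n, z (.inl n) = z' (.inl n)) → ∀ n, Φ z (.inl n) = Φ z' (.inl n)) ∧
        (∀ q z z', (∀ n, z (.inr (q, n)) = z' (.inr (q, n))) →
          ∀ n, Φ z (.inr (q, n)) = Φ z' (.inr (q, n)))
  | 0, hU, F, Vs, hVs, h0, hs => by
    refine ⟨fun z => z, fun _ => True, fun i hi => ?_, fun z y => ?_,
      fun w => ⟨w, rfl, trivial⟩, fun z q => rfl, fun z z' hz n => hz n, fun q z z' hz n => hz n⟩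
    · obtain ⟨S, hS, hf⟩ := hs 0 (by omega) i hi
      exact Cert1.of_exists hf fun i' hi' => h0 i' (hS i' hi')
    · rw [forall_const]; rfl
  | r + 1, hU, F, Vs, hVs, h0, hs => by
    have hgpos : 0 < Nat.card G := by rw [hG]; positivity
    haveI : Nonempty G := (Nat.card_pos_iff.1 hgpos).1
    haveI : ∀ k, Nonempty (Ut W G k) := by
      intro k
      induction k with
      | zero => exact inferInstanceAs (Nonempty W)
      | succ k ih => exact inferInstanceAs (Nonempty (Ut W G k × G))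
    have hUpos : 1 ≤ Nat.card (Ut W G r × G) := Nat.card_pos
    have hU'le : Nat.card (Ut W G r) ≤ Nat.card (Ut W G r × G) := by
      rw [Nat.card_prod]
      exact Nat.le_mul_of_pos_right _ hgpos
    have hc1 : 4 * Nat.card (Vr (Ut W G r × G) Q (r + 1) (d + r + 1) × Ut W G r) ≤ 2 ^ h := by
      refine le_trans (Nat.mul_le_mul_left _ ?_) hU
      rw [Nat.card_prod]
      calc Nat.card (Vr (Ut W G r × G) Q (r + 1) (d + r + 1)) * Nat.card (Ut W G r)
          ≤ ((1 + Nat.card Q) * Nat.card (Ut W G r × G) ^ (d + r + 2)) *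
            Nat.card (Ut W G r × G) :=
            Nat.mul_le_mul (card_Vr_le _ _ hUpos (by omega) (by omega)) hU'le
        _ = (1 + Nat.card Q) * Nat.card (Ut W G r × G) ^ (d + (r + 1) + 2) := by ring
    have hc2 : 4 * Nat.card (Vr (Ut W G r × G) Q r (d + r) × Ut W G r) ≤ 2 ^ h := by
      refine le_trans (Nat.mul_le_mul_left _ ?_) hU
      rw [Nat.card_prod]
      calc Nat.card (Vr (Ut W G r × G) Q r (d + r)) * Nat.card (Ut W G r)
          ≤ ((1 + Nat.card Q) * Nat.card (Ut W G r × G) ^ (d + r + 2)) *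
            Nat.card (Ut W G r × G) :=
            Nat.mul_le_mul (card_Vr_le _ _ hUpos (by omega) (by omega)) hU'le
        _ = (1 + Nat.card Q) * Nat.card (Ut W G r × G) ^ (d + (r + 1) + 2) := by ring
    have hn1 := numeric (K := K) (u := Nat.card (Ut W G r × G)) hUpos hG hc1
    have hn2 := numeric (K := K) (u := Nat.card (Ut W G r × G)) hUpos hG hc2
    have hCard : Nat.card (St (Ut W G r × G) K) = Nat.card (Ut W G r × G) +
        (Nat.card (Ut W G r × G) * (4 * K) + K) := by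
      haveI := Fintype.ofFinite (Ut W G r × G)
      exact card_St _ K
    obtain ⟨Φ₁, al₁, a1, a2, a3, a4, a5, a6⟩ := round_forest (U' := Ut W G r) (G := G) (Q := Q)
      (K := K) (t := t) (j := r) (l := d + r) hK (Vs 1) (F 1)
      (fun i hi => by
        obtain ⟨S, hS, hf⟩ := hs 0 (by omega) i hi
        exact Cert1.of_exists hf fun i' hi' => h0 i' (hS i' hi'))
      (le_trans (by gcongr; exact hVs 1) hM)
      (by rw [hCard]; exact hn1.1) (by rw [hCard]; exact hn2.2)
    have hU' : 4 * ((1 + Nat.card Q) * Nat.card (Ut W G r) ^ (d + r + 2)) ≤ 2 ^ h := by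
      refine le_trans (Nat.mul_le_mul_left _ (Nat.mul_le_mul_left _ ?_)) hU
      calc Nat.card (Ut W G r) ^ (d + r + 2) ≤ Nat.card (Ut W G r × G) ^ (d + r + 2) :=
            Nat.pow_le_pow_left hU'le _
        _ ≤ Nat.card (Ut W G r × G) ^ (d + (r + 1) + 2) :=
            Nat.pow_le_pow_right (by omega) (by omega)
    obtain ⟨Φ₂, al₂, b1, b2, b3, b4, b5, b6⟩ := rounds_forest hK hh hG hM r hU'
      (fun m i z => F (m + 1) i (Φ₁ z))
      (fun m => Vs (m + 1)) (fun m => hVs _) (fun i hi => a1 i hi)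
      (fun m hm i hi => by
        obtain ⟨S, hS, hf⟩ := hs (m + 1) (by omega) i hi
        exact ⟨S, hS, fun α => hf (Φ₁ α)⟩)
    refine ⟨fun z => Φ₁ (Φ₂ z), fun y => al₁ y ∧ al₂ y.1, b1, fun z y => ?_, fun w => ?_,
      fun z q => ?_, fun z z' hz n => a5 _ _ (b5 _ _ hz) n,
      fun q z z' hz n => a6 q _ _ (b6 q _ _ hz) n⟩
    · show rv (r + 2) (fun n => Φ₁ (Φ₂ z) (.inl n)) y = true ↔ _
      rw [a2, b2]
      constructor
      · rintro h ⟨h1, h2⟩
        exact h h1 h2
      · intro h h1 h2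
        exact h ⟨h1, h2⟩
    · obtain ⟨y', hy', hal⟩ := b3 w
      obtain ⟨g, hg⟩ := a3 y'
      exact ⟨(y', g), hy', hg, hal⟩
    · exact (a4 (Φ₂ z) q).trans (b4 z q)

/-! ### extension of pieces of assignments -/

theorem col_surj {W : Type} [Finite W] {c : ℕ} (X : Finset (Nd W (c + 1)))
    (z₀ : Nd W (c + 1) → Bool) (hX : X.card < Nat.card W) (w : Nd W c → Bool)
    (hw : ∀ p, w p = false → ∀ u, (p, u) ∈ X → z₀ (p, u) = true) :
    ∃ z : Nd W (c + 1) → Bool, (∀ n ∈ X, z n = z₀ n) ∧ col (P := Nd W c) (U := W) z = w := by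
  classical
  haveI := Fintype.ofFinite W
  rw [Nat.card_eq_fintype_card] at hX
  have hfresh : ∀ p : Nd W c, ∃ u : W, ((p, u) : Nd W (c + 1)) ∉ X := by
    intro p
    by_contra hcon
    push Not at hcon
    have h1 : (Finset.univ : Finset W).card ≤ X.card :=
      Finset.card_le_card_of_injOn (fun u => ((p, u) : Nd W (c + 1))) (fun u _ => hcon u)
        (fun a _ b _ h => (Prod.mk.inj h).2)
    rw [Finset.card_univ] at h1
    omega
  choose f hf using hfresh
  refine ⟨fun n => if n ∈ X then z₀ n else if w n.1 = true ∧ n.2 = f n.1 then false else true,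
    fun n hn => if_pos hn, ?_⟩
  funext p
  cases hwp : w p with
  | true =>
    rw [col_true]
    refine ⟨f p, ?_⟩
    rw [if_neg (hf p), if_pos ⟨hwp, rfl⟩]
  | false =>
    rw [col_false]
    intro u
    by_cases h : ((p, u) : Nd W (c + 1)) ∈ X
    · rw [if_pos h]
      exact hw p hwp u h
    · rw [if_neg h, if_neg]
      rintro ⟨h1, -⟩
      rw [hwp] at h1
      cases h1

theorem flex_ones {W : Type} [Finite W] : ∀ (c : ℕ) (X : Finset (Nd W (c + 1))),
    X.card < Nat.card W → ∀ b : Bool, ∃ z : Nd W (c + 1) → Bool, (∀ n ∈ X, z n = true) ∧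
      rootv (c + 1) z = b
  | 0, X, hX, b => by
    obtain ⟨z, h1, h2⟩ := col_surj X (fun _ => true) hX (fun _ => b) (fun _ _ _ _ => rfl)
    refine ⟨z, h1, ?_⟩
    show (col (P := Nd W 0) (U := W) z) () = b
    rw [h2]
  | c + 1, X, hX, b => by
    obtain ⟨w, -, hw⟩ := flex_ones c ∅ (by simpa using (Nat.zero_le _).trans_lt hX) b
    obtain ⟨z, h1, h2⟩ := col_surj X (fun _ => true) hX w (fun _ _ _ _ => rfl)
    refine ⟨z, h1, ?_⟩
    show rootv (c + 1) (col (P := Nd W (c + 1)) (U := W) z) = b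
    rw [h2]
    exact hw

/-- few values of a tree of depth at least two do not determine the value at the root -/
theorem flex {W : Type} [Finite W] (d : ℕ) (X : Finset (Nd W (d + 2)))
    (z₀ : Nd W (d + 2) → Bool) (hX : X.card < Nat.card W) (b : Bool) :
    ∃ z : Nd W (d + 2) → Bool, (∀ n ∈ X, z n = z₀ n) ∧ rootv (d + 2) z = b := by
  classical
  obtain ⟨w, hw1, hw2⟩ := flex_ones d
    ((X.filter fun n => z₀ n = false).image fun n => n.1)
    ((Finset.card_image_le.trans (Finset.card_filter_le _ _)).trans_lt hX) b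
  obtain ⟨z, h1, h2⟩ := col_surj X z₀ hX w (fun p hp u hu => by
    by_contra hcon
    rw [Bool.not_eq_true] at hcon
    have h3 := hw1 p (Finset.mem_image.2 ⟨(p, u), Finset.mem_filter.2 ⟨hu, hcon⟩, rfl⟩)
    rw [hp] at h3
    cases h3)
  refine ⟨z, h1, ?_⟩
  show rootv (d + 1) (col (P := Nd W (d + 1)) (U := W) z) = b
  rw [h2]
  exact hw2

end Pool.Agent.Lib.MP_2b5695_lc
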