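import Pool.Agent.Lib.MP_2b5695_lc.LvGame

/-!
The game with additional variables whose final values must satisfy a constraint.
-/

namespace Pool.Agent.Lib.MP_2b5695_lc

/-- the data of the game with additional variables `Y` -/
structure GameData2 (R Y : Type) (w : ℕ) where
  /-- feasible rows -/
  fe : R → Prop
  /-- a feasible value -/
  r1 : R
  /-- an infeasible value -/
  r0 : R
  /-- the problem -/
  C : (Fin w → R) → (Y → Bool) → ℕ → ℕ → Prop
  /-- the input -/
  x : ℕ
  /-- the row of a number -/
  κ : ℕ → Option (Fin w)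
  /-- the oracle of the machine -/
  O : (Fin w → R) → (Y → Bool) → Set (List Bool)
  /-- bound on the lengths of the queries -/
  Λ : ℕ
  /-- number of rows and additional variables touched by a query -/
  τ : ℕ
  /-- bound on the number of additional variables -/
  β : ℕ
  /-- the constraint -/
  Good : (Fin w → R) → (Y → Bool) → Prop
  hr1 : fe r1
  hr0 : ¬ fe r0
  hC0 : ∀ z e, C z e x 0
  hC : ∀ z e y, y ≠ 0 → (C z e x y ↔ ∃ r, κ y = some r ∧ fe (z r))
  hmono : ∀ y y' r r', κ y = some r → κ y' = some r' → r < r' → y < y'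
  hsurj : ∀ r, ∃ y, y ≤ x ∧ y ≠ 0 ∧ κ y = some r
  hO : ∀ (v : List Bool), v.length ≤ Λ → ∀ (S : Finset (Fin w)) (z₀ : Fin w → R)
    (X : Finset Y) (e₀ : Y → Bool),
    ∃ (S' : Finset (Fin w)) (z₁ : Fin w → R) (X' : Finset Y) (e₁ : Y → Bool),
      S ⊆ S' ∧ S'.card ≤ S.card + τ ∧ (∀ r ∈ S, z₁ r = z₀ r) ∧
      (∀ r ∈ S', r ∉ S → ¬ fe (z₁ r)) ∧
      X ⊆ X' ∧ X'.card ≤ X.card + τ ∧ (∀ y ∈ X, e₁ y = e₀ y) ∧
      ∀ z e, (∀ r ∈ S', z r = z₁ r) → (∀ y ∈ X', e y = e₁ y) → (v ∈ O z e ↔ v ∈ O z₁ e₁)
  hgood : ∀ (z : Fin w → R) (X : Finset Y) (e₀ : Y → Bool), X.card ≤ β →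
    ∃ e, (∀ y ∈ X, e y = e₀ y) ∧ Good z e

variable {R Y : Type} {w : ℕ}

theorem GameData2.play (D : GameData2 R Y w) (P : Prog) {T B : ℕ} (hB : B = T * (D.τ + 1))
    (hw : (T + 1) * (B + 1) ≤ w) (hΛ : (Nat.bits D.x).length + T ≤ D.Λ)
    (hβ : T * D.τ ≤ D.β) :
    ∀ (t e : ℕ), e + t = T → ∀ (pc : ℕ) (stk : ℕ → List Bool) (S : Finset (Fin w))
      (z₀ : Fin w → R) (X : Finset Y) (e₀ : Y → Bool) (μ : ℕ),
      (∀ s, (stk s).length ≤ (Nat.bits D.x).length + e) →
      (∀ r ∈ S, D.fe (z₀ r) → r.val < μ) → μ ≤ e * (B + 1) → S.card ≤ e * (D.τ + 1) →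
      X.card ≤ e * D.τ →
      ∃ (z : Fin w → R) (f : Y → Bool), (∀ r ∈ S, z r = z₀ r) ∧ (∀ y ∈ X, f y = e₀ y) ∧
        D.Good z f ∧
        ¬ Ensures P (D.O z f) (Answers (D.C z f) id D.x)
          (fun _ v => Optimal (D.C z f) id D.x (val v)) t pc stk := by
  classical
  intro t
  induction t with
  | zero =>
    intro e he pc stk S z₀ X e₀ μ h1 h2 h3 h4 h5
    obtain ⟨f, hf1, hf2⟩ := D.hgood z₀ X e₀ (h5.trans (by
      refine le_trans (Nat.mul_le_mul_right _ (by omega)) hβ))
    exact ⟨z₀, f, fun _ _ => rfl, hf1, hf2, fun h => h⟩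
  | succ t ih =>
    intro e he pc stk S z₀ X e₀ μ h1 h2 h3 h4 h5
    have he' : (e + 1) + t = T := by omega
    have hXβ : X.card ≤ D.β := h5.trans (le_trans (Nat.mul_le_mul_right _ (by omega)) hβ)
    have hX1 : X.card ≤ (e + 1) * D.τ := h5.trans (Nat.mul_le_mul_right _ (by omega))
    have hSB : S.card ≤ B := by
      rw [hB]
      exact h4.trans (Nat.mul_le_mul_right _ (by omega))
    have hexp : (e + 1) * (B + 1) = e * (B + 1) + (B + 1) := by ring
    have hexpτ : (e + 1) * (D.τ + 1) = e * (D.τ + 1) + (D.τ + 1) := by ring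
    have hexpτ' : (e + 1) * D.τ = e * D.τ + D.τ := by ring
    have hle : (e + 1) * (B + 1) ≤ T * (B + 1) := Nat.mul_le_mul_right _ (by omega)
    have hle' : T * (B + 1) + (B + 1) = (T + 1) * (B + 1) := by ring
    -- a fresh row and a number of that row
    obtain ⟨r', hr1', hr2', hr3'⟩ := exists_fresh_row S μ B hSB (by omega)
    obtain ⟨y', hy1', hy2', hy3'⟩ := D.hsurj r'
    -- a number is either made infeasible, or it is committed as feasible
    have hdich : ∀ y : ℕ, (∃ (S₁ : Finset (Fin w)) (z₁ : Fin w → R), S ⊆ S₁ ∧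
        S₁.card ≤ S.card + 1 ∧ (∀ r ∈ S, z₁ r = z₀ r) ∧ (∀ r ∈ S₁, D.fe (z₁ r) → r.val < μ) ∧
        ∀ z f, (∀ r ∈ S₁, z r = z₁ r) → ¬ D.C z f D.x y) ∨
        (y < y' ∧ ∀ z f, (∀ r ∈ S, z r = z₀ r) → D.C z f D.x y) := by
      intro y
      by_cases hy : y = 0
      · subst hy
        exact Or.inr ⟨Nat.pos_of_ne_zero hy2', fun z f _ => D.hC0 z f⟩
      · cases hκ : D.κ y with
        | none =>
          refine Or.inl ⟨S, z₀, Finset.Subset.refl _, Nat.le_succ _, fun _ _ => rfl, h2,
            fun z f _ hc => ?_⟩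
          obtain ⟨r, hr, -⟩ := (D.hC z f y hy).1 hc
          rw [hκ] at hr
          cases hr
        | some r =>
          by_cases hrS : r ∈ S
          · by_cases hfe : D.fe (z₀ r)
            · refine Or.inr ⟨D.hmono y y' r r' hκ hy3' ?_, fun z f hz => ?_⟩
              · have := h2 r hrS hfe
                exact Fin.lt_def.2 (by omega)
              · refine (D.hC z f y hy).2 ⟨r, hκ, ?_⟩
                rw [hz r hrS]
                exact hfe
            · refine Or.inl ⟨S, z₀, Finset.Subset.refl _, Nat.le_succ _, fun _ _ => rfl, h2,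
                fun z f hz hc => ?_⟩
              obtain ⟨r₂, hr₂, h5⟩ := (D.hC z f y hy).1 hc
              rw [hκ] at hr₂
              obtain rfl : r = r₂ := by simpa using hr₂
              rw [hz r hrS] at h5
              exact hfe h5
          · refine Or.inl ⟨insert r S, Function.update z₀ r D.r0, Finset.subset_insert _ _,
              Finset.card_insert_le _ _, fun r₂ hr₂ => ?_, fun r₂ hr₂ => ?_,
              fun z f hz hc => ?_⟩
            · rw [Function.update_of_ne]
              rintro rfl
              exact hrS hr₂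
            · by_cases h5 : r₂ = r
              · subst h5
                rw [Function.update_self]
                exact fun h => absurd h D.hr0
              · rw [Function.update_of_ne h5]
                exact h2 r₂ ((Finset.mem_insert.1 hr₂).resolve_left h5)
            · obtain ⟨r₂, hr₂, h5⟩ := (D.hC z f y hy).1 hc
              rw [hκ] at hr₂
              obtain rfl : r = r₂ := by simpa using hr₂
              rw [hz r (Finset.mem_insert_self _ _), Function.update_self] at h5
              exact D.hr0 h5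
    -- the fresh row made feasible
    have hfresh : (∀ r ∈ S, Function.update z₀ r' D.r1 r = z₀ r) ∧
        (∀ r ∈ insert r' S, D.fe (Function.update z₀ r' D.r1 r) → r.val < μ + B + 1) ∧
        ∀ z f, (∀ r ∈ insert r' S, z r = Function.update z₀ r' D.r1 r) → D.C z f D.x y' := by
      refine ⟨fun r hr => ?_, fun r hr h5 => ?_, fun z f hz => ?_⟩
      · rw [Function.update_of_ne]
        rintro rfl
        exact hr3' hr
      · by_cases h6 : r = r'
        · subst h6; omega
        · rw [Function.update_of_ne h6] at h5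
          have := h2 r ((Finset.mem_insert.1 hr).resolve_left h6) h5
          omega
      · refine (D.hC z f y' hy2').2 ⟨r', hy3', ?_⟩
        rw [hz r' (Finset.mem_insert_self _ _), Function.update_self]
        exact D.hr1
    cases hP : P[pc]? with
    | none =>
      obtain ⟨f, hf1, hf2⟩ := D.hgood z₀ X e₀ hXβ
      exact ⟨z₀, f, fun _ _ => rfl, hf1, hf2, fun h => by simp only [Ensures, hP] at h⟩
    | some ins =>
      cases ins with
      | push s b l =>
        have hl : ∀ s', (Function.update stk s (b :: stk s) s').length ≤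
            (Nat.bits D.x).length + (e + 1) := by
          intro s'
          by_cases hs : s' = s
          · subst hs; rw [Function.update_self]; have := h1 s'; simp; omega
          · rw [Function.update_of_ne hs]; have := h1 s'; omega
        obtain ⟨z, f, hz, hf, hg, hz'⟩ := ih (e + 1) he' l (Function.update stk s (b :: stk s))
          S z₀ X e₀ μ hl h2 (by omega) (by omega) hX1
        refine ⟨z, f, hz, hf, hg, fun h => hz' ?_⟩
        simp only [Ensures, hP] at h
        exact h
      | pop s l₀ l₁ e₁ =>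
        rcases hs : stk s with _ | ⟨b, v⟩
        · obtain ⟨z, f, hz, hf, hg, hz'⟩ := ih (e + 1) he' e₁ stk S z₀ X e₀ μ
            (fun s' => by have := h1 s'; omega) h2 (by omega) (by omega) hX1
          refine ⟨z, f, hz, hf, hg, fun h => hz' ?_⟩
          simp only [Ensures, hP, hs] at h
          exact h
        · have hl : ∀ s', (Function.update stk s v s').length ≤
              (Nat.bits D.x).length + (e + 1) := by
            intro s'
            by_cases hs' : s' = s
            · subst hs'; rw [Function.update_self]; have := h1 s'; rw [hs] at this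
              simp at this; omega
            · rw [Function.update_of_ne hs']; have := h1 s'; omega
          obtain ⟨z, f, hz, hf, hg, hz'⟩ := ih (e + 1) he' (if b then l₁ else l₀)
            (Function.update stk s v) S z₀ X e₀ μ hl h2 (by omega) (by omega) hX1
          refine ⟨z, f, hz, hf, hg, fun h => hz' ?_⟩
          cases b <;> (simp only [Ensures, hP, hs] at h; simpa using h)
      | query s y₁ n₁ =>
        obtain ⟨S', z₁, X', e₁, c1, c2, c3, c4, c6, c7, c8, c5⟩ :=
          D.hO (stk s) (by have := h1 s; omega) S z₀ X e₀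
        have hfe : ∀ r ∈ S', D.fe (z₁ r) → r.val < μ := by
          intro r hr h5
          by_cases hrS : r ∈ S
          · rw [c3 r hrS] at h5
            exact h2 r hrS h5
          · exact absurd h5 (c4 r hr hrS)
        have hl : ∀ s', (stk s').length ≤ (Nat.bits D.x).length + (e + 1) := fun s' => by
          have := h1 s'; omega
        by_cases hv : stk s ∈ D.O z₁ e₁
        · obtain ⟨z, f, hz, hf, hg, hz'⟩ := ih (e + 1) he' y₁ stk S' z₁ X' e₁ μ hl hfe
            (by omega) (by omega) (by omega)
          refine ⟨z, f, fun r hr => (hz r (c1 hr)).trans (c3 r hr),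
            fun y hy => (hf y (c6 hy)).trans (c8 y hy), hg, fun h => hz' ?_⟩
          simp only [Ensures, hP] at h
          exact h.1 ((c5 z f hz hf).2 hv)
        · obtain ⟨z, f, hz, hf, hg, hz'⟩ := ih (e + 1) he' n₁ stk S' z₁ X' e₁ μ hl hfe
            (by omega) (by omega) (by omega)
          refine ⟨z, f, fun r hr => (hz r (c1 hr)).trans (c3 r hr),
            fun y hy => (hf y (c6 hy)).trans (c8 y hy), hg, fun h => hz' ?_⟩
          simp only [Ensures, hP] at h
          exact h.2 fun hc => hv ((c5 z f hz hf).1 hc)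
      | present s y₁ n₁ =>
        rcases hdich (val (stk s)) with ⟨S₁, z₁, c1, c2, c3, c4, c5⟩ | ⟨c1, c2⟩
        · have hl : ∀ s', (Function.update stk s (Nat.bits 0) s').length ≤
              (Nat.bits D.x).length + (e + 1) := by
            intro s'
            by_cases hs' : s' = s
            · subst hs'; rw [Function.update_self]; simp
            · rw [Function.update_of_ne hs']; have := h1 s'; omega
          obtain ⟨z, f, hz, hf, hg, hz'⟩ := ih (e + 1) he' n₁
            (Function.update stk s (Nat.bits 0)) S₁ z₁ X e₀ μ hl c4 (by omega) (by omega) hX1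
          refine ⟨z, f, fun r hr => (hz r (c1 hr)).trans (c3 r hr), hf, hg, fun h => hz' ?_⟩
          simp only [Ensures, hP] at h
          exact h.2 0 ⟨Nat.zero_le _, fun hB => c5 z f hz hB.1⟩
        · have hl : ∀ s', (Function.update stk s (Nat.bits y') s').length ≤
              (Nat.bits D.x).length + (e + 1) := by
            intro s'
            by_cases hs' : s' = s
            · subst hs'; rw [Function.update_self]; have := bits_len_mono hy1'; omega
            · rw [Function.update_of_ne hs']; have := h1 s'; omega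
          have hcard : (insert r' S).card ≤ (e + 1) * (D.τ + 1) := by
            have := Finset.card_insert_le r' S
            omega
          obtain ⟨z, f, hz, hf, hg, hz'⟩ := ih (e + 1) he' n₁
            (Function.update stk s (Nat.bits y'))
            (insert r' S) (Function.update z₀ r' D.r1) X e₀ (μ + B + 1) hl hfresh.2.1
            (by omega) hcard hX1
          have hzS : ∀ r ∈ S, z r = z₀ r := fun r hr =>
            (hz r (Finset.mem_insert_of_mem hr)).trans (hfresh.1 r hr)
          refine ⟨z, f, hzS, hf, hg, fun h => hz' ?_⟩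
          simp only [Ensures, hP] at h
          exact h.2 y' ⟨hy1', fun hB => hB.2 c1 (hfresh.2.2 z f hz)⟩
      | halt b =>
        rcases hdich (val (stk 0)) with ⟨S₁, z₁, c1, c2, c3, c4, c5⟩ | ⟨c1, c2⟩
        · obtain ⟨f, hf1, hf2⟩ := D.hgood z₁ X e₀ hXβ
          refine ⟨z₁, f, c3, hf1, hf2, fun h => ?_⟩
          simp only [Ensures, hP] at h
          exact c5 z₁ f (fun _ _ => rfl) h.1
        · obtain ⟨f, hf1, hf2⟩ := D.hgood (Function.update z₀ r' D.r1) X e₀ hXβ
          refine ⟨Function.update z₀ r' D.r1, f, hfresh.1, hf1, hf2, fun h => ?_⟩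
          simp only [Ensures, hP] at h
          have h5 := h.2 y' (hfresh.2.2 _ f fun _ _ => rfl)
          simp only [id] at h5
          omega

theorem GameData2.lose (D : GameData2 R Y w) (P : Prog) {T B : ℕ} (hB : B = T * (D.τ + 1))
    (hw : (T + 1) * (B + 1) ≤ w) (hΛ : (Nat.bits D.x).length + T ≤ D.Λ)
    (hβ : T * D.τ ≤ D.β) :
    ∃ (z : Fin w → R) (f : Y → Bool), D.Good z f ∧
      ¬ Ensures P (D.O z f) (Answers (D.C z f) id D.x)
        (fun _ v => Optimal (D.C z f) id D.x (val v)) T 0 (load [Nat.bits D.x]) := by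
  obtain ⟨z, f, -, -, hg, hz⟩ := D.play P hB hw hΛ hβ T 0 (by omega) 0 (load [Nat.bits D.x]) ∅
    (fun _ => D.r0) ∅ (fun _ => false) 0 (fun s => by rcases s with _ | s <;> simp [load])
    (by simp) (by simp) (by simp) (by simp)
  exact ⟨z, f, hg, hz⟩

end Pool.Agent.Lib.MP_2b5695_lc
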