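import Pool.Agent.Lib.MP_2b5695_lc.LvRound

/-!
Trees of NAND gates and the iteration of the rounds.
-/

namespace Pool.Agent.Lib.MP_2b5695_lc

/-- nodes of depth `n` of the tree with branching `U` -/
@[reducible] def Nd (U : Type) : ℕ → Type
  | 0 => Unit
  | n + 1 => Nd U n × U

instance Nd.finite (U : Type) [Finite U] : ∀ n, Finite (Nd U n)
  | 0 => inferInstanceAs (Finite Unit)
  | n + 1 => by
    haveI := Nd.finite U n
    exact inferInstanceAs (Finite (Nd U n × U))

theorem card_Nd (U : Type) [Finite U] : ∀ n, Nat.card (Nd U n) = Nat.card U ^ n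
  | 0 => by
    show Nat.card Unit = _
    simp
  | n + 1 => by
    show Nat.card (Nd U n × U) = _
    rw [Nat.card_prod, card_Nd U n, pow_succ]

open Classical in
/-- the NAND of the children -/
noncomputable def col {P U : Type} (z : P × U → Bool) (p : P) : Bool :=
  decide (∃ u, z (p, u) = false)

theorem col_true {P U : Type} {z : P × U → Bool} {p : P} :
    col z p = true ↔ ∃ u, z (p, u) = false := by
  simp [col]

theorem col_false {P U : Type} {z : P × U → Bool} {p : P} :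
    col z p = false ↔ ∀ u, z (p, u) = true := by
  rw [← Bool.not_eq_true, col_true]
  push Not
  exact forall_congr' fun u => by rw [Ne, Bool.not_eq_false]

/-- the values of the rows -/
noncomputable def rv {U : Type} : (i : ℕ) → (Nd U (i + 1) → Bool) → U → Bool
  | 0, z => fun u => z ((), u)
  | i + 1, z => rv i (col (P := Nd U (i + 1)) (U := U) z)

/-- the projection of trees -/
def Nd.proj {U' G : Type} : (n : ℕ) → Nd (U' × G) n → Nd U' n
  | 0, _ => ()
  | n + 1, x => (Nd.proj n x.1, x.2.1)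

theorem col_proj {U' G : Type} [Nonempty G] (n : ℕ) (z : Nd U' (n + 1) → Bool) :
    col (P := Nd (U' × G) n) (U := U' × G) (fun x => z (Nd.proj (n + 1) x)) =
      fun x => col (P := Nd U' n) (U := U') z (Nd.proj n x) := by
  funext p
  rw [Bool.eq_iff_iff, col_true, col_true]
  constructor
  · rintro ⟨⟨u, g⟩, h⟩
    exact ⟨u, h⟩
  · rintro ⟨u, h⟩
    exact ⟨(u, Classical.arbitrary G), h⟩

theorem rv_proj {U' G : Type} [Nonempty G] : ∀ (i : ℕ) (z : Nd U' (i + 1) → Bool)
    (y : U' × G), rv i (fun x : Nd (U' × G) (i + 1) => z (Nd.proj (i + 1) x)) y = rv i z y.1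
  | 0, z, y => rfl
  | i + 1, z, y => by
    show rv i (col (P := Nd (U' × G) (i + 1)) (U := U' × G)
      (fun x => z (Nd.proj (i + 1 + 1) x))) y = rv i (col z) y.1
    rw [col_proj]
    exact rv_proj i _ y

/-- one round, for trees -/
theorem round_tree {U' G : Type} [Finite U'] [Finite G] [Nonempty G] {K t j : ℕ} (hK : 0 < K)
    {J : Type} (s : Finset J) (F : J → (Nd (U' × G) (j + 3) → Bool) → Prop)
    (hF : ∀ j ∈ s, Cert1 t (F j)) (h1 : 4 * s.card * (4 * t) ^ t ≤ K ^ t)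
    (h2 : 4 * Nat.card ((Nd (U' × G) j × (U' × G)) × U') *
      (Nat.card (U' × G) * (4 * K) + K) ^ Nat.card G ≤ Nat.card (St (U' × G) K) ^ Nat.card G)
    (h3 : 4 * Nat.card (Nd (U' × G) j × U') * (Nat.card (U' × G) * K) ^ Nat.card G ≤
      Nat.card (St (U' × G) K) ^ Nat.card G) :
    ∃ (Φ : (Nd U' (j + 2) → Bool) → (Nd (U' × G) (j + 3) → Bool)) (alive : U' × G → Prop),
      (∀ i ∈ s, Cert t fun z => F i (Φ z)) ∧
      (∀ z y, rv (j + 2) (Φ z) y = true ↔ (alive y → rv (j + 1) z y.1 = true)) ∧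
      ∀ u', ∃ g, alive (u', g) := by
  classical
  haveI := Fintype.ofFinite U'
  haveI := Fintype.ofFinite G
  haveI := Fintype.ofFinite (Nd (U' × G) j)
  obtain ⟨ρ, r1, r2, r3⟩ := round (P := Nd (U' × G) j) hK s F hF h1 h2 h3
  let Φ : (Nd U' (j + 2) → Bool) → (Nd (U' × G) (j + 3) → Bool) :=
    fun z => Phi ρ (fun v => z (Nd.proj (j + 2) v))
  -- the first layer
  have e1 : ∀ (z : Nd U' (j + 2) → Bool) (v : Nd (U' × G) (j + 2)),
      col (P := Nd (U' × G) (j + 2)) (U := U' × G) (Φ z) v = false ↔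
        (∃ l, ρ v = .inr (.inr l)) ∨ (z (Nd.proj (j + 2) v) = false ∧ ∃ r, ρ v = .inl r) := by
    intro z v
    rw [col_false]
    have : ∀ u, Φ z (v, u) = (pv (ρ v) u).getD (!(z (Nd.proj (j + 2) v))) := fun u => rfl
    simp only [this]
    rcases hv : ρ v with r | ⟨r, l⟩ | l
    · simp only [reduceCtorEq, exists_false, false_or, Sum.inl.injEq, exists_eq', and_true]
      constructor
      · intro h
        have := h r
        simpa [pv] using this
      · intro h u
        by_cases hu : u = r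
        · simp [pv, hu, h]
        · simp [pv, hu]
    · simp only [reduceCtorEq, exists_false, and_false, or_false, Sum.inr.injEq]
      constructor
      · intro h
        have := h r
        simp [pv] at this
      · rintro ⟨l, h⟩
    · simp [pv]
  -- the second layer
  have e2 : ∀ (z : Nd U' (j + 2) → Bool) (p : Nd (U' × G) (j + 1)),
      col (P := Nd (U' × G) (j + 1)) (U := U' × G)
        (col (P := Nd (U' × G) (j + 2)) (U := U' × G) (Φ z)) p = true ↔
      ((∀ u l, ρ (p, u) ≠ .inr (.inr l)) →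
        col (P := Nd U' (j + 1)) (U := U') z (Nd.proj (j + 1) p) = true) := by
    intro z p
    rw [col_true, col_true]
    constructor
    · rintro ⟨u, hu⟩ ha
      rcases (e1 z (p, u)).1 hu with ⟨l, hl⟩ | ⟨h, -⟩
      · exact absurd hl (ha u l)
      · exact ⟨u.1, h⟩
    · intro h
      by_cases ha : ∀ u l, ρ (p, u) ≠ .inr (.inr l)
      · obtain ⟨u', hu'⟩ := h ha
        obtain ⟨g, r, hr⟩ := r2 p u'
        exact ⟨(u', g), (e1 z (p, (u', g))).2 (Or.inr ⟨hu', r, hr⟩)⟩
      · push Not at ha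
        obtain ⟨u, l, hl⟩ := ha
        exact ⟨u, (e1 z (p, u)).2 (Or.inl ⟨l, hl⟩)⟩
  have hcert : ∀ i ∈ s, Cert t fun z => F i (Φ z) := fun i hi =>
    (r1 i hi).comp_map (Nd.proj (j + 2))
  rcases j with _ | j
  · refine ⟨Φ, fun y => ∀ u l, ρ (((), y), u) ≠ .inr (.inr l), hcert, fun z y => ?_, fun u' => ?_⟩
    · show col (P := Nd (U' × G) 1) (U := U' × G)
        (col (P := Nd (U' × G) 2) (U := U' × G) (Φ z)) ((), y) = true ↔ _
      rw [e2]
      rfl
    · obtain ⟨g, hg⟩ := r3 () u'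
      exact ⟨g, hg⟩
  · refine ⟨Φ, fun _ => True, hcert, fun z y => ?_, fun u' => ⟨Classical.arbitrary G, trivial⟩⟩
    rw [forall_const]
    have e3 : col (P := Nd (U' × G) (j + 1)) (U := U' × G)
        (col (P := Nd (U' × G) (j + 2)) (U := U' × G)
          (col (P := Nd (U' × G) (j + 3)) (U := U' × G) (Φ z))) =
        fun x => col (P := Nd U' (j + 1)) (U := U')
          (col (P := Nd U' (j + 2)) (U := U') z) (Nd.proj (j + 1) x) := by
      funext q
      rw [Bool.eq_iff_iff, col_true, col_true]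
      constructor
      · rintro ⟨u, hu⟩
        refine ⟨u.1, ?_⟩
        rw [← Bool.not_eq_true] at hu ⊢
        exact fun hc => hu ((e2 z (q, u)).2 fun _ => hc)
      · rintro ⟨u', hu'⟩
        obtain ⟨g, hg⟩ := r3 q u'
        refine ⟨(u', g), ?_⟩
        rw [← Bool.not_eq_true] at hu' ⊢
        exact fun hc => hu' ((e2 z (q, (u', g))).1 hc hg)
    show rv j (col (P := Nd (U' × G) (j + 1)) (U := U' × G)
        (col (P := Nd (U' × G) (j + 2)) (U := U' × G)
          (col (P := Nd (U' × G) (j + 3)) (U := U' × G) (Φ z)))) y = true ↔ _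
    rw [e3, rv_proj]
    rfl

/-- iterated products -/
@[reducible] def Ut (W G : Type) : ℕ → Type
  | 0 => W
  | k + 1 => Ut W G k × G

instance Ut.finite (W G : Type) [Finite W] [Finite G] : ∀ k, Finite (Ut W G k)
  | 0 => inferInstanceAs (Finite W)
  | k + 1 => by
    haveI := Ut.finite W G k
    exact inferInstanceAs (Finite (Ut W G k × G))

theorem card_Ut (W G : Type) [Finite W] [Finite G] :
    ∀ k, Nat.card (Ut W G k) = Nat.card W * Nat.card G ^ k
  | 0 => by
    show Nat.card W = _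
    simp
  | k + 1 => by
    show Nat.card (Ut W G k × G) = _
    rw [Nat.card_prod, card_Ut W G k, pow_succ, mul_assoc]

/-- the first component -/
def Ut.base {W G : Type} : (k : ℕ) → Ut W G k → W
  | 0, w => w
  | k + 1, y => Ut.base k y.1

theorem bernoulli_nat (k : ℕ) : ∀ n, k ^ (n + 1) + (n + 1) * k ^ n ≤ (k + 1) ^ (n + 1)
  | 0 => by simp
  | n + 1 => by
    have ih := bernoulli_nat k n
    calc k ^ (n + 1 + 1) + (n + 1 + 1) * k ^ (n + 1)
        ≤ (k + 1) * (k ^ (n + 1) + (n + 1) * k ^ n) := by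
          have : (k + 1) * (k ^ (n + 1) + (n + 1) * k ^ n) =
            k ^ (n + 1 + 1) + (n + 1 + 1) * k ^ (n + 1) + (n + 1) * k ^ n := by ring
          rw [this]; exact Nat.le_add_right _ _
      _ ≤ (k + 1) * (k + 1) ^ (n + 1) := by gcongr
      _ = (k + 1) ^ (n + 1 + 1) := by ring

theorem two_mul_pow_le (k h : ℕ) : 2 ^ h * k ^ ((k + 1) * h) ≤ (k + 1) ^ ((k + 1) * h) := by
  have h1 := bernoulli_nat k k
  have h2 : 2 * k ^ (k + 1) ≤ (k + 1) ^ (k + 1) := by
    refine le_trans ?_ h1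
    have : (k + 1) * k ^ k = k ^ (k + 1) + k ^ k := by ring
    rw [this]
    omega
  rw [pow_mul, pow_mul, ← mul_pow]
  exact Nat.pow_le_pow_left h2 h

theorem numeric {K u a g h : ℕ} (hu : 1 ≤ u) (hg : g = (5 * K + 1) * h) (ha : 4 * a ≤ 2 ^ h) :
    4 * a * (u * (4 * K) + K) ^ g ≤ (u + (u * (4 * K) + K)) ^ g ∧
    4 * a * (u * K) ^ g ≤ (u + (u * (4 * K) + K)) ^ g := by
  constructor
  · have h1 : (u * (4 * K) + K) * (5 * K + 1) ≤ (u + (u * (4 * K) + K)) * (5 * K) := by
      nlinarith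
    have h2 := Nat.pow_le_pow_left h1 g
    rw [mul_pow, mul_pow] at h2
    have h3 := two_mul_pow_le (5 * K) h
    rw [← hg] at h3
    have h4 : 0 < (5 * K + 1) ^ g := by positivity
    refine Nat.le_of_mul_le_mul_right ?_ h4
    calc 4 * a * (u * (4 * K) + K) ^ g * (5 * K + 1) ^ g
        = 4 * a * ((u * (4 * K) + K) ^ g * (5 * K + 1) ^ g) := by ring
      _ ≤ 2 ^ h * ((u + (u * (4 * K) + K)) ^ g * (5 * K) ^ g) := Nat.mul_le_mul ha h2
      _ = (u + (u * (4 * K) + K)) ^ g * (2 ^ h * (5 * K) ^ g) := by ring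
      _ ≤ (u + (u * (4 * K) + K)) ^ g * (5 * K + 1) ^ g := Nat.mul_le_mul_left _ h3
  · have h1 : 4 * (u * K) ≤ u + (u * (4 * K) + K) := by nlinarith
    have h2 := Nat.pow_le_pow_left h1 g
    rw [mul_pow] at h2
    refine le_trans (Nat.mul_le_mul_right _ (ha.trans ?_)) h2
    have h3 : h ≤ g := by rw [hg]; nlinarith
    calc 2 ^ h ≤ 4 ^ h := Nat.pow_le_pow_left (by norm_num) h
      _ ≤ 4 ^ g := Nat.pow_le_pow_right (by norm_num) h3

/-- all rounds -/
theorem rounds {W G : Type} [Finite W] [Finite G] [Nonempty W] {K t h M : ℕ} (hK : 0 < K)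
    (hh : 0 < h) (hG : Nat.card G = (5 * K + 1) * h) (hM : 4 * M * (4 * t) ^ t ≤ K ^ t)
    {J : Type} :
    ∀ (k : ℕ) (_ : 4 * Nat.card (Ut W G k) ^ (k + 2) ≤ 2 ^ h)
      (F : ℕ → J → (Nd (Ut W G k) (k + 2) → Bool) → Prop)
      (Vs : ℕ → Finset J), (∀ m, (Vs m).card ≤ M) → (∀ i ∈ Vs 0, Cert t (F 0 i)) →
      (∀ m < k + 1, ∀ i ∈ Vs (m + 1), ∃ S : Set J, (∀ i' ∈ S, i' ∈ Vs m) ∧
        ∀ α, F (m + 1) i α ↔ ∃ i' ∈ S, ¬ F m i' α) →
      ∃ (Φ : (Nd W 2 → Bool) → (Nd (Ut W G k) (k + 2) → Bool)) (alive : Ut W G k → Prop),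
        (∀ i ∈ Vs (k + 1), Cert1 t fun z => F (k + 1) i (Φ z)) ∧
        (∀ z y, rv (k + 1) (Φ z) y = true ↔ (alive y → rv 1 z (Ut.base k y) = true)) ∧
        ∀ w, ∃ y, Ut.base k y = w ∧ alive y
  | 0, hU, F, Vs, hVs, h0, hs => by
    refine ⟨fun z => z, fun _ => True, fun i hi => ?_, fun z y => ?_, fun w => ⟨w, rfl, trivial⟩⟩
    · obtain ⟨S, hS, hf⟩ := hs 0 (by omega) i hi
      exact Cert1.of_exists hf fun i' hi' => h0 i' (hS i' hi')
    · rw [forall_const]; rfl
  | k + 1, hU, F, Vs, hVs, h0, hs => by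
    have hgpos : 0 < Nat.card G := by rw [hG]; positivity
    haveI : Nonempty G := (Nat.card_pos_iff.1 hgpos).1
    haveI : ∀ k, Nonempty (Ut W G k) := by
      intro k
      induction k with
      | zero => exact inferInstanceAs (Nonempty W)
      | succ k ih => exact inferInstanceAs (Nonempty (Ut W G k × G))
    have hUpos : 1 ≤ Nat.card (Ut W G (k + 1)) := Nat.card_pos
    have hU'le : Nat.card (Ut W G k) ≤ Nat.card (Ut W G (k + 1)) := by
      show _ ≤ Nat.card (Ut W G k × G)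
      rw [Nat.card_prod]
      exact Nat.le_mul_of_pos_right _ hgpos
    have hc1 : 4 * Nat.card ((Nd (Ut W G k × G) k × (Ut W G k × G)) × Ut W G k) ≤ 2 ^ h := by
      refine le_trans (Nat.mul_le_mul_left _ ?_) hU
      rw [Nat.card_prod, Nat.card_prod (Nd (Ut W G k × G) k), card_Nd]
      show Nat.card (Ut W G (k + 1)) ^ k * Nat.card (Ut W G (k + 1)) * Nat.card (Ut W G k) ≤ _
      rw [← pow_succ, pow_succ _ (k + 1 + 1), pow_succ _ (k + 1)]
      calc Nat.card (Ut W G (k + 1)) ^ (k + 1) * Nat.card (Ut W G k)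
          ≤ Nat.card (Ut W G (k + 1)) ^ (k + 1) * Nat.card (Ut W G (k + 1)) :=
            Nat.mul_le_mul_left _ hU'le
        _ ≤ Nat.card (Ut W G (k + 1)) ^ (k + 1) * Nat.card (Ut W G (k + 1)) *
            Nat.card (Ut W G (k + 1)) := Nat.le_mul_of_pos_right _ (by omega)
    have hc2 : 4 * Nat.card (Nd (Ut W G k × G) k × Ut W G k) ≤ 2 ^ h := by
      refine le_trans (Nat.mul_le_mul_left _ ?_) hc1
      rw [Nat.card_prod, Nat.card_prod, Nat.card_prod (Nd (Ut W G k × G) k)]
      have : 1 ≤ Nat.card (Ut W G k × G) := hUpos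
      calc Nat.card (Nd (Ut W G k × G) k) * Nat.card (Ut W G k)
          ≤ Nat.card (Nd (Ut W G k × G) k) * Nat.card (Ut W G k) * Nat.card (Ut W G k × G) :=
            Nat.le_mul_of_pos_right _ (by omega)
        _ = _ := by ring
    have hn1 := numeric (K := K) (u := Nat.card (Ut W G k × G)) hUpos hG hc1
    have hn2 := numeric (K := K) (u := Nat.card (Ut W G k × G)) hUpos hG hc2
    have hCard : Nat.card (St (Ut W G k × G) K) = Nat.card (Ut W G k × G) +
        (Nat.card (Ut W G k × G) * (4 * K) + K) := by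
      haveI := Fintype.ofFinite (Ut W G k × G)
      exact card_St _ K
    obtain ⟨Φ₁, al₁, a1, a2, a3⟩ := round_tree (U' := Ut W G k) (G := G) (K := K) (t := t)
      (j := k) hK (Vs 1) (F 1)
      (fun i hi => by
        obtain ⟨S, hS, hf⟩ := hs 0 (by omega) i hi
        exact Cert1.of_exists hf fun i' hi' => h0 i' (hS i' hi'))
      (le_trans (by gcongr; exact hVs 1) hM)
      (by rw [hCard]; exact hn1.1) (by rw [hCard]; exact hn2.2)
    have hU' : 4 * Nat.card (Ut W G k) ^ (k + 2) ≤ 2 ^ h := by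
      refine le_trans (Nat.mul_le_mul_left _ ?_) hU
      calc Nat.card (Ut W G k) ^ (k + 2) ≤ Nat.card (Ut W G (k + 1)) ^ (k + 2) :=
            Nat.pow_le_pow_left hU'le _
        _ ≤ Nat.card (Ut W G (k + 1)) ^ (k + 1 + 2) :=
            Nat.pow_le_pow_right (by omega) (by omega)
    obtain ⟨Φ₂, al₂, b1, b2, b3⟩ := rounds hK hh hG hM k hU' (fun m i z => F (m + 1) i (Φ₁ z))
      (fun m => Vs (m + 1)) (fun m => hVs _) (fun i hi => a1 i hi)
      (fun m hm i hi => by
        obtain ⟨S, hS, hf⟩ := hs (m + 1) (by omega) i hi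
        exact ⟨S, hS, fun α => hf (Φ₁ α)⟩)
    refine ⟨fun z => Φ₁ (Φ₂ z), fun y => al₁ y ∧ al₂ y.1, b1, fun z y => ?_, fun w => ?_⟩
    · show rv (k + 2) (Φ₁ (Φ₂ z)) y = true ↔ _
      rw [a2, b2]
      constructor
      · rintro h ⟨h1, h2⟩
        exact h h1 h2
      · intro h h1 h2
        exact h ⟨h1, h2⟩
    · obtain ⟨y', hy', hal⟩ := b3 w
      obtain ⟨g, hg⟩ := a3 y'
      exact ⟨(y', g), hy', hg, hal⟩

end Pool.Agent.Lib.MP_2b5695_lc
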