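import Pool.Agent.Lib.MP_2b5695_lc.LvWorld
import Pool.Agent.Lib.MP_2b5695_lc.LvTree

/-!
The oracles of one stage: a part fixed before, and a block of words given by an assignment.
-/

namespace Pool.Agent.Lib.MP_2b5695_lc

/-- decoding numbers -/
def dcd {w g : ℕ} (hw : 0 < w) (hg : 0 < g) : (k : ℕ) → ℕ → Ut (Fin w) (Fin g) k
  | 0, m => (⟨min m (w - 1), by omega⟩ : Fin w)
  | k + 1, m => (dcd hw hg k (m / g), ⟨m % g, Nat.mod_lt _ hg⟩)

theorem dcd_surj {w g : ℕ} (hw : 0 < w) (hg : 0 < g) : ∀ (k : ℕ) (u : Ut (Fin w) (Fin g) k),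
    ∃ m, m < w * g ^ k ∧ dcd hw hg k m = u
  | 0, u => by
    have hu : (u : Fin w).val < w := (u : Fin w).isLt
    refine ⟨(u : Fin w).val, by simpa using hu, Fin.ext ?_⟩
    show min (u : Fin w).val (w - 1) = (u : Fin w).val
    omega
  | k + 1, u => by
    obtain ⟨m, hm, hmu⟩ := dcd_surj hw hg k u.1
    refine ⟨m * g + u.2.val, ?_, ?_⟩
    · have h1 := u.2.isLt
      calc m * g + u.2.val < m * g + g := by omega
        _ = (m + 1) * g := by ring
        _ ≤ (w * g ^ k) * g := Nat.mul_le_mul_right _ hm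
        _ = w * g ^ (k + 1) := by ring
    · have h1 := u.2.isLt
      have h2 : (m * g + u.2.val) / g = m := by
        rw [mul_comm, Nat.mul_add_div hg, Nat.div_eq_of_lt h1, add_zero]
      have h3 : (m * g + u.2.val) % g = u.2.val := by
        rw [mul_comm, Nat.mul_add_mod, Nat.mod_eq_of_lt h1]
      show (dcd hw hg k ((m * g + u.2.val) / g), _) = u
      refine Prod.ext ?_ (Fin.ext h3)
      rw [h2]
      exact hmu

theorem base_dcd_mono {w g : ℕ} (hw : 0 < w) (hg : 0 < g) : ∀ (k : ℕ) {m m' : ℕ}, m ≤ m' →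
    (Ut.base k (dcd hw hg k m) : Fin w) ≤ Ut.base k (dcd hw hg k m')
  | 0, m, m', h => by
    show (⟨min m (w - 1), _⟩ : Fin w) ≤ ⟨min m' (w - 1), _⟩
    rw [Fin.mk_le_mk]
    omega
  | k + 1, m, m', h => base_dcd_mono hw hg k (Nat.div_le_div_right h)

section stage

variable {U : Type} (τ : ℕ → U)

/-- the node given by a (reversed) list of words -/
def leafN : (j : ℕ) → List (List Bool) → Nd U (j + 1)
  | 0, l => ((), τ (val (l.getD 0 []) - 1))
  | j + 1, l => (leafN j l.tail, τ (val (l.getD 0 [])))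

variable (θ : ℕ → Set (List Bool)) (n₁ x i : ℕ)

/-- the set of the stage -/
def stg (α : Nd U (i + 1) → Bool) : Set (List Bool) :=
  {s | (s.length < n₁ ∧ s ∈ θ s.length) ∨ (n₁ ≤ s.length ∧
    ∃ (y : ℕ) (us : List (List Bool)), us.length = i ∧
      s = codeW i (Nat.bits x :: Nat.bits y :: us) ∧
      α (leafN τ i (Nat.bits y :: us).reverse) = true)}

variable {τ θ n₁ x i}

theorem mem_stg (hn : n₁ ≤ (Nat.bits x).length) {α : Nd U (i + 1) → Bool} {y : ℕ}
    {us : List (List Bool)} (hus : us.length = i) :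
    codeW i (Nat.bits x :: Nat.bits y :: us) ∈ stg τ θ n₁ x i α ↔
      α (leafN τ i (Nat.bits y :: us).reverse) = true := by
  have hl : (Nat.bits x).length < (codeW i (Nat.bits x :: Nat.bits y :: us)).length :=
    codeW_length
  constructor
  · rintro (⟨h1, -⟩ | ⟨-, y', us', h2, h3, h4⟩)
    · omega
    · obtain ⟨-, h5⟩ := codeW_inj (by simp [hus]) (by simp [h2]) h3
      simp only [List.cons.injEq, true_and] at h5
      rw [h5.1, h5.2]
      exact h4
  · intro h
    exact Or.inr ⟨by omega, y, us, hus, rfl, h⟩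

theorem NT_stg_aux (hτ : ∀ u : U, ∃ b : List Bool, b.length ≤ (Nat.bits x).length ∧ τ (val b) = u)
    {A : Set (List Bool)} {i₀ y : ℕ} : ∀ (j k : ℕ) (z : Nd U (j + 1) → Bool), j + k = i₀ →
    (∀ us : List (List Bool), us.length = j →
      (NT A i₀ k (Nat.bits x :: Nat.bits y :: us) ↔
        z (leafN τ j (Nat.bits y :: us).reverse) = true)) →
    (NT A i₀ i₀ [Nat.bits x, Nat.bits y] ↔ rv j z (τ (y - 1)) = true)
  | 0, k, z, hk, h => by
    obtain rfl : k = i₀ := by omega
    rw [h [] rfl]
    show z ((), τ (val (Nat.bits y) - 1)) = true ↔ _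
    rw [val_bits]
    rfl
  | j + 1, k, z, hk, h => by
    refine (NT_stg_aux hτ j (k + 1) (col (P := Nd U (j + 1)) (U := U) z) (by omega)
      fun us hus => ?_)
    rw [col_true]
    show (∃ u : List Bool, u.length ≤ (Polynomial.X : Polynomial ℕ).eval
      (size (Nat.bits x :: Nat.bits y :: us)) ∧
      ¬ NT A i₀ k (Nat.bits x :: Nat.bits y :: us ++ [u])) ↔ _
    have key : ∀ u : List Bool, NT A i₀ k (Nat.bits x :: Nat.bits y :: us ++ [u]) ↔
        z (leafN τ j (Nat.bits y :: us).reverse, τ (val u)) = true := by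
      intro u
      have h1 := h (us ++ [u]) (by simp [hus])
      rw [List.cons_append, List.cons_append, h1]
      have h2 : (Nat.bits y :: (us ++ [u])).reverse = u :: (Nat.bits y :: us).reverse := by
        simp
      rw [h2]
      rfl
    have hsz : (Nat.bits x).length ≤ (Polynomial.X : Polynomial ℕ).eval
        (size (Nat.bits x :: Nat.bits y :: us)) := by
      simp [size]
    constructor
    · rintro ⟨u, -, hu⟩
      rw [key u] at hu
      exact ⟨τ (val u), by simpa using hu⟩
    · rintro ⟨u, hu⟩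
      obtain ⟨b, hb, rfl⟩ := hτ u
      refine ⟨b, hb.trans hsz, ?_⟩
      rw [key b, hu]
      simp

theorem CL_stg (hn : n₁ ≤ (Nat.bits x).length)
    (hτ : ∀ u : U, ∃ b : List Bool, b.length ≤ (Nat.bits x).length ∧ τ (val b) = u)
    {α : Nd U (i + 1) → Bool} {y : ℕ} (hy : y ≠ 0) (hyx : y ≤ x) :
    CL (wd (stg τ θ n₁ x i α)) i x y ↔ rv i α (τ (y - 1)) = false := by
  unfold CL
  rw [NT_stg_aux hτ (A := wd (stg τ θ n₁ x i α)) (i₀ := i) i 0 α (by omega), Bool.not_eq_true]
  intro us hus
  subst hus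
  show codeW us.length (Nat.bits x :: Nat.bits y :: us) ∈ _ ↔ _
  rw [mem_wd, mem_stg hn rfl]
  have h1 : ¬ x < y := by omega
  have h2 : 0 < y := by omega
  simp [hy, h1, h2, hyx]

/-- membership of a word depends on at most one variable -/
theorem one_var (s : List Bool) : ∃ X : Finset (Nd U (i + 1)), X.card ≤ 1 ∧
    ∀ α β : Nd U (i + 1) → Bool, (∀ v ∈ X, β v = α v) →
      (s ∈ wd (stg τ θ n₁ x i β) ↔ s ∈ wd (stg τ θ n₁ x i α)) := by
  classical
  by_cases hs : ∃ (y : ℕ) (us : List (List Bool)), us.length = i ∧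
      s = codeW i (Nat.bits x :: Nat.bits y :: us)
  · obtain ⟨y, us, hus, rfl⟩ := hs
    refine ⟨{leafN τ i (Nat.bits y :: us).reverse}, by simp, fun α β h => ?_⟩
    have h1 := h _ (Finset.mem_singleton_self _)
    subst hus
    rw [mem_wd, mem_wd]
    refine or_congr_right (or_congr_right (and_congr_right fun _ => and_congr_right fun _ => ?_))
    unfold stg
    refine or_congr_right (and_congr_right fun _ => exists_congr fun y' =>
      exists_congr fun us' => and_congr_right fun h2 => and_congr_right fun h3 => ?_)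
    obtain ⟨-, h4⟩ := codeW_inj (by simp) (by simp [h2]) h3
    simp only [List.cons.injEq, true_and] at h4
    rw [← h4.1, ← h4.2, h1]
  · refine ⟨∅, by simp, fun α β _ => ?_⟩
    have key : ∀ γ : Nd U (i + 1) → Bool, s ∈ stg τ θ n₁ x i γ ↔
        (s.length < n₁ ∧ s ∈ θ s.length) := by
      intro γ
      constructor
      · rintro (h | ⟨-, y, us, h1, h2, -⟩)
        · exact h
        · exact absurd ⟨y, us, h1, h2⟩ hs
      · exact Or.inl
    unfold wd
    simp only [Set.mem_setOf_eq, key]

theorem cert_out (Q : Prog) (T : ℕ) (v : List (List Bool)) :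
    Cert T fun α : Nd U (i + 1) → Bool =>
      ∃ r, out Q (wd (stg τ θ n₁ x i α)) T 0 (load v) = some r ∧ r.1 = true := by
  classical
  intro α
  choose X hX1 hX2 using one_var (U := U) (τ := τ) (θ := θ) (n₁ := n₁) (x := x) (i := i)
  refine ⟨(qrs Q (wd (stg τ θ n₁ x i α)) T 0 (load v)).toFinset.biUnion X, ?_, fun β hβ => ?_⟩
  · refine (Finset.card_biUnion_le).trans ?_
    refine (Finset.sum_le_sum fun s _ => hX1 s).trans ?_
    rw [Finset.sum_const, smul_eq_mul, mul_one]
    exact (List.toFinset_card_le _).trans (qrs_length_le T 0 _)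
  · have : out Q (wd (stg τ θ n₁ x i β)) T 0 (load v) =
        out Q (wd (stg τ θ n₁ x i α)) T 0 (load v) := by
      refine out_congr _ _ _ fun s hs => ?_
      refine (hX2 s α β fun w hw => hβ w ?_).symm
      rw [Finset.mem_biUnion]
      exact ⟨s, List.mem_toFinset.2 hs, hw⟩
    simp only [this]

end stage

/-! ### the queries as a family -/

/-- all words of length at most `S` -/
def wordsF (S : ℕ) : Finset (List Bool) :=
  (Finset.range (S + 1)).biUnion fun l =>
    (Finset.univ : Finset (List.Vector Bool l)).image fun v => v.toList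

theorem mem_wordsF {S : ℕ} {w : List Bool} (h : w.length ≤ S) : w ∈ wordsF S := by
  unfold wordsF
  rw [Finset.mem_biUnion]
  refine ⟨w.length, Finset.mem_range.2 (by omega), ?_⟩
  rw [Finset.mem_image]
  exact ⟨⟨w, rfl⟩, Finset.mem_univ _, rfl⟩

theorem card_wordsF (S : ℕ) : (wordsF S).card ≤ 2 ^ (S + 1) := by
  unfold wordsF
  refine Finset.card_biUnion_le.trans ?_
  have h1 : ∀ l ∈ Finset.range (S + 1),
      ((Finset.univ : Finset (List.Vector Bool l)).image fun v => v.toList).card ≤ 2 ^ l := by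
    intro l _
    refine Finset.card_image_le.trans ?_
    rw [Finset.card_univ, card_vector, Fintype.card_bool]
  refine (Finset.sum_le_sum h1).trans ?_
  have h2 : ∀ S : ℕ, ∑ l ∈ Finset.range (S + 1), 2 ^ l ≤ 2 ^ (S + 1) := by
    intro S
    induction S with
    | zero => simp
    | succ S ih =>
      rw [Finset.sum_range_succ]
      have : 2 ^ (S + 1 + 1) = 2 ^ (S + 1) + 2 ^ (S + 1) := by ring
      omega
  exact h2 S

/-- all lists of `L` words of length at most `S` -/
def listsF (S : ℕ) : ℕ → Finset (List (List Bool))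
  | 0 => {[]}
  | L + 1 => (wordsF S ×ˢ listsF S L).image fun p => p.1 :: p.2

theorem mem_listsF {S : ℕ} : ∀ {v : List (List Bool)}, size v ≤ S → v ∈ listsF S v.length
  | [], _ => by simp [listsF]
  | a :: v, h => by
    have h1 : size (a :: v) = a.length + size v := by simp [size]
    rw [h1] at h
    simp only [listsF, List.length_cons, Finset.mem_image, Finset.mem_product]
    have h2 : a.length ≤ S := by omega
    exact ⟨(a, v), ⟨mem_wordsF h2, mem_listsF (by omega)⟩, rfl⟩

theorem length_of_mem_listsF {S : ℕ} : ∀ {L : ℕ} {v : List (List Bool)}, v ∈ listsF S L →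
    v.length = L
  | 0, v, h => by
    simp only [listsF, Finset.mem_singleton] at h
    subst h
    rfl
  | L + 1, v, h => by
    simp only [listsF, Finset.mem_image, Finset.mem_product] at h
    obtain ⟨p, ⟨-, h1⟩, rfl⟩ := h
    simp [length_of_mem_listsF h1]

theorem card_listsF (S : ℕ) : ∀ L, (listsF S L).card ≤ 2 ^ ((S + 1) * L)
  | 0 => by simp [listsF]
  | L + 1 => by
    unfold listsF
    refine Finset.card_image_le.trans ?_
    rw [Finset.card_product]
    refine (Nat.mul_le_mul (card_wordsF S) (card_listsF S L)).trans ?_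
    rw [← pow_add]
    apply le_of_eq
    congr 1
    ring

/-- bound for the sizes along the quantifiers -/
def bdl (ps : List (Polynomial ℕ)) (s : ℕ) : ℕ := ps.foldl (fun s p => s + p.eval s) s

theorem bdl_append (l : List (Polynomial ℕ)) (p : Polynomial ℕ) (s : ℕ) :
    bdl (l ++ [p]) s = bdl l s + p.eval (bdl l s) := by
  simp [bdl]

theorem le_bdl (l : List (Polynomial ℕ)) : ∀ s, s ≤ bdl l s := by
  induction l with
  | nil => intro s; exact le_rfl
  | cons p l ih =>
    intro s
    have h1 : bdl (p :: l) s = bdl l (s + p.eval s) := rfl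
    rw [h1]
    exact (Nat.le_add_right _ _).trans (ih _)

theorem bdl_take_le (l : List (Polynomial ℕ)) (j s : ℕ) : bdl (l.take j) s ≤ bdl l s := by
  conv_rhs => rw [← List.take_append_drop j l]
  have : bdl (l.take j ++ l.drop j) s = bdl (l.drop j) (bdl (l.take j) s) :=
    List.foldl_append
  rw [this]
  exact le_bdl _ _

/-- polynomial form of `bdl` -/
noncomputable def bdP (ps : List (Polynomial ℕ)) (s : Polynomial ℕ) : Polynomial ℕ :=
  ps.foldl (fun s p => s + p.comp s) s

theorem eval_bdP (ps : List (Polynomial ℕ)) : ∀ (s : Polynomial ℕ) (n : ℕ),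
    (bdP ps s).eval n = bdl ps (s.eval n) := by
  induction ps with
  | nil => intro s n; rfl
  | cons p ps ih =>
    intro s n
    have h1 : bdP (p :: ps) s = bdP ps (s + p.comp s) := rfl
    have h2 : bdl (p :: ps) (s.eval n) = bdl ps (s.eval n + p.eval (s.eval n)) := rfl
    rw [h1, h2, ih]
    simp [Polynomial.eval_comp]

section family

variable {U : Type} (τ : ℕ → U) (θ : ℕ → Set (List Bool)) (n₁ x i : ℕ) (Q : Prog)
  (q : Polynomial ℕ) (ps : List (Polynomial ℕ)) (Λ : ℕ)

/-- the functions evaluated below a query -/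
def fam (m : ℕ) (v : List (List Bool)) (α : Nd U (i + 1) → Bool) : Prop :=
  sigE (wd (stg τ θ n₁ x i α)) Q q (ps.drop (ps.length - m)) v

/-- the nodes -/
def nds (m : ℕ) : Finset (List (List Bool)) :=
  (listsF (bdl ps Λ) (1 + (ps.length - m))).filter
    fun v => size v ≤ bdl (ps.take (ps.length - m)) Λ

theorem card_nds (m : ℕ) : (nds ps Λ m).card ≤ 2 ^ ((bdl ps Λ + 1) * (ps.length + 1)) := by
  refine (Finset.card_filter_le _ _).trans ((card_listsF _ _).trans ?_)
  exact Nat.pow_le_pow_right (by norm_num) (Nat.mul_le_mul_left _ (by omega))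

theorem fam_zero {t : ℕ} (ht : q.eval (bdl ps Λ) ≤ t) : ∀ v ∈ nds ps Λ 0,
    Cert t (fam τ θ n₁ x i Q q ps 0 v) := by
  intro v hv
  have h1 : ps.drop (ps.length - 0) = [] := by simp
  unfold fam
  simp only [h1]
  have h2 : size v ≤ bdl ps Λ := by
    have := (Finset.mem_filter.1 hv).2
    exact this.trans (bdl_take_le _ _ _)
  exact (cert_out Q (q.eval (size v)) v).mono ((eval_mono q h2).trans ht)

theorem fam_succ (m : ℕ) (hm : m < ps.length) : ∀ v ∈ nds ps Λ (m + 1),
    ∃ S : Set (List (List Bool)), (∀ v' ∈ S, v' ∈ nds ps Λ m) ∧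
      ∀ α, fam τ θ n₁ x i Q q ps (m + 1) v α ↔ ∃ v' ∈ S, ¬ fam τ θ n₁ x i Q q ps m v' α := by
  intro v hv
  have hj : ps.length - (m + 1) < ps.length := by omega
  have hj' : ps.length - (m + 1) + 1 = ps.length - m := by omega
  set p := ps[ps.length - (m + 1)] with hp
  have h1 : ps.drop (ps.length - (m + 1)) = p :: ps.drop (ps.length - m) := by
    rw [List.drop_eq_getElem_cons hj, hj']
  have h2 : ps.take (ps.length - m) = ps.take (ps.length - (m + 1)) ++ [p] := by
    rw [← hj', List.take_succ_eq_append_getElem hj]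
  obtain ⟨hv1, hv2⟩ := Finset.mem_filter.1 hv
  have hvl := length_of_mem_listsF hv1
  refine ⟨{v' | ∃ u : List Bool, u.length ≤ p.eval (size v) ∧ v' = v ++ [u]}, ?_, fun α => ?_⟩
  · rintro v' ⟨u, hu, rfl⟩
    have h3 : size (v ++ [u]) ≤ bdl (ps.take (ps.length - m)) Λ := by
      rw [h2, bdl_append, size_append_singleton]
      have := eval_mono p hv2
      omega
    have h4 : (v ++ [u]).length = 1 + (ps.length - m) := by
      rw [List.length_append, hvl, List.length_singleton]
      omega
    refine Finset.mem_filter.2 ⟨?_, h3⟩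
    rw [← h4]
    exact mem_listsF (h3.trans (bdl_take_le _ _ _))
  · unfold fam
    rw [h1]
    constructor
    · rintro ⟨u, hu, hh⟩
      exact ⟨v ++ [u], ⟨u, hu, rfl⟩, hh⟩
    · rintro ⟨v', ⟨u, hu, rfl⟩, hh⟩
      exact ⟨u, hu, hh⟩

theorem fam_top (α : Nd U (i + 1) → Bool) (v : List (List Bool)) :
    fam τ θ n₁ x i Q q ps ps.length v α ↔ sigE (wd (stg τ θ n₁ x i α)) Q q ps v := by
  unfold fam
  simp

theorem mem_nds_top {v : List Bool} (hv : v.length ≤ Λ) : [v] ∈ nds ps Λ ps.length := by
  have h1 : size [v] ≤ Λ := by simpa [size] using hv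
  refine Finset.mem_filter.2 ⟨?_, ?_⟩
  · have : (1 + (ps.length - ps.length)) = ([v] : List (List Bool)).length := by simp
    rw [this]
    exact mem_listsF (h1.trans (le_bdl _ _))
  · simpa [bdl] using h1

end family

end Pool.Agent.Lib.MP_2b5695_lc
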