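import Pool.Agent.Lib.MP_2b5695_lc.LvKWorld
import Pool.Agent.Lib.MP_2b5695_lc.LvForest2
import Pool.Agent.Lib.MP_2b5695_lc.LvGame2
import Pool.Agent.Lib.MP_2b5695_lc.LvStage

/-!
The oracles of one stage in the world with coded trees.
-/

namespace Pool.Agent.Lib.MP_2b5695_lc

/-! ### families of functions below a query, general form -/

section fam

variable {X : Type} (Wd : (X → Bool) → Set (List Bool)) (Q : Prog) (q : Polynomial ℕ)
  (ps : List (Polynomial ℕ)) (Λ : ℕ)

/-- membership of each word depends on at most one variable -/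
def OneVar : Prop := ∀ s : List Bool, ∃ S : Finset X, S.card ≤ 1 ∧
  ∀ α β : X → Bool, (∀ v ∈ S, β v = α v) → (s ∈ Wd β ↔ s ∈ Wd α)

theorem OneVar.cert_out {Wd : (X → Bool) → Set (List Bool)} (h : OneVar Wd) (Q : Prog) (T : ℕ)
    (v : List (List Bool)) :
    Cert T fun α : X → Bool => ∃ r, out Q (Wd α) T 0 (load v) = some r ∧ r.1 = true := by
  classical
  intro α
  choose S hS1 hS2 using h
  refine ⟨(qrs Q (Wd α) T 0 (load v)).toFinset.biUnion S, ?_, fun β hβ => ?_⟩
  · refine (Finset.card_biUnion_le).trans ?_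
    refine (Finset.sum_le_sum fun s _ => hS1 s).trans ?_
    rw [Finset.sum_const, smul_eq_mul, mul_one]
    exact (List.toFinset_card_le _).trans (qrs_length_le T 0 _)
  · have : out Q (Wd β) T 0 (load v) = out Q (Wd α) T 0 (load v) := by
      refine out_congr _ _ _ fun s hs => ?_
      refine (hS2 s α β fun w hw => hβ w ?_).symm
      rw [Finset.mem_biUnion]
      exact ⟨s, List.mem_toFinset.2 hs, hw⟩
    simp only [this]

/-- the functions evaluated below a query -/
def famG (m : ℕ) (v : List (List Bool)) (α : X → Bool) : Prop :=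
  sigE (Wd α) Q q (ps.drop (ps.length - m)) v

theorem famG_zero {Wd : (X → Bool) → Set (List Bool)} (h : OneVar Wd) {t : ℕ}
    (ht : q.eval (bdl ps Λ) ≤ t) : ∀ v ∈ nds ps Λ 0, Cert t (famG Wd Q q ps 0 v) := by
  intro v hv
  have h1 : ps.drop (ps.length - 0) = [] := by simp
  unfold famG
  simp only [h1]
  have h2 : size v ≤ bdl ps Λ := by
    have := (Finset.mem_filter.1 hv).2
    exact this.trans (bdl_take_le _ _ _)
  exact (h.cert_out Q (q.eval (size v)) v).mono ((eval_mono q h2).trans ht)

theorem famG_succ (m : ℕ) (hm : m < ps.length) : ∀ v ∈ nds ps Λ (m + 1),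
    ∃ S : Set (List (List Bool)), (∀ v' ∈ S, v' ∈ nds ps Λ m) ∧
      ∀ α, famG Wd Q q ps (m + 1) v α ↔ ∃ v' ∈ S, ¬ famG Wd Q q ps m v' α := by
  intro v hv
  have hj : ps.length - (m + 1) < ps.length := by omega
  have hj' : ps.length - (m + 1) + 1 = ps.length - m := by omega
  set p := ps[ps.length - (m + 1)] with hp
  have h1 : ps.drop (ps.length - (m + 1)) = p :: ps.drop (ps.length - m) := by
    rw [List.drop_eq_getElem_cons hj, hj']
  have h2 : ps.take (ps.length - m) = ps.take (ps.length - (m + 1)) ++ [p] := by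
    rw [← hj', List.take_succ_eq_append_getElem hj]
  obtain ⟨hv1, hv2⟩ := Finset.mem_filter.1 hv
  have hvl := length_of_mem_listsF hv1
  refine ⟨{v' | ∃ u : List Bool, u.length ≤ p.eval (size v) ∧ v' = v ++ [u]}, ?_, fun α => ?_⟩
  · rintro v' ⟨u, hu, rfl⟩
    have h3 : size (v ++ [u]) ≤ bdl (ps.take (ps.length - m)) Λ := by
      rw [h2, bdl_append, size_append_singleton]
      have := eval_mono p hv2
      omega
    have h4 : (v ++ [u]).length = 1 + (ps.length - m) := by
      rw [List.length_append, hvl, List.length_singleton]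
      omega
    refine Finset.mem_filter.2 ⟨?_, h3⟩
    rw [← h4]
    exact mem_listsF (h3.trans (bdl_take_le _ _ _))
  · unfold famG
    rw [h1]
    constructor
    · rintro ⟨u, hu, hh⟩
      exact ⟨v ++ [u], ⟨u, hu, rfl⟩, hh⟩
    · rintro ⟨v', ⟨u, hu, rfl⟩, hh⟩
      exact ⟨u, hu, hh⟩

theorem famG_top (α : X → Bool) (v : List (List Bool)) :
    famG Wd Q q ps ps.length v α ↔ sigE (Wd α) Q q ps v := by
  unfold famG
  simp

end fam

/-! ### evaluation of coded trees -/

/-- the leaf given by a (reversed) list of words -/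
def leafQ {U : Type} (τ : ℕ → U) : (j : ℕ) → List (List Bool) → Nd U j
  | 0, _ => ()
  | j + 1, l => (leafQ τ j l.tail, τ (val (l.getD 0 [])))

theorem NT_code_aux {U : Type} {τ : ℕ → U} {q : List Bool}
    (hτ : ∀ u : U, ∃ b : List Bool, b.length ≤ q.length ∧ τ (val b) = u)
    {A : Set (List Bool)} {i₀ : ℕ} : ∀ (j m : ℕ) (z : Nd U j → Bool), j + m = i₀ →
    (∀ us : List (List Bool), us.length = j →
      (NT A i₀ m (q :: us) ↔ z (leafQ τ j us.reverse) = true)) →
    (NT A i₀ i₀ [q] ↔ rootv j z = true)
  | 0, m, z, hm, h => by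
    obtain rfl : m = i₀ := by omega
    exact h [] rfl
  | j + 1, m, z, hm, h => by
    refine (NT_code_aux hτ j (m + 1) (col (P := Nd U j) (U := U) z) (by omega)
      fun us hus => ?_)
    rw [col_true]
    show (∃ u : List Bool, u.length ≤ (Polynomial.X : Polynomial ℕ).eval (size (q :: us)) ∧
      ¬ NT A i₀ m (q :: us ++ [u])) ↔ _
    have key : ∀ u : List Bool, NT A i₀ m (q :: us ++ [u]) ↔
        z (leafQ τ j us.reverse, τ (val u)) = true := by
      intro u
      have h1 := h (us ++ [u]) (by simp [hus])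
      rw [List.cons_append, h1]
      have h2 : (us ++ [u]).reverse = u :: us.reverse := by simp
      rw [h2]
      rfl
    have hsz : q.length ≤ (Polynomial.X : Polynomial ℕ).eval (size (q :: us)) := by
      simp [size]
    constructor
    · rintro ⟨u, -, hu⟩
      rw [key u] at hu
      exact ⟨τ (val u), by simpa using hu⟩
    · rintro ⟨u, hu⟩
      obtain ⟨b, hb, rfl⟩ := hτ u
      refine ⟨b, hb.trans hsz, ?_⟩
      rw [key b, hu]
      simp

/-! ### the oracles of the stage -/

/-- the questions of the stage -/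
abbrev Qs (n L : ℕ) : Type := {q : List Bool // n + 1 < q.length ∧ q.length ≤ L}

instance (n L : ℕ) : Finite (Qs n L) := by
  refine Finite.of_injective (fun q : Qs n L => (⟨q.1, mem_wordsF q.2.2⟩ : wordsF L)) ?_
  intro a b h
  simpa [Subtype.ext_iff] using h

theorem card_Qs (n L : ℕ) : Nat.card (Qs n L) ≤ 2 ^ (L + 1) := by
  have h1 : Nat.card (Qs n L) ≤ Nat.card (wordsF L) :=
    Nat.card_le_card_of_injective
      (fun q : Qs n L => (⟨q.1, mem_wordsF q.2.2⟩ : wordsF L))
      (fun a b h => by simpa [Subtype.ext_iff] using h)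
  refine h1.trans ?_
  rw [Nat.card_eq_fintype_card, Fintype.card_coe]
  exact card_wordsF L

section stage

variable {U : Type} (τ : ℕ → U) (k i n L x : ℕ) (F D₀ : Set (List Bool))

/-- the `false`-part of the oracle of the stage -/
def pD (z : Vr U (Qs n L) (i + 1) k → Bool) : Set (List Bool) :=
  {v | (∃ (y : ℕ) (us : List (List Bool)), us.length = i ∧
      v = codeW i (Nat.bits x :: Nat.bits y :: us) ∧ 0 < y ∧ y ≤ x ∧
      z (.inl (leafN τ i (Nat.bits y :: us).reverse)) = true) ∨
    (∃ (q : Qs n L) (us : List (List Bool)), us.length = k ∧ v = codeW k (q.1 :: us) ∧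
      z (.inr (q, leafQ τ k us.reverse)) = true) ∨
    (v ∈ D₀ ∧ (¬ ∃ (y : ℕ) (us : List (List Bool)), us.length = i ∧
      v = codeW i (Nat.bits x :: Nat.bits y :: us) ∧ 0 < y ∧ y ≤ x) ∧
      ¬ ∃ (q : Qs n L) (us : List (List Bool)), us.length = k ∧ v = codeW k (q.1 :: us))}

/-- the oracle of the stage -/
def pA (z : Vr U (Qs n L) (i + 1) k → Bool) : Set (List Bool) := join F (pD τ k i n L x D₀ z)

variable {τ k i n L x F D₀}

theorem pD_diag (hi : i < k) {z : Vr U (Qs n L) (i + 1) k → Bool} {y : ℕ}
    {us : List (List Bool)} (hus : us.length = i) (hy : 0 < y) (hyx : y ≤ x) :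
    codeW i (Nat.bits x :: Nat.bits y :: us) ∈ pD τ k i n L x D₀ z ↔
      z (.inl (leafN τ i (Nat.bits y :: us).reverse)) = true := by
  constructor
  · rintro (⟨y', us', h1, h2, h3, h4, h5⟩ | ⟨q, us', h1, h2, -⟩ | ⟨-, h1, -⟩)
    · obtain ⟨-, h6⟩ := codeW_inj' h2
      have h7 := h6 (by simp [hus, h1])
      simp only [List.cons.injEq, true_and] at h7
      rw [h7.1, h7.2]
      exact h5
    · obtain ⟨h6, -⟩ := codeW_inj' h2
      omega
    · exact absurd ⟨y, us, hus, rfl, hy, hyx⟩ h1
  · intro h
    exact Or.inl ⟨y, us, hus, rfl, hy, hyx, h⟩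

theorem pD_code (hi : i < k) {z : Vr U (Qs n L) (i + 1) k → Bool} {q : Qs n L}
    {us : List (List Bool)} (hus : us.length = k) :
    codeW k (q.1 :: us) ∈ pD τ k i n L x D₀ z ↔
      z (.inr (q, leafQ τ k us.reverse)) = true := by
  constructor
  · rintro (⟨y', us', h1, h2, -⟩ | ⟨q', us', h1, h2, h3⟩ | ⟨-, -, h1⟩)
    · obtain ⟨h6, -⟩ := codeW_inj' h2
      omega
    · obtain ⟨-, h6⟩ := codeW_inj' h2
      have h7 := h6 (by simp [hus, h1])
      simp only [List.cons.injEq] at h7
      have h8 : q = q' := Subtype.ext h7.1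
      rw [h8, h7.2]
      exact h3
    · exact absurd ⟨q, us, hus, rfl⟩ h1
  · intro h
    exact Or.inr (Or.inl ⟨q, us, hus, rfl, h⟩)

theorem pD_else {z : Vr U (Qs n L) (i + 1) k → Bool} {v : List Bool}
    (h1 : ¬ ∃ (y : ℕ) (us : List (List Bool)), us.length = i ∧
      v = codeW i (Nat.bits x :: Nat.bits y :: us) ∧ 0 < y ∧ y ≤ x)
    (h2 : ¬ ∃ (q : Qs n L) (us : List (List Bool)), us.length = k ∧ v = codeW k (q.1 :: us)) :
    v ∈ pD τ k i n L x D₀ z ↔ v ∈ D₀ := by
  constructor
  · rintro (⟨y', us', h3, h4, h5, h6, -⟩ | ⟨q', us', h3, h4, -⟩ | ⟨h3, -, -⟩)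
    · exact absurd ⟨y', us', h3, h4, h5, h6⟩ h1
    · exact absurd ⟨q', us', h3, h4⟩ h2
    · exact h3
  · intro h
    exact Or.inr (Or.inr ⟨h, h1, h2⟩)

theorem pA_oneVar (hi : i < k) : OneVar (pA (U := U) τ k i n L x F D₀) := by
  classical
  intro s
  rcases s with _ | ⟨a, v⟩
  · exact ⟨∅, by simp, fun α β _ => by simp [pA]⟩
  cases a
  swap
  · exact ⟨∅, by simp, fun α β _ => by simp [pA]⟩
  by_cases h1 : ∃ (y : ℕ) (us : List (List Bool)), us.length = i ∧
      v = codeW i (Nat.bits x :: Nat.bits y :: us) ∧ 0 < y ∧ y ≤ x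
  · obtain ⟨y, us, hus, rfl, hy, hyx⟩ := h1
    refine ⟨{.inl (leafN τ i (Nat.bits y :: us).reverse)}, by simp, fun α β h => ?_⟩
    have h2 := h _ (Finset.mem_singleton_self _)
    unfold pA
    rw [false_mem_join, false_mem_join, pD_diag hi hus hy hyx, pD_diag hi hus hy hyx, h2]
  · by_cases h2 : ∃ (q : Qs n L) (us : List (List Bool)), us.length = k ∧ v = codeW k (q.1 :: us)
    · obtain ⟨q, us, hus, rfl⟩ := h2
      refine ⟨{.inr (q, leafQ τ k us.reverse)}, by simp, fun α β h => ?_⟩
      have h2 := h _ (Finset.mem_singleton_self _)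
      unfold pA
      rw [false_mem_join, false_mem_join, pD_code hi hus, pD_code hi hus, h2]
    · refine ⟨∅, by simp, fun α β _ => ?_⟩
      unfold pA
      rw [false_mem_join, false_mem_join, pD_else h1 h2, pD_else h1 h2]

theorem CLD_pA (hi : i < k)
    (hτ : ∀ u : U, ∃ b : List Bool, b.length ≤ (Nat.bits x).length ∧ τ (val b) = u)
    {A : Set (List Bool)} {z : Vr U (Qs n L) (i + 1) k → Bool} {y : ℕ} (hy : y ≠ 0)
    (hA : ∀ us : List (List Bool), us.length = i →
      ((false :: codeW i (Nat.bits x :: Nat.bits y :: us)) ∈ A ↔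
        z (.inl (leafN τ i (Nat.bits y :: us).reverse)) = true)) :
    CLD A i x y ↔ rv i (fun m => z (.inl m)) (τ (y - 1)) = false := by
  unfold CLD
  rw [NT_stg_aux hτ (A := dpart A) (i₀ := i) i 0 (fun m => z (.inl m)) (by omega),
    Bool.not_eq_true]
  intro us hus
  exact hA us hus

/-- the trees have the prescribed values -/
def goodZ (tr : List Bool → Set (List Bool) → Prop) (τ : ℕ → U) (k i n L x : ℕ)
    (F D₀ : Set (List Bool)) (z : Vr U (Qs n L) (i + 1) k → Bool) : Prop :=
  ∀ q : Qs n L, (rootv k (fun m => z (.inr (q, m))) = true ↔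
    tr q.1 (cut q.1.length (pA τ k i n L x F D₀ z)))

theorem cut_pA {z z' : Vr U (Qs n L) (i + 1) k → Bool} {l : ℕ} (hi : i < k)
    (h1 : ∀ m, z (.inl m) = z' (.inl m))
    (h2 : ∀ q : Qs n L, q.1.length < l → ∀ m, z (.inr (q, m)) = z' (.inr (q, m))) :
    cut l (pA τ k i n L x F D₀ z) = cut l (pA τ k i n L x F D₀ z') := by
  ext s
  simp only [cut]
  refine and_congr_left fun hs => ?_
  unfold pA
  rcases s with _ | ⟨a, v⟩
  · simp
  cases a
  swap
  · simp
  rw [false_mem_join, false_mem_join]
  by_cases g1 : ∃ (y : ℕ) (us : List (List Bool)), us.length = i ∧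
      v = codeW i (Nat.bits x :: Nat.bits y :: us) ∧ 0 < y ∧ y ≤ x
  · obtain ⟨y, us, hus, rfl, hy, hyx⟩ := g1
    rw [pD_diag hi hus hy hyx, pD_diag hi hus hy hyx, h1]
  · by_cases g2 : ∃ (q : Qs n L) (us : List (List Bool)), us.length = k ∧ v = codeW k (q.1 :: us)
    · obtain ⟨q, us, hus, rfl⟩ := g2
      have hl : q.1.length < (codeW k (q.1 :: us)).length := codeW_length
      simp only [List.length_cons] at hs
      rw [pD_code hi hus, pD_code hi hus, h2 q (by omega)]
    · rw [pD_else g1 g2, pD_else g1 g2]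

/-- extension to a good assignment -/
theorem exists_good {tr : List Bool → Set (List Bool) → Prop} {W : Type} [Finite W] {a d : ℕ}
    (hi : i < k)
    {Φ : (Vr W (Qs n L) a (d + 2) → Bool) → (Vr U (Qs n L) (i + 1) k → Bool)}
    (hroot : ∀ z q, rootv k (fun m => Φ z (.inr (q, m))) =
      rootv (d + 2) (fun m => z (.inr (q, m))))
    (htw1 : ∀ z z', (∀ m, z (.inl m) = z' (.inl m)) → ∀ m, Φ z (.inl m) = Φ z' (.inl m))
    (htw2 : ∀ q z z', (∀ m, z (.inr (q, m)) = z' (.inr (q, m))) →
      ∀ m, Φ z (.inr (q, m)) = Φ z' (.inr (q, m)))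
    (y₀ : Vr W (Qs n L) a (d + 2) → Bool) (X : Finset (Qs n L × Nd W (d + 2)))
    (hX : X.card < Nat.card W) :
    ∃ y : Vr W (Qs n L) a (d + 2) → Bool, (∀ m, y (.inl m) = y₀ (.inl m)) ∧
      (∀ m ∈ X, y (.inr m) = y₀ (.inr m)) ∧ goodZ tr τ k i n L x F D₀ (Φ y) := by
  classical
  have key : ∀ l : ℕ, ∃ y : Vr W (Qs n L) a (d + 2) → Bool, (∀ m, y (.inl m) = y₀ (.inl m)) ∧
      (∀ m ∈ X, y (.inr m) = y₀ (.inr m)) ∧
      ∀ q : Qs n L, q.1.length < l → (rootv k (fun m => Φ y (.inr (q, m))) = true ↔
        tr q.1 (cut q.1.length (pA τ k i n L x F D₀ (Φ y)))) := by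
    intro l
    induction l with
    | zero => exact ⟨y₀, fun _ => rfl, fun _ _ => rfl, fun q hq => absurd hq (by omega)⟩
    | succ l ih =>
      obtain ⟨y, hy1, hy2, hy3⟩ := ih
      have hflex : ∀ q : Qs n L, ∃ z : Nd W (d + 2) → Bool,
          (∀ m ∈ (X.filter fun p => p.1 = q).image (fun p => p.2), z m = y₀ (.inr (q, m))) ∧
          rootv (d + 2) z = decide (tr q.1 (cut l (pA τ k i n L x F D₀ (Φ y)))) := by
        intro q
        refine flex d _ _ ?_ _
        exact (Finset.card_image_le.trans (Finset.card_filter_le _ _)).trans_lt hX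
      choose f hf1 hf2 using hflex
      let y' : Vr W (Qs n L) a (d + 2) → Bool := fun v => match v with
        | .inl m => y (.inl m)
        | .inr (q, m) => if q.1.length = l then f q m else y (.inr (q, m))
      have hyy : ∀ q : Qs n L, q.1.length < l → ∀ m, y' (.inr (q, m)) = y (.inr (q, m)) := by
        intro q hq m
        show (if q.1.length = l then f q m else y (.inr (q, m))) = _
        rw [if_neg (by omega)]
      have hcut : ∀ l' ≤ l, cut l' (pA τ k i n L x F D₀ (Φ y')) =
          cut l' (pA τ k i n L x F D₀ (Φ y)) := by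
        intro l' hl'
        refine cut_pA hi (htw1 _ _ fun m => rfl) fun q hq => htw2 q _ _ fun m => ?_
        exact hyy q (by omega) m
      refine ⟨y', hy1, ?_, fun q hq => ?_⟩
      · rintro ⟨q, m⟩ hm
        show (if q.1.length = l then f q m else y (.inr (q, m))) = _
        by_cases h : q.1.length = l
        · rw [if_pos h]
          refine hf1 q m (Finset.mem_image.2 ⟨(q, m), Finset.mem_filter.2 ⟨hm, rfl⟩, rfl⟩)
        · rw [if_neg h]
          exact hy2 _ hm
      · rcases Nat.lt_succ_iff_lt_or_eq.1 hq with hq | hq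
        · rw [hcut _ hq.le]
          have : (fun m => Φ y' (.inr (q, m))) = fun m => Φ y (.inr (q, m)) :=
            funext (htw2 q _ _ (hyy q hq))
          rw [this]
          exact hy3 q hq
        · rw [hroot, hq, hcut l le_rfl]
          have : (fun m => y' (.inr (q, m))) = f q := by
            funext m
            show (if q.1.length = l then f q m else y (.inr (q, m))) = _
            rw [if_pos hq]
          rw [this, hf2 q]
          simp
  obtain ⟨y, h1, h2, h3⟩ := key (L + 1)
  exact ⟨y, h1, h2, fun q => h3 q (by have := q.2.2; omega)⟩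

/-! ### comparison with the world -/

variable {tr : List Bool → Set (List Bool) → Prop} {θ : ParK} {n₁ : ℕ}

/-- the parameters of the stage before the choice of the assignment -/
def th0 (θ : ParK) (n₁ : ℕ) : ParK := fun l => if l < n₁ then θ l else (∅, ∅)

/-- the parameters given by an assignment -/
def thK (θ : ParK) (n₁ : ℕ) (τ : ℕ → U) (k i n L x : ℕ)
    (z : Vr U (Qs n L) (i + 1) k → Bool) : ParK := fun l =>
  if l < n₁ then θ l else
    ({v | v.length = l ∧ ∃ (y : ℕ) (us : List (List Bool)), us.length = i ∧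
        v = codeW i (Nat.bits x :: Nat.bits y :: us) ∧
        z (.inl (leafN τ i (Nat.bits y :: us).reverse)) = true},
      {v | ∃ (q : Qs n L) (us : List (List Bool)), q.1.length = l ∧ us.length = k ∧
        v = codeW k (q.1 :: us) ∧ z (.inr (q, leafQ τ k us.reverse)) = true})

theorem thK_eq_th0 (hx : (Nat.bits x).length = n + 1) {z : Vr U (Qs n L) (i + 1) k → Bool}
    {l : ℕ} (hl : l ≤ n + 1) : thK θ n₁ τ k i n L x z l = th0 θ n₁ l := by
  unfold thK th0
  by_cases h : l < n₁
  · rw [if_pos h, if_pos h]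
  · rw [if_neg h, if_neg h]
    refine Prod.ext ?_ ?_
    · refine Set.eq_empty_of_forall_notMem ?_
      rintro v ⟨h1, y, us, -, rfl, -⟩
      have := codeW_length (i := i) (a := Nat.bits x) (v := Nat.bits y :: us)
      omega
    · refine Set.eq_empty_of_forall_notMem ?_
      rintro v ⟨q, us, h1, -⟩
      have := q.2.1
      omega

theorem oraK_thK (hi : i < k) (hn : n₁ ≤ n) (hx : (Nat.bits x).length = n + 1)
    (hτ : ∀ u : U, ∃ b : List Bool, b.length ≤ (Nat.bits x).length ∧ τ (val b) = u)
    {z : Vr U (Qs n L) (i + 1) k → Bool}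
    (hg : goodZ tr τ k i n L x F (dpart (oraK k F tr (th0 θ n₁))) z) :
    ∀ N, N ≤ L + 1 → cut N (oraK k F tr (thK θ n₁ τ k i n L x z)) =
      cut N (pA τ k i n L x F (dpart (oraK k F tr (th0 θ n₁))) z) := by
  intro N
  induction N with
  | zero =>
    intro _
    ext s
    simp [cut]
  | succ N ih =>
    intro hN
    have ih' := ih (by omega)
    have ihc : ∀ l ≤ N, cut l (oraK k F tr (thK θ n₁ τ k i n L x z)) =
        cut l (pA τ k i n L x F (dpart (oraK k F tr (th0 θ n₁))) z) := fun l hl =>
      cut_eq_of_le ih' hl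
    ext s
    simp only [cut]
    refine and_congr_left fun hs => ?_
    rcases Nat.lt_succ_iff_lt_or_eq.1 hs with hs | hs
    · exact mem_iff_of_cut ih' hs
    rcases s with _ | ⟨a, v⟩
    · exact iff_of_false oraK_nil (by simp [pA])
    cases a
    swap
    · rw [oraK_true]
      simp [pA]
    show _ ↔ (false :: v) ∈ pA τ k i n L x F (dpart (oraK k F tr (th0 θ n₁))) z
    unfold pA
    rw [false_mem_join]
    simp only [List.length_cons] at hs
    by_cases g1 : ∃ (i' x' y' : ℕ) (us : List (List Bool)), i' < k ∧ us.length = i' ∧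
        v = codeW i' (Nat.bits x' :: Nat.bits y' :: us)
    · obtain ⟨i', x', y', us, hi', hus, rfl⟩ := g1
      rw [oraK_diag hi' hus]
      by_cases g2 : i' = i ∧ x' = x ∧ 0 < y' ∧ y' ≤ x'
      · obtain ⟨rfl, rfl, hy, hyx⟩ := g2
        rw [pD_diag hi hus hy hyx]
        have hlen := codeW_length (i := i') (a := Nat.bits x') (v := Nat.bits y' :: us)
        have h1 : ¬ x' < y' := by omega
        have h2 : y' ≠ 0 := by omega
        have h3 : ¬ (codeW i' (Nat.bits x' :: Nat.bits y' :: us)).length < n₁ := by omega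
        simp only [h1, h2, false_and, false_or, hy, hyx, true_and]
        unfold thK
        rw [if_neg h3]
        constructor
        · rintro ⟨-, y'', us'', h4, h5, h6⟩
          obtain ⟨-, h7⟩ := codeW_inj' h5
          have h8 := h7 (by simp [hus, h4])
          simp only [List.cons.injEq, true_and] at h8
          rw [h8.1, h8.2]
          exact h6
        · intro h
          exact ⟨rfl, y', us, hus, rfl, h⟩
      · rw [pD_else, dpart]
        · show _ ↔ (false :: codeW i' (Nat.bits x' :: Nat.bits y' :: us)) ∈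
            oraK k F tr (th0 θ n₁)
          rw [oraK_diag hi' hus]
          refine or_congr_right (or_congr_right (and_congr_right fun hy =>
            and_congr_right fun hyx => ?_))
          by_cases h3 : (codeW i' (Nat.bits x' :: Nat.bits y' :: us)).length < n₁
          · unfold thK th0
            rw [if_pos h3, if_pos h3]
          · unfold thK th0
            rw [if_neg h3, if_neg h3]
            refine iff_of_false ?_ (Set.notMem_empty _)
            rintro ⟨-, y'', us'', h4, h5, -⟩
            obtain ⟨h6, h7⟩ := codeW_inj' h5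
            have h8 := h7 (by simp [hus, h4, h6])
            simp only [List.cons.injEq] at h8
            exact g2 ⟨h6, bits_inj h8.1, hy, hyx⟩
        · rintro ⟨y'', us'', h4, h5, h6, h7⟩
          obtain ⟨h8, h9⟩ := codeW_inj' h5
          have h10 := h9 (by simp [hus, h4, h8])
          simp only [List.cons.injEq] at h10
          have h11 := bits_inj h10.2.1
          have h12 := bits_inj h10.1
          exact g2 ⟨h8, h12, by omega, by omega⟩
        · rintro ⟨q, us'', h4, h5⟩
          obtain ⟨h8, -⟩ := codeW_inj' h5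
          omega
    · by_cases g2 : ∃ (q : List Bool) (us : List (List Bool)), us.length = k ∧
          v = codeW k (q :: us)
      · obtain ⟨q, us, hus, rfl⟩ := g2
        have hlen := codeW_length (i := k) (a := q) (v := us)
        rw [oraK_code hus]
        by_cases g3 : n + 1 < q.length
        · -- a question of the stage
          have hqL : q.length ≤ L := by omega
          let q' : Qs n L := ⟨q, g3, hqL⟩
          have hrw : codeW k (q :: us) ∈ pD τ k i n L x (dpart (oraK k F tr (th0 θ n₁))) z ↔
              z (.inr (q', leafQ τ k us.reverse)) = true := pD_code hi (q := q') hus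
          rw [hrw]
          have h3 : ¬ q.length < n₁ := by omega
          have hleaf : ∀ us' : List (List Bool), us'.length = k →
              (codeW k (q :: us') ∈ (thK θ n₁ τ k i n L x z q.length).2 ↔
                z (.inr (q', leafQ τ k us'.reverse)) = true) := by
            intro us' hus'
            unfold thK
            rw [if_neg h3]
            constructor
            · rintro ⟨q'', us'', h4, h5, h6, h7⟩
              obtain ⟨-, h8⟩ := codeW_inj' h6
              have h9 := h8 (by simp [hus', h5])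
              simp only [List.cons.injEq] at h9
              have h10 : q' = q'' := Subtype.ext h9.1
              rw [h10, h9.2]
              exact h7
            · intro h
              exact ⟨q', us', rfl, hus', rfl, h⟩
          have hval : NT (thK θ n₁ τ k i n L x z q.length).2 k k [q] ↔
              rootv k (fun m => z (.inr (q', m))) = true :=
            NT_code_aux (τ := τ) (fun u => by
              obtain ⟨b, hb, hb'⟩ := hτ u
              exact ⟨b, by omega, hb'⟩) k 0 (fun m => z (.inr (q', m))) (by omega) hleaf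
          have htrue : NT (thK θ n₁ τ k i n L x z q.length).2 k k [q] ↔
              tr q (cut q.length (oraK k F tr (thK θ n₁ τ k i n L x z))) := by
            rw [hval, ihc q.length (by omega)]
            exact hg q'
          simp only [htrue, not_true_eq_false, false_and, or_false, true_and]
          exact hleaf us hus
        · rw [pD_else, dpart]
          · show _ ↔ (false :: codeW k (q :: us)) ∈ oraK k F tr (th0 θ n₁)
            rw [oraK_code hus, thK_eq_th0 hx (by omega),
              cut_oraK (θ' := thK θ n₁ τ k i n L x z) (θ := th0 θ n₁)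
                (fun l hl => thK_eq_th0 hx (by omega))]
          · rintro ⟨y'', us'', h4, h5, -⟩
            obtain ⟨h8, -⟩ := codeW_inj' h5
            omega
          · rintro ⟨q'', us'', h4, h5⟩
            obtain ⟨-, h8⟩ := codeW_inj' h5
            have h9 := h8 (by simp [hus, h4])
            simp only [List.cons.injEq] at h9
            have := q''.2.1
            rw [h9.1] at g3
            omega
      · rw [pD_else]
        · exact iff_of_false (oraK_other g1 g2) (oraK_other g1 g2)
        · rintro ⟨y'', us'', h4, h5, -⟩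
          exact g1 ⟨i, x, y'', us'', hi, h4, h5⟩
        · rintro ⟨q'', us'', h4, h5⟩
          exact g2 ⟨q''.1, us'', h4, h5⟩

end stage

end Pool.Agent.Lib.MP_2b5695_lc
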