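import Pool.Agent.Lib.MP_2b5695_lc.Level1

/-!
Relative to the brain joined with hidden strings, all optimization problems are computed.
-/

namespace Pool.Agent.Lib.MP_2b5695_lc

instance : Nonempty Data := ⟨⟨[], 0, [], [], 0, 0⟩⟩

/-- enumeration of all codes (`none` is the code of a special task) -/
noncomputable def dec : ℕ → Option Data := (exists_surjective_nat (Option Data)).choose

theorem dec_surj : Function.Surjective dec := (exists_surjective_nat (Option Data)).choose_spec

/-- the hidden string that makes `y` feasible in the special problem -/
def sol (y : ℕ) : List Bool := (Nat.bits y).dropLast ++ pad (Nat.bits y).dropLast.length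

/-- the feasible solutions of the special problem -/
def CA (θ : ℕ → Option (List Bool)) (x y : ℕ) : Prop := y = 0 ∨ (y ≤ x ∧ sol y ∈ hid θ)

/-- bound for task `j` -/
noncomputable def taskN (j : ℕ) (x _u : List Bool) : ℕ :=
  match dec j with
  | some d => d.b.eval x.length
  | none => 0

open Classical in
/-- tree for task `j` -/
noncomputable def taskMain (j : ℕ) (x u : List Bool) (X : Set (List Bool)) : Tree :=
  match dec j with
  | some d =>
    if d.ps = [] then main0 d X (val x) (taskN j x u) (taskN j x u + 1) []
    else main1 d X (val x) (taskN j x u)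
  | none =>
    if val u = 0 then .halt false
    else if val u ≤ val x then write (sol (val u)) (.query fun b => .halt (!b))
    else .halt true

/-- the brain -/
noncomputable def brainA : Set (List Bool) := brain taskN taskMain

theorem computedA (θ : ℕ → Option (List Bool)) (i : ℕ) (C : ℕ → ℕ → Prop) (ρ : ℕ → ℕ)
    (h : OptProblem (join brainA (hid θ)) i C ρ) : Computed (join brainA (hid θ)) i C ρ := by
  obtain ⟨d, hps, hC, hρ, hloc, hb⟩ := exists_data h
  obtain ⟨j, hj⟩ := dec_surj (some d)
  cases i with
  | zero =>
    have hps' : d.ps = [] := List.eq_nil_of_length_eq_zero hps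
    set b := d.b with hbdef
    refine ⟨join brainA (hid θ), driver 2 j,
      18 * ((b + 1) * (20 * (b + 1) * (b + 1)) + b) + 3 * Polynomial.X + (j : Polynomial ℕ) + 6,
      self_inSigma _, fun x => ?_⟩
    have hN : taskN j (Nat.bits x) [] = b.eval (Nat.bits x).length := by
      unfold taskN; rw [hj]
    refine brain_run (N := taskN) (main := taskMain) (D := hid θ) (x := Nat.bits x) (u := [])
      (n := (b.eval (Nat.bits x).length + 1) *
        (20 * (b.eval (Nat.bits x).length + 1) * (b.eval (Nat.bits x).length + 1)))
      (fun w => true_mem_join) (fun w => false_mem_join) le_rfl ?_ ?_ rfl rfl rfl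
    · have hm : taskMain j (Nat.bits x) [] (cut (taskN j (Nat.bits x) []) (brain taskN taskMain)) =
          main0 d (cut (taskN j (Nat.bits x) []) brainA) x (taskN j (Nat.bits x) [])
            (taskN j (Nat.bits x) [] + 1) [] := by
        unfold taskMain
        rw [hj]
        simp only
        rw [if_pos hps', val_bits]
        rfl
      rw [hm, hN]
      refine main0_ens hps' hC hρ ?_ rfl _ [] List.nodup_nil (by simp) (by simp) (by simp)
      exact hb x
    · rw [hN]
      simp only [Polynomial.eval_add, Polynomial.eval_mul, Polynomial.eval_X,
        Polynomial.eval_ofNat, Polynomial.eval_one, Polynomial.eval_natCast, List.length_nil]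
      simp
  | succ i =>
    have hps' : d.ps ≠ [] := by
      intro h0; rw [h0] at hps; simp at hps
    set b := d.b with hbdef
    refine ⟨join brainA (searchSet (hid θ)), driver 2 j,
      18 * ((b + 1 + b * (7 * b + 3)) + b) + 3 * Polynomial.X + (j : Polynomial ℕ) + 6,
      search_inSigma _ _ _, fun x => ?_⟩
    have hN : taskN j (Nat.bits x) [] = b.eval (Nat.bits x).length := by
      unfold taskN; rw [hj]
    refine brain_run (N := taskN) (main := taskMain) (D := searchSet (hid θ)) (x := Nat.bits x)
      (u := []) (n := b.eval (Nat.bits x).length + 1 + b.eval (Nat.bits x).length *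
        (7 * b.eval (Nat.bits x).length + 3))
      (fun w => true_mem_join) (fun w => false_mem_join) le_rfl ?_ ?_ rfl rfl rfl
    · have hm : taskMain j (Nat.bits x) [] (cut (taskN j (Nat.bits x) []) (brain taskN taskMain)) =
          main1 d (cut (taskN j (Nat.bits x) []) brainA) x (taskN j (Nat.bits x) []) := by
        unfold taskMain
        rw [hj]
        simp only
        rw [if_neg hps', val_bits]
        rfl
      rw [hm, hN]
      refine main1_ens (E := brainA) hC h.le hρ hloc rfl ?_ rfl
      have := hb x
      omega
    · rw [hN]
      simp only [Polynomial.eval_add, Polynomial.eval_mul, Polynomial.eval_X,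
        Polynomial.eval_ofNat, Polynomial.eval_one, Polynomial.eval_natCast, List.length_nil]
      simp

theorem bits_val_length (w : List Bool) : (Nat.bits (val w)).length ≤ w.length := by
  rw [Nat.size_eq_bits_len]
  rw [Nat.size_le]
  induction w with
  | nil => simp [val]
  | cons b w ih =>
    rw [val, List.length_cons, pow_succ]
    rw [Nat.bit_val]
    cases b <;> simp <;> omega

theorem bits_two_pow (n : ℕ) : (Nat.bits (2 ^ n)).length = n + 1 := by
  rw [Nat.size_eq_bits_len]
  exact Nat.size_pow

theorem sol_length (y : ℕ) : (sol y).length ≤ 2 * (Nat.bits y).length + 1 := by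
  simp [sol, pad]
  omega

/-- the special problem is an optimization problem in `P` -/
theorem optA (θ : ℕ → Option (List Bool)) : OptProblem (join brainA (hid θ)) 0 (CA θ) id := by
  refine ⟨fun x => Or.inl rfl, ?_, ?_, ?_⟩
  · rintro x y (rfl | ⟨h, -⟩)
    · exact Nat.zero_le _
    · exact h
  · refine ⟨[.halt true], 1, fun y => ?_⟩
    rw [Polynomial.eval_one]
    refine ens_halt rfl ?_
    exact val_bits y
  · obtain ⟨j, hj⟩ := dec_surj none
    refine ⟨fun v => val (v.getD 1 []) = 0 ∨ (val (v.getD 1 []) ≤ val (v.getD 0 []) ∧
      sol (val (v.getD 1 [])) ∈ hid θ), ?_, ?_⟩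
    · refine ⟨driver 2 j, 18 * (2 * Polynomial.X + 3) + 3 * Polynomial.X + 3 * Polynomial.X +
        (j : Polynomial ℕ) + 6, fun v hv => ?_⟩
      obtain ⟨x, u, rfl⟩ := List.length_eq_two.1 hv
      simp only [List.getD_cons_zero, List.getD_cons_succ]
      have hN : taskN j x u = 0 := by unfold taskN; rw [hj]
      have hl := bits_val_length u
      have hs := sol_length (val u)
      refine brain_run (N := taskN) (main := taskMain) (D := hid θ) (x := x)
        (u := u) (n := 2 * u.length + 3)
        (fun w => true_mem_join) (fun w => false_mem_join) le_rfl ?_ ?_ rfl rfl rfl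
      · unfold taskMain
        rw [hj]
        simp only
        by_cases h0 : val u = 0
        · rw [if_pos h0]
          have : (false = true ↔ ¬ (val u = 0 ∨ (val u ≤ val x ∧ sol (val u) ∈ hid θ))) := by
            simp [h0]
          exact this
        · rw [if_neg h0]
          by_cases h1 : val u ≤ val x
          · rw [if_pos h1]
            refine Tree.Ens.mono (n := (1 + 1) + (sol (val u)).length) (by omega)
              (write_ens _ [] ?_)
            rw [List.append_nil]
            refine ⟨fun hq => ?_, fun hq => ?_⟩
            · have : ((!true) = true ↔ ¬ (val u = 0 ∨ (val u ≤ val x ∧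
                sol (val u) ∈ hid θ))) := by simp [h1, hq]
              exact this
            · have : ((!false) = true ↔ ¬ (val u = 0 ∨ (val u ≤ val x ∧
                sol (val u) ∈ hid θ))) := by simp [h0, hq]
              exact this
          · rw [if_neg h1]
            have : (true = true ↔ ¬ (val u = 0 ∨ (val u ≤ val x ∧ sol (val u) ∈ hid θ))) := by
              simp [h0, h1]
            exact this
      · rw [hN]
        have hsz : size [x, u] = x.length + u.length := by simp [size]
        simp only [Polynomial.eval_add, Polynomial.eval_mul, Polynomial.eval_X,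
          Polynomial.eval_ofNat, Polynomial.eval_natCast, Nat.cast_id]
        omega
    · intro x y
      simp only [List.getD_cons_zero, List.getD_cons_succ, val_bits]
      rfl

end Pool.Agent.Lib.MP_2b5695_lc
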