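import Pool.Agent.Lib.MP_2b5695_lc.Comb

/-!
Hidden strings, and the student for level 0.
-/

namespace Pool.Agent.Lib.MP_2b5695_lc

/-- padding -/
def pad (n : ℕ) : List Bool := true :: List.replicate n false

/-- the hidden strings: at most one for each length -/
def hid (θ : ℕ → Option (List Bool)) : Set (List Bool) :=
  {w | ∃ n g, θ n = some g ∧ g.length = n ∧ w = g ++ pad n}

theorem replicate_true_inj : ∀ {j k : ℕ} {r s : List Bool},
    List.replicate j false ++ true :: r = List.replicate k false ++ true :: s → j = k ∧ r = s
  | 0, 0, r, s, h => by simpa using h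
  | 0, k + 1, r, s, h => by simp [List.replicate_succ] at h
  | j + 1, 0, r, s, h => by simp [List.replicate_succ] at h
  | j + 1, k + 1, r, s, h => by
    have h' : List.replicate j false ++ true :: r = List.replicate k false ++ true :: s := by
      simpa [List.replicate_succ] using h
    obtain ⟨h1, h2⟩ := replicate_true_inj h'
    exact ⟨by rw [h1], h2⟩

theorem pad_inj {g g' : List Bool} {n n' : ℕ} (h : g ++ pad n = g' ++ pad n') :
    g = g' ∧ n = n' := by
  have h1 := congrArg List.reverse h
  simp only [pad, List.reverse_append, List.reverse_cons, List.reverse_replicate,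
    List.append_assoc, List.cons_append, List.nil_append] at h1
  obtain ⟨h2, h3⟩ := replicate_true_inj h1
  exact ⟨List.reverse_injective h3, h2⟩

theorem hid_length {θ : ℕ → Option (List Bool)} {w w' : List Bool} (h : w ∈ hid θ)
    (h' : w' ∈ hid θ) (hl : w.length = w'.length) : w = w' := by
  obtain ⟨n, g, h1, h2, rfl⟩ := h
  obtain ⟨n', g', h1', h2', rfl⟩ := h'
  have hn : n = n' := by
    simp [pad, h2, h2'] at hl
    omega
  subst hn
  rw [h1] at h1'
  cases h1'
  rfl

theorem nodup_hid_length {θ : ℕ → Option (List Bool)} {K : List (List Bool)} {N : ℕ}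
    (hK : K.Nodup) (h1 : ∀ w ∈ K, w ∈ hid θ) (h2 : ∀ w ∈ K, w.length < N) : K.length ≤ N := by
  have h3 : (K.map List.length).Nodup := by
    rw [List.nodup_map_iff_inj_on hK]
    intro x hx y hy hxy
    exact hid_length (h1 x hx) (h1 y hy) hxy
  have h4 : (K.map List.length) ⊆ List.range N := by
    intro n hn
    obtain ⟨w, hw, rfl⟩ := List.mem_map.1 hn
    exact List.mem_range.2 (h2 w hw)
  have h5 := (h3.subperm h4).length_le
  simpa using h5

/-- words of the `false`-part of the queries -/
def falsePart (l : List (List Bool)) : List (List Bool) :=
  l.filterMap fun w => match w with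
    | false :: v => some v
    | _ => none

theorem mem_falsePart {l : List (List Bool)} {v : List Bool} :
    v ∈ falsePart l ↔ (false :: v) ∈ l := by
  unfold falsePart
  rw [List.mem_filterMap]
  constructor
  · rintro ⟨w, hw, h⟩
    rcases w with _ | ⟨a, w⟩
    · simp at h
    · cases a
      · simp at h; subst h; exact hw
      · simp at h
  · intro h
    exact ⟨_, h, rfl⟩

theorem length_falsePart_le (l : List (List Bool)) : (falsePart l).length ≤ l.length :=
  List.length_filterMap_le _ _

/-- the candidates for hidden strings after the counterexample `z` to `y` -/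
noncomputable def cands (d : Data) (J : Set (List Bool)) (x y z : ℕ) : List (List Bool) :=
  falsePart (qrs d.Q J (d.q.eval (size [Nat.bits x, Nat.bits y])) 0 (load [Nat.bits x, Nat.bits y]))
  ++ (falsePart (qrs d.Q J (d.q.eval (size [Nat.bits x, Nat.bits z])) 0
      (load [Nat.bits x, Nat.bits z]))
  ++ (falsePart (qrs d.R J (d.r.eval (Nat.bits y).length) 0 (load [Nat.bits y]))
  ++ falsePart (qrs d.R J (d.r.eval (Nat.bits z).length) 0 (load [Nat.bits z]))))

/-- try all candidates in the oracle -/
def checkAll : List (List Bool) → List (List Bool) → (List (List Bool) → Tree) → Tree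
  | [], K, f => f K
  | q :: l, K, f => write q (.query fun b =>
      dropT q.length (checkAll l (if b = true ∧ q ∉ K then q :: K else K) f))

theorem checkAll_ens {D : Set (List Bool)} {Adv : ℕ → Option ℕ → Prop}
    {good : Bool → List Bool → Prop} {f : List (List Bool) → Tree} {n N : ℕ} :
    ∀ (l K : List (List Bool)), (∀ q ∈ l, q.length ≤ N) → K.Nodup →
      (∀ K' : List (List Bool), K'.Nodup → (∀ q, q ∈ K' ↔ q ∈ K ∨ (q ∈ l ∧ q ∈ D)) →
        Tree.Ens D Adv good n (f K') []) →
      Tree.Ens D Adv good (n + l.length * (2 * N + 1)) (checkAll l K f) []
  | [], K, _, hK, h => by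
    have := h K hK (by simp)
    simpa [checkAll] using this
  | q :: l, K, hl, hK, h => by
    have hq := hl q (by simp)
    have hl' : ∀ q ∈ l, q.length ≤ N := fun q hq => hl q (by simp [hq])
    have step : ∀ b : Bool, (q ∈ D ↔ b = true) →
        Tree.Ens D Adv good (n + l.length * (2 * N + 1) + q.length)
          (dropT q.length (checkAll l (if b = true ∧ q ∉ K then q :: K else K) f)) q := by
      intro b hb
      refine dropT_ens' q rfl (checkAll_ens l _ hl' ?_ ?_)
      · by_cases hc : b = true ∧ q ∉ K
        · rw [if_pos hc]; exact List.nodup_cons.2 ⟨hc.2, hK⟩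
        · rw [if_neg hc]; exact hK
      · intro K' hK' hmem
        refine h K' hK' fun p => ?_
        rw [hmem p]
        by_cases hc : b = true ∧ q ∉ K
        · rw [if_pos hc]
          simp only [List.mem_cons]
          have hqD := hb.2 hc.1
          constructor
          · rintro ((rfl | h1) | ⟨h1, h2⟩)
            · exact Or.inr ⟨Or.inl rfl, hqD⟩
            · exact Or.inl h1
            · exact Or.inr ⟨Or.inr h1, h2⟩
          · rintro (h1 | ⟨rfl | h1, h2⟩)
            · exact Or.inl (Or.inr h1)
            · exact Or.inl (Or.inl rfl)
            · exact Or.inr ⟨h1, h2⟩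
        · rw [if_neg hc]
          simp only [List.mem_cons]
          constructor
          · rintro (h1 | ⟨h1, h2⟩)
            · exact Or.inl h1
            · exact Or.inr ⟨Or.inr h1, h2⟩
          · rintro (h1 | ⟨rfl | h1, h2⟩)
            · exact Or.inl h1
            · have hbt := hb.1 h2
              by_contra hcon
              push Not at hcon
              exact hc ⟨hbt, hcon.1⟩
            · exact Or.inr ⟨h1, h2⟩
    have hw : Tree.Ens D Adv good ((n + l.length * (2 * N + 1) + q.length + 1) + q.length)
        (checkAll (q :: l) K f) [] := by
      refine write_ens q [] ?_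
      rw [List.append_nil]
      exact ⟨fun hq => step true (by simp [hq]), fun hq => step false (by simp [hq])⟩
    refine hw.mono ?_
    simp only [List.length_cons]
    nlinarith

/-- the student for level 0 -/
noncomputable def main0 (d : Data) (X : Set (List Bool)) (x m : ℕ) : ℕ → List (List Bool) → Tree
  | 0, _ => .halt false
  | n + 1, K => write (Nat.bits (d.opt (join X {w | w ∈ K}) x))
      (.present (.halt true) (readAll m [] fun z =>
        checkAll (cands d (join X {w | w ∈ K}) x (d.opt (join X {w | w ∈ K}) x) (val z)) K
          (main0 d X x m n)))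

theorem falsePart_bound {P : Prog} {J : Set (List Bool)} {t m : ℕ} {v : List (List Bool)}
    (h : size v + t < m) : ∀ q ∈ falsePart (qrs P J t 0 (load v)), q.length ≤ m := by
  intro q hq
  rw [mem_falsePart] at hq
  have := qrs_mem_length t 0 (load v) (size v) (load_length_le v) _ hq
  simp at this
  omega

theorem main0_ens {d : Data} {X E : Set (List Bool)} {θ : ℕ → Option (List Bool)} {x m : ℕ}
    {C : ℕ → ℕ → Prop} {ρ : ℕ → ℕ} (hps : d.ps = [])
    (hC : ∀ x y, d.feas (join E (hid θ)) x y ↔ C x y)
    (hρ : ∀ y, d.cost (join E (hid θ)) y = ρ y)
    (hb : (Nat.bits x).length + (Nat.bits x).length +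
        d.q.eval ((Nat.bits x).length + (Nat.bits x).length) + d.r.eval (Nat.bits x).length < m)
    (hX : X = cut m E) :
    ∀ (n : ℕ) (K : List (List Bool)), K.Nodup → (∀ w ∈ K, w ∈ hid θ) → (∀ w ∈ K, w.length < m) →
      m + 1 ≤ n + K.length →
      Tree.Ens (hid θ) (Answers C ρ x) (fun _ w => Optimal C ρ x (val w))
        (n * (20 * (m + 1) * (m + 1))) (main0 d X x m n K) []
  | 0, K, hK, h1, h2, h3 => by
    have := nodup_hid_length hK h1 h2
    omega
  | n + 1, K, hK, h1, h2, h3 => by
    have ih := main0_ens hps hC hρ hb hX n
    set J := join X {w | w ∈ K} with hJ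
    set y := d.opt J x with hy
    have hyx : y ≤ x := d.opt_le J x
    set nx := (Nat.bits x).length with hnx
    have hylen : (Nat.bits y).length ≤ nx := bits_length_mono hyx
    -- bounds for the four runs
    have bnd : ∀ z ≤ x, size [Nat.bits x, Nat.bits z] +
        d.q.eval (size [Nat.bits x, Nat.bits z]) < m ∧
        size [Nat.bits z] + d.r.eval (Nat.bits z).length < m := by
      intro z hz
      have hzl : (Nat.bits z).length ≤ nx := bits_length_mono hz
      have e1 : size [Nat.bits x, Nat.bits z] ≤ nx + nx := by
        simp [size]; omega
      have e2 := eval_mono d.q e1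
      have e3 := eval_mono d.r hzl
      have e4 : size [Nat.bits z] = (Nat.bits z).length := by simp [size]
      constructor
      · omega
      · omega
    -- the discrepancy lemma
    have disc : ∀ z ≤ x, ¬ RelB C ρ x y z →
        ∃ q ∈ cands d J x y z, q ∈ hid θ ∧ q ∉ K := by
      intro z hz hB
      by_contra hcon
      push Not at hcon
      have agree : ∀ (P : Prog) (t : ℕ) (v : List (List Bool)), size v + t < m →
          (∀ q ∈ falsePart (qrs P J t 0 (load v)), q ∈ cands d J x y z) →
          out P (join E (hid θ)) t 0 (load v) = out P J t 0 (load v) := by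
        intro P t v hlt hsub
        refine out_congr _ _ _ fun q hq => ?_
        have hql := qrs_mem_length t 0 (load v) (size v) (load_length_le v) q hq
        rcases q with _ | ⟨a, q⟩
        · simp [hJ]
        · simp only [List.length_cons] at hql
          cases a
          · rw [hJ, false_mem_join, false_mem_join]
            constructor
            · intro h; exact h1 q h
            · intro h
              exact hcon q (hsub q (mem_falsePart.2 hq)) h
          · rw [hJ, true_mem_join, true_mem_join, hX]
            simp only [cut]
            constructor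
            · rintro ⟨h, -⟩; exact h
            · intro h; exact ⟨h, by omega⟩
      have hfe : ∀ z' ≤ x, (∀ q ∈ falsePart (qrs d.Q J (d.q.eval (size [Nat.bits x, Nat.bits z'])) 0
            (load [Nat.bits x, Nat.bits z'])), q ∈ cands d J x y z) →
          (d.feas (join E (hid θ)) x z' ↔ d.feas J x z') := by
        intro z' hz' hsub
        have := agree d.Q _ _ (bnd z' hz').1 hsub
        unfold Data.feas
        rw [hps]
        unfold sigE
        rw [this]
      have hco : ∀ z' ≤ x, (∀ q ∈ falsePart (qrs d.R J (d.r.eval (Nat.bits z').length) 0
            (load [Nat.bits z'])), q ∈ cands d J x y z) →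
          d.cost (join E (hid θ)) z' = d.cost J z' := by
        intro z' hz' hsub
        have := agree d.R _ _ (bnd z' hz').2 hsub
        unfold Data.cost
        rw [this]
      have c1 := hfe y hyx (fun q hq => by unfold cands; simp [hq])
      have c2 := hfe z hz (fun q hq => by unfold cands; simp [hq])
      have c3 := hco y hyx (fun q hq => by unfold cands; simp [hq])
      have c4 := hco z hz (fun q hq => by unfold cands; simp [hq])
      obtain ⟨o1, o2⟩ := d.opt_spec J x
      apply hB
      refine ⟨(hC x y).1 (c1.2 o1), fun hlt hCz => ?_⟩
      have := o2 z (c2.1 ((hC x z).2 hCz))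
      rw [← hy, ← c3, ← c4, hρ, hρ] at this
      omega
    -- candidates
    have clen : ∀ z ≤ x, ∀ q ∈ cands d J x y z, q.length ≤ m := by
      intro z hz q hq
      unfold cands at hq
      simp only [List.mem_append] at hq
      rcases hq with hq | hq | hq | hq
      · exact falsePart_bound (bnd y hyx).1 q hq
      · exact falsePart_bound (bnd z hz).1 q hq
      · exact falsePart_bound (bnd y hyx).2 q hq
      · exact falsePart_bound (bnd z hz).2 q hq
    have clen' : ∀ z ≤ x, ∀ q ∈ cands d J x y z, q.length < m := by
      intro z hz q hq
      have key : ∀ {P : Prog} {t : ℕ} {v : List (List Bool)}, size v + t < m →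
          q ∈ falsePart (qrs P J t 0 (load v)) → q.length < m := by
        intro P t v hlt hq
        rw [mem_falsePart] at hq
        have := qrs_mem_length t 0 (load v) (size v) (load_length_le v) _ hq
        simp at this
        omega
      unfold cands at hq
      simp only [List.mem_append] at hq
      rcases hq with hq | hq | hq | hq
      · exact key (bnd y hyx).1 hq
      · exact key (bnd z hz).1 hq
      · exact key (bnd y hyx).2 hq
      · exact key (bnd z hz).2 hq
    have cnum : ∀ z ≤ x, (cands d J x y z).length ≤ 4 * m := by
      intro z hz
      unfold cands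
      simp only [List.length_append]
      have k1 := (length_falsePart_le (qrs d.Q J (d.q.eval (size [Nat.bits x, Nat.bits y])) 0
        (load [Nat.bits x, Nat.bits y]))).trans (qrs_length_le _ _ _)
      have k2 := (length_falsePart_le (qrs d.Q J (d.q.eval (size [Nat.bits x, Nat.bits z])) 0
        (load [Nat.bits x, Nat.bits z]))).trans (qrs_length_le _ _ _)
      have k3 := (length_falsePart_le (qrs d.R J (d.r.eval (Nat.bits y).length) 0
        (load [Nat.bits y]))).trans (qrs_length_le _ _ _)
      have k4 := (length_falsePart_le (qrs d.R J (d.r.eval (Nat.bits z).length) 0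
        (load [Nat.bits z]))).trans (qrs_length_le _ _ _)
      have b1 := bnd y hyx
      have b2 := bnd z hz
      omega
    -- the tree
    have hnm : nx < m := by omega
    set W := 20 * (m + 1) * (m + 1) with hW
    have hmain : Tree.Ens (hid θ) (Answers C ρ x) (fun _ w => Optimal C ρ x (val w))
        ((n * W + 4 * m * (2 * m + 1) + nx + 2) + (Nat.bits y).length)
        (main0 d X x m (n + 1) K) [] := by
      refine write_ens (Nat.bits y) [] ?_
      rw [List.append_nil]
      refine ⟨fun hopt => ?_, fun z hz => ?_⟩
      · -- optimal
        rw [val_bits] at hopt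
        have hg : Optimal C ρ x (val (Nat.bits y)) := by rw [val_bits]; exact hopt
        exact hg
      · rw [val_bits] at hz
        obtain ⟨hzx, hB⟩ := hz
        have hzl : (Nat.bits z).length ≤ nx := bits_length_mono hzx
        have hmn : Tree.Ens (hid θ) (Answers C ρ x) (fun _ w => Optimal C ρ x (val w))
            (n * W + 4 * m * (2 * m + 1))
            (checkAll (cands d J x y (val (Nat.bits z))) K (main0 d X x m n)) [] := by
          rw [val_bits]
          refine Tree.Ens.mono ?_ (checkAll_ens (N := m) (n := n * W) (cands d J x y z) K
            (clen z hzx) hK ?_)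
          · have := Nat.mul_le_mul_right (2 * m + 1) (cnum z hzx)
            omega
          · intro K' hK' hmem
            have hsub : K ⊆ K' := fun q hq => (hmem q).2 (Or.inl hq)
            obtain ⟨q, hq1, hq2, hq3⟩ := disc z hzx hB
            have hqK' : q ∈ K' := (hmem q).2 (Or.inr ⟨hq1, hq2⟩)
            have hlenK : K.length + 1 ≤ K'.length := by
              have h5 : (q :: K).Nodup := List.nodup_cons.2 ⟨hq3, hK⟩
              have h6 : (q :: K) ⊆ K' := by
                intro p hp
                rcases List.mem_cons.1 hp with rfl | hp
                · exact hqK'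
                · exact hsub hp
              have := (h5.subperm h6).length_le
              simpa using this
            refine ih K' hK' ?_ ?_ ?_
            · intro w hw
              rcases (hmem w).1 hw with hw | ⟨-, hw⟩
              · exact h1 w hw
              · exact hw
            · intro w hw
              rcases (hmem w).1 hw with hw | ⟨hw, -⟩
              · exact h2 w hw
              · exact clen' z hzx w hw
            · omega
        have hread := readAll_ens (D := hid θ) (Adv := Answers C ρ x)
          (good := fun _ w => Optimal C ρ x (val w))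
          (f := fun z => checkAll (cands d J x y (val z)) K (main0 d X x m n))
          (n := n * W + 4 * m * (2 * m + 1)) m (Nat.bits z) []
          (by omega) (by simpa using hmn)
        exact hread.mono (by omega)
    refine hmain.mono ?_
    have : (n + 1) * W = n * W + W := by ring
    rw [this]
    have h9 : 4 * m * (2 * m + 1) + nx + 2 + (Nat.bits y).length ≤ W := by
      rw [hW]; nlinarith
    omega

end Pool.Agent.Lib.MP_2b5695_lc
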