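import Pool.Agent.Lib.MP_2b5695_lc.Level0

/-!
The student for the levels `i ≥ 1`.
-/

namespace Pool.Agent.Lib.MP_2b5695_lc

/-- find the bits of the hidden string with the search oracle -/
def bitSearch : ℕ → List Bool → (List Bool → Tree) → Tree
  | 0, v, f => f v
  | m + 1, v, f => .push true (.query fun b =>
      match b with
      | true => bitSearch m (true :: v) f
      | false => .pop fun _ => .push false (bitSearch m (false :: v) f))

theorem mem_search_iff {θ : ℕ → Option (List Bool)} {n : ℕ} {g g' v : List Bool}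
    (hθ : θ n = some g) (hg : g.length = n) (hv : g = g' ++ v) :
    (true :: (v ++ pad n)) ∈ searchSet (hid θ) ↔ ∃ g'', g' = g'' ++ [true] := by
  constructor
  · rintro ⟨u, -, n1, g1, h1, h2, h3⟩
    have h4 : (u.reverse ++ true :: v) ++ pad n = g1 ++ pad n1 := by
      rw [← h3]; simp
    obtain ⟨h5, h6⟩ := pad_inj h4
    subst h6
    rw [hθ] at h1
    cases h1
    refine ⟨u.reverse, ?_⟩
    have h7 : g' ++ v = (u.reverse ++ [true]) ++ v := by
      rw [← hv, ← h5]; simp
    exact List.append_cancel_right h7
  · rintro ⟨g'', rfl⟩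
    refine ⟨g''.reverse, ?_, n, g, hθ, hg, ?_⟩
    · rw [hv] at hg
      simp [pad] at hg ⊢
      omega
    · rw [hv]; simp

theorem bitSearch_ens {θ : ℕ → Option (List Bool)} {Adv : ℕ → Option ℕ → Prop}
    {good : Bool → List Bool → Prop} {f : List Bool → Tree} {n c : ℕ} {g : List Bool}
    (hθ : θ n = some g) (hg : g.length = n)
    (h : Tree.Ens (searchSet (hid θ)) Adv good c (f g) (g ++ pad n)) :
    ∀ (m : ℕ) (v g' : List Bool), g'.length = m → g = g' ++ v →
      Tree.Ens (searchSet (hid θ)) Adv good (c + 4 * m) (bitSearch m v f) (v ++ pad n)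
  | 0, v, g', hm, hv => by
    have : g' = [] := List.eq_nil_of_length_eq_zero hm
    subst this
    rw [List.nil_append] at hv
    subst hv
    exact h
  | m + 1, v, g', hm, hv => by
    have ih := bitSearch_ens hθ hg h m
    have hmem := mem_search_iff hθ hg hv
    have e : c + 4 * (m + 1) = (c + 4 * m + 1 + 1) + 1 + 1 := by ring
    rw [e]
    obtain ⟨g'', a, rfl⟩ : ∃ g'' a, g' = g'' ++ [a] := by
      rcases List.eq_nil_or_concat g' with rfl | ⟨g'', a, rfl⟩
      · simp at hm
      · exact ⟨g'', a, by simp⟩
    have hl : g''.length = m := by simpa using hm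
    have hv' : g = g'' ++ (a :: v) := by rw [hv]; simp
    refine (show Tree.Ens _ Adv good _ _ (true :: (v ++ pad n)) from ⟨fun hq => ?_, fun hq => ?_⟩)
    · obtain ⟨g3, h3⟩ := hmem.1 hq
      have ha : a = true := by
        have := congrArg List.getLast? h3
        simpa using this
      subst ha
      exact (ih (true :: v) g'' hl hv').mono (by omega)
    · have ha : a = false := by
        cases a
        · rfl
        · exact absurd (hmem.2 ⟨g'', rfl⟩) hq
      subst ha
      exact ih (false :: v) g'' hl hv'

/-- find all hidden strings -/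
def findAll : ℕ → List (List Bool) → (List (List Bool) → Tree) → Tree
  | 0, K, f => f K
  | n + 1, K, f => write (pad n) (.query fun b =>
      match b with
      | true => bitSearch n [] fun g => dropT (n + (n + 1)) (findAll n ((g ++ pad n) :: K) f)
      | false => dropT (n + 1) (findAll n K f))

theorem mem_search_pad {θ : ℕ → Option (List Bool)} {n : ℕ} :
    pad n ∈ searchSet (hid θ) ↔ ∃ g, θ n = some g ∧ g.length = n := by
  constructor
  · rintro ⟨u, -, n1, g1, h1, h2, h3⟩
    obtain ⟨h5, h6⟩ := pad_inj h3
    subst h6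
    exact ⟨g1, h1, h2⟩
  · rintro ⟨g, h1, h2⟩
    refine ⟨g.reverse, ?_, n, g, h1, h2, by simp⟩
    simp [pad]; omega

theorem findAll_ens {θ : ℕ → Option (List Bool)} {Adv : ℕ → Option ℕ → Prop}
    {good : Bool → List Bool → Prop} {f : List (List Bool) → Tree} {c M : ℕ} :
    ∀ (n : ℕ) (K : List (List Bool)), n ≤ M →
      (∀ K' : List (List Bool), (∀ w, w ∈ K' ↔ w ∈ K ∨
        ∃ k < n, ∃ g, θ k = some g ∧ g.length = k ∧ w = g ++ pad k) →
        Tree.Ens (searchSet (hid θ)) Adv good c (f K') []) →
      Tree.Ens (searchSet (hid θ)) Adv good (c + n * (7 * M + 3)) (findAll n K f) []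
  | 0, K, _, h => by
    have := h K (by simp)
    simpa [findAll] using this
  | n + 1, K, hn, h => by
    have ih := findAll_ens (θ := θ) (Adv := Adv) (good := good) (f := f) (c := c) (M := M) n
    have hpl : (pad n).length = n + 1 := by simp [pad]
    have hgoal : Tree.Ens (searchSet (hid θ)) Adv good
        ((c + n * (7 * M + 3) + (n + (n + 1)) + 4 * n + 1) + (pad n).length)
        (findAll (n + 1) K f) [] := by
      refine write_ens (pad n) [] ?_
      rw [List.append_nil]
      refine ⟨fun hq => ?_, fun hq => ?_⟩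
      · obtain ⟨g, hθ, hg⟩ := mem_search_pad.1 hq
        refine bitSearch_ens hθ hg ?_ n [] g hg (by simp)
        refine dropT_ens' (g ++ pad n) (by simp [hg, hpl]) (ih _ (by omega) ?_)
        intro K' hK'
        refine h K' fun w => ?_
        rw [hK' w]
        simp only [List.mem_cons]
        constructor
        · rintro ((rfl | h1) | ⟨k, hk, h1⟩)
          · exact Or.inr ⟨n, by omega, g, hθ, hg, rfl⟩
          · exact Or.inl h1
          · exact Or.inr ⟨k, by omega, h1⟩
        · rintro (h1 | ⟨k, hk, g', h1, h2, h3⟩)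
          · exact Or.inl (Or.inr h1)
          · rcases Nat.lt_succ_iff_lt_or_eq.1 hk with hk' | rfl
            · exact Or.inr ⟨k, hk', g', h1, h2, h3⟩
            · rw [hθ] at h1
              cases h1
              exact Or.inl (Or.inl h3)
      · have hdr : Tree.Ens (searchSet (hid θ)) Adv good (c + n * (7 * M + 3) + (n + 1))
            (dropT (n + 1) (findAll n K f)) (pad n) := by
          refine dropT_ens' (pad n) hpl (ih _ (by omega) ?_)
          intro K' hK'
          refine h K' fun w => ?_
          rw [hK' w]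
          constructor
          · rintro (h1 | ⟨k, hk, h1⟩)
            · exact Or.inl h1
            · exact Or.inr ⟨k, by omega, h1⟩
          · rintro (h1 | ⟨k, hk, g', h1, h2, h3⟩)
            · exact Or.inl h1
            · rcases Nat.lt_succ_iff_lt_or_eq.1 hk with hk' | rfl
              · exact Or.inr ⟨k, hk', g', h1, h2, h3⟩
              · exact absurd (mem_search_pad.2 ⟨g', h1, h2⟩) hq
        exact hdr.mono (by omega)
    refine hgoal.mono ?_
    rw [hpl]
    nlinarith

/-- the student for the levels `i ≥ 1` -/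
noncomputable def main1 (d : Data) (X : Set (List Bool)) (x m : ℕ) : Tree :=
  findAll m [] fun K => write (Nat.bits (d.opt (join X {w | w ∈ K}) x)) (.halt true)

theorem main1_ens {d : Data} {X E : Set (List Bool)} {θ : ℕ → Option (List Bool)} {x m : ℕ}
    {C : ℕ → ℕ → Prop} {ρ : ℕ → ℕ} {Adv : ℕ → Option ℕ → Prop}
    (hC : ∀ x y, d.feas (join E (hid θ)) x y ↔ C x y)
    (hCx : ∀ x y, C x y → y ≤ x)
    (hρ : ∀ y, d.cost (join E (hid θ)) y = ρ y)
    (hloc : ∀ (A A' : Set (List Bool)) (x y : ℕ), y ≤ x →
        cut (d.b.eval (Nat.bits x).length) A = cut (d.b.eval (Nat.bits x).length) A' →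
        ((sigE A d.Q d.q d.ps [Nat.bits x, Nat.bits y] ↔
          sigE A' d.Q d.q d.ps [Nat.bits x, Nat.bits y]) ∧ d.cost A y = d.cost A' y))
    (hm : m = d.b.eval (Nat.bits x).length) (hxm : (Nat.bits x).length ≤ m)
    (hX : X = cut m E) :
    Tree.Ens (searchSet (hid θ)) Adv (fun _ w => Optimal C ρ x (val w))
        (m + 1 + m * (7 * m + 3)) (main1 d X x m) [] := by
  refine findAll_ens (M := m) m [] le_rfl ?_
  intro K hK
  set J := join X {w | w ∈ K} with hJ
  have hcut : cut m (join E (hid θ)) = cut m J := by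
    ext w
    simp only [cut, Set.mem_ofPred_eq]
    refine and_congr_left fun hw => ?_
    rcases w with _ | ⟨a, w⟩
    · simp [hJ]
    · simp only [List.length_cons] at hw
      cases a
      · rw [hJ, false_mem_join, false_mem_join, Set.mem_ofPred_eq, hK w]
        constructor
        · rintro ⟨n, g, h1, h2, h3⟩
          refine Or.inr ⟨n, ?_, g, h1, h2, h3⟩
          rw [h3] at hw
          simp [pad] at hw
          omega
        · rintro (h | ⟨n, -, g, h1, h2, h3⟩)
          · simp at h
          · exact ⟨n, g, h1, h2, h3⟩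
      · rw [hJ, true_mem_join, true_mem_join, hX]
        simp only [cut, Set.mem_ofPred_eq]
        constructor
        · intro h; exact ⟨h, by omega⟩
        · rintro ⟨h, -⟩; exact h
  rw [hm] at hcut
  have hfe : ∀ z ≤ x, (d.feas (join E (hid θ)) x z ↔ d.feas J x z) := by
    intro z hz
    unfold Data.feas
    rw [(hloc _ _ x z hz hcut).1]
  have hco : ∀ z ≤ x, d.cost (join E (hid θ)) z = d.cost J z := fun z hz =>
    (hloc _ _ x z hz hcut).2
  have hyx := d.opt_le J x
  have hopt : Optimal C ρ x (d.opt J x) := by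
    obtain ⟨o1, o2⟩ := d.opt_spec J x
    refine ⟨(hC _ _).1 ((hfe _ hyx).2 o1), fun z hz => ?_⟩
    have hzx := hCx _ _ hz
    have := o2 z ((hfe z hzx).1 ((hC _ _).2 hz))
    rwa [← hco z hzx, ← hco _ hyx, hρ, hρ] at this
  have hlen := bits_length_mono hyx
  have hgoal : Tree.Ens (searchSet (hid θ)) Adv (fun _ w => Optimal C ρ x (val w))
      (1 + (Nat.bits (d.opt J x)).length) (write (Nat.bits (d.opt J x)) (.halt true)) [] := by
    refine write_ens _ [] ?_
    rw [List.append_nil]
    have hg : Optimal C ρ x (val (Nat.bits (d.opt J x))) := by rw [val_bits]; exact hopt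
    exact hg
  exact hgoal.mono (by omega)

end Pool.Agent.Lib.MP_2b5695_lc
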