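import Pool.Agent.Lib.MP_2b5695_lc.LvTree

/-!
Rounds for one tree with rows together with a family of trees whose values are to be preserved.
-/

namespace Pool.Agent.Lib.MP_2b5695_lc

theorem Cert1.comp_map {X X' : Type} [DecidableEq X'] {s : ℕ} {f : (X → Bool) → Prop}
    (h : Cert1 s f) (π : X → X') : Cert1 s (fun z : X' → Bool => f fun x => z (π x)) := by
  intro α hα
  obtain ⟨S, h1, h2⟩ := h (fun x => α (π x)) hα
  refine ⟨S.image π, (Finset.card_image_le).trans h1, fun β hβ => h2 _ fun x hx => ?_⟩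
  exact hβ _ (Finset.mem_image_of_mem _ hx)

/-- one round, general form -/
theorem round_gen {V U G I₁ I₂ J : Type} [Fintype V] [Fintype U] [Finite G] [Fintype I₁]
    [Fintype I₂] [DecidableEq V] [DecidableEq U] {K t : ℕ} (hK : 0 < K) (s : Finset J)
    (F : J → (V × U → Bool) → Prop) (hF : ∀ j ∈ s, Cert1 t (F j))
    (a : I₁ → G → V) (ha : ∀ i, Function.Injective (a i))
    (b : I₂ → G → U → V) (hb : ∀ i (c : G → U), Function.Injective fun g => b i g (c g))
    (h1 : 4 * s.card * (4 * t) ^ t ≤ K ^ t)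
    (h2 : 4 * Nat.card I₁ * (Nat.card U * (4 * K) + K) ^ Nat.card G ≤
      Nat.card (St U K) ^ Nat.card G)
    (h3 : 4 * Nat.card I₂ * (Nat.card U * K) ^ Nat.card G ≤ Nat.card (St U K) ^ Nat.card G) :
    ∃ ρ : V → St U K, (∀ j ∈ s, Cert t fun z => F j (Phi ρ z)) ∧
      (∀ i, ∃ g r, ρ (a i g) = .inl r) ∧
      (∀ i, ∃ g, ∀ u l, ρ (b i g u) ≠ .inr (.inr l)) := by
  classical
  set Ω := V → St U K with hΩ
  have hpos : 0 < Nat.card Ω := by
    haveI : Nonempty (St U K) := ⟨.inr (.inr ⟨0, hK⟩)⟩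
    exact Nat.card_pos
  have hS : 0 < Nat.card (St U K) ^ Nat.card G := by
    haveI : Nonempty (St U K) := ⟨.inr (.inr ⟨0, hK⟩)⟩
    exact pow_pos Nat.card_pos _
  have b1 : 4 * Nat.card {ρ : Ω // ∃ j ∈ s, ¬ Cert t fun z => F j (Phi ρ z)} ≤ Nat.card Ω := by
    refine union_bound s (fun j ρ => ¬ Cert t fun z => F j (Phi ρ z)) (K ^ t) ((4 * t) ^ t)
      (pow_pos hK _) (fun j hj => ?_) h1
    exact switching hK (hF j hj)
  have b2 : 4 * Nat.card {ρ : Ω // ∃ i ∈ (Finset.univ : Finset I₁),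
      ∀ g, ∀ r, ρ (a i g) ≠ .inl r} ≤ Nat.card Ω := by
    refine union_bound Finset.univ (fun (i : I₁) (ρ : Ω) => ∀ g, ∀ r, ρ (a i g) ≠ .inl r)
      (Nat.card (St U K) ^ Nat.card G)
      ((Nat.card U * (4 * K) + K) ^ Nat.card G) hS (fun i _ => ?_) ?_
    · have := card_places (V := V) (S := St U K) (G := G)
        (C := Unit) (fun _ g => a i g) (fun _ => ha i)
        (Set.range (Sum.inr : (U × Fin (4 * K)) ⊕ Fin K → St U K))
      have eA : Nat.card (Set.range (Sum.inr : (U × Fin (4 * K)) ⊕ Fin K →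
          St U K)) = Nat.card U * (4 * K) + K := by
        rw [Nat.card_range_of_injective Sum.inr_injective, Nat.card_sum,
          Nat.card_prod U, Nat.card_fin, Nat.card_fin]
      have eU : Nat.card Unit = 1 := Nat.card_unique
      rw [eA, eU, one_mul] at this
      refine le_trans (Nat.mul_le_mul_right _ ?_) this
      refine Nat.card_mono (Set.toFinite {ρ : Ω | ∃ _ : Unit, ∀ g, ρ (a i g) ∈
        Set.range (Sum.inr : (U × Fin (4 * K)) ⊕ Fin K → St U K)}) ?_
      intro ρ hρ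
      refine ⟨(), fun g => ?_⟩
      have h4 := hρ g
      cases h5 : ρ (a i g) with
      | inl r => exact absurd h5 (h4 r)
      | inr y => exact ⟨y, rfl⟩
    · rw [Finset.card_univ, ← Nat.card_eq_fintype_card]
      exact h2
  have b3 : 4 * Nat.card {ρ : Ω // ∃ i ∈ (Finset.univ : Finset I₂),
      ∀ g, ∃ u l, ρ (b i g u) = .inr (.inr l)} ≤ Nat.card Ω := by
    refine union_bound Finset.univ
      (fun (i : I₂) (ρ : Ω) => ∀ g, ∃ u l, ρ (b i g u) = .inr (.inr l))
      (Nat.card (St U K) ^ Nat.card G)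
      ((Nat.card U * K) ^ Nat.card G) hS (fun i _ => ?_) ?_
    · have := card_places (V := V) (S := St U K) (G := G)
        (C := G → U) (fun c g => b i g (c g)) (fun c => hb i c)
        (Set.range (fun l : Fin K => (Sum.inr (Sum.inr l) : St U K)))
      have eA : Nat.card (Set.range (fun l : Fin K =>
          (Sum.inr (Sum.inr l) : St U K))) = K := by
        rw [Nat.card_range_of_injective (fun a b h => by simpa using h), Nat.card_fin]
      have eC : Nat.card (G → U) = Nat.card U ^ Nat.card G := Nat.card_fun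
      rw [eA, eC, ← mul_pow] at this
      refine le_trans (Nat.mul_le_mul_right _ ?_) this
      refine Nat.card_mono (Set.toFinite {ρ : Ω | ∃ c : G → U, ∀ g, ρ (b i g (c g)) ∈
        Set.range (fun l : Fin K => (Sum.inr (Sum.inr l) : St U K))}) ?_
      intro ρ hρ
      choose c l hc using hρ
      exact ⟨c, fun g => ⟨l g, (hc g).symm⟩⟩
    · rw [Finset.card_univ, ← Nat.card_eq_fintype_card]
      exact h3
  by_contra hcon
  push Not at hcon
  have hcov : Nat.card Ω ≤
      Nat.card {ρ : Ω // ∃ j ∈ s, ¬ Cert t fun z => F j (Phi ρ z)} +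
      Nat.card {ρ : Ω // ∃ i ∈ (Finset.univ : Finset I₁), ∀ g, ∀ r, ρ (a i g) ≠ .inl r} +
      Nat.card {ρ : Ω // ∃ i ∈ (Finset.univ : Finset I₂),
        ∀ g, ∃ u l, ρ (b i g u) = .inr (.inr l)} := by
    haveI : Fintype Ω := Fintype.ofFinite Ω
    simp only [Nat.card_eq_fintype_card, Fintype.card_subtype]
    rw [← Finset.card_univ]
    refine le_trans (Finset.card_le_card ?_) (le_trans (Finset.card_union_le _ _)
      (Nat.add_le_add_right (Finset.card_union_le _ _) _))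
    intro ρ _
    simp only [Finset.mem_union, Finset.mem_filter, Finset.mem_univ, true_and]
    by_cases c1 : ∀ j ∈ s, Cert t fun z => F j (Phi ρ z)
    · by_cases c2 : ∀ i, ∃ g r, ρ (a i g) = .inl r
      · obtain ⟨i, h4⟩ := hcon ρ c1 c2
        exact Or.inr ⟨i, h4⟩
      · push Not at c2
        obtain ⟨i, h4⟩ := c2
        exact Or.inl (Or.inr ⟨i, h4⟩)
    · push Not at c1
      exact Or.inl (Or.inl c1)
  omega

/-! ### a single tree under a restriction -/

section single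

variable {U' G : Type} {K c : ℕ}

open Classical in
/-- the assignment below a restriction, for a single tree -/
noncomputable def PhiT (ρ : Nd (U' × G) (c + 2) → St (U' × G) K) (z : Nd U' (c + 2) → Bool) :
    Nd (U' × G) (c + 3) → Bool :=
  fun x => (pv (ρ x.1) x.2).getD (!(z (Nd.proj (c + 2) x.1)))

theorem PhiT_one (ρ : Nd (U' × G) (c + 2) → St (U' × G) K) (z : Nd U' (c + 2) → Bool)
    (v : Nd (U' × G) (c + 2)) :
    col (P := Nd (U' × G) (c + 2)) (U := U' × G) (PhiT ρ z) v = false ↔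
      (∃ l, ρ v = .inr (.inr l)) ∨ (z (Nd.proj (c + 2) v) = false ∧ ∃ r, ρ v = .inl r) := by
  classical
  rw [col_false]
  have : ∀ u, PhiT ρ z (v, u) = (pv (ρ v) u).getD (!(z (Nd.proj (c + 2) v))) := fun u => by
    unfold PhiT
    congr!
  simp only [this]
  rcases hv : ρ v with r | ⟨r, l⟩ | l
  · simp only [reduceCtorEq, exists_false, false_or, Sum.inl.injEq, exists_eq', and_true]
    constructor
    · intro h
      have := h r
      simpa [pv] using this
    · intro h u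
      by_cases hu : u = r
      · simp [pv, hu, h]
      · simp [pv, hu]
  · simp only [reduceCtorEq, exists_false, and_false, or_false, Sum.inr.injEq]
    constructor
    · intro h
      have := h r
      simp [pv] at this
    · rintro ⟨l, h⟩
  · simp [pv]

theorem PhiT_two {ρ : Nd (U' × G) (c + 2) → St (U' × G) K}
    (h1 : ∀ (p : Nd (U' × G) (c + 1)) (u' : U'), ∃ g r, ρ (p, (u', g)) = .inl r)
    (z : Nd U' (c + 2) → Bool) (p : Nd (U' × G) (c + 1)) :
    col (P := Nd (U' × G) (c + 1)) (U := U' × G)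
      (col (P := Nd (U' × G) (c + 2)) (U := U' × G) (PhiT ρ z)) p = true ↔
    ((∀ u l, ρ (p, u) ≠ .inr (.inr l)) →
      col (P := Nd U' (c + 1)) (U := U') z (Nd.proj (c + 1) p) = true) := by
  rw [col_true, col_true]
  constructor
  · rintro ⟨u, hu⟩ ha
    rcases (PhiT_one ρ z (p, u)).1 hu with ⟨l, hl⟩ | ⟨h, -⟩
    · exact absurd hl (ha u l)
    · exact ⟨u.1, h⟩
  · intro h
    by_cases ha : ∀ u l, ρ (p, u) ≠ .inr (.inr l)
    · obtain ⟨u', hu'⟩ := h ha
      obtain ⟨g, r, hr⟩ := h1 p u'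
      exact ⟨(u', g), (PhiT_one ρ z (p, (u', g))).2 (Or.inr ⟨hu', r, hr⟩)⟩
    · push Not at ha
      obtain ⟨u, l, hl⟩ := ha
      exact ⟨u, (PhiT_one ρ z (p, u)).2 (Or.inl ⟨l, hl⟩)⟩

theorem PhiT_three {ρ : Nd (U' × G) (c + 2) → St (U' × G) K}
    (h1 : ∀ (p : Nd (U' × G) (c + 1)) (u' : U'), ∃ g r, ρ (p, (u', g)) = .inl r)
    (h2 : ∀ (p : Nd (U' × G) c) (u' : U'), ∃ g, ∀ u l, ρ ((p, (u', g)), u) ≠ .inr (.inr l))
    (z : Nd U' (c + 2) → Bool) :
    col (P := Nd (U' × G) c) (U := U' × G)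
      (col (P := Nd (U' × G) (c + 1)) (U := U' × G)
        (col (P := Nd (U' × G) (c + 2)) (U := U' × G) (PhiT ρ z))) =
      fun x => col (P := Nd U' c) (U := U')
        (col (P := Nd U' (c + 1)) (U := U') z) (Nd.proj c x) := by
  funext q
  rw [Bool.eq_iff_iff, col_true, col_true]
  constructor
  · rintro ⟨u, hu⟩
    refine ⟨u.1, ?_⟩
    rw [← Bool.not_eq_true] at hu ⊢
    exact fun hc => hu ((PhiT_two h1 z (q, u)).2 fun _ => hc)
  · rintro ⟨u', hu'⟩
    obtain ⟨g, hg⟩ := h2 q u'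
    refine ⟨(u', g), ?_⟩
    rw [← Bool.not_eq_true] at hu' ⊢
    exact fun hc => hu' ((PhiT_two h1 z (q, (u', g))).1 hc hg)

end single

/-- the value at the root -/
noncomputable def rootv {U : Type} : (c : ℕ) → (Nd U c → Bool) → Bool
  | 0, z => z ()
  | c + 1, z => rootv c (col (P := Nd U c) (U := U) z)

theorem rootv_proj {U' G : Type} [Nonempty G] : ∀ (c : ℕ) (z : Nd U' c → Bool),
    rootv c (fun x : Nd (U' × G) c => z (Nd.proj c x)) = rootv c z
  | 0, z => rfl
  | c + 1, z => by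
    show rootv c (col (P := Nd (U' × G) c) (U := U' × G)
      (fun x => z (Nd.proj (c + 1) x))) = rootv c (col (P := Nd U' c) (U := U') z)
    rw [col_proj]
    exact rootv_proj c _

/-- variables: one tree of depth `a`, and trees of depth `c` indexed by `Q` -/
abbrev Vr (U Q : Type) (a c : ℕ) : Type := Nd U a ⊕ (Q × Nd U c)

/-- the block of a variable, and its place in the block -/
def Vr.dn {U Q : Type} {a c : ℕ} : Vr U Q (a + 1) (c + 1) → Vr U Q a c × U
  | .inl x => (.inl x.1, x.2)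
  | .inr (q, x) => (.inr (q, x.1), x.2)

/-- projection -/
def Vr.proj {U' G Q : Type} {a c : ℕ} : Vr (U' × G) Q a c → Vr U' Q a c
  | .inl x => .inl (Nd.proj a x)
  | .inr (q, x) => .inr (q, Nd.proj c x)

/-- one round for a forest -/
theorem round_forest {U' G Q : Type} [Finite U'] [Finite G] [Nonempty G] [Finite Q]
    {K t j l : ℕ} (hK : 0 < K) {J : Type} (s : Finset J)
    (F : J → (Vr (U' × G) Q (j + 3) (l + 3) → Bool) → Prop)
    (hF : ∀ j ∈ s, Cert1 t (F j)) (h1 : 4 * s.card * (4 * t) ^ t ≤ K ^ t)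
    (h2 : 4 * Nat.card (Vr (U' × G) Q (j + 1) (l + 1) × U') *
      (Nat.card (U' × G) * (4 * K) + K) ^ Nat.card G ≤ Nat.card (St (U' × G) K) ^ Nat.card G)
    (h3 : 4 * Nat.card (Vr (U' × G) Q j l × U') * (Nat.card (U' × G) * K) ^ Nat.card G ≤
      Nat.card (St (U' × G) K) ^ Nat.card G) :
    ∃ (Φ : (Vr U' Q (j + 2) (l + 2) → Bool) → (Vr (U' × G) Q (j + 3) (l + 3) → Bool))
      (alive : U' × G → Prop),
      (∀ i ∈ s, Cert t fun z => F i (Φ z)) ∧
      (∀ z y, rv (j + 2) (fun n => Φ z (.inl n)) y = true ↔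
        (alive y → rv (j + 1) (fun n => z (.inl n)) y.1 = true)) ∧
      (∀ u', ∃ g, alive (u', g)) ∧
      (∀ z q, rootv (l + 3) (fun n => Φ z (.inr (q, n))) =
        rootv (l + 2) (fun n => z (.inr (q, n)))) ∧
      (∀ z z', (∀ n, z (.inl n) = z' (.inl n)) → ∀ n, Φ z (.inl n) = Φ z' (.inl n)) ∧
      (∀ q z z', (∀ n, z (.inr (q, n)) = z' (.inr (q, n))) →
        ∀ n, Φ z (.inr (q, n)) = Φ z' (.inr (q, n))) := by
  classical
  haveI := Fintype.ofFinite U'
  haveI := Fintype.ofFinite G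
  haveI := Fintype.ofFinite Q
  haveI : ∀ n, Fintype (Nd (U' × G) n) := fun n => Fintype.ofFinite _
  obtain ⟨ρ, r1, r2, r3⟩ := round_gen (V := Vr (U' × G) Q (j + 2) (l + 2)) (U := U' × G)
    (G := G) (I₁ := Vr (U' × G) Q (j + 1) (l + 1) × U') (I₂ := Vr (U' × G) Q j l × U')
    hK s (fun i y => F i fun x => y (Vr.dn x)) (fun i hi => (hF i hi).comp_map Vr.dn)
    (fun i g => match i with
      | (.inl p, u') => .inl (p, (u', g))
      | (.inr (q, p), u') => .inr (q, (p, (u', g))))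
    (by
      rintro ⟨p | ⟨q, p⟩, u'⟩ g g' h
      · simpa using h
      · simpa using h)
    (fun i g u => match i with
      | (.inl p, u') => .inl ((p, (u', g)), u)
      | (.inr (q, p), u') => .inr (q, ((p, (u', g)), u)))
    (by
      rintro ⟨p | ⟨q, p⟩, u'⟩ f g g' h
      · simp only [Sum.inl.injEq, Prod.mk.injEq, true_and] at h
        exact h.1
      · simp only [Sum.inr.injEq, Prod.mk.injEq, true_and] at h
        exact h.1)
    h1 h2 h3
  let Φ : (Vr U' Q (j + 2) (l + 2) → Bool) → (Vr (U' × G) Q (j + 3) (l + 3) → Bool) :=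
    fun z x => Phi ρ (fun v => z (Vr.proj v)) (Vr.dn x)
  let ρ₁ : Nd (U' × G) (j + 2) → St (U' × G) K := fun v => ρ (.inl v)
  let ρ₂ : Q → Nd (U' × G) (l + 2) → St (U' × G) K := fun q v => ρ (.inr (q, v))
  have eΦ₁ : ∀ z : Vr U' Q (j + 2) (l + 2) → Bool,
      (fun n => Φ z (.inl n)) = PhiT ρ₁ (fun n => z (.inl n)) := by
    intro z
    funext n
    show (pv (ρ (.inl n.1)) n.2).getD _ = _
    unfold PhiT
    congr!
  have eΦ₂ : ∀ (z : Vr U' Q (j + 2) (l + 2) → Bool) (q : Q),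
      (fun n => Φ z (.inr (q, n))) = PhiT (ρ₂ q) (fun n => z (.inr (q, n))) := by
    intro z q
    funext n
    show (pv (ρ (.inr (q, n.1))) n.2).getD _ = _
    unfold PhiT
    congr!
  have hE1 : ∀ (p : Nd (U' × G) (j + 1)) (u' : U'), ∃ g r, ρ₁ (p, (u', g)) = .inl r :=
    fun p u' => r2 (.inl p, u')
  have hE2 : ∀ (p : Nd (U' × G) j) (u' : U'), ∃ g, ∀ u l, ρ₁ ((p, (u', g)), u) ≠ .inr (.inr l) :=
    fun p u' => r3 (.inl p, u')
  have hE1' : ∀ (q : Q) (p : Nd (U' × G) (l + 1)) (u' : U'), ∃ g r,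
      ρ₂ q (p, (u', g)) = .inl r := fun q p u' => r2 (.inr (q, p), u')
  have hE2' : ∀ (q : Q) (p : Nd (U' × G) l) (u' : U'), ∃ g, ∀ u l,
      ρ₂ q ((p, (u', g)), u) ≠ .inr (.inr l) := fun q p u' => r3 (.inr (q, p), u')
  have hcert : ∀ i ∈ s, Cert t fun z => F i (Φ z) := fun i hi => (r1 i hi).comp_map Vr.proj
  have hroot : ∀ (z : Vr U' Q (j + 2) (l + 2) → Bool) (q : Q),
      rootv (l + 3) (fun n => Φ z (.inr (q, n))) = rootv (l + 2) (fun n => z (.inr (q, n))) := by
    intro z q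
    rw [eΦ₂]
    show rootv l (col (P := Nd (U' × G) l) (U := U' × G)
      (col (P := Nd (U' × G) (l + 1)) (U := U' × G)
        (col (P := Nd (U' × G) (l + 2)) (U := U' × G)
          (PhiT (ρ₂ q) (fun n => z (.inr (q, n))))))) = _
    rw [PhiT_three (hE1' q) (hE2' q), rootv_proj]
    rfl
  have htw1 : ∀ z z' : Vr U' Q (j + 2) (l + 2) → Bool, (∀ n, z (.inl n) = z' (.inl n)) →
      ∀ n, Φ z (.inl n) = Φ z' (.inl n) := by
    intro z z' h n
    have e1 := congrFun (eΦ₁ z) n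
    have e2 := congrFun (eΦ₁ z') n
    rw [e1, e2]
    have : (fun n => z (.inl n)) = fun n => z' (.inl n) := funext h
    rw [this]
  have htw2 : ∀ (q : Q) (z z' : Vr U' Q (j + 2) (l + 2) → Bool),
      (∀ n, z (.inr (q, n)) = z' (.inr (q, n))) →
      ∀ n, Φ z (.inr (q, n)) = Φ z' (.inr (q, n)) := by
    intro q z z' h n
    have e1 := congrFun (eΦ₂ z q) n
    have e2 := congrFun (eΦ₂ z' q) n
    rw [e1, e2]
    have : (fun n => z (.inr (q, n))) = fun n => z' (.inr (q, n)) := funext h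
    rw [this]
  rcases j with _ | j
  · refine ⟨Φ, fun y => ∀ u l, ρ₁ (((), y), u) ≠ .inr (.inr l), hcert, fun z y => ?_,
      fun u' => ?_, hroot, htw1, htw2⟩
    · rw [eΦ₁]
      show col (P := Nd (U' × G) 1) (U := U' × G)
        (col (P := Nd (U' × G) 2) (U := U' × G) (PhiT ρ₁ fun n => z (.inl n))) ((), y) = true ↔ _
      rw [PhiT_two hE1]
      rfl
    · obtain ⟨g, hg⟩ := hE2 () u'
      exact ⟨g, hg⟩
  · refine ⟨Φ, fun _ => True, hcert, fun z y => ?_, fun u' => ⟨Classical.arbitrary G, trivial⟩,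
      hroot, htw1, htw2⟩
    rw [forall_const, eΦ₁]
    show rv j (col (P := Nd (U' × G) (j + 1)) (U := U' × G)
        (col (P := Nd (U' × G) (j + 2)) (U := U' × G)
          (col (P := Nd (U' × G) (j + 3)) (U := U' × G)
            (PhiT ρ₁ fun n => z (.inl n))))) y = true ↔ _
    rw [PhiT_three hE1 hE2, rv_proj]
    rfl

end Pool.Agent.Lib.MP_2b5695_lc
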