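import Pool.Agent.Lib.MP_2b5695_lc.Basic

/-!
The game against a counterexample computation, in abstract form.
-/

namespace Pool.Agent.Lib.MP_2b5695_lc

theorem bits_val_len (w : List Bool) : (Nat.bits (val w)).length ≤ w.length := by
  induction w with
  | nil => simp [val]
  | cons b w ih =>
    have h : (Nat.bits (Nat.bit b (val w))).length ≤ (Nat.bits (val w)).length + 1 := by
      by_cases hw : val w = 0 ∧ b = false
      · obtain ⟨h1, rfl⟩ := hw
        rw [h1]
        simp
      · rw [Nat.bits_append_bit _ _ (fun h => by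
          by_contra hb
          exact hw ⟨h, by simpa using hb⟩)]
        simp
    exact h.trans (by simpa using ih)

theorem bits_len_mono {y x : ℕ} (h : y ≤ x) : (Nat.bits y).length ≤ (Nat.bits x).length := by
  rw [Nat.size_eq_bits_len, Nat.size_eq_bits_len]
  exact Nat.size_le_size h

/-- a finite set of rows does not contain some row of a long interval -/
theorem exists_fresh_row {w : ℕ} (S : Finset (Fin w)) (μ B : ℕ) (hS : S.card ≤ B)
    (hw : μ + B + 1 ≤ w) : ∃ r : Fin w, μ ≤ r.val ∧ r.val ≤ μ + B ∧ r ∉ S := by
  classical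
  by_contra hcon
  push Not at hcon
  have h1 : (Finset.range (B + 1)).card ≤ (S.image Fin.val).card := by
    refine Finset.card_le_card_of_injOn (fun i => μ + i) ?_ (fun a _ b _ h => by simpa using h)
    intro i hi
    rw [Finset.coe_range, Set.mem_Iio] at hi
    have hlt : μ + i < w := by omega
    have := hcon ⟨μ + i, hlt⟩ (by simp) (by simp; omega)
    rw [Finset.mem_coe, Finset.mem_image]
    exact ⟨_, this, rfl⟩
  have h2 := Finset.card_image_le (s := S) (f := Fin.val)
  rw [Finset.card_range] at h1
  omega

/-- the data of the game -/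
structure GameData (R : Type) (w : ℕ) where
  /-- feasible rows -/
  fe : R → Prop
  /-- a feasible value -/
  r1 : R
  /-- an infeasible value -/
  r0 : R
  /-- the problem -/
  C : (Fin w → R) → ℕ → ℕ → Prop
  /-- the input -/
  x : ℕ
  /-- the row of a number -/
  κ : ℕ → Option (Fin w)
  /-- the oracle of the machine -/
  O : (Fin w → R) → Set (List Bool)
  /-- bound on the lengths of the queries -/
  Λ : ℕ
  /-- number of rows touched by a query -/
  τ : ℕ
  hr1 : fe r1
  hr0 : ¬ fe r0
  hC0 : ∀ z, C z x 0
  hC : ∀ z y, y ≠ 0 → (C z x y ↔ ∃ r, κ y = some r ∧ fe (z r))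
  hmono : ∀ y y' r r', κ y = some r → κ y' = some r' → r < r' → y < y'
  hsurj : ∀ r, ∃ y, y ≤ x ∧ y ≠ 0 ∧ κ y = some r
  hO : ∀ (v : List Bool), v.length ≤ Λ → ∀ (S : Finset (Fin w)) (z₀ : Fin w → R),
    ∃ (S' : Finset (Fin w)) (z₁ : Fin w → R), S ⊆ S' ∧ S'.card ≤ S.card + τ ∧
      (∀ r ∈ S, z₁ r = z₀ r) ∧ (∀ r ∈ S', r ∉ S → ¬ fe (z₁ r)) ∧
      ∀ z, (∀ r ∈ S', z r = z₁ r) → (v ∈ O z ↔ v ∈ O z₁)

variable {R : Type} {w : ℕ}

theorem GameData.play (D : GameData R w) (P : Prog) {T B : ℕ} (hB : B = T * (D.τ + 1))
    (hw : (T + 1) * (B + 1) ≤ w) (hΛ : (Nat.bits D.x).length + T ≤ D.Λ) :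
    ∀ (t e : ℕ), e + t = T → ∀ (pc : ℕ) (stk : ℕ → List Bool) (S : Finset (Fin w))
      (z₀ : Fin w → R) (μ : ℕ),
      (∀ s, (stk s).length ≤ (Nat.bits D.x).length + e) →
      (∀ r ∈ S, D.fe (z₀ r) → r.val < μ) → μ ≤ e * (B + 1) → S.card ≤ e * (D.τ + 1) →
      ∃ z : Fin w → R, (∀ r ∈ S, z r = z₀ r) ∧
        ¬ Ensures P (D.O z) (Answers (D.C z) id D.x)
          (fun _ v => Optimal (D.C z) id D.x (val v)) t pc stk := by
  classical
  intro t
  induction t with
  | zero =>
    intro e he pc stk S z₀ μ h1 h2 h3 h4
    exact ⟨z₀, fun _ _ => rfl, fun h => h⟩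
  | succ t ih =>
    intro e he pc stk S z₀ μ h1 h2 h3 h4
    have he' : (e + 1) + t = T := by omega
    have hSB : S.card ≤ B := by
      rw [hB]
      exact h4.trans (Nat.mul_le_mul_right _ (by omega))
    have hexp : (e + 1) * (B + 1) = e * (B + 1) + (B + 1) := by ring
    have hexpτ : (e + 1) * (D.τ + 1) = e * (D.τ + 1) + (D.τ + 1) := by ring
    have hle : (e + 1) * (B + 1) ≤ T * (B + 1) := Nat.mul_le_mul_right _ (by omega)
    have hle' : T * (B + 1) + (B + 1) = (T + 1) * (B + 1) := by ring
    -- a fresh row and a number of that row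
    obtain ⟨r', hr1', hr2', hr3'⟩ := exists_fresh_row S μ B hSB (by omega)
    obtain ⟨y', hy1', hy2', hy3'⟩ := D.hsurj r'
    -- a number is either made infeasible, or it is committed as feasible
    have hdich : ∀ y : ℕ, (∃ (S₁ : Finset (Fin w)) (z₁ : Fin w → R), S ⊆ S₁ ∧
        S₁.card ≤ S.card + 1 ∧ (∀ r ∈ S, z₁ r = z₀ r) ∧ (∀ r ∈ S₁, D.fe (z₁ r) → r.val < μ) ∧
        ∀ z, (∀ r ∈ S₁, z r = z₁ r) → ¬ D.C z D.x y) ∨
        (y < y' ∧ ∀ z, (∀ r ∈ S, z r = z₀ r) → D.C z D.x y) := by
      intro y
      by_cases hy : y = 0
      · subst hy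
        exact Or.inr ⟨Nat.pos_of_ne_zero hy2', fun z _ => D.hC0 z⟩
      · cases hκ : D.κ y with
        | none =>
          refine Or.inl ⟨S, z₀, Finset.Subset.refl _, Nat.le_succ _, fun _ _ => rfl, h2,
            fun z _ hc => ?_⟩
          obtain ⟨r, hr, -⟩ := (D.hC z y hy).1 hc
          rw [hκ] at hr
          cases hr
        | some r =>
          by_cases hrS : r ∈ S
          · by_cases hfe : D.fe (z₀ r)
            · refine Or.inr ⟨D.hmono y y' r r' hκ hy3' ?_, fun z hz => ?_⟩
              · have := h2 r hrS hfe
                exact Fin.lt_def.2 (by omega)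
              · refine (D.hC z y hy).2 ⟨r, hκ, ?_⟩
                rw [hz r hrS]
                exact hfe
            · refine Or.inl ⟨S, z₀, Finset.Subset.refl _, Nat.le_succ _, fun _ _ => rfl, h2,
                fun z hz hc => ?_⟩
              obtain ⟨r₂, hr₂, h5⟩ := (D.hC z y hy).1 hc
              rw [hκ] at hr₂
              obtain rfl : r = r₂ := by simpa using hr₂
              rw [hz r hrS] at h5
              exact hfe h5
          · refine Or.inl ⟨insert r S, Function.update z₀ r D.r0, Finset.subset_insert _ _,
              Finset.card_insert_le _ _, fun r₂ hr₂ => ?_, fun r₂ hr₂ => ?_, fun z hz hc => ?_⟩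
            · rw [Function.update_of_ne]
              rintro rfl
              exact hrS hr₂
            · by_cases h5 : r₂ = r
              · subst h5
                rw [Function.update_self]
                exact fun h => absurd h D.hr0
              · rw [Function.update_of_ne h5]
                exact h2 r₂ ((Finset.mem_insert.1 hr₂).resolve_left h5)
            · obtain ⟨r₂, hr₂, h5⟩ := (D.hC z y hy).1 hc
              rw [hκ] at hr₂
              obtain rfl : r = r₂ := by simpa using hr₂
              rw [hz r (Finset.mem_insert_self _ _), Function.update_self] at h5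
              exact D.hr0 h5
    -- the fresh row made feasible
    have hfresh : (∀ r ∈ S, Function.update z₀ r' D.r1 r = z₀ r) ∧
        (∀ r ∈ insert r' S, D.fe (Function.update z₀ r' D.r1 r) → r.val < μ + B + 1) ∧
        ∀ z, (∀ r ∈ insert r' S, z r = Function.update z₀ r' D.r1 r) → D.C z D.x y' := by
      refine ⟨fun r hr => ?_, fun r hr h5 => ?_, fun z hz => ?_⟩
      · rw [Function.update_of_ne]
        rintro rfl
        exact hr3' hr
      · by_cases h6 : r = r'
        · subst h6; omega
        · rw [Function.update_of_ne h6] at h5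
          have := h2 r ((Finset.mem_insert.1 hr).resolve_left h6) h5
          omega
      · refine (D.hC z y' hy2').2 ⟨r', hy3', ?_⟩
        rw [hz r' (Finset.mem_insert_self _ _), Function.update_self]
        exact D.hr1
    cases hP : P[pc]? with
    | none => exact ⟨z₀, fun _ _ => rfl, fun h => by simp only [Ensures, hP] at h⟩
    | some ins =>
      cases ins with
      | push s b l =>
        have hl : ∀ s', (Function.update stk s (b :: stk s) s').length ≤
            (Nat.bits D.x).length + (e + 1) := by
          intro s'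
          by_cases hs : s' = s
          · subst hs; rw [Function.update_self]; have := h1 s'; simp; omega
          · rw [Function.update_of_ne hs]; have := h1 s'; omega
        obtain ⟨z, hz, hz'⟩ := ih (e + 1) he' l (Function.update stk s (b :: stk s)) S z₀ μ hl
          h2 (by omega) (by omega)
        refine ⟨z, hz, fun h => hz' ?_⟩
        simp only [Ensures, hP] at h
        exact h
      | pop s l₀ l₁ e₀ =>
        rcases hs : stk s with _ | ⟨b, v⟩
        · obtain ⟨z, hz, hz'⟩ := ih (e + 1) he' e₀ stk S z₀ μ
            (fun s' => by have := h1 s'; omega) h2 (by omega) (by omega)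
          refine ⟨z, hz, fun h => hz' ?_⟩
          simp only [Ensures, hP, hs] at h
          exact h
        · have hl : ∀ s', (Function.update stk s v s').length ≤
              (Nat.bits D.x).length + (e + 1) := by
            intro s'
            by_cases hs' : s' = s
            · subst hs'; rw [Function.update_self]; have := h1 s'; rw [hs] at this
              simp at this; omega
            · rw [Function.update_of_ne hs']; have := h1 s'; omega
          obtain ⟨z, hz, hz'⟩ := ih (e + 1) he' (if b then l₁ else l₀)
            (Function.update stk s v) S z₀ μ hl h2 (by omega) (by omega)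
          refine ⟨z, hz, fun h => hz' ?_⟩
          cases b <;> (simp only [Ensures, hP, hs] at h; simpa using h)
      | query s y₁ n₁ =>
        obtain ⟨S', z₁, c1, c2, c3, c4, c5⟩ := D.hO (stk s) (by have := h1 s; omega) S z₀
        have hfe : ∀ r ∈ S', D.fe (z₁ r) → r.val < μ := by
          intro r hr h5
          by_cases hrS : r ∈ S
          · rw [c3 r hrS] at h5
            exact h2 r hrS h5
          · exact absurd h5 (c4 r hr hrS)
        have hl : ∀ s', (stk s').length ≤ (Nat.bits D.x).length + (e + 1) := fun s' => by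
          have := h1 s'; omega
        by_cases hv : stk s ∈ D.O z₁
        · obtain ⟨z, hz, hz'⟩ := ih (e + 1) he' y₁ stk S' z₁ μ hl hfe (by omega) (by omega)
          refine ⟨z, fun r hr => (hz r (c1 hr)).trans (c3 r hr), fun h => hz' ?_⟩
          simp only [Ensures, hP] at h
          exact h.1 ((c5 z hz).2 hv)
        · obtain ⟨z, hz, hz'⟩ := ih (e + 1) he' n₁ stk S' z₁ μ hl hfe (by omega) (by omega)
          refine ⟨z, fun r hr => (hz r (c1 hr)).trans (c3 r hr), fun h => hz' ?_⟩
          simp only [Ensures, hP] at h
          exact h.2 fun hc => hv ((c5 z hz).1 hc)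
      | present s y₁ n₁ =>
        rcases hdich (val (stk s)) with ⟨S₁, z₁, c1, c2, c3, c4, c5⟩ | ⟨c1, c2⟩
        · have hl : ∀ s', (Function.update stk s (Nat.bits 0) s').length ≤
              (Nat.bits D.x).length + (e + 1) := by
            intro s'
            by_cases hs' : s' = s
            · subst hs'; rw [Function.update_self]; simp
            · rw [Function.update_of_ne hs']; have := h1 s'; omega
          obtain ⟨z, hz, hz'⟩ := ih (e + 1) he' n₁ (Function.update stk s (Nat.bits 0)) S₁ z₁ μ
            hl c4 (by omega) (by omega)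
          refine ⟨z, fun r hr => (hz r (c1 hr)).trans (c3 r hr), fun h => hz' ?_⟩
          simp only [Ensures, hP] at h
          exact h.2 0 ⟨Nat.zero_le _, fun hB => c5 z hz hB.1⟩
        · have hl : ∀ s', (Function.update stk s (Nat.bits y') s').length ≤
              (Nat.bits D.x).length + (e + 1) := by
            intro s'
            by_cases hs' : s' = s
            · subst hs'; rw [Function.update_self]; have := bits_len_mono hy1'; omega
            · rw [Function.update_of_ne hs']; have := h1 s'; omega
          have hcard : (insert r' S).card ≤ (e + 1) * (D.τ + 1) := by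
            have := Finset.card_insert_le r' S
            omega
          obtain ⟨z, hz, hz'⟩ := ih (e + 1) he' n₁ (Function.update stk s (Nat.bits y'))
            (insert r' S) (Function.update z₀ r' D.r1) (μ + B + 1) hl hfresh.2.1 (by omega) hcard
          have hzS : ∀ r ∈ S, z r = z₀ r := fun r hr =>
            (hz r (Finset.mem_insert_of_mem hr)).trans (hfresh.1 r hr)
          refine ⟨z, hzS, fun h => hz' ?_⟩
          simp only [Ensures, hP] at h
          exact h.2 y' ⟨hy1', fun hB => hB.2 c1 (hfresh.2.2 z hz)⟩
      | halt b =>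
        rcases hdich (val (stk 0)) with ⟨S₁, z₁, c1, c2, c3, c4, c5⟩ | ⟨c1, c2⟩
        · refine ⟨z₁, c3, fun h => ?_⟩
          simp only [Ensures, hP] at h
          exact c5 z₁ (fun _ _ => rfl) h.1
        · refine ⟨Function.update z₀ r' D.r1, hfresh.1, fun h => ?_⟩
          simp only [Ensures, hP] at h
          have h5 := h.2 y' (hfresh.2.2 _ fun _ _ => rfl)
          simp only [id] at h5
          omega

theorem GameData.lose (D : GameData R w) (P : Prog) {T B : ℕ} (hB : B = T * (D.τ + 1))
    (hw : (T + 1) * (B + 1) ≤ w) (hΛ : (Nat.bits D.x).length + T ≤ D.Λ) :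
    ∃ z : Fin w → R, ¬ Ensures P (D.O z) (Answers (D.C z) id D.x)
      (fun _ v => Optimal (D.C z) id D.x (val v)) T 0 (load [Nat.bits D.x]) := by
  obtain ⟨z, -, hz⟩ := D.play P hB hw hΛ T 0 (by omega) 0 (load [Nat.bits D.x]) ∅
    (fun _ => D.r0) 0 (fun s => by rcases s with _ | s <;> simp [load]) (by simp) (by simp)
    (by simp)
  exact ⟨z, hz⟩

end Pool.Agent.Lib.MP_2b5695_lc
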