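import Pool.Agent.Lib.MP_2b5695_lc.LvKMain
import Pool.Agent.Lib.MP_2b5695_lc.BEasy

/-!
The levels from `k` on are computed, and `Σ_k` is closed under complement.
-/

namespace Pool.Agent.Lib.MP_2b5695_lc

/-! ### the values of the trees -/

/-- codes of `Σ`-formulas -/
noncomputable def decC : ℕ → Prog × Polynomial ℕ × List (Polynomial ℕ) :=
  (exists_surjective_nat _).choose

theorem decC_surj : Function.Surjective decC := (exists_surjective_nat _).choose_spec

/-- length of the words that matter -/
noncomputable def bndC (Q : Prog) (q : Polynomial ℕ) (ps : List (Polynomial ℕ)) :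
    Polynomial ℕ := (sigE_local Q q ps).choose

theorem bndC_spec (Q : Prog) (q : Polynomial ℕ) (ps : List (Polynomial ℕ))
    (A A' : Set (List Bool)) (v : List (List Bool))
    (h : cut ((bndC Q q ps).eval (size v)) A = cut ((bndC Q q ps).eval (size v)) A') :
    sigE A Q q ps v ↔ sigE A' Q q ps v :=
  (sigE_local Q q ps).choose_spec A A' v h

/-- the values of the trees -/
noncomputable def trK (q : List Bool) (X : Set (List Bool)) : Prop :=
  (∃ j x b m, q = ques j x b m ∧ holds j x b X) ∨
  (∃ j x m, q = qcomp j x m ∧ 1 ≤ m ∧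
    (bndC (decC j).1 (decC j).2.1 (decC j).2.2).eval x.length ≤ m ∧
    ¬ sigE X (decC j).1 (decC j).2.1 (decC j).2.2 [x])

theorem ques_head (j : ℕ) (x : List Bool) (b m : ℕ) : ∃ w, ques j x b m = false :: w := by
  refine ⟨(false :: false :: false :: (List.replicate j true ++ false :: (blk x ++ false ::
    (List.replicate b true ++ false :: List.replicate m true)))).reverse, ?_⟩
  simp [ques, quesRev]

theorem qcomp_head (j : ℕ) (x : List Bool) {m : ℕ} (hm : 1 ≤ m) :
    ∃ w, qcomp j x m = true :: w := by
  obtain ⟨m, rfl⟩ : ∃ m', m = m' + 1 := ⟨m - 1, by omega⟩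
  exact ⟨List.replicate m true ++ false :: (List.replicate j true ++ false :: x), by
    simp [qcomp, List.replicate_succ]⟩

theorem qcomp_length (j : ℕ) (x : List Bool) (m : ℕ) :
    (qcomp j x m).length = m + 1 + j + 1 + x.length := by
  simp [qcomp]
  omega

theorem qcomp_inj {j j' m m' : ℕ} {x x' : List Bool} (h : qcomp j x m = qcomp j' x' m') :
    j = j' ∧ x = x' ∧ m = m' := by
  obtain ⟨h1, h2⟩ := replicate_false_inj h
  obtain ⟨h3, h4⟩ := replicate_false_inj h2
  exact ⟨h3, h4, h1⟩

theorem trK_ques {j b m : ℕ} {x : List Bool} {X : Set (List Bool)} :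
    trK (ques j x b m) X ↔ holds j x b X := by
  constructor
  · rintro (⟨j', x', b', m', h1, h2⟩ | ⟨j', x', m', h1, h2, -⟩)
    · have h3 : [] ++ ques j x b m = [] ++ ques j' x' b' m' := by simpa using h1
      obtain ⟨rfl, rfl, rfl, rfl, -⟩ := ques_inj h3
      exact h2
    · obtain ⟨w, hw⟩ := ques_head j x b m
      obtain ⟨w', hw'⟩ := qcomp_head j' x' h2
      rw [hw, hw'] at h1
      cases h1
  · intro h
    exact Or.inl ⟨j, x, b, m, rfl, h⟩

theorem trK_qcomp {j m : ℕ} {x : List Bool} {X : Set (List Bool)} :
    trK (qcomp j x m) X ↔ (1 ≤ m ∧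
      (bndC (decC j).1 (decC j).2.1 (decC j).2.2).eval x.length ≤ m ∧
      ¬ sigE X (decC j).1 (decC j).2.1 (decC j).2.2 [x]) ∨
      ∃ j' x' b' m', qcomp j x m = ques j' x' b' m' ∧ holds j' x' b' X := by
  constructor
  · rintro (⟨j', x', b', m', h1, h2⟩ | ⟨j', x', m', h1, h2, h3, h4⟩)
    · exact Or.inr ⟨j', x', b', m', h1, h2⟩
    · obtain ⟨rfl, rfl, rfl⟩ := qcomp_inj h1
      exact Or.inl ⟨h2, h3, h4⟩
  · rintro (⟨h2, h3, h4⟩ | ⟨j', x', b', m', h1, h2⟩)
    · exact Or.inr ⟨j, x, m, rfl, h2, h3, h4⟩
    · exact Or.inl ⟨j', x', b', m', h1, h2⟩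

/-! ### alternation without bounds -/

/-- alternation without bounds on the words -/
def GN (A : Set (List Bool)) (k : ℕ) (q : List Bool) : ℕ → List (List Bool) → Prop
  | 0, us => (false :: codeW k (q :: us)) ∈ A
  | j + 1, us => ∃ u : List Bool, ¬ GN A k q j (us ++ [u])

section insens

variable {k : ℕ} {F : Set (List Bool)} {tr : List Bool → Set (List Bool) → Prop} {θ : ParK}

theorem leaf_take (hθ : ∀ l, InvK k l (θ l)) {q : List Bool} {us : List (List Bool)}
    (hus : us.length = k) :
    (false :: codeW k (q :: us.map (List.take q.length))) ∈ oraK k F tr θ ↔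
      (false :: codeW k (q :: us)) ∈ oraK k F tr θ := by
  rw [oraK_code (us := us.map (List.take q.length)) (by simp [hus]), oraK_code hus,
    hθ q.length q us rfl hus]

theorem GN_take (hθ : ∀ l, InvK k l (θ l)) {q : List Bool} : ∀ (j : ℕ)
    (us : List (List Bool)), us.length + j = k →
    (GN (oraK k F tr θ) k q j (us.map (List.take q.length)) ↔ GN (oraK k F tr θ) k q j us)
  | 0, us, hus => leaf_take hθ (by omega)
  | j + 1, us, hus => by
    have key : ∀ u : List Bool,
        (GN (oraK k F tr θ) k q j (us.map (List.take q.length) ++ [u]) ↔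
          GN (oraK k F tr θ) k q j (us ++ [u])) := by
      intro u
      have h1 := GN_take (q := q) hθ j (us.map (List.take q.length) ++ [u]) (by simp; omega)
      have h2 := GN_take (q := q) hθ j (us ++ [u]) (by simp; omega)
      have h3 : (us.map (List.take q.length) ++ [u]).map (List.take q.length) =
          (us ++ [u]).map (List.take q.length) := by
        simp [List.map_map, Function.comp_def, List.take_take]
      rw [← h1, ← h2, h3]
    show (∃ u : List Bool, ¬ GN _ k q j (us.map (List.take q.length) ++ [u])) ↔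
      ∃ u : List Bool, ¬ GN _ k q j (us ++ [u])
    exact exists_congr fun u => not_congr (key u)

/-- bounds that are large enough do not matter -/
theorem GN_general (hθ : ∀ l, InvK k l (θ l)) {q : List Bool} {us₀ : List (List Bool)}
    {H : ℕ → List (List Bool) → Prop} {β : List (List Bool) → ℕ}
    (h0 : ∀ us : List (List Bool), us₀.length + us.length = k →
      (H 0 us ↔ GN (oraK k F tr θ) k q 0 (us₀ ++ us)))
    (hs : ∀ (j : ℕ) (us : List (List Bool)), us₀.length + us.length + (j + 1) = k →
      (H (j + 1) us ↔ ∃ u : List Bool, u.length ≤ β us ∧ ¬ H j (us ++ [u])))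
    (hβ : ∀ us : List (List Bool), q.length ≤ β us) :
    ∀ (j : ℕ) (us : List (List Bool)), us₀.length + us.length + j = k →
      (H j us ↔ GN (oraK k F tr θ) k q j (us₀ ++ us))
  | 0, us, h => h0 us (by omega)
  | j + 1, us, h => by
    have ih := fun u : List Bool =>
      GN_general hθ h0 hs hβ j (us ++ [u]) (by simp; omega)
    rw [hs j us h]
    show _ ↔ ∃ u : List Bool, ¬ GN _ k q j ((us₀ ++ us) ++ [u])
    simp only [List.append_assoc]
    constructor
    · rintro ⟨u, -, hu⟩
      exact ⟨u, fun hc => hu ((ih u).2 hc)⟩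
    · rintro ⟨u, hu⟩
      refine ⟨u.take q.length, ?_, fun hc => hu ?_⟩
      · refine le_trans ?_ (hβ us)
        simp
      · have h1 := (ih _).1 hc
        have h2 := GN_take (F := F) (tr := tr) hθ (q := q) j
          (us₀ ++ (us ++ [u.take q.length])) (by simp; omega)
        have h3 := GN_take (F := F) (tr := tr) hθ (q := q) j (us₀ ++ (us ++ [u]))
          (by simp; omega)
        have h4 : (us₀ ++ (us ++ [u.take q.length])).map (List.take q.length) =
            (us₀ ++ (us ++ [u])).map (List.take q.length) := by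
          simp [List.take_take]
        rw [← h3, ← h4, h2]
        exact h1

theorem GN_value (hθ : ∀ l, InvK k l (θ l)) (q : List Bool) :
    GN (oraK k F tr θ) k q k [] ↔ tr q (cut q.length (oraK k F tr θ)) := by
  refine Iff.trans ?_ (oraK_value (k := k) (F := F) (tr := tr) (θ := θ) q)
  refine (GN_general hθ (us₀ := []) (H := fun j us => NT (dpart (oraK k F tr θ)) k j (q :: us))
    (β := fun us => size (q :: us)) (fun us _ => Iff.rfl) (fun j us _ => ?_) (fun us => ?_)
    k [] (by simp)).symm
  · show (∃ u : List Bool, u.length ≤ (Polynomial.X : Polynomial ℕ).eval (size (q :: us)) ∧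
      ¬ NT (dpart (oraK k F tr θ)) k j ((q :: us) ++ [u])) ↔ _
    simp
  · simp [size]

end insens

/-! ### the oracle for questions -/

/-- the questions with positive answer -/
def DK (tr : List Bool → Set (List Bool) → Prop) (A : Set (List Bool)) : Set (List Bool) :=
  {q | tr q (cut q.length A)}

/-- alternation over `RK` -/
def RN (A : Set (List Bool)) (k : ℕ) : ℕ → List (List Bool) → Prop
  | 0, v => RK A k v
  | j + 1, v => ∃ u : List Bool, u.length ≤ (Polynomial.X : Polynomial ℕ).eval (size v) ∧
      ¬ RN A k j (v ++ [u])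

theorem RN_inSigma (A : Set (List Bool)) (k : ℕ) : ∀ (j r i : ℕ), r + j = k + 1 → j ≤ i →
    InSigma A i r (RN A k j)
  | 0, r, i, h, _ => (RK_inSigma A k i (by omega)).1
  | j + 1, r, 0, _, hji => absurd hji (by omega)
  | j + 1, r, i + 1, h, hji => ⟨RN A k j, Polynomial.X,
      RN_inSigma A k j (r + 1) i (by omega) (by omega), fun v _ => Iff.rfl⟩

theorem RN_const {A : Set (List Bool)} {k : ℕ} {c : Prop} : ∀ (j : ℕ) (v : List (List Bool)),
    (∀ us : List (List Bool), us.length = j → (RK A k (v ++ us) ↔ c)) →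
    (RN A k j v ↔ ((Even j ∧ c) ∨ (¬ Even j ∧ ¬ c)))
  | 0, v, h => by
    have := h [] rfl
    rw [List.append_nil] at this
    simp [RN, this]
  | j + 1, v, h => by
    have ih := fun u : List Bool => RN_const (A := A) (k := k) (c := c) j (v ++ [u])
      (fun us hus => by
        have := h (u :: us) (by simp [hus])
        simpa using this)
    unfold RN
    constructor
    · rintro ⟨u, -, hu⟩
      rw [ih u] at hu
      rw [Nat.even_add_one]
      tauto
    · intro hc
      refine ⟨[], by simp, ?_⟩
      rw [ih []]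
      rw [Nat.even_add_one] at hc
      tauto

theorem RN_true {A : Set (List Bool)} {k : ℕ} (w : List Bool) :
    RN A k k [true :: w] ↔ (true :: w) ∈ A := by
  rw [RN_const (c := ((true :: w) ∈ A ↔ Even k))]
  · tauto
  · intro us _
    rfl

theorem RN_nil {A : Set (List Bool)} {k : ℕ} : ¬ RN A k k [[]] := by
  rw [RN_const (c := ¬ Even k)]
  · tauto
  · intro us _
    rfl

theorem inSigma_congr {A : Set (List Bool)} {r : ℕ} {L L' : List (List Bool) → Prop}
    (h : ∀ v : List (List Bool), v.length = r → (L v ↔ L' v)) :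
    ∀ {i : ℕ}, InSigma A i r L → InSigma A i r L'
  | 0, ⟨P, p, hP⟩ => ⟨P, p, fun v hv => Ensures.mono
      (fun b _ hb => hb.trans (h v hv)) le_rfl (hP v hv)⟩
  | i + 1, ⟨L'', p, h1, h2⟩ => ⟨L'', p, h1, fun v hv => (h v hv).symm.trans (h2 v hv)⟩

section world

variable {k : ℕ} {F : Set (List Bool)} {tr : List Bool → Set (List Bool) → Prop} {θ : ParK}

theorem range_map_getD (q : List Bool) {us : List (List Bool)} (hus : us.length = k) :
    (List.range k).map (fun j => (q :: us).getD (1 + j) []) = us := by
  refine List.ext_getElem (by simp [hus]) fun n h1 h2 => ?_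
  simp only [List.getElem_map, List.getElem_range]
  rw [add_comm 1 n, List.getD_cons_succ, List.getD_eq_getElem _ _ h2]

theorem RN_false (hθ : ∀ l, InvK k l (θ l)) (q : List Bool) :
    RN (oraK k F tr θ) k k [false :: q] ↔ q ∈ DK tr (oraK k F tr θ) := by
  show _ ↔ tr q (cut q.length (oraK k F tr θ))
  refine Iff.trans ?_ (GN_value (F := F) (tr := tr) hθ q)
  refine GN_general hθ (us₀ := [])
    (H := fun j us => RN (oraK k F tr θ) k j ((false :: q) :: us))
    (β := fun us => size ((false :: q) :: us)) (fun us hus => ?_) (fun j us _ => ?_)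
    (fun us => ?_) k [] (by simp)
  · show (false :: codeW k (q :: (List.range k).map
      fun j => ((false :: q) :: us).getD (1 + j) [])) ∈ _ ↔ _
    rw [range_map_getD _ (by simpa using hus)]
    rfl
  · show (∃ u : List Bool, u.length ≤
      (Polynomial.X : Polynomial ℕ).eval (size ((false :: q) :: us)) ∧
      ¬ RN (oraK k F tr θ) k j (((false :: q) :: us) ++ [u])) ↔ _
    simp
  · simp [size]
    omega

/-- the oracle for questions belongs to `Σ_i` for `i ≥ k` -/
theorem qora_inSigma (hθ : ∀ l, InvK k l (θ l)) {i : ℕ} (hi : k ≤ i) :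
    InSigma (oraK k F tr θ) i 1
      (fun v => ∃ w ∈ join F (DK tr (oraK k F tr θ)), v = [w]) := by
  have h := RN_inSigma (oraK k F tr θ) k k 1 i (by omega) hi
  have key : ∀ v : List (List Bool), v.length = 1 →
      (RN (oraK k F tr θ) k k v ↔ ∃ w ∈ join F (DK tr (oraK k F tr θ)), v = [w]) := by
    intro v hv
    obtain ⟨w, rfl⟩ : ∃ w, v = [w] := List.length_eq_one_iff.1 hv
    have h1 : (∃ w' ∈ join F (DK tr (oraK k F tr θ)), [w] = [w']) ↔
        w ∈ join F (DK tr (oraK k F tr θ)) := by
      constructor
      · rintro ⟨w', h1, h2⟩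
        obtain rfl : w = w' := by simpa using h2
        exact h1
      · intro h1
        exact ⟨w, h1, rfl⟩
    rw [h1]
    rcases w with _ | ⟨a, w⟩
    · exact iff_of_false RN_nil nil_mem_join
    · cases a
      · rw [RN_false hθ, false_mem_join]
      · rw [RN_true, oraK_true, true_mem_join]
  exact inSigma_congr key h

end world

/-- all levels `i ≥ k` are computed -/
theorem computedK {k : ℕ} {θ : ParK} (hθ : ∀ l, InvK k l (θ l)) {i : ℕ} (hi : k ≤ i)
    (C : ℕ → ℕ → Prop) (ρ : ℕ → ℕ) (h : OptProblem (oraK k brainB trK θ) i C ρ) :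
    Computed (oraK k brainB trK θ) i C ρ := by
  obtain ⟨d, -, hC, hρ, hloc, -⟩ := exists_data h
  obtain ⟨j, hj⟩ := decB_surj (.inr d)
  set A := oraK k brainB trK θ with hA
  set D := DK trK A with hD
  refine ⟨join brainB D, driver 2 j,
    18 * ((1 + Polynomial.X) + Polynomial.X * (2 * ((j : Polynomial ℕ) + 2 * Polynomial.X +
      Polynomial.X + d.b + 7) + 1)) + 3 * Polynomial.X + (j : Polynomial ℕ) + 6,
      qora_inSigma hθ hi, fun x => ?_⟩
  set nx := (Nat.bits x).length with hnx
  set m := d.b.eval nx with hm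
  set y := d.opt (cut m A) x with hy
  have hcut : cut m A = cut m (cut m A) := (cut_cut le_rfl _).symm
  have hopt : Optimal C ρ x y := by
    have hyx := d.opt_le (cut m A) x
    obtain ⟨o1, o2⟩ := d.opt_spec (cut m A) x
    have hfe : ∀ z ≤ x, (d.feas A x z ↔ d.feas (cut m A) x z) := by
      intro z hz
      unfold Data.feas
      rw [(hloc _ _ x z hz hcut).1]
    have hco : ∀ z ≤ x, d.cost A z = d.cost (cut m A) z :=
      fun z hz => (hloc _ _ x z hz hcut).2
    refine ⟨(hC _ _).1 ((hfe _ hyx).2 o1), fun z hz => ?_⟩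
    have hzx := h.le _ _ hz
    have := o2 z ((hfe z hzx).1 ((hC _ _).2 hz))
    rwa [← hco z hzx, ← hco _ hyx, hρ, hρ] at this
  have hyx : y ≤ x := d.opt_le _ x
  have hylt : y < 2 ^ nx := lt_of_le_of_lt hyx (lt_two_pow_bits x)
  have hmn : taskB j (Nat.bits x) [] (cut 0 (brain (fun _ _ _ => 0) taskB)) =
      askBits j (Nat.bits x) m nx [] fun l => write l (.halt true) := by
    unfold taskB
    rw [hj]
  have hask : ∀ b, ques j (Nat.bits x) b m ∈ D ↔ y.testBit b = true := by
    intro b
    show trK (ques j (Nat.bits x) b m) (cut (ques j (Nat.bits x) b m).length A) ↔ _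
    rw [trK_ques]
    unfold holds
    rw [hj]
    simp only
    rw [cut_cut, val_bits]
    · rw [ques_length, ← hnx, ← hm]; omega
  refine brain_run (N := fun _ _ _ => 0) (main := taskB) (D := D) (x := Nat.bits x)
      (u := []) (n := (1 + nx) + nx * (2 * (j + 2 * nx + nx + m + 7) + 1))
      (fun w => true_mem_join) (fun w => false_mem_join) le_rfl ?_ ?_ rfl rfl rfl
  · rw [hmn]
    refine askBits_ens (K := nx) (fun b => y.testBit b) hask nx [] le_rfl ?_
    rw [List.append_nil]
    have hval : val ((List.range nx).map fun b => y.testBit b) = y := by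
      rw [val_testBit, Nat.mod_eq_of_lt hylt]
    have hl : ((List.range nx).map fun b => y.testBit b).length = nx := by simp
    have hgoal : Tree.Ens D (Answers C ρ x) (fun _ w => Optimal C ρ x (val w))
        (1 + ((List.range nx).map fun b => y.testBit b).length)
        (write ((List.range nx).map fun b => y.testBit b) (.halt true)) [] := by
      refine write_ens _ [] ?_
      rw [List.append_nil]
      have hg : Optimal C ρ x (val ((List.range nx).map fun b => y.testBit b)) := by
        rw [hval]; exact hopt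
      exact hg
    rw [hl] at hgoal
    exact hgoal
  · simp only [Polynomial.eval_add, Polynomial.eval_mul, Polynomial.eval_X,
      Polynomial.eval_ofNat, Polynomial.eval_one, Polynomial.eval_natCast, List.length_nil,
      Nat.cast_id]
    rw [← hnx, ← hm]
    omega

/-! ### complements -/

/-- the alternation for complements -/
def CN (A : Set (List Bool)) (j k : ℕ) : ℕ → List (List Bool) → Prop
  | 0, v => (false :: codeW k (qcomp j (v.getD 0 []) (lead (v.getD 1 []) + 1) ::
      rest (v.getD 1 []) :: v.drop 2)) ∈ A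
  | m + 1, v => ∃ u : List Bool,
      u.length ≤ (Polynomial.X + ((j + 3 : ℕ) : Polynomial ℕ)).eval (size v) ∧
      ¬ CN A j k m (v ++ [u])

theorem CN_inSigma (A : Set (List Bool)) (j k : ℕ) (hk : 1 ≤ k) : ∀ (m r : ℕ), r + m = k + 1 →
    InSigma A m r (CN A j k m)
  | 0, r, h => by
    obtain rfl : r = k + 1 := by omega
    exact prog3_inP A j k hk
  | m + 1, r, h => ⟨CN A j k m, _, CN_inSigma A j k hk m (r + 1) (by omega), fun _ _ => Iff.rfl⟩

theorem lead_rest (m : ℕ) (u : List Bool) :
    lead (List.replicate m true ++ false :: u) = m ∧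
      rest (List.replicate m true ++ false :: u) = u := by
  induction m with
  | zero => exact ⟨rfl, rfl⟩
  | succ m ih =>
    rw [List.replicate_succ, List.cons_append]
    exact ⟨by rw [lead, ih.1], by rw [rest, ih.2]⟩

theorem lead_le : ∀ w : List Bool, lead w ≤ w.length
  | [] => by simp [lead]
  | false :: w => by simp [lead]
  | true :: w => by
    have := lead_le w
    simp only [lead, List.length_cons]
    omega

section compl

variable {k : ℕ} {F : Set (List Bool)} {tr : List Bool → Set (List Bool) → Prop} {θ : ParK}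

theorem CN_value (hθ : ∀ l, InvK (k + 1) l (θ l)) (j : ℕ) (x w : List Bool) :
    CN (oraK (k + 1) F tr θ) j (k + 1) k [x, w] ↔
      GN (oraK (k + 1) F tr θ) (k + 1) (qcomp j x (lead w + 1)) k [rest w] := by
  refine GN_general hθ (us₀ := [rest w])
    (H := fun m us => CN (oraK (k + 1) F tr θ) j (k + 1) m (x :: w :: us))
    (β := fun us => (Polynomial.X + ((j + 3 : ℕ) : Polynomial ℕ)).eval (size (x :: w :: us)))
    (fun us _ => by
      simp only [CN, GN, List.getD_cons_zero, List.getD_cons_succ, List.drop_succ_cons,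
        List.drop_zero, List.singleton_append])
    (fun m us _ => by
      simp only [CN, List.cons_append]) (fun us => ?_) k [] (by simp [add_comm])
  have h1 := lead_le w
  rw [qcomp_length]
  simp [size]
  omega

end compl

/-- `Σ_k` is closed under complement -/
theorem compl_sigmaK {k : ℕ} (hk : 1 ≤ k) {θ : ParK} (hθ : ∀ l, InvK k l (θ l))
    (L : List (List Bool) → Prop) (h : InSigma (oraK k brainB trK θ) k 1 L) :
    InSigma (oraK k brainB trK θ) k 1 (fun v => ¬ L v) := by
  obtain ⟨k, rfl⟩ : ∃ k', k = k' + 1 := ⟨k - 1, by omega⟩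
  obtain ⟨Q, q, ps, -, hL⟩ := exists_sigE (k + 1) 1 L h
  obtain ⟨j, hj⟩ := decC_surj (Q, q, ps)
  set A := oraK (k + 1) brainB trK θ with hA
  set b := bndC Q q ps with hb
  -- the value of the trees
  have hval : ∀ (x : List Bool) (m : ℕ), 1 ≤ m → b.eval x.length ≤ m →
      (GN A (k + 1) (qcomp j x m) (k + 1) [] ↔ ¬ L [x]) := by
    intro x m hm hbm
    rw [hA, GN_value hθ, ← hA, trK_qcomp, hj]
    simp only
    have hs : size [x] = x.length := by simp [size]
    have hloc : sigE (cut (qcomp j x m).length A) Q q ps [x] ↔ sigE A Q q ps [x] := by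
      refine bndC_spec Q q ps _ _ _ ?_
      rw [cut_cut]
      rw [hs, ← hb, qcomp_length]
      omega
    rw [hloc, ← hL [x] rfl, ← hb]
    constructor
    · rintro (⟨-, -, h1⟩ | ⟨j', x', b', m', h1, -⟩)
      · exact h1
      · obtain ⟨w, hw⟩ := ques_head j' x' b' m'
        obtain ⟨w', hw'⟩ := qcomp_head j x hm
        rw [hw, hw'] at h1
        cases h1
    · intro h1
      exact Or.inl ⟨hm, hbm, h1⟩
  have hsx : ∀ x : List Bool, size [x] = x.length := fun x => by simp [size]
  refine ⟨CN A j (k + 1) k, 2 * (b + 1) + Polynomial.X + ((j + 3 : ℕ) : Polynomial ℕ),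
    CN_inSigma A j (k + 1) (by omega) k 2 (by omega), fun v hv => ?_⟩
  obtain ⟨x, rfl⟩ : ∃ x, v = [x] := List.length_eq_one_iff.1 hv
  rw [hsx]
  constructor
  · intro hn
    have h1 := (hval x (b.eval x.length + 1) (by omega) (by omega)).2 hn
    obtain ⟨u, hu⟩ : ∃ u : List Bool,
        ¬ GN A (k + 1) (qcomp j x (b.eval x.length + 1)) k [u] := h1
    -- the word may be taken short
    set l := (qcomp j x (b.eval x.length + 1)).length with hl
    have hu' : ¬ GN A (k + 1) (qcomp j x (b.eval x.length + 1)) k [u.take l] := by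
      have h2 := GN_take (F := brainB) (tr := trK) hθ (q := qcomp j x (b.eval x.length + 1)) k
        [u.take l] (by simp [add_comm])
      have h3 := GN_take (F := brainB) (tr := trK) hθ (q := qcomp j x (b.eval x.length + 1)) k
        [u] (by simp [add_comm])
      intro hc
      apply hu
      rw [← h3]
      rw [← h2] at hc
      have h4 : [u.take l].map (List.take (qcomp j x (b.eval x.length + 1)).length) =
          [u].map (List.take (qcomp j x (b.eval x.length + 1)).length) := by
        simp [List.take_take, hl]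
      rw [← h4]
      exact hc
    refine ⟨List.replicate (b.eval x.length) true ++ false :: u.take l, ?_, ?_⟩
    · have h5 : (u.take l).length ≤ l := by simp
      have h6 : l = b.eval x.length + 1 + 1 + j + 1 + x.length := by rw [hl, qcomp_length]
      simp only [List.length_append, List.length_replicate, List.length_cons,
        Polynomial.eval_add, Polynomial.eval_mul, Polynomial.eval_ofNat, Polynomial.eval_X,
        Polynomial.eval_natCast, Polynomial.eval_one, Nat.cast_id]
      omega
    · rw [List.singleton_append, hA, CN_value hθ, ← hA, (lead_rest _ _).1, (lead_rest _ _).2]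
      exact hu'
  · rintro ⟨w, -, hw⟩
    rw [List.singleton_append, hA, CN_value hθ, ← hA] at hw
    have h1 : GN A (k + 1) (qcomp j x (lead w + 1)) (k + 1) [] := ⟨rest w, hw⟩
    have h2 := h1
    rw [hA, GN_value hθ, ← hA, trK_qcomp, hj] at h2
    rcases h2 with ⟨h3, h4, -⟩ | ⟨j', x', b', m', h3, -⟩
    · exact (hval x (lead w + 1) h3 h4).1 h1
    · obtain ⟨w', hw'⟩ := ques_head j' x' b' m'
      obtain ⟨w'', hw''⟩ := qcomp_head j x (m := lead w + 1) (by omega)
      rw [hw', hw''] at h3
      cases h3

end Pool.Agent.Lib.MP_2b5695_lc
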