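import Pool.Agent.Lib.MP_2b5695_lc.LvKStage
import Pool.Agent.Lib.MP_2b5695_lc.LvMain

/-!
The stages for the levels below `k` in the world with coded trees.
-/

namespace Pool.Agent.Lib.MP_2b5695_lc

/-- the machine `P` with oracle `(Q, q, ps)` wins against all adversaries on the input `x`,
relative to the oracle `A` -/
def WinsK (P : Prog) (p : Polynomial ℕ) (Q : Prog) (q : Polynomial ℕ) (ps : List (Polynomial ℕ))
    (A : Set (List Bool)) (x : ℕ) : Prop :=
  Ensures P {v | sigE A Q q ps [v]} (Answers (CLD A ps.length) id x)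
    (fun _ v => Optimal (CLD A ps.length) id x (val v)) (p.eval (Nat.bits x).length) 0
    (load [Nat.bits x])

section transfer

variable {U : Type} {τ : ℕ → U} {k i n L x : ℕ} {F : Set (List Bool)}
  {tr : List Bool → Set (List Bool) → Prop} {θ : ParK} {n₁ : ℕ}

/-- the problem of the stage -/
def Cst {U Qt : Type} {k : ℕ} (τ : ℕ → U) (i x : ℕ) (z : Vr U Qt (i + 1) k → Bool) (x' y : ℕ) :
    Prop := x' = x ∧ (y = 0 ∨ (y ≤ x ∧ rv i (fun m => z (.inl m)) (τ (y - 1)) = false))

theorem CLD_thK (hi : i < k) (hn : n₁ ≤ n) (hx : (Nat.bits x).length = n + 1)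
    (hτ : ∀ u : U, ∃ b : List Bool, b.length ≤ (Nat.bits x).length ∧ τ (val b) = u)
    (z : Vr U (Qs n L) (i + 1) k → Bool) (y : ℕ) :
    CLD (oraK k F tr (thK θ n₁ τ k i n L x z)) i x y ↔ Cst τ i x z x y := by
  unfold Cst
  rcases Nat.eq_zero_or_pos y with rfl | hy
  · exact iff_of_true (CLD_zero hi x) ⟨rfl, Or.inl rfl⟩
  by_cases hyx : y ≤ x
  · have h0 : y ≠ 0 := by omega
    rw [CLD_pA (z := z) hi hτ h0]
    · simp [h0, hyx]
    · intro us hus
      rw [oraK_diag hi hus]
      have hlen := codeW_length (i := i) (a := Nat.bits x) (v := Nat.bits y :: us)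
      have h1 : ¬ x < y := by omega
      have h3 : ¬ (codeW i (Nat.bits x :: Nat.bits y :: us)).length < n₁ := by omega
      simp only [h0, h1, false_and, false_or, hy, hyx, true_and]
      unfold thK
      rw [if_neg h3]
      constructor
      · rintro ⟨-, y'', us'', h4, h5, h6⟩
        obtain ⟨-, h7⟩ := codeW_inj' h5
        have h8 := h7 (by simp [hus, h4])
        simp only [List.cons.injEq, true_and] at h8
        rw [h8.1, h8.2]
        exact h6
      · intro h
        exact ⟨rfl, y, us, hus, rfl, h⟩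
  · constructor
    · intro h
      exact absurd (CLD_le hi _ _ h) hyx
    · rintro ⟨-, rfl | ⟨h, -⟩⟩
      · omega
      · exact absurd h hyx

/-- the machine loses in the world if it loses in the game -/
theorem transfer {P Q : Prog} {q b : Polynomial ℕ} {ps : List (Polynomial ℕ)} {T Λ : ℕ}
    (hb : ∀ (A A' : Set (List Bool)) (v : List (List Bool)),
      cut (b.eval (size v)) A = cut (b.eval (size v)) A' → (sigE A Q q ps v ↔ sigE A' Q q ps v))
    (hL : L = b.eval Λ) (hΛ : Λ = n + 1 + T)
    (hi : i < k) (hn : n₁ ≤ n) (hx : (Nat.bits x).length = n + 1)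
    (hτ : ∀ u : U, ∃ b : List Bool, b.length ≤ (Nat.bits x).length ∧ τ (val b) = u)
    {z : Vr U (Qs n L) (i + 1) k → Bool}
    (hg : goodZ tr τ k i n L x F (dpart (oraK k F tr (th0 θ n₁))) z)
    (hE : ¬ Ensures P {v | sigE (pA τ k i n L x F (dpart (oraK k F tr (th0 θ n₁))) z) Q q ps [v]}
      (Answers (Cst τ i x z) id x) (fun _ v => Optimal (Cst τ i x z) id x (val v)) T 0
      (load [Nat.bits x])) :
    ¬ Ensures P {v | sigE (oraK k F tr (thK θ n₁ τ k i n L x z)) Q q ps [v]}
      (Answers (CLD (oraK k F tr (thK θ n₁ τ k i n L x z)) i) id x)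
      (fun _ v => Optimal (CLD (oraK k F tr (thK θ n₁ τ k i n L x z)) i) id x (val v)) T 0
      (load [Nat.bits x]) := by
  intro h
  apply hE
  refine ens_congr (Λ := Λ) (fun y => CLD_thK hi hn hx hτ z y) (fun v hv => ?_) T 0 _
    (fun s => ?_) (by omega) h
  · refine hb _ _ _ (cut_eq_of_le (oraK_thK hi hn hx hτ hg L (Nat.le_succ _)) ?_)
    rw [hL]
    refine eval_mono b ?_
    simpa [size] using hv
  · have := load_length_le [Nat.bits x] s
    have h2 : size [Nat.bits x] = (Nat.bits x).length := by simp [size]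
    omega

end transfer

/-! ### truncation of the words -/

/-- membership of a code depends on the first `l` bits of the words only -/
def InvK (k l : ℕ) (Y : Set (List Bool) × Set (List Bool)) : Prop :=
  ∀ (q : List Bool) (us : List (List Bool)), q.length = l → us.length = k →
    (codeW k (q :: us.map (List.take l)) ∈ Y.2 ↔ codeW k (q :: us) ∈ Y.2)

theorem invK_empty (k l : ℕ) (Y : Set (List Bool)) : InvK k l (Y, ∅) :=
  fun _ _ _ _ => Iff.rfl

theorem val_take_mod (m : ℕ) : ∀ (u : List Bool) (l : ℕ), m ≤ l →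
    val (u.take l) % 2 ^ m = val u % 2 ^ m := by
  induction m with
  | zero => intro u l _; simp [Nat.mod_one]
  | succ m ih =>
    intro u l hl
    rcases u with _ | ⟨b, u⟩
    · simp
    · obtain ⟨l', rfl⟩ : ∃ l', l = l' + 1 := ⟨l - 1, by omega⟩
      have h1 := ih u l' (by omega)
      rw [List.take_succ_cons, val, val, Nat.bit_val, Nat.bit_val, pow_succ, mul_comm (2 ^ m) 2,
        Nat.mod_mul, Nat.mod_mul]
      have e1 : ∀ a : ℕ, (2 * a + b.toNat) / 2 = a := by
        intro a
        cases b <;> simp <;> omega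
      have e2 : ∀ a : ℕ, (2 * a + b.toNat) % 2 = b.toNat := by
        intro a
        cases b <;> simp <;> omega
      rw [e1, e1, e2, e2, h1]

theorem leafQ_take {U : Type} {τ : ℕ → U} {l : ℕ}
    (hτ : ∀ u : List Bool, τ (val (u.take l)) = τ (val u)) : ∀ (j : ℕ) (us : List (List Bool)),
    leafQ τ j (us.map (List.take l)) = leafQ τ j us
  | 0, _ => rfl
  | j + 1, us => by
    have h1 : (us.map (List.take l)).getD 0 [] = (us.getD 0 []).take l := by
      cases us <;> simp
    have h2 : (us.map (List.take l)).tail = us.tail.map (List.take l) := by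
      cases us <;> simp
    show (leafQ τ j (us.map (List.take l)).tail, τ (val ((us.map (List.take l)).getD 0 []))) =
      (leafQ τ j us.tail, τ (val (us.getD 0 [])))
    rw [h1, h2, hτ, leafQ_take hτ j]

theorem thK_inv {U : Type} {τ : ℕ → U} {k i n L x n₁ : ℕ} {θ : ParK}
    (hτ : ∀ (u : List Bool) (l : ℕ), n + 1 ≤ l → τ (val (u.take l)) = τ (val u))
    (z : Vr U (Qs n L) (i + 1) k → Bool) (hθ : ∀ l, InvK k l (θ l)) (l : ℕ) :
    InvK k l (thK θ n₁ τ k i n L x z l) := by
  unfold thK
  by_cases hl : l < n₁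
  · rw [if_pos hl]
    exact hθ l
  · rw [if_neg hl]
    intro q us hq hus
    constructor
    · rintro ⟨q', us', h1, h2, h3, h4⟩
      obtain ⟨-, h5⟩ := codeW_inj' h3
      have h6 := h5 (by simp [hus, h2])
      simp only [List.cons.injEq] at h6
      obtain ⟨rfl, rfl⟩ := h6
      refine ⟨q', us, h1, hus, rfl, ?_⟩
      rw [← List.map_reverse, leafQ_take (fun u => hτ u l (by have := q'.2.1; omega))] at h4
      exact h4
    · rintro ⟨q', us', h1, h2, h3, h4⟩
      obtain ⟨-, h5⟩ := codeW_inj' h3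
      have h6 := h5 (by simp [hus, h2])
      simp only [List.cons.injEq] at h6
      obtain ⟨rfl, rfl⟩ := h6
      refine ⟨q', us.map (List.take l), h1, by simp [hus], rfl, ?_⟩
      rw [← List.map_reverse, leafQ_take (fun u => hτ u l (by have := q'.2.1; omega))]
      exact h4

/-- decoding of the last `n + 1` bits -/
def dcm {w g : ℕ} (hw : 0 < w) (hg : 0 < g) (k n m : ℕ) : Ut (Fin w) (Fin g) k :=
  dcd hw hg k (m % 2 ^ (n + 1))

theorem dcm_eq {w g : ℕ} (hw : 0 < w) (hg : 0 < g) (k : ℕ) {n m : ℕ} (h : m < 2 ^ (n + 1)) :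
    dcm hw hg k n m = dcd hw hg k m := by
  unfold dcm
  rw [Nat.mod_eq_of_lt h]

theorem dcm_take {w g : ℕ} (hw : 0 < w) (hg : 0 < g) (k n : ℕ) (u : List Bool) (l : ℕ)
    (hl : n + 1 ≤ l) : dcm hw hg k n (val (u.take l)) = dcm hw hg k n (val u) := by
  unfold dcm
  rw [val_take_mod _ _ _ hl]

/-- the stage for levels `r + 1` -/
theorem stageK_succ (P Q : Prog) (p q : Polynomial ℕ) (ps : List (Polynomial ℕ)) (r d : ℕ)
    (hps : ps.length = r + 1) (F : Set (List Bool)) (tr : List Bool → Set (List Bool) → Prop)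
    (θ : ParK) (hθ : ∀ l, InvK (d + r + 2) l (θ l)) (n₁ : ℕ) :
    ∃ (x : ℕ) (θ' : ParK), (∀ l < n₁, θ' l = θ l) ∧ (∀ l, InvK (d + r + 2) l (θ' l)) ∧
      ¬ WinsK P p Q q ps (oraK (d + r + 2) F tr θ') x := by
  classical
  obtain ⟨b, hb⟩ := sigE_local Q q ps
  -- polynomials
  set Tp : Polynomial ℕ := p.comp (Polynomial.X + 1) with hTp
  set Λp : Polynomial ℕ := Polynomial.X + 1 + Tp with hΛp
  set Lp : Polynomial ℕ := b.comp Λp with hLp
  set Sp : Polynomial ℕ := bdP ps Λp with hSp
  set tp : Polynomial ℕ := q.comp Sp + (Sp + 1) * ((ps.length + 1 : ℕ) : Polynomial ℕ) + 2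
    with htp
  set hp : Polynomial ℕ := Lp + Polynomial.X * ((d + r + 2 : ℕ) : Polynomial ℕ) + 4 with hhp
  set gp : Polynomial ℕ := (40 * tp + 1) * hp with hgp
  set wp : Polynomial ℕ := (Tp + 1) * (Tp * (tp + 1) + 1) + tp + 1 with hwp
  obtain ⟨n, hn₁, hn⟩ := exists_pow_gt (wp * gp ^ r) n₁
  -- their values
  obtain ⟨T, hT⟩ : ∃ T, T = p.eval (n + 1) := ⟨_, rfl⟩
  obtain ⟨Λ, hΛ⟩ : ∃ Λ, Λ = n + 1 + T := ⟨_, rfl⟩
  obtain ⟨L, hL⟩ : ∃ L, L = b.eval Λ := ⟨_, rfl⟩
  obtain ⟨S, hS⟩ : ∃ S, S = bdl ps Λ := ⟨_, rfl⟩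
  obtain ⟨t, ht⟩ : ∃ t, t = q.eval S + (S + 1) * (ps.length + 1) + 2 := ⟨_, rfl⟩
  obtain ⟨h, hh⟩ : ∃ h, h = L + n * (d + r + 2) + 4 := ⟨_, rfl⟩
  obtain ⟨g, hg⟩ : ∃ g, g = (5 * (8 * t) + 1) * h := ⟨_, rfl⟩
  obtain ⟨w, hw⟩ : ∃ w, w = (T + 1) * (T * (t + 1) + 1) + t + 1 := ⟨_, rfl⟩
  have e1 : Tp.eval n = T := by
    rw [hTp, Polynomial.eval_comp, hT]; simp
  have e0 : Λp.eval n = Λ := by
    rw [hΛp, hΛ]; simp [e1]
  have e6 : Lp.eval n = L := by
    rw [hLp, Polynomial.eval_comp, e0, hL]
  have e2 : Sp.eval n = S := by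
    rw [hSp, eval_bdP, hS, e0]
  have e3 : tp.eval n = t := by
    rw [htp, ht]
    simp [Polynomial.eval_comp, e2]
  have e7 : hp.eval n = h := by
    rw [hhp, hh]
    simp [e6]
  have e4 : gp.eval n = g := by
    rw [hgp, hg]
    simp only [Polynomial.eval_mul, Polynomial.eval_add, Polynomial.eval_ofNat, e3,
      Polynomial.eval_one, e7]
    ring
  have e5 : wp.eval n = w := by
    rw [hwp, hw]
    simp [e1, e3]
  have hbig : w * g ^ r < 2 ^ n := by
    have := hn
    simp only [Polynomial.eval_mul, Polynomial.eval_pow, e4, e5] at this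
    exact this
  have hw0 : 0 < w := by omega
  have ht2 : 2 ≤ t := by omega
  have hh0 : 0 < h := by omega
  have hg0 : 0 < g := by rw [hg]; positivity
  have hwt : t < w := by omega
  have hwβ : T * t < w := by
    have h1 : T * t ≤ T * (t + 1) := Nat.mul_le_mul_left _ (by omega)
    have h2 : T * (t + 1) ≤ (T + 1) * (T * (t + 1) + 1) := by
      calc T * (t + 1) ≤ 1 * (T * (t + 1) + 1) := by omega
        _ ≤ (T + 1) * (T * (t + 1) + 1) := Nat.mul_le_mul_right _ (by omega)
    omega
  set x : ℕ := 2 ^ n with hx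
  have hxb : (Nat.bits x).length = n + 1 := bits_two_pow n
  have hi : r + 1 < d + r + 2 := by omega
  -- decoding
  set τ : ℕ → Ut (Fin w) (Fin g) r := dcm hw0 hg0 r n with hτdef
  have h2n : 2 ^ (n + 1) = 2 ^ n + 2 ^ n := by ring
  have hτe : ∀ m, m ≤ x → τ m = dcd hw0 hg0 r m := fun m hm => dcm_eq hw0 hg0 r (by omega)
  have hτ : ∀ u : Ut (Fin w) (Fin g) r, ∃ b : List Bool,
      b.length ≤ (Nat.bits x).length ∧ τ (val b) = u := by
    intro u
    obtain ⟨m, hm, hmu⟩ := dcd_surj hw0 hg0 r u
    refine ⟨Nat.bits m, bits_len_mono (by omega), ?_⟩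
    rw [val_bits, hτe m (by omega)]
    exact hmu
  haveI : Nonempty (Fin w) := ⟨⟨0, hw0⟩⟩
  set D₀ : Set (List Bool) := dpart (oraK (d + r + 2) F tr (th0 θ n₁)) with hD₀
  have hone : OneVar (pA (U := Ut (Fin w) (Fin g) r) τ (d + r + 2) (r + 1) n L x F D₀) :=
    pA_oneVar hi
  -- the rounds
  obtain ⟨Φ, alive, r1, r2, r3, r4, r5, r6⟩ := rounds_forest (W := Fin w) (G := Fin g)
    (Q := Qs n L) (K := 8 * t) (t := t)
    (h := h) (M := 2 ^ ((S + 1) * (ps.length + 1))) (d := d) (by omega) hh0
    (by rw [Nat.card_eq_fintype_card, Fintype.card_fin, hg])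
    (by
      have h1 : (8 * t) ^ t = 2 ^ t * (4 * t) ^ t := by
        rw [← mul_pow]; congr 1; ring
      rw [h1]
      refine Nat.mul_le_mul_right _ ?_
      calc 4 * 2 ^ ((S + 1) * (ps.length + 1)) = 2 ^ ((S + 1) * (ps.length + 1) + 2) := by ring
        _ ≤ 2 ^ t := Nat.pow_le_pow_right (by norm_num) (by omega))
    r
    (by
      rw [card_Ut, Nat.card_fin, Nat.card_fin]
      have hq : 1 + Nat.card (Qs n L) ≤ 2 ^ (L + 2) := by
        have h1 := card_Qs n L
        have h2 : 2 ^ (L + 2) = 2 * 2 ^ (L + 1) := by ring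
        have h3 : 1 ≤ 2 ^ (L + 1) := Nat.one_le_two_pow
        omega
      calc 4 * ((1 + Nat.card (Qs n L)) * (w * g ^ r) ^ (d + r + 2))
          ≤ 4 * (2 ^ (L + 2) * (2 ^ n) ^ (d + r + 2)) := by gcongr
        _ = 2 ^ (L + n * (d + r + 2) + 4) := by rw [← pow_mul]; ring
        _ = 2 ^ h := by rw [hh])
    (famG (pA (U := Ut (Fin w) (Fin g) r) τ (d + r + 2) (r + 1) n L x F D₀) Q q ps) (nds ps Λ)
    (fun m => by rw [hS]; exact card_nds ps Λ m)
    (famG_zero Q q ps Λ hone (by rw [← hS]; omega))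
    (fun m hm => famG_succ _ Q q ps Λ m (by omega))
  -- the game
  let zz : (Fin w → Fin w → Bool) → (Qs n L × Nd (Fin w) (d + 2) → Bool) →
      (Vr (Fin w) (Qs n L) 2 (d + 2) → Bool) := fun z e v => match v with
    | .inl m => z m.1.2 m.2
    | .inr m => e m
  let D : GameData2 (Fin w → Bool) (Qs n L × Nd (Fin w) (d + 2)) w :=
    { fe := fun r => ∀ u, r u = true
      r1 := fun _ => true
      r0 := fun _ => false
      C := fun z e => Cst τ (r + 1) x (Φ (zz z e))
      x := x
      κ := fun y => if y ≤ x ∧ alive (τ (y - 1)) then some (Ut.base r (τ (y - 1))) else none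
      O := fun z e => {v | sigE (pA τ (d + r + 2) (r + 1) n L x F D₀ (Φ (zz z e))) Q q ps [v]}
      Λ := Λ
      τ := t
      β := T * t
      Good := fun z e => goodZ tr τ (d + r + 2) (r + 1) n L x F D₀ (Φ (zz z e))
      hr1 := fun _ => rfl
      hr0 := fun h => by simpa using h ⟨0, hw0⟩
      hC0 := fun z e => ⟨rfl, Or.inl rfl⟩
      hC := by
        intro z e y hy
        by_cases hyx : y ≤ x
        · have h0 : Cst τ (r + 1) x (Φ (zz z e)) x y ↔
              rv (r + 1) (fun m => Φ (zz z e) (.inl m)) (τ (y - 1)) = false := by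
            unfold Cst
            simp [hy, hyx]
          rw [h0]
          have h1 := r2 (zz z e) (τ (y - 1))
          have h2 : rv (r + 1) (fun m => Φ (zz z e) (.inl m)) (τ (y - 1)) = false ↔
              (alive (τ (y - 1)) ∧
                rv 1 (fun m => zz z e (.inl m)) (Ut.base r (τ (y - 1))) = false) := by
            rw [← Bool.not_eq_true, ← Bool.not_eq_true, h1]
            push Not
            rfl
          rw [h2]
          have h3 : rv 1 (fun m => zz z e (.inl m)) (Ut.base r (τ (y - 1))) = false ↔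
              ∀ u, z (Ut.base r (τ (y - 1))) u = true := by
            show col (P := Nd (Fin w) 1) (U := Fin w) (fun m => zz z e (.inl m)) ((), _) = false
              ↔ _
            rw [col_false]
          rw [h3]
          constructor
          · rintro ⟨h4, h5⟩
            exact ⟨_, if_pos ⟨hyx, h4⟩, h5⟩
          · rintro ⟨r', h4, h5⟩
            by_cases h6 : y ≤ x ∧ alive (τ (y - 1))
            · rw [if_pos h6] at h4
              obtain rfl := Option.some.inj h4
              exact ⟨h6.2, h5⟩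
            · rw [if_neg h6] at h4
              cases h4
        · constructor
          · rintro ⟨-, h | ⟨h, -⟩⟩
            · exact absurd h hy
            · exact absurd h hyx
          · rintro ⟨r', h4, -⟩
            rw [if_neg (fun h => hyx h.1)] at h4
            cases h4
      hmono := by
        intro y y' s s' h1 h2 h3
        by_cases h4 : y ≤ x ∧ alive (τ (y - 1))
        · by_cases h5 : y' ≤ x ∧ alive (τ (y' - 1))
          · rw [if_pos h4] at h1
            rw [if_pos h5] at h2
            by_contra hcon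
            have h6 : y' - 1 ≤ y - 1 := by omega
            have h7 := base_dcd_mono hw0 hg0 r h6
            rw [← Option.some.inj h1, ← Option.some.inj h2, hτe _ (by omega),
              hτe _ (by omega)] at h3
            exact absurd h3 (not_lt.2 h7)
          · rw [if_neg h5] at h2
            cases h2
        · rw [if_neg h4] at h1
          cases h1
      hsurj := by
        intro s
        obtain ⟨y₀, hy₀, hal⟩ := r3 s
        obtain ⟨m, hm, hmu⟩ := dcd_surj hw0 hg0 r y₀
        refine ⟨m + 1, by omega, by omega, ?_⟩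
        have h1 : τ (m + 1 - 1) = y₀ := by
          rw [hτe _ (by omega)]
          exact hmu
        rw [h1, if_pos ⟨by omega, hal⟩, hy₀]
      hO := by
        intro v hv S₀ z₀ X₀ e₀
        have hcert := r1 [v] (by rw [← hps]; exact mem_nds_top ps Λ hv)
        have hOz : ∀ z e, v ∈ {v | sigE (pA τ (d + r + 2) (r + 1) n L x F D₀ (Φ (zz z e)))
            Q q ps [v]} ↔
            famG (pA τ (d + r + 2) (r + 1) n L x F D₀) Q q ps (r + 1) [v] (Φ (zz z e)) := by
          intro z e
          have h1 := famG_top (pA τ (d + r + 2) (r + 1) n L x F D₀) Q q ps (Φ (zz z e)) [v]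
          rw [hps] at h1
          exact h1.symm
        by_cases hex : ∃ (z : Fin w → Fin w → Bool) (e : Qs n L × Nd (Fin w) (d + 2) → Bool),
            (∀ r ∈ S₀, z r = z₀ r) ∧ (∀ y ∈ X₀, e y = e₀ y) ∧
            famG (pA τ (d + r + 2) (r + 1) n L x F D₀) Q q ps (r + 1) [v] (Φ (zz z e))
        · obtain ⟨z, e, hz, he, hzO⟩ := hex
          obtain ⟨X, hX, hXc⟩ := hcert (zz z e) hzO
          obtain ⟨Xl, hXl, hXl'⟩ : ∃ Xl : Finset (Nd (Fin w) 2), Xl.card ≤ t ∧
              ∀ m, (.inl m : Vr (Fin w) (Qs n L) 2 (d + 2)) ∈ X → m ∈ Xl := by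
            refine ⟨X.preimage Sum.inl Sum.inl_injective.injOn, ?_, fun m hm => ?_⟩
            · refine (Finset.card_le_card_of_injOn Sum.inl (fun m hm => ?_)
                Sum.inl_injective.injOn).trans hX
              simpa using hm
            · simpa using hm
          obtain ⟨Xr, hXr, hXr'⟩ : ∃ Xr : Finset (Qs n L × Nd (Fin w) (d + 2)), Xr.card ≤ t ∧
              ∀ m, (.inr m : Vr (Fin w) (Qs n L) 2 (d + 2)) ∈ X → m ∈ Xr := by
            refine ⟨X.preimage Sum.inr Sum.inr_injective.injOn, ?_, fun m hm => ?_⟩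
            · refine (Finset.card_le_card_of_injOn Sum.inr (fun m hm => ?_)
                Sum.inr_injective.injOn).trans hX
              simpa using hm
            · simpa using hm
          have htrue : ∀ (z'' : Fin w → Fin w → Bool)
              (e'' : Qs n L × Nd (Fin w) (d + 2) → Bool),
              (∀ r ∈ S₀ ∪ Xl.image (fun x => x.1.2), z'' r =
                (if r ∈ S₀ then z₀ r else fun u => if (((), r), u) ∈ Xl then z r u else false)) →
              (∀ y ∈ X₀ ∪ Xr, e'' y = e y) →
              v ∈ {v | sigE (pA τ (d + r + 2) (r + 1) n L x F D₀ (Φ (zz z'' e''))) Q q ps [v]} := by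
            intro z'' e'' hz'' he''
            rw [hOz]
            refine hXc (zz z'' e'') fun y hy => ?_
            rcases y with y | y
            · have hy' := hXl' y hy
              have h1 := hz'' y.1.2 (Finset.mem_union_right _
                (Finset.mem_image_of_mem (fun x => x.1.2) hy'))
              show z'' y.1.2 y.2 = z y.1.2 y.2
              rw [h1]
              by_cases h2 : y.1.2 ∈ S₀
              · rw [if_pos h2, hz _ h2]
              · rw [if_neg h2]
                have h3 : (((), y.1.2), y.2) ∈ Xl := hy'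
                simp only [h3, if_true]
            · exact he'' y (Finset.mem_union_right _ (hXr' y hy))
          refine ⟨S₀ ∪ Xl.image (fun x => x.1.2), fun r => if r ∈ S₀ then z₀ r else
            fun u => if (((), r), u) ∈ Xl then z r u else false, X₀ ∪ Xr, e,
            Finset.subset_union_left,
            ?_, fun r hr => by simp only [hr, if_true], fun r hr hr' hfe => ?_,
            Finset.subset_union_left, (Finset.card_union_le _ _).trans (Nat.add_le_add_left hXr _),
            he, fun z'' e'' hz'' he'' => iff_of_true (htrue z'' e'' hz'' he'')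
              (htrue _ _ (fun r _ => rfl) fun _ _ => rfl)⟩
          · refine (Finset.card_union_le _ _).trans (Nat.add_le_add_left ?_ _)
            exact Finset.card_image_le.trans hXl
          · simp only [hr', if_false] at hfe
            have hcard : (Xl.image fun x => x.2).card < Fintype.card (Fin w) := by
              rw [Fintype.card_fin]
              exact (Finset.card_image_le.trans hXl).trans_lt hwt
            obtain ⟨u, hu⟩ : ∃ u : Fin w, u ∉ Xl.image fun x => x.2 := by
              by_contra hcon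
              push Not at hcon
              have : (Xl.image fun x => x.2) = Finset.univ :=
                Finset.eq_univ_iff_forall.2 hcon
              rw [this, Finset.card_univ] at hcard
              exact lt_irrefl _ hcard
            have h4 := hfe u
            have h5 : (((), r), u) ∉ Xl := fun hc => hu (Finset.mem_image.2 ⟨_, hc, rfl⟩)
            simp only [h5, if_false] at h4
            cases h4
        · push Not at hex
          refine ⟨S₀, z₀, X₀, e₀, Finset.Subset.refl _, Nat.le_add_right _ _, fun _ _ => rfl,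
            fun r hr hr' => absurd hr hr', Finset.Subset.refl _, Nat.le_add_right _ _,
            fun _ _ => rfl, fun z e hz he => iff_of_false ?_ ?_⟩
          · rw [hOz]; exact hex z e hz he
          · rw [hOz]; exact hex z₀ e₀ (fun _ _ => rfl) fun _ _ => rfl
      hgood := by
        intro z X e₀ hX
        obtain ⟨y, h1, h2, h3⟩ := exists_good (tr := tr) (τ := τ) (F := F) (D₀ := D₀) hi r4
          r5 r6 (zz z e₀) X (by
            rw [Nat.card_eq_fintype_card, Fintype.card_fin]
            exact hX.trans_lt hwβ)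
        refine ⟨fun m => y (.inr m), fun m hm => h2 m hm, ?_⟩
        have : zz z (fun m => y (.inr m)) = y := by
          funext m
          rcases m with m | m
          · exact (h1 m).symm
          · rfl
        rw [this]
        exact h3 }
  obtain ⟨z, e, hgd, hz⟩ := D.lose P (T := T) (B := T * (t + 1)) rfl (by
    show (T + 1) * (T * (t + 1) + 1) ≤ w
    omega) (by
    show (Nat.bits x).length + T ≤ Λ
    omega) le_rfl
  refine ⟨x, thK θ n₁ τ (d + r + 2) (r + 1) n L x (Φ (zz z e)), fun l hl => if_pos hl,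
    thK_inv (fun u l hl => dcm_take hw0 hg0 r n u l hl) _ hθ, ?_⟩
  unfold WinsK
  rw [hps, hxb, ← hT]
  exact transfer hb hL hΛ hi hn₁ hxb hτ hgd hz

/-- the stage for level `0` -/
theorem stageK_zero (P Q : Prog) (p q : Polynomial ℕ) (d : ℕ) (F : Set (List Bool))
    (tr : List Bool → Set (List Bool) → Prop) (θ : ParK) (hθ : ∀ l, InvK (d + 2) l (θ l))
    (n₁ : ℕ) :
    ∃ (x : ℕ) (θ' : ParK), (∀ l < n₁, θ' l = θ l) ∧ (∀ l, InvK (d + 2) l (θ' l)) ∧
      ¬ WinsK P p Q q [] (oraK (d + 2) F tr θ') x := by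
  classical
  obtain ⟨b, hb⟩ := sigE_local Q q []
  set Tp : Polynomial ℕ := p.comp (Polynomial.X + 1) with hTp
  set tp : Polynomial ℕ := q.comp (Polynomial.X + 1 + Tp) with htp
  set wp : Polynomial ℕ := (Tp + 1) * (Tp * (tp + 1) + 1) with hwp
  obtain ⟨n, hn₁, hn⟩ := exists_pow_gt wp n₁
  obtain ⟨T, hT⟩ : ∃ T, T = p.eval (n + 1) := ⟨_, rfl⟩
  obtain ⟨Λ, hΛ⟩ : ∃ Λ, Λ = n + 1 + T := ⟨_, rfl⟩
  obtain ⟨L, hL⟩ : ∃ L, L = b.eval Λ := ⟨_, rfl⟩
  obtain ⟨t, ht⟩ : ∃ t, t = q.eval Λ := ⟨_, rfl⟩
  obtain ⟨w, hw⟩ : ∃ w, w = (T + 1) * (T * (t + 1) + 1) := ⟨_, rfl⟩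
  have e1 : Tp.eval n = T := by
    rw [hTp, Polynomial.eval_comp, hT]; simp
  have e3 : tp.eval n = t := by
    rw [htp, ht, Polynomial.eval_comp, hΛ]
    simp [e1]
  have e5 : wp.eval n = w := by
    rw [hwp, hw]
    simp [e1, e3]
  have hbig : w < 2 ^ n := by rw [← e5]; exact hn
  have hw0 : 0 < w := by rw [hw]; positivity
  have hwβ : T * t < w := by
    have h1 : T * t ≤ T * (t + 1) := Nat.mul_le_mul_left _ (by omega)
    have h2 : T * (t + 1) + 1 ≤ (T + 1) * (T * (t + 1) + 1) := by
      calc T * (t + 1) + 1 = 1 * (T * (t + 1) + 1) := by omega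
        _ ≤ (T + 1) * (T * (t + 1) + 1) := Nat.mul_le_mul_right _ (by omega)
    omega
  set x : ℕ := 2 ^ n with hx
  have hxb : (Nat.bits x).length = n + 1 := bits_two_pow n
  have hi : 0 < d + 2 := by omega
  set τ : ℕ → Fin w := dcm hw0 Nat.one_pos 0 n with hτdef
  have h2n : 2 ^ (n + 1) = 2 ^ n + 2 ^ n := by ring
  have hτe : ∀ m, m ≤ x → τ m = dcd hw0 Nat.one_pos 0 m :=
    fun m hm => dcm_eq hw0 Nat.one_pos 0 (by omega)
  have hτ : ∀ u : Fin w, ∃ b : List Bool, b.length ≤ (Nat.bits x).length ∧ τ (val b) = u := by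
    intro u
    obtain ⟨m, hm, hmu⟩ := dcd_surj hw0 Nat.one_pos 0 u
    rw [pow_zero, mul_one] at hm
    refine ⟨Nat.bits m, bits_len_mono (by omega), ?_⟩
    rw [val_bits, hτe m (by omega)]
    exact hmu
  set D₀ : Set (List Bool) := dpart (oraK (d + 2) F tr (th0 θ n₁)) with hD₀
  have hone : OneVar (pA (U := Fin w) τ (d + 2) 0 n L x F D₀) := pA_oneVar hi
  let zz : (Fin w → Bool) → (Qs n L × Nd (Fin w) (d + 2) → Bool) →
      (Vr (Fin w) (Qs n L) 1 (d + 2) → Bool) := fun z e v => match v with
    | .inl m => z m.2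
    | .inr m => e m
  let D : GameData2 Bool (Qs n L × Nd (Fin w) (d + 2)) w :=
    { fe := fun b => b = false
      r1 := false
      r0 := true
      C := fun z e => Cst τ 0 x (zz z e)
      x := x
      κ := fun y => if y ≤ x then some (τ (y - 1)) else none
      O := fun z e => {v | sigE (pA τ (d + 2) 0 n L x F D₀ (zz z e)) Q q [] [v]}
      Λ := Λ
      τ := t
      β := T * t
      Good := fun z e => goodZ tr τ (d + 2) 0 n L x F D₀ (zz z e)
      hr1 := rfl
      hr0 := by simp
      hC0 := fun z e => ⟨rfl, Or.inl rfl⟩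
      hC := by
        intro z e y hy
        by_cases hyx : y ≤ x
        · have h0 : Cst τ 0 x (zz z e) x y ↔ z (τ (y - 1)) = false := by
            show (x = x ∧ (y = 0 ∨ (y ≤ x ∧ z (τ (y - 1)) = false))) ↔ _
            simp [hy, hyx]
          rw [h0, if_pos hyx]
          constructor
          · intro h
            exact ⟨_, rfl, h⟩
          · rintro ⟨r, h1, h2⟩
            obtain rfl := Option.some.inj h1
            exact h2
        · constructor
          · rintro ⟨-, h | ⟨h, -⟩⟩
            · exact absurd h hy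
            · exact absurd h hyx
          · rintro ⟨r, h4, -⟩
            rw [if_neg hyx] at h4
            cases h4
      hmono := by
        intro y y' r r' h1 h2 h3
        by_cases h4 : y ≤ x
        · by_cases h5 : y' ≤ x
          · rw [if_pos h4] at h1
            rw [if_pos h5] at h2
            by_contra hcon
            have h6 : y' - 1 ≤ y - 1 := by omega
            have h7 := base_dcd_mono hw0 Nat.one_pos 0 h6
            rw [← Option.some.inj h1, ← Option.some.inj h2, hτe _ (by omega),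
              hτe _ (by omega)] at h3
            exact absurd h3 (not_lt.2 h7)
          · rw [if_neg h5] at h2
            cases h2
        · rw [if_neg h4] at h1
          cases h1
      hsurj := by
        intro r
        obtain ⟨m, hm, hmu⟩ := dcd_surj hw0 Nat.one_pos 0 r
        rw [pow_zero, mul_one] at hm
        refine ⟨m + 1, by omega, by omega, ?_⟩
        have h1 : τ (m + 1 - 1) = r := by
          rw [hτe _ (by omega)]
          exact hmu
        rw [h1, if_pos (by omega)]
      hO := by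
        intro v hv S₀ z₀ X₀ e₀
        have hsz : q.eval (size [v]) ≤ t := by
          rw [ht]
          exact eval_mono q (by simpa [size] using hv)
        have hcert := (hone.cert_out Q (q.eval (size [v])) [v]).mono hsz
        obtain ⟨X, hX, hXc⟩ := hcert (zz (fun r => if r ∈ S₀ then z₀ r else true) e₀)
        obtain ⟨Xl, hXl, hXl'⟩ : ∃ Xl : Finset (Nd (Fin w) 1), Xl.card ≤ t ∧
            ∀ m, (.inl m : Vr (Fin w) (Qs n L) 1 (d + 2)) ∈ X → m ∈ Xl := by
          refine ⟨X.preimage Sum.inl Sum.inl_injective.injOn, ?_, fun m hm => ?_⟩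
          · refine (Finset.card_le_card_of_injOn Sum.inl (fun m hm => ?_)
              Sum.inl_injective.injOn).trans hX
            simpa using hm
          · simpa using hm
        obtain ⟨Xr, hXr, hXr'⟩ : ∃ Xr : Finset (Qs n L × Nd (Fin w) (d + 2)), Xr.card ≤ t ∧
            ∀ m, (.inr m : Vr (Fin w) (Qs n L) 1 (d + 2)) ∈ X → m ∈ Xr := by
          refine ⟨X.preimage Sum.inr Sum.inr_injective.injOn, ?_, fun m hm => ?_⟩
          · refine (Finset.card_le_card_of_injOn Sum.inr (fun m hm => ?_)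
              Sum.inr_injective.injOn).trans hX
            simpa using hm
          · simpa using hm
        refine ⟨S₀ ∪ Xl.image (fun u => u.2), fun r => if r ∈ S₀ then z₀ r else true,
          X₀ ∪ Xr, e₀, Finset.subset_union_left, ?_, fun r hr => if_pos hr, fun r _ hr' => ?_,
          Finset.subset_union_left, (Finset.card_union_le _ _).trans (Nat.add_le_add_left hXr _),
          fun _ _ => rfl, fun z e hz he => ?_⟩
        · refine (Finset.card_union_le _ _).trans (Nat.add_le_add_left ?_ _)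
          exact Finset.card_image_le.trans hXl
        · simp [hr']
        · refine hXc (zz z e) fun u hu => ?_
          rcases u with u | u
          · exact hz u.2 (Finset.mem_union_right _
              (Finset.mem_image_of_mem (fun u => u.2) (hXl' u hu)))
          · exact he u (Finset.mem_union_right _ (hXr' u hu))
      hgood := by
        intro z X e₀ hX
        obtain ⟨y, h1, h2, h3⟩ := exists_good (tr := tr) (τ := τ) (F := F) (D₀ := D₀) (a := 1)
          (d := d) (W := Fin w) hi (Φ := fun z => z) (fun _ _ => rfl) (fun _ _ h m => h m)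
          (fun _ _ _ h m => h m) (zz z e₀) X (by
            rw [Nat.card_eq_fintype_card, Fintype.card_fin]
            exact hX.trans_lt hwβ)
        refine ⟨fun m => y (.inr m), fun m hm => h2 m hm, ?_⟩
        have : zz z (fun m => y (.inr m)) = y := by
          funext m
          rcases m with m | m
          · exact (h1 m).symm
          · rfl
        rw [this]
        exact h3 }
  obtain ⟨z, e, hgd, hz⟩ := D.lose P (T := T) (B := T * (t + 1)) rfl (by
    show (T + 1) * (T * (t + 1) + 1) ≤ w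
    omega) (by
    show (Nat.bits x).length + T ≤ Λ
    omega) le_rfl
  refine ⟨x, thK θ n₁ τ (d + 2) 0 n L x (zz z e), fun l hl => if_pos hl,
    thK_inv (fun u l hl => dcm_take hw0 Nat.one_pos 0 n u l hl) _ hθ, ?_⟩
  unfold WinsK
  rw [hxb, ← hT]
  exact transfer hb hL hΛ hi hn₁ hxb hτ hgd hz

/-! ### dependence on short words only -/

theorem cut_dpart {A A' : Set (List Bool)} {m : ℕ} (h : cut (m + 1) A = cut (m + 1) A') :
    cut m (dpart A) = cut m (dpart A') := by
  ext v
  simp only [cut]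
  refine and_congr_left fun hv => ?_
  exact mem_iff_of_cut h (by simp only [List.length_cons]; omega)

section locality

variable {k : ℕ} {F : Set (List Bool)} {tr : List Bool → Set (List Bool) → Prop}

theorem CLD_local {i : ℕ} (hi : i < k) (x : ℕ) : ∃ m : ℕ, ∀ θ θ' : ParK,
    cut m (oraK k F tr θ) = cut m (oraK k F tr θ') →
    ∀ y, (CLD (oraK k F tr θ) i x y ↔ CLD (oraK k F tr θ') i x y) := by
  choose m hm using fun y : ℕ => NT_local i i [Nat.bits x, Nat.bits y]
  refine ⟨(Finset.range (x + 1)).sup m + 1, fun θ θ' h y => ?_⟩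
  by_cases hy : y ≤ x
  · refine not_congr (hm y _ _ ?_)
    refine cut_eq_of_le (cut_dpart h) (Finset.le_sup (f := m) ?_)
    rw [Finset.mem_range]
    omega
  · exact iff_of_false (fun hc => hy (CLD_le hi _ _ hc)) fun hc => hy (CLD_le hi _ _ hc)

theorem winsK_local (P : Prog) (p : Polynomial ℕ) (Q : Prog) (q : Polynomial ℕ)
    (ps : List (Polynomial ℕ)) (hps : ps.length < k) (x : ℕ) : ∃ m : ℕ, ∀ θ θ' : ParK,
      (∀ l < m, θ' l = θ l) → WinsK P p Q q ps (oraK k F tr θ) x →
      WinsK P p Q q ps (oraK k F tr θ') x := by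
  obtain ⟨m₁, hm₁⟩ := CLD_local (F := F) (tr := tr) hps x
  obtain ⟨b, hb⟩ := sigE_local Q q ps
  set T := p.eval (Nat.bits x).length with hT
  set Λ := (Nat.bits x).length + T with hΛ
  refine ⟨max m₁ (b.eval Λ), fun θ θ' h hw => ?_⟩
  have hcut : cut (max m₁ (b.eval Λ)) (oraK k F tr θ) = cut (max m₁ (b.eval Λ))
      (oraK k F tr θ') := (cut_oraK h).symm
  unfold WinsK at hw ⊢
  refine ens_congr (hm₁ θ θ' (cut_eq_of_le hcut (le_max_left _ _))) (Λ := Λ)
    (fun v hv => ?_) T 0 _ (fun s => ?_) le_rfl hw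
  · refine hb _ _ _ (cut_eq_of_le hcut ?_)
    refine (eval_mono b ?_).trans (le_max_right _ _)
    simpa [size] using hv
  · have := load_length_le [Nat.bits x] s
    have h2 : size [Nat.bits x] = (Nat.bits x).length := by simp [size]
    omega

end locality

/-- finite extension construction with an invariant -/
theorem generic_inv {α : Type} (Inv : ℕ → α → Prop) (Req : ℕ → (ℕ → α) → Prop) (θ₀ : ℕ → α)
    (h₀ : ∀ l, Inv l (θ₀ l))
    (step : ∀ (θ : ℕ → α) (_ : ∀ l, Inv l (θ l)) (n e : ℕ), ∃ (θ' : ℕ → α) (m : ℕ),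
      (∀ k < n, θ' k = θ k) ∧ (∀ l, Inv l (θ' l)) ∧
      ∀ θ'' : ℕ → α, (∀ k < m, θ'' k = θ' k) → Req e θ'') :
    ∃ θ, (∀ l, Inv l (θ l)) ∧ ∀ e, Req e θ := by
  choose f g hf hi hg using step
  let s : ℕ → {θ : ℕ → α // ∀ l, Inv l (θ l)} × ℕ := fun e => Nat.rec (⟨θ₀, h₀⟩, 0)
    (fun e p => (⟨f p.1.1 p.1.2 p.2 e, hi p.1.1 p.1.2 p.2 e⟩,
      max (g p.1.1 p.1.2 p.2 e) (p.2 + 1))) e
  have s_succ : ∀ e, s (e + 1) = (⟨f (s e).1.1 (s e).1.2 (s e).2 e, hi _ _ _ _⟩,
      max (g (s e).1.1 (s e).1.2 (s e).2 e) ((s e).2 + 1)) := fun e => rfl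
  have hn : ∀ e, e ≤ (s e).2 := by
    intro e
    induction e with
    | zero => exact Nat.zero_le _
    | succ e ih => rw [s_succ]; simp only; omega
  have hmono : ∀ e d, (s e).2 ≤ (s (e + d)).2 := by
    intro e d
    induction d with
    | zero => exact le_rfl
    | succ d ih => rw [← add_assoc, s_succ]; simp only; omega
  have hagree : ∀ e d k, k < (s e).2 → (s (e + d)).1.1 k = (s e).1.1 k := by
    intro e d
    induction d with
    | zero => intro k _; rfl
    | succ d ih =>
      intro k hk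
      rw [← add_assoc, s_succ]
      simp only
      rw [hf _ _ _ _ k (lt_of_lt_of_le hk (hmono e d)), ih k hk]
  refine ⟨fun k => (s (k + 1)).1.1 k, fun l => (s (l + 1)).1.2 l, fun e => ?_⟩
  have hlim : ∀ e k, k < (s e).2 → (s (k + 1)).1.1 k = (s e).1.1 k := by
    intro e k hk
    rcases le_total e (k + 1) with h | h
    · obtain ⟨d, hd⟩ := Nat.exists_eq_add_of_le h
      rw [hd, hagree e d k hk]
    · obtain ⟨d, hd⟩ := Nat.exists_eq_add_of_le h
      rw [hd, hagree (k + 1) d k (by have := hn (k + 1); omega)]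
  refine hg (s e).1.1 (s e).1.2 (s e).2 e _ fun k hk => ?_
  have h1 : k < (s (e + 1)).2 := by rw [s_succ]; simp only; omega
  rw [hlim (e + 1) k h1, s_succ]

theorem exists_thetaK (k : ℕ) (hk : 2 ≤ k) (F : Set (List Bool))
    (tr : List Bool → Set (List Bool) → Prop) : ∃ θ : ParK, (∀ l, InvK k l (θ l)) ∧
    ∀ (P : Prog) (p : Polynomial ℕ)
    (Q : Prog) (q : Polynomial ℕ) (ps : List (Polynomial ℕ)), ps.length < k →
      ∃ x, ¬ WinsK P p Q q ps (oraK k F tr θ) x := by
  classical
  obtain ⟨f, hf⟩ : ∃ f : ℕ → Code, Function.Surjective f := exists_surjective_nat Code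
  obtain ⟨θ, hinv, hθ⟩ := generic_inv (fun l => InvK k l)
    (fun e (θ : ParK) => (f e).2.2.2.2.length < k → ∃ x, ¬ WinsK (f e).1 (f e).2.1 (f e).2.2.1
      (f e).2.2.2.1 (f e).2.2.2.2 (oraK k F tr θ) x) (fun _ => (∅, ∅))
    (fun l => invK_empty k l ∅) (by
    intro θ hθ n e
    by_cases hlen : (f e).2.2.2.2.length < k
    · obtain ⟨x, θ', hθ', hinv', hx⟩ : ∃ (x : ℕ) (θ' : ParK), (∀ l < n, θ' l = θ l) ∧
          (∀ l, InvK k l (θ' l)) ∧ ¬ WinsK (f e).1 (f e).2.1 (f e).2.2.1 (f e).2.2.2.1 (f e).2.2.2.2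
            (oraK k F tr θ') x := by
        rcases hps : (f e).2.2.2.2 with _ | ⟨p₀, ps⟩
        · obtain ⟨d, rfl⟩ : ∃ d, k = d + 2 := ⟨k - 2, by omega⟩
          exact stageK_zero _ _ _ _ d F tr θ hθ n
        · rw [hps, List.length_cons] at hlen
          obtain ⟨d, rfl⟩ : ∃ d, k = d + ps.length + 2 := ⟨k - ps.length - 2, by omega⟩
          exact stageK_succ _ _ _ _ (p₀ :: ps) ps.length d rfl F tr θ hθ n
      obtain ⟨m, hm⟩ := winsK_local (F := F) (tr := tr) (f e).1 (f e).2.1 (f e).2.2.1
        (f e).2.2.2.1 (f e).2.2.2.2 hlen x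
      refine ⟨θ', m, hθ', hinv', fun θ'' hθ'' _ => ⟨x, fun hw => hx (hm θ'' θ' (fun l hl => ?_) hw)⟩⟩
      exact (hθ'' l hl).symm
    · exact ⟨θ, 0, fun _ _ => rfl, hθ, fun _ _ h => absurd h hlen⟩)
  refine ⟨θ, hinv, fun P p Q q ps hps => ?_⟩
  obtain ⟨e, he⟩ := hf (P, p, Q, q, ps)
  have := hθ e
  rw [he] at this
  exact this hps

/-- **the levels below `k` are not computed** -/
theorem hardK (k : ℕ) (hk : 2 ≤ k) (F : Set (List Bool))
    (tr : List Bool → Set (List Bool) → Prop) : ∃ θ : ParK, (∀ l, InvK k l (θ l)) ∧ ∀ i < k,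
      OptProblem (oraK k F tr θ) i (CLD (oraK k F tr θ) i) id ∧
      ¬ Computed (oraK k F tr θ) i (CLD (oraK k F tr θ) i) id := by
  obtain ⟨θ, hinv, hθ⟩ := exists_thetaK k hk F tr
  refine ⟨θ, hinv, fun i hi => ⟨optK hi, ?_⟩⟩
  rintro ⟨O, P, p, hO, hP⟩
  obtain ⟨Q, q, ps, hps, hQ⟩ := exists_sigE i 1 _ hO
  obtain ⟨x, hx⟩ := hθ P p Q q ps (by omega)
  apply hx
  have hOeq : {v | sigE (oraK k F tr θ) Q q ps [v]} = O := by
    ext v
    have := hQ [v] rfl
    simp only [List.cons.injEq, and_true, exists_eq_right'] at this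
    exact this.symm
  unfold WinsK
  rw [hOeq, hps]
  exact hP x

end Pool.Agent.Lib.MP_2b5695_lc
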