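import Pool.Agent.Lib.MP_2b5695_lc.BHard

/-!
World B: assembly.
-/

namespace Pool.Agent.Lib.MP_2b5695_lc

theorem compat_of_agree {F : Set (List Bool)} {θ : Par} {n Λ : ℕ} {g : Finset ℕ}
    {N : Finset (List Bool)} {U : List Bool → List Bool}
    (hU : ∀ w : List Bool, n ≤ w.length → (U w).length = w.length ∧ U w ++ w ∉ N)
    (hg : ∀ y ∈ g, 0 < y ∧ y ≤ 2 ^ n) (hΛ : 3 * n + 4 ≤ Λ) (hNl : ∀ s ∈ N, s.length ≤ Λ)
    (hd : ∀ y ∈ g, codeG (2 ^ n) y ∉ N) (hN0 : ∀ s ∈ N, s ∉ partD0 F θ n) (θ'' : Par)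
    (h1 : ∀ k < n, θ'' k = θ k)
    (h2 : ∀ k, n ≤ k → k < Λ + 1 → θ'' k = (codes (2 ^ n) g, U)) :
    Compat F θ n (2 ^ n) θ'' g N := by
  have hbits : (Nat.bits (2 ^ n)).length = n + 1 := bits_two_pow n
  have hcut : ∀ m ≤ n, cut m (oraB F θ'') = cut m (oraB F θ) := fun m hm =>
    cut_oraB fun k hk => h1 k (by omega)
  refine ⟨?_, ?_, ?_⟩
  · rintro s (⟨x, y, h3, h4⟩ | ⟨j, x, k, m, h3, h4, h5⟩)
    · refine Or.inl ⟨x, y, h3, ?_⟩
      rcases h4 with h4 | ⟨h4, h5, h6⟩
      · exact Or.inl h4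
      · exact Or.inr ⟨h4, by rw [h1 _ h6]; exact h5⟩
    · refine Or.inr ⟨j, x, k, m, ?_, ?_⟩
      · rw [h1 _ h4]; exact h3
      · rw [hcut _ (by omega)]; exact h5
  · intro y hy
    have hyx := (hg y hy).2
    have hyl : (Nat.bits y).length ≤ n + 1 := by rw [← hbits]; exact bits_length_mono hyx
    have hlen := codeG_length (2 ^ n) y
    refine codeG_mem.2 (Or.inr ⟨hyx, ?_⟩)
    rw [h2 _ (by omega) (by omega)]
    exact ⟨y, hy, rfl⟩
  · intro s hs hcon
    have hsl := hNl s hs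
    rcases hcon with ⟨x, y, h3, h4⟩ | ⟨j, x, k, m, h3, h5⟩
    · rcases h4 with h4 | ⟨h4, h5⟩
      · exact hN0 s hs (Or.inl ⟨x, y, h3, Or.inl h4⟩)
      · rcases lt_or_ge s.length n with h6 | h6
        · rw [h1 _ h6] at h5
          exact hN0 s hs (Or.inl ⟨x, y, h3, Or.inr ⟨h4, h5, h6⟩⟩)
        · rw [h2 _ h6 (by omega)] at h5
          obtain ⟨y', hy', h7⟩ := h5
          rw [h7] at hs
          exact hd y' hy' hs
    · have hql : (ques j x k m).length ≤ s.length := by
        rw [h3, List.length_append]; omega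
      rcases lt_or_ge (ques j x k m).length n with h6 | h6
      · rw [h1 _ h6] at h3
        rw [hcut _ (by omega)] at h5
        exact hN0 s hs (Or.inr ⟨j, x, k, m, h3, h6, h5⟩)
      · rw [h2 _ h6 (by omega)] at h3
        simp only at h3
        obtain ⟨h7, h8⟩ := hU _ h6
        rw [fit_of_length h7] at h3
        rw [h3] at hs
        exact h8 hs

theorem diagB (F : Set (List Bool)) : ∃ θ : Par, ¬ Computed (oraB F θ) 0 (CB θ) id := by
  classical
  obtain ⟨code, hcode⟩ := exists_surjective_nat (Prog × Polynomial ℕ × Prog × Polynomial ℕ)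
  have hstep : ∀ (θ : Par) (n e : ℕ), ∃ (θ' : Par) (m : ℕ), (∀ k < n, θ' k = θ k) ∧
      ∀ θ'' : Par, (∀ k < m, θ'' k = θ' k) →
        ¬ ∀ x : ℕ, Ensures (code e).1 (decO (code e).2.2.1 (code e).2.2.2 (oraB F θ''))
          (Answers (CB θ'') id x) (fun _ w => Optimal (CB θ'') id x (val w))
          ((code e).2.1.eval (Nat.bits x).length) 0 (load [Nat.bits x]) := by
    intro θ n₀ e
    set P := (code e).1
    set p := (code e).2.1
    set Q := (code e).2.2.1
    set q := (code e).2.2.2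
    set pT := p.comp (Polynomial.X + 1) with hpT
    set pκ := q.comp (Polynomial.X + 1 + pT) + 1 with hpκ
    obtain ⟨n, hn₀, hn⟩ := exists_pow_gt ((pT + 1) * (pT * pκ + pκ + 1)) n₀
    set T := p.eval (n + 1) with hT
    set κ := q.eval (n + 1 + T) + 1 with hκ
    have hTe : pT.eval n = T := by simp [hpT, hT]
    have hκe : pκ.eval n = κ := by
      rw [hpκ]
      simp only [Polynomial.eval_add, Polynomial.eval_comp, Polynomial.eval_X,
        Polynomial.eval_one, hTe]
      rfl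
    have hbig : (T + 1) * (T * κ + κ + 1) < 2 ^ n := by
      simp only [Polynomial.eval_mul, Polynomial.eval_add, Polynomial.eval_one, hTe, hκe] at hn
      exact hn
    have hbits : (Nat.bits (2 ^ n)).length = n + 1 := bits_two_pow n
    obtain ⟨g, N, -, -, a3, a4, a5, a6, a7, a8⟩ := game (F := F) (θ := θ) (P := P) (Q := Q) hκ rfl
      hbig T 0 (by omega) 0 (load [Nat.bits (2 ^ n)]) ∅ ∅
      (fun s => by
        have := load_length_le [Nat.bits (2 ^ n)] s
        have h2 : size [Nat.bits (2 ^ n)] = n + 1 := by simp [size, hbits]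
        omega)
      (by simp) (by simp) (by simp) (by simp) (by simp)
    set Λ := 3 * (n + 1 + T) + 1 + q.eval (n + 1 + T) with hΛ
    have hUex : ∀ w : List Bool, ∃ u : List Bool, n ≤ w.length →
        (u.length = w.length ∧ u ++ w ∉ N) := by
      intro w
      by_cases hw : n ≤ w.length
      · have h2 : N.toList.length < 2 ^ w.length := by
          rw [Finset.length_toList]
          exact lt_of_lt_of_le a4 (Nat.pow_le_pow_right (by norm_num) hw)
        obtain ⟨u, hu1, hu2⟩ := exists_word_not_mem N.toList w.length h2 (fun u => u ++ w)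
          (fun a b hab => List.append_cancel_right hab)
        exact ⟨u, fun _ => ⟨hu1, by simpa using hu2⟩⟩
      · exact ⟨[], fun h => absurd h hw⟩
    choose U hU using hUex
    refine ⟨fun k => if k < n then θ k else (codes (2 ^ n) g, U), Λ + 1, fun k hk => ?_,
      fun θ'' hθ'' => ?_⟩
    · simp only
      rw [if_pos (by omega)]
    · have hc : Compat F θ n (2 ^ n) θ'' g N := by
        refine compat_of_agree hU a3 (Λ := Λ) (by omega) a5 a6 a7 θ'' (fun k hk => ?_)
          (fun k hk1 hk2 => ?_)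
        · exact (hθ'' k (by omega)).trans (if_pos hk)
        · exact (hθ'' k hk2).trans (if_neg (by omega))
      intro hcon
      have h3 := hcon (2 ^ n)
      rw [hbits] at h3
      exact a8 θ'' hc h3
  obtain ⟨θ, hθ⟩ := generic (α := Set (List Bool) × (List Bool → List Bool)) (fun e θ =>
    ¬ ∀ x : ℕ, Ensures (code e).1 (decO (code e).2.2.1 (code e).2.2.2 (oraB F θ))
          (Answers (CB θ) id x) (fun _ w => Optimal (CB θ) id x (val w))
          ((code e).2.1.eval (Nat.bits x).length) 0 (load [Nat.bits x]))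
    (fun _ => (∅, id)) hstep
  refine ⟨θ, ?_⟩
  rintro ⟨O, P, p, hO, hP⟩
  obtain ⟨Q, q, ps, h1, h2⟩ := exists_sigE 0 1 _ hO
  have hps : ps = [] := List.eq_nil_of_length_eq_zero h1
  subst hps
  have hOe : O = decO Q q (oraB F θ) := by
    ext w
    have := h2 [w] rfl
    simp only [List.cons.injEq, and_true] at this
    unfold decO
    show _ ↔ sigE _ _ _ _ _
    rw [← this]
    constructor
    · intro h; exact ⟨w, h, rfl⟩
    · rintro ⟨w', h, rfl⟩; exact h
  obtain ⟨e, he⟩ := hcode (P, p, Q, q)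
  refine hθ e ?_
  rw [he]
  simp only
  rw [← hOe]
  exact hP

/-- World B. -/
theorem worldB : ∃ B : Set (List Bool),
    (∀ L, InSigma B 1 1 L ↔ InPi B 1 1 L) ∧
    (∃ (C : ℕ → ℕ → Prop) (ρ : ℕ → ℕ), OptProblem B 0 C ρ ∧ ¬ Computed B 0 C ρ) ∧
    ∀ (i : ℕ) (C : ℕ → ℕ → Prop) (ρ : ℕ → ℕ), 1 ≤ i → OptProblem B i C ρ →
      Computed B i C ρ := by
  obtain ⟨θ, hθ⟩ := diagB brainB
  refine ⟨oraB brainB θ, fun L => ⟨fun h => compl_sigma θ L h, fun h => ?_⟩,
    ⟨CB θ, id, optB _ _, hθ⟩, fun i C ρ hi h => ?_⟩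
  · have := compl_sigma θ (fun v => ¬ L v) h
    simpa using this
  · obtain ⟨i, rfl⟩ : ∃ i', i = i' + 1 := ⟨i - 1, by omega⟩
    exact computedB θ i C ρ h

end Pool.Agent.Lib.MP_2b5695_lc
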