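import Pool.Agent.Lib.MP_2b5695_lc.LvKEasy
import Pool.Agent.Lib.MP_2b5695_lc.WorldB

/-!
The patterns of levels with a positive answer.
-/

namespace Pool.Agent.Lib.MP_2b5695_lc

/-- the instruction with the opposite verdict -/
def flip1 : Instr → Instr
  | .halt b => .halt (!b)
  | c => c

theorem ens_flip {P : Prog} {O : Set (List Bool)} {Adv : ℕ → Option ℕ → Prop}
    {good good' : Bool → List Bool → Prop} (hg : ∀ b w, good b w → good' (!b) w) :
    ∀ (t pc : ℕ) (stk : ℕ → List Bool), Ensures P O Adv good t pc stk →
      Ensures (P.map flip1) O Adv good' t pc stk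
  | 0, _, _, h => h
  | t + 1, pc, stk, h => by
    have ih := fun pc stk => ens_flip (P := P) (O := O) (Adv := Adv) hg t pc stk
    have hmap : (P.map flip1)[pc]? = (P[pc]?).map flip1 := List.getElem?_map
    unfold Ensures at h ⊢
    rw [hmap]
    cases hP : P[pc]? with
    | none => rw [hP] at h; exact h
    | some ins =>
      rw [hP] at h
      cases ins with
      | push s b l => exact ih _ _ h
      | pop s l₀ l₁ e =>
        simp only [Option.map_some, flip1] at h ⊢
        cases hs : stk s with
        | nil => rw [hs] at h; exact ih _ _ h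
        | cons b w =>
          rw [hs] at h
          cases b
          · exact ih _ _ h
          · exact ih _ _ h
      | query s y n => exact ⟨fun hh => ih _ _ (h.1 hh), fun hh => ih _ _ (h.2 hh)⟩
      | present s y n => exact ⟨fun hh => ih _ _ (h.1 hh), fun z hz => ih _ _ (h.2 z hz)⟩
      | halt b => exact hg _ _ h

theorem inP_compl {A : Set (List Bool)} {r : ℕ} {L : List (List Bool) → Prop}
    (h : InP A r L) : InP A r fun v => ¬ L v := by
  obtain ⟨P, p, hP⟩ := h
  refine ⟨P.map flip1, p, fun v hv => ens_flip (fun b w hb => ?_) _ _ _ (hP v hv)⟩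
  cases b
  · simpa using hb
  · simpa using hb

/-- **The patterns.** -/
theorem pattern (k : ℕ∞) : ∃ A : Set (List Bool),
    (∀ j : ℕ, k = j → ∀ L : List (List Bool) → Prop, InSigma A j 1 L ↔ InPi A j 1 L) ∧
    ∀ i : ℕ, (∀ (C : ℕ → ℕ → Prop) (ρ : ℕ → ℕ), OptProblem A i C ρ → Computed A i C ρ) ↔
      k ≤ i := by
  have close : ∀ {A : Set (List Bool)} {j : ℕ},
      (∀ L : List (List Bool) → Prop, InSigma A j 1 L → InSigma A j 1 fun v => ¬ L v) →
      ∀ L : List (List Bool) → Prop, InSigma A j 1 L ↔ InPi A j 1 L := by
    intro A j h L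
    refine ⟨h L, fun h' => ?_⟩
    have := h _ h'
    simpa using this
  cases k using ENat.recTopCoe with
  | top =>
    obtain ⟨A, hA⟩ := all_levels
    refine ⟨A, fun j hj => absurd hj (by simp), fun i => iff_of_false ?_ (by simp)⟩
    intro hc
    obtain ⟨C, ρ, h1, h2⟩ := hA i
    exact h2 (hc C ρ h1)
  | coe k =>
    rcases k with _ | _ | k
    · obtain ⟨A, -, -, hA⟩ := worldA
      refine ⟨A, fun j hj => ?_, fun i => iff_of_true (hA i) (by simp)⟩
      obtain rfl : j = 0 := by
        have := Nat.cast_injective (R := ℕ∞) hj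
        exact this.symm
      exact close fun L h => inP_compl h
    · obtain ⟨A, h1, ⟨C, ρ, h2, h3⟩, h4⟩ := worldB
      refine ⟨A, fun j hj => ?_, fun i => ?_⟩
      · obtain rfl : j = 1 := by
          have := Nat.cast_injective (R := ℕ∞) hj
          exact this.symm
        exact h1
      · rw [Nat.cast_le]
        constructor
        · intro hc
          by_contra hi
          obtain rfl : i = 0 := by omega
          exact h3 (hc C ρ h2)
        · intro hi C ρ h
          exact h4 i C ρ hi h
    · obtain ⟨θ, hθ, hhard⟩ := hardK (k + 1 + 1) (by omega) brainB trK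
      refine ⟨oraK (k + 1 + 1) brainB trK θ, fun j hj => ?_, fun i => ?_⟩
      · obtain rfl : j = k + 1 + 1 := by
          have := Nat.cast_injective (R := ℕ∞) hj
          exact this.symm
        exact close fun L h => compl_sigmaK (by omega) hθ L h
      · rw [Nat.cast_le]
        constructor
        · intro hc
          by_contra hi
          obtain ⟨h1, h2⟩ := hhard i (by omega)
          exact h2 (hc _ _ h1)
        · intro hi C ρ h
          exact computedK hθ hi C ρ h

end Pool.Agent.Lib.MP_2b5695_lc
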