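import Pool.Agent.Lib.MP_2b5695_lc.LvWorld

/-!
A routine that writes the code of a list of words and asks the oracle, and three programs.
-/

namespace Pool.Agent.Lib.MP_2b5695_lc

/-- instruction number `a` of the routine placed at address `off`; it uses the stacks
`s₀, …, s₀ + r - 1`, the marker `i` and gives the verdicts `b`, `!b` -/
def rout (off s₀ r i : ℕ) (b : Bool) (a : ℕ) : Instr :=
  if a < 6 * r then
    match a % 6 with
    | 0 => .push 0 false (off + (a + 1))
    | 1 => .pop (s₀ + a / 6) (off + (a + 1)) (off + (a + 3)) (off + (a + 5))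
    | 2 => .push 0 false (off + (a + 1))
    | 3 => .push 0 true (off + (a - 2))
    | 4 => .push 0 true (off + (a + 1))
    | _ => .push 0 true (off + (a - 4))
  else if a = 6 * r then .push 0 false (off + (a + 1))
  else if a ≤ 6 * r + i then .push 0 true (off + (a + 1))
  else if a = 6 * r + i + 1 then .push 0 false (off + (a + 1))
  else if a = 6 * r + i + 2 then .query 0 (off + (a + 1)) (off + (a + 2))
  else if a = 6 * r + i + 3 then .halt b
  else .halt (!b)

/-- the program contains the routine -/
def HasR (P : Prog) (off s₀ r i : ℕ) (b : Bool) : Prop :=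
  ∀ a < 6 * r + i + 5, P[off + a]? = some (rout off s₀ r i b a)

section routine

variable {P : Prog} {A : Set (List Bool)} {good : Bool → List Bool → Prop}
  {off s₀ r i : ℕ} {b : Bool}

theorem rout_inner (hP : HasR P off s₀ r i b) (hs : 1 ≤ s₀) {j t : ℕ} (hj : j < r) :
    ∀ (u w : List Bool) (stk : ℕ → List Bool), stk 0 = w → stk (s₀ + j) = u →
    (∀ stk' : ℕ → List Bool, stk' 0 = blk u.reverse ++ w → (∀ s, s₀ + j < s → stk' s = stk s) →
      Ensures P A noAdversary good t (off + 6 * (j + 1)) stk') →
    Ensures P A noAdversary good (t + 3 * u.length + 1) (off + (6 * j + 1)) stk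
  | [], w, stk, h0, h1, hg => by
    have hi : P[off + (6 * j + 1)]? = some (.pop (s₀ + j) (off + (6 * j + 2))
        (off + (6 * j + 4)) (off + (6 * j + 6))) := by
      rw [hP _ (by omega)]
      unfold rout
      rw [if_pos (by omega)]
      have h1 : (6 * j + 1) % 6 = 1 := by omega
      have h2 : (6 * j + 1) / 6 = j := by omega
      rw [h1, h2]
      rfl
    refine ens_pop_nil hi h1 ?_
    have := hg stk (by simpa [blk] using h0) (fun _ _ => rfl)
    have e : off + 6 * (j + 1) = off + (6 * j + 6) := by ring
    rw [e] at this
    exact this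
  | a :: u, w, stk, h0, h1, hg => by
    have hi : P[off + (6 * j + 1)]? = some (.pop (s₀ + j) (off + (6 * j + 2))
        (off + (6 * j + 4)) (off + (6 * j + 6))) := by
      rw [hP _ (by omega)]
      unfold rout
      rw [if_pos (by omega)]
      have h1 : (6 * j + 1) % 6 = 1 := by omega
      have h2 : (6 * j + 1) / 6 = j := by omega
      rw [h1, h2]
      rfl
    have hi2 : P[off + (6 * j + 2)]? = some (.push 0 false (off + (6 * j + 3))) := by
      rw [hP _ (by omega)]
      unfold rout
      rw [if_pos (by omega)]
      have h1 : (6 * j + 2) % 6 = 2 := by omega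
      rw [h1]
      rfl
    have hi3 : P[off + (6 * j + 3)]? = some (.push 0 true (off + (6 * j + 1))) := by
      rw [hP _ (by omega)]
      unfold rout
      rw [if_pos (by omega)]
      have h1 : (6 * j + 3) % 6 = 3 := by omega
      rw [h1]
      have h2 : 6 * j + 3 - 2 = 6 * j + 1 := by omega
      simp only [h2]
    have hi4 : P[off + (6 * j + 4)]? = some (.push 0 true (off + (6 * j + 5))) := by
      rw [hP _ (by omega)]
      unfold rout
      rw [if_pos (by omega)]
      have h1 : (6 * j + 4) % 6 = 4 := by omega
      rw [h1]
      rfl
    have hi5 : P[off + (6 * j + 5)]? = some (.push 0 true (off + (6 * j + 1))) := by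
      rw [hP _ (by omega)]
      unfold rout
      rw [if_pos (by omega)]
      have h1 : (6 * j + 5) % 6 = 5 := by omega
      rw [h1]
      have h2 : 6 * j + 5 - 4 = 6 * j + 1 := by omega
      simp only [h2]
    have ih := fun (stk : ℕ → List Bool) (h0 : stk 0 = true :: a :: w) (h1 : stk (s₀ + j) = u)
      (h2 : ∀ stk' : ℕ → List Bool, stk' 0 = blk u.reverse ++ (true :: a :: w) →
        (∀ s, s₀ + j < s → stk' s = stk s) →
        Ensures P A noAdversary good t (off + 6 * (j + 1)) stk') =>
      rout_inner hP hs hj u (true :: a :: w) stk h0 h1 h2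
    have e : t + 3 * (a :: u).length + 1 = (t + 3 * u.length + 1) + 1 + 1 + 1 := by
      simp only [List.length_cons]; ring
    have hb : blk (a :: u).reverse ++ w = blk u.reverse ++ (true :: a :: w) := by
      simp [blk]
    rw [e]
    rw [hb] at hg
    refine ens_pop_cons hi h1 ?_
    cases a
    · refine ens_push hi2 (ens_push hi3 (ih _ ?_ ?_ fun stk' g1 g2 => hg stk' g1 fun s hs' => ?_))
      · rw [Function.update_self, Function.update_self, Function.update_of_ne (by omega), h0]
      · rw [Function.update_of_ne (by omega), Function.update_of_ne (by omega),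
          Function.update_self]
      · rw [g2 s hs']
        rw [Function.update_of_ne (by omega), Function.update_of_ne (by omega),
          Function.update_of_ne (by omega)]
    · refine ens_push hi4 (ens_push hi5 (ih _ ?_ ?_ fun stk' g1 g2 => hg stk' g1 fun s hs' => ?_))
      · rw [Function.update_self, Function.update_self, Function.update_of_ne (by omega), h0]
      · rw [Function.update_of_ne (by omega), Function.update_of_ne (by omega),
          Function.update_self]
      · rw [g2 s hs']
        rw [Function.update_of_ne (by omega), Function.update_of_ne (by omega),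
          Function.update_of_ne (by omega)]

theorem rout_tail (hP : HasR P off s₀ r i b) {w : List Bool}
    (h1 : (false :: w) ∈ A → ∀ s, good b s) (h2 : (false :: w) ∉ A → ∀ s, good (!b) s) :
    ∀ (m : ℕ) (stk : ℕ → List Bool), m ≤ i → w = List.replicate m true ++ stk 0 →
      Ensures P A noAdversary good (m + 3) (off + (6 * r + 1 + (i - m))) stk
  | 0, stk, _, hw => by
    have hi0 : P[off + (6 * r + i + 1)]? = some (.push 0 false (off + (6 * r + i + 2))) := by
      rw [hP _ (by omega)]
      unfold rout
      rw [if_neg (by omega), if_neg (by omega), if_neg (by omega), if_pos (by omega)]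
    have hi : P[off + (6 * r + i + 2)]? =
        some (.query 0 (off + (6 * r + i + 3)) (off + (6 * r + i + 4))) := by
      rw [hP _ (by omega)]
      unfold rout
      rw [if_neg (by omega), if_neg (by omega), if_neg (by omega), if_neg (by omega),
        if_pos (by omega)]
    have hi1 : P[off + (6 * r + i + 3)]? = some (.halt b) := by
      rw [hP _ (by omega)]
      unfold rout
      rw [if_neg (by omega), if_neg (by omega), if_neg (by omega), if_neg (by omega),
        if_neg (by omega), if_pos (by omega)]
    have hi2 : P[off + (6 * r + i + 4)]? = some (.halt (!b)) := by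
      rw [hP _ (by omega)]
      unfold rout
      rw [if_neg (by omega), if_neg (by omega), if_neg (by omega), if_neg (by omega),
        if_neg (by omega), if_neg (by omega)]
    have e : 6 * r + 1 + (i - 0) = 6 * r + i + 1 := by omega
    rw [e]
    have hw' : w = stk 0 := hw
    refine ens_push hi0 (ens_query hi (fun h => ens_halt hi1 (h1 ?_ _)) fun h =>
      ens_halt hi2 (h2 ?_ _))
    · rw [Function.update_self] at h
      rw [hw']
      exact h
    · rw [Function.update_self] at h
      rw [hw']
      exact h
  | m + 1, stk, hm, hw => by
    have hi : P[off + (6 * r + 1 + (i - (m + 1)))]? =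
        some (.push 0 true (off + (6 * r + 1 + (i - m)))) := by
      rw [hP _ (by omega)]
      unfold rout
      rw [if_neg (by omega), if_neg (by omega), if_pos (by omega)]
      have : 6 * r + 1 + (i - (m + 1)) + 1 = 6 * r + 1 + (i - m) := by omega
      rw [this]
    have e : m + 1 + 3 = (m + 3) + 1 := by ring
    rw [e]
    refine ens_push hi (rout_tail hP h1 h2 m _ (by omega) ?_)
    rw [Function.update_self, hw, List.replicate_succ']
    simp

theorem rout_outer (hP : HasR P off s₀ r i b) (hs : 1 ≤ s₀) {w₀ : List Bool}
    {us : ℕ → List Bool} {M : ℕ} (hM : ∀ j < r, (us j).length ≤ M)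
    (h1 : (false :: codeW i (w₀ :: (List.range r).map us)) ∈ A → ∀ s, good b s)
    (h2 : (false :: codeW i (w₀ :: (List.range r).map us)) ∉ A → ∀ s, good (!b) s) :
    ∀ (m j : ℕ) (stk : ℕ → List Bool), m + j = r →
      stk 0 = cr (w₀ :: (List.range j).map us).reverse →
      (∀ j', j ≤ j' → j' < r → stk (s₀ + j') = us j') →
      Ensures P A noAdversary good (i + 4 + m * (3 * M + 2)) (off + 6 * j) stk
  | 0, j, stk, hj, h0, hs' => by
    have hj' : j = r := by omega
    subst hj'
    have hi : P[off + 6 * j]? = some (.push 0 false (off + (6 * j + 1))) := by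
      rw [hP _ (by omega)]
      unfold rout
      rw [if_neg (by omega), if_pos rfl]
    have e : i + 4 + 0 * (3 * M + 2) = (i + 3) + 1 := by ring
    rw [e]
    refine ens_push hi ?_
    have := rout_tail (i := i) hP h1 h2 i (Function.update stk 0 (false :: stk 0)) le_rfl (by
      rw [Function.update_self, h0]
      rfl)
    simpa using this
  | m + 1, j, stk, hj, h0, hs' => by
    have hj' : j < r := by omega
    have hi : P[off + 6 * j]? = some (.push 0 false (off + (6 * j + 1))) := by
      rw [hP _ (by omega)]
      unfold rout
      rw [if_pos (by omega)]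
      have h1 : (6 * j) % 6 = 0 := by omega
      rw [h1]
      rfl
    have hlen : (us j).length ≤ M := hM j hj'
    have e : i + 4 + (m + 1) * (3 * M + 2) =
      ((i + 4 + m * (3 * M + 2)) + 3 * M + 1) + 1 := by ring
    rw [e]
    refine ens_push hi (Ensures.mono (fun _ _ h => h)
      (t := (i + 4 + m * (3 * M + 2)) + 3 * (us j).length + 1) (by omega)
      (rout_inner hP hs hj' (us j) (false :: stk 0) _ ?_ ?_ fun stk' g1 g2 => ?_))
    · rw [Function.update_self]
    · rw [Function.update_of_ne (by omega), hs' j le_rfl hj']
    · refine rout_outer hP hs hM h1 h2 m (j + 1) stk' (by omega) ?_ fun j' hj1 hj2 => ?_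
      · rw [g1, h0]
        have : (w₀ :: (List.range (j + 1)).map us) =
            (w₀ :: (List.range j).map us) ++ [us j] := by
          rw [List.range_succ, List.map_append]
          rfl
        rw [this, List.reverse_append, List.reverse_singleton, List.singleton_append, cr_cons]
        simp
      · rw [g2 _ (by omega), Function.update_of_ne (by omega), hs' j' (by omega) hj2]

/-- the routine -/
theorem rout_run (hP : HasR P off s₀ r i b) (hs : 1 ≤ s₀) {stk : ℕ → List Bool} {M : ℕ}
    (hM : ∀ j < r, (stk (s₀ + j)).length ≤ M)
    (h1 : (false :: codeW i (stk 0 :: (List.range r).map fun j => stk (s₀ + j))) ∈ A →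
      ∀ s, good b s)
    (h2 : (false :: codeW i (stk 0 :: (List.range r).map fun j => stk (s₀ + j))) ∉ A →
      ∀ s, good (!b) s) :
    Ensures P A noAdversary good (i + 4 + r * (3 * M + 2)) off stk := by
  have := rout_outer hP hs (w₀ := stk 0) (us := fun j => stk (s₀ + j)) hM h1 h2 r 0 stk
    (by omega) (by simp [cr]) (fun j' _ _ => rfl)
  simpa using this

end routine

/-! ### three programs -/

/-- program for the matrix of the diagonal part -/
def prog1 (i : ℕ) : Prog := (List.range (6 * (i + 1) + i + 5)).map (rout 0 1 (i + 1) i true)

theorem prog1_has (i : ℕ) : HasR (prog1 i) 0 1 (i + 1) i true := by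
  intro a ha
  unfold prog1
  rw [zero_add, List.getElem?_map, List.getElem?_range ha]
  rfl

theorem map_load_tail {v : List (List Bool)} {r : ℕ} (hv : v.length = r + 1) :
    load v 0 :: (List.range r).map (fun j => load v (1 + j)) = v := by
  refine List.ext_getElem (by simp [hv]) fun n h1 h2 => ?_
  rcases n with _ | n
  · simp only [List.getElem_cons_zero]
    unfold load
    rw [List.getD_eq_getElem _ _ h2]
  · simp only [List.getElem_cons_succ, List.getElem_map, List.getElem_range]
    unfold load
    rw [List.getD_eq_getElem _ _ (by omega)]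
    congr 1
    omega

theorem prog1_inP (A : Set (List Bool)) (i : ℕ) :
    InP A (i + 2) fun v => (false :: codeW i v) ∈ A := by
  refine ⟨prog1 i, (i : Polynomial ℕ) + 4 + ((i : Polynomial ℕ) + 1) * (3 * Polynomial.X + 2),
    fun v hv => ?_⟩
  have hv' := map_load_tail (r := i + 1) hv
  refine Ensures.mono (fun _ _ h => h) (t := i + 4 + (i + 1) * (3 * size v + 2)) ?_
    (rout_run (prog1_has i) le_rfl (stk := load v) (M := size v)
      (fun j _ => load_length_le v _) (fun h _ => ?_) (fun h _ => ?_))
  · simp
  · rw [hv'] at h
    simpa using h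
  · rw [hv'] at h
    simpa using h

/-- the relation for questions: words `true :: w` refer to the oracle, words `false :: q` to the
alternating tree of the question `q` -/
def RK (A : Set (List Bool)) (k : ℕ) (v : List (List Bool)) : Prop :=
  match v.getD 0 [] with
  | [] => ¬ Even k
  | true :: w => ((true :: w) ∈ A ↔ Even k)
  | false :: q => (false :: codeW k (q :: (List.range k).map fun j => v.getD (1 + j) [])) ∈ A

/-- instructions of the program for `RK` -/
def instr2 (k : ℕ) (b : Bool) (pc : ℕ) : Instr :=
  if pc = 0 then .pop 0 3 1 (3 + (6 * k + k + 5) + 2)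
  else if pc = 1 then .push 0 true 2
  else if pc = 2 then .query 0 (3 + (6 * k + k + 5)) (3 + (6 * k + k + 5) + 1)
  else if pc < 3 + (6 * k + k + 5) then rout 3 1 k k b (pc - 3)
  else if pc = 3 + (6 * k + k + 5) then .halt (if Even k then b else !b)
  else if pc = 3 + (6 * k + k + 5) + 1 then .halt (if Even k then !b else b)
  else .halt (if Even k then !b else b)

/-- the program for `RK` -/
def prog2 (k : ℕ) (b : Bool) : Prog := (List.range (3 + (6 * k + k + 5) + 3)).map (instr2 k b)

theorem prog2_get {k : ℕ} {b : Bool} {pc : ℕ} (h : pc < 3 + (6 * k + k + 5) + 3) :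
    (prog2 k b)[pc]? = some (instr2 k b pc) := by
  unfold prog2
  rw [List.getElem?_map, List.getElem?_range h]
  rfl

theorem prog2_has (k : ℕ) (b : Bool) : HasR (prog2 k b) 3 1 k k b := by
  intro a ha
  rw [prog2_get (by omega)]
  unfold instr2
  rw [if_neg (by omega), if_neg (by omega), if_neg (by omega), if_pos (by omega)]
  congr 2
  omega

theorem prog2_run (A : Set (List Bool)) (k : ℕ) (b : Bool) (good : Bool → List Bool → Prop)
    (v : List (List Bool)) (hg1 : RK A k v → ∀ s, good b s)
    (hg2 : ¬ RK A k v → ∀ s, good (!b) s) :
    Ensures (prog2 k b) A noAdversary good (k + 5 + k * (3 * size v + 2) + 3) 0 (load v) := by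
  have h0 : load v 0 = v.getD 0 [] := rfl
  have g0 : (prog2 k b)[0]? = some (.pop 0 3 1 (3 + (6 * k + k + 5) + 2)) := by
    rw [prog2_get (by omega)]
    rfl
  have g1 : (prog2 k b)[1]? = some (.push 0 true 2) := by
    rw [prog2_get (by omega)]
    rfl
  have g2 : (prog2 k b)[2]? = some (.query 0 (3 + (6 * k + k + 5)) (3 + (6 * k + k + 5) + 1)) := by
    rw [prog2_get (by omega)]
    rfl
  have g3 : (prog2 k b)[3 + (6 * k + k + 5)]? = some (.halt (if Even k then b else !b)) := by
    rw [prog2_get (by omega)]
    unfold instr2
    rw [if_neg (by omega), if_neg (by omega), if_neg (by omega), if_neg (by omega),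
      if_pos (by omega)]
  have g4 : (prog2 k b)[3 + (6 * k + k + 5) + 1]? = some (.halt (if Even k then !b else b)) := by
    rw [prog2_get (by omega)]
    unfold instr2
    rw [if_neg (by omega), if_neg (by omega), if_neg (by omega), if_neg (by omega),
      if_neg (by omega), if_pos (by omega)]
  have g5 : (prog2 k b)[3 + (6 * k + k + 5) + 2]? = some (.halt (if Even k then !b else b)) := by
    rw [prog2_get (by omega)]
    unfold instr2
    rw [if_neg (by omega), if_neg (by omega), if_neg (by omega), if_neg (by omega),
      if_neg (by omega), if_neg (by omega)]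
  rcases hw : v.getD 0 [] with _ | ⟨a, w⟩
  · rw [hw] at h0
    have hr : RK A k v ↔ ¬ Even k := by unfold RK; rw [hw]
    refine ens_pop_nil g0 h0 (ens_halt g5 ?_)
    by_cases hk : Even k
    · rw [if_pos hk]
      exact hg2 (fun h => hr.1 h hk) _
    · rw [if_neg hk]
      exact hg1 (hr.2 hk) _
  · rw [hw] at h0
    refine ens_pop_cons g0 h0 ?_
    cases a
    · have hr : RK A k v ↔
          (false :: codeW k (w :: (List.range k).map fun j => v.getD (1 + j) [])) ∈ A := by
        unfold RK; rw [hw]
      have hst : (Function.update (load v) 0 w) 0 ::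
          (List.range k).map (fun j => (Function.update (load v) 0 w) (1 + j)) =
          w :: (List.range k).map fun j => v.getD (1 + j) [] := by
        rw [Function.update_self]
        congr 1
        refine List.map_congr_left fun j _ => ?_
        rw [Function.update_of_ne (by omega)]
        rfl
      refine Ensures.mono (fun _ _ h => h) (t := k + 4 + k * (3 * size v + 2)) (by omega)
        (rout_run (prog2_has k b) le_rfl (M := size v) (fun j _ => ?_) (fun h s => ?_)
          (fun h s => ?_))
      · rw [Function.update_of_ne (by omega)]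
        exact load_length_le v _
      · rw [hst] at h
        exact hg1 (hr.2 h) s
      · rw [hst] at h
        exact hg2 (fun hh => h (hr.1 hh)) s
    · have hr : RK A k v ↔ ((true :: w) ∈ A ↔ Even k) := by unfold RK; rw [hw]
      refine Ensures.mono (fun _ _ h => h) (t := 0 + 1 + 1 + 1) (by omega) ?_
      refine ens_push g1 (ens_query g2 ?_ ?_)
      · intro h
        simp only [Function.update_self] at h
        refine ens_halt g3 ?_
        by_cases hk : Even k
        · rw [if_pos hk]
          exact hg1 (hr.2 (iff_of_true h hk)) _
        · rw [if_neg hk]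
          exact hg2 (fun hh => hk ((hr.1 hh).1 h)) _
      · intro h
        simp only [Function.update_self] at h
        refine ens_halt g4 ?_
        by_cases hk : Even k
        · rw [if_pos hk]
          exact hg2 (fun hh => h ((hr.1 hh).2 hk)) _
        · rw [if_neg hk]
          exact hg1 (hr.2 (iff_of_false h hk)) _

theorem RK_inP (A : Set (List Bool)) (k r : ℕ) :
    InP A r (RK A k) ∧ InP A r (fun v => ¬ RK A k v) := by
  constructor
  · refine ⟨prog2 k true, (k : Polynomial ℕ) + 5 + (k : Polynomial ℕ) * (3 * Polynomial.X + 2) + 3,
      fun v hv => ?_⟩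
    refine Ensures.mono (fun _ _ h => h) ?_ (prog2_run A k true _ v (fun h s => ?_) fun h s => ?_)
    · simp
    · simp [h]
    · simp [h]
  · refine ⟨prog2 k false,
      (k : Polynomial ℕ) + 5 + (k : Polynomial ℕ) * (3 * Polynomial.X + 2) + 3, fun v hv => ?_⟩
    refine Ensures.mono (fun _ _ h => h) ?_ (prog2_run A k false _ v (fun h s => ?_) fun h s => ?_)
    · simp
    · simp [h]
    · simp [h]

theorem RK_append {A : Set (List Bool)} {k : ℕ} {v : List (List Bool)} (hv : k + 1 ≤ v.length)
    (u : List Bool) : RK A k (v ++ [u]) ↔ RK A k v := by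
  have h0 : (v ++ [u]).getD 0 [] = v.getD 0 [] := by
    rw [List.getD_append _ _ _ _ (by omega)]
  have h1 : (List.range k).map (fun j => (v ++ [u]).getD (1 + j) []) =
      (List.range k).map fun j => v.getD (1 + j) [] := by
    refine List.map_congr_left fun j hj => ?_
    rw [List.mem_range] at hj
    rw [List.getD_append _ _ _ _ (by omega)]
  unfold RK
  rw [h0, h1]

theorem RK_inSigma (A : Set (List Bool)) (k : ℕ) : ∀ (i : ℕ) {r : ℕ} (_ : k + 1 ≤ r),
    InSigma A i r (RK A k) ∧ InSigma A i r (fun v => ¬ RK A k v)
  | 0, r, _ => RK_inP A k r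
  | i + 1, r, hr => by
    have ih := RK_inSigma A k i (r := r + 1) (by omega)
    constructor
    · refine ⟨_, 0, ih.2, fun v hv => ?_⟩
      constructor
      · intro h
        exact ⟨[], by simp, by rw [not_not]; exact (RK_append (by omega) _).2 h⟩
      · rintro ⟨u, -, h⟩
        rw [not_not] at h
        exact (RK_append (by omega) _).1 h
    · refine ⟨_, 0, ih.1, fun v hv => ?_⟩
      constructor
      · intro h
        exact ⟨[], by simp, fun hh => h ((RK_append (by omega) _).1 hh)⟩
      · rintro ⟨u, -, h⟩ hh
        exact h ((RK_append (by omega) _).2 hh)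

/-- number of leading ones -/
def lead : List Bool → ℕ
  | true :: w => lead w + 1
  | _ => 0

/-- the word after the leading ones and the following zero -/
def rest : List Bool → List Bool
  | true :: w => rest w
  | false :: w => w
  | [] => []

/-- question for complements -/
def qcomp (j : ℕ) (x : List Bool) (m : ℕ) : List Bool :=
  List.replicate m true ++ false :: (List.replicate j true ++ false :: x)

/-- instructions of the third program -/
def instr3 (j k : ℕ) (pc : ℕ) : Instr :=
  if pc = 0 then .push 0 false 1
  else if pc ≤ j then .push 0 true (pc + 1)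
  else if pc = j + 1 then .push 0 false (j + 2)
  else if pc = j + 2 then .pop 1 (j + 4) (j + 3) (j + 4)
  else if pc = j + 3 then .push 0 true (j + 2)
  else if pc = j + 4 then .push 0 true (j + 5)
  else rout (j + 5) 1 k k true (pc - (j + 5))

/-- the third program -/
def prog3 (j k : ℕ) : Prog := (List.range (j + 5 + (6 * k + k + 5))).map (instr3 j k)

theorem prog3_get {j k pc : ℕ} (h : pc < j + 5 + (6 * k + k + 5)) :
    (prog3 j k)[pc]? = some (instr3 j k pc) := by
  unfold prog3
  rw [List.getElem?_map, List.getElem?_range h]
  rfl

theorem prog3_has (j k : ℕ) : HasR (prog3 j k) (j + 5) 1 k k true := by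
  intro a ha
  rw [prog3_get (by omega)]
  unfold instr3
  rw [if_neg (by omega), if_neg (by omega), if_neg (by omega), if_neg (by omega),
    if_neg (by omega), if_neg (by omega)]
  congr 2
  omega

theorem prog3_loop {A : Set (List Bool)} {j k t : ℕ} {good : Bool → List Bool → Prop} :
    ∀ (w c : List Bool) (stk : ℕ → List Bool), stk 1 = w → stk 0 = c →
      (∀ stk' : ℕ → List Bool, stk' 0 = List.replicate (lead w) true ++ c →
        stk' 1 = rest w → (∀ s, 1 < s → stk' s = stk s) →
        Ensures (prog3 j k) A noAdversary good t (j + 4) stk') →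
      Ensures (prog3 j k) A noAdversary good (t + 2 * w.length + 1) (j + 2) stk
  | w, c, stk, h1, h0, hg => by
    have g2 : (prog3 j k)[j + 2]? = some (.pop 1 (j + 4) (j + 3) (j + 4)) := by
      rw [prog3_get (by omega)]
      unfold instr3
      rw [if_neg (by omega), if_neg (by omega), if_neg (by omega), if_pos (by omega)]
    have g3 : (prog3 j k)[j + 3]? = some (.push 0 true (j + 2)) := by
      rw [prog3_get (by omega)]
      unfold instr3
      rw [if_neg (by omega), if_neg (by omega), if_neg (by omega), if_neg (by omega),
        if_pos (by omega)]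
    match w, h1, hg with
    | [], h1, hg =>
      refine ens_pop_nil g2 h1 (Ensures.mono (fun _ _ h => h) (by omega)
        (hg stk ?_ h1 fun _ _ => rfl))
      simpa [lead] using h0
    | false :: w, h1, hg =>
      refine Ensures.mono (fun _ _ h => h) (t := t + 1) (by omega) (ens_pop_cons g2 h1
        (hg _ ?_ ?_ fun s hs => ?_))
      · rw [Function.update_of_ne (by omega)]
        simpa [lead] using h0
      · rw [Function.update_self]
        rfl
      · rw [Function.update_of_ne (by omega)]
    | true :: w, h1, hg =>
      have ih := fun (stk : ℕ → List Bool) (h1 : stk 1 = w) (h0 : stk 0 = true :: c)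
        (hg : ∀ stk' : ℕ → List Bool, stk' 0 = List.replicate (lead w) true ++ (true :: c) →
          stk' 1 = rest w → (∀ s, 1 < s → stk' s = stk s) →
          Ensures (prog3 j k) A noAdversary good t (j + 4) stk') =>
        prog3_loop w (true :: c) stk h1 h0 hg
      have e : t + 2 * (true :: w).length + 1 = (t + 2 * w.length + 1) + 1 + 1 := by
        simp only [List.length_cons]; ring
      rw [e]
      refine ens_pop_cons g2 h1 (ens_push g3 (ih _ ?_ ?_ fun stk' a1 a2 a3 =>
        hg stk' ?_ ?_ fun s hs => ?_))
      · rw [Function.update_of_ne (by omega), Function.update_self]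
      · rw [Function.update_self, Function.update_of_ne (by omega), h0]
      · rw [a1]
        simp [lead, List.replicate_succ']
      · rw [a2]; rfl
      · rw [a3 s hs, Function.update_of_ne (by omega), Function.update_of_ne (by omega)]

theorem prog3_pre {A : Set (List Bool)} {j k t : ℕ} {good : Bool → List Bool → Prop}
    {stk₀ : ℕ → List Bool} {x : List Bool}
    (hg : ∀ stk' : ℕ → List Bool, stk' 0 = false :: (List.replicate j true ++ false :: x) →
      (∀ s, 0 < s → stk' s = stk₀ s) → Ensures (prog3 j k) A noAdversary good t (j + 2) stk') :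
    ∀ (m : ℕ) (stk : ℕ → List Bool), m ≤ j → stk 0 = List.replicate (j - m) true ++ false :: x →
      (∀ s, 0 < s → stk s = stk₀ s) →
      Ensures (prog3 j k) A noAdversary good (t + m + 1) (j + 1 - m) stk
  | 0, stk, _, h0, hs => by
    have g1 : (prog3 j k)[j + 1]? = some (.push 0 false (j + 2)) := by
      rw [prog3_get (by omega)]
      unfold instr3
      rw [if_neg (by omega), if_neg (by omega), if_pos (by omega)]
    refine ens_push g1 (hg _ ?_ fun s hs' => ?_)
    · rw [Function.update_self, h0]
      rfl
    · rw [Function.update_of_ne (by omega), hs s hs']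
  | m + 1, stk, hm, h0, hs => by
    have e : j + 1 - (m + 1) = j - m := by omega
    have g1 : (prog3 j k)[j - m]? = some (.push 0 true (j + 1 - m)) := by
      rw [prog3_get (by omega)]
      unfold instr3
      rw [if_neg (by omega), if_pos (by omega)]
      congr 2
      omega
    rw [e]
    refine ens_push g1 (prog3_pre hg m _ (by omega) ?_ fun s hs' => ?_)
    · rw [Function.update_self, h0]
      have : j - m = (j - (m + 1)) + 1 := by omega
      rw [this, List.replicate_succ]
      rfl
    · rw [Function.update_of_ne (by omega), hs s hs']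

/-- the matrix for complements -/
theorem prog3_inP (A : Set (List Bool)) (j k : ℕ) (hk : 1 ≤ k) : InP A (k + 1) fun v =>
    (false :: codeW k (qcomp j (v.getD 0 []) (lead (v.getD 1 []) + 1) :: rest (v.getD 1 []) ::
      v.drop 2)) ∈ A := by
  have hrest : ∀ w : List Bool, (rest w).length ≤ w.length := by
    intro w
    induction w with
    | nil => simp [rest]
    | cons b w ih => cases b <;> simp [rest]; omega
  refine ⟨prog3 j k, (k : Polynomial ℕ) + 4 + (k : Polynomial ℕ) * (3 * Polynomial.X + 2) +
    2 * Polynomial.X + (j : Polynomial ℕ) + 4, fun v hv => ?_⟩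
  have g0 : (prog3 j k)[0]? = some (.push 0 false 1) := by
    rw [prog3_get (by omega)]
    rfl
  refine Ensures.mono (fun _ _ h => h)
    (t := ((((k + 4 + k * (3 * size v + 2)) + 1) + 2 * (load v 1).length + 1) + j + 1) + 1) ?_
    (ens_push g0 ?_)
  · have := load_length_le v 1
    simp only [Polynomial.eval_add, Polynomial.eval_mul, Polynomial.eval_natCast,
      Polynomial.eval_ofNat, Polynomial.eval_X, Nat.cast_id]
    omega
  have hpre := prog3_pre (A := A) (j := j) (k := k)
    (t := ((k + 4 + k * (3 * size v + 2)) + 1) + 2 * (load v 1).length + 1)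
    (good := fun b _ => (b = true ↔ (false :: codeW k (qcomp j (v.getD 0 [])
      (lead (v.getD 1 []) + 1) :: rest (v.getD 1 []) :: v.drop 2)) ∈ A))
    (stk₀ := load v) (x := v.getD 0 []) (fun stk' a1 a2 => ?_) j
    (Function.update (load v) 0 (false :: load v 0)) le_rfl
    (by rw [Function.update_self]; simp [load]) (fun s hs => by
      rw [Function.update_of_ne (by omega)])
  · have e : j + 1 - j = 1 := by omega
    rw [e] at hpre
    exact hpre
  · refine prog3_loop (load v 1) _ stk' (a2 1 (by omega)) a1 fun stk'' b1 b2 b3 => ?_
    have g4 : (prog3 j k)[j + 4]? = some (.push 0 true (j + 5)) := by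
      rw [prog3_get (by omega)]
      unfold instr3
      rw [if_neg (by omega), if_neg (by omega), if_neg (by omega), if_neg (by omega),
        if_neg (by omega), if_pos (by omega)]
    refine ens_push g4 ?_
    have hlist : (Function.update stk'' 0 (true :: stk'' 0)) 0 ::
        (List.range k).map (fun j => (Function.update stk'' 0 (true :: stk'' 0)) (1 + j)) =
        qcomp j (v.getD 0 []) (lead (v.getD 1 []) + 1) :: rest (v.getD 1 []) :: v.drop 2 := by
      have h0 : (Function.update stk'' 0 (true :: stk'' 0)) 0 =
          qcomp j (v.getD 0 []) (lead (v.getD 1 []) + 1) := by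
        rw [Function.update_self, b1]
        simp only [qcomp, List.replicate_succ, List.cons_append]
        rfl
      rw [h0]
      congr 1
      refine List.ext_getElem (by simp [hv]; omega) fun n h1 h2 => ?_
      rcases n with _ | n
      · simp only [List.getElem_map, List.getElem_range, List.getElem_cons_zero, add_zero]
        rw [Function.update_of_ne (by omega), b2]; rfl
      · simp only [List.getElem_map, List.getElem_range, List.getElem_cons_succ,
          List.getElem_drop]
        rw [Function.update_of_ne (by omega), b3 _ (by omega), a2 _ (by omega)]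
        unfold load
        rw [List.getD_eq_getElem _ _ (by simp at h1; omega)]
        congr 1
        omega
    refine rout_run (prog3_has j k) le_rfl (M := size v) (fun j' hj' => ?_) (fun h s => ?_)
      (fun h s => ?_)
    · rw [Function.update_of_ne (by omega)]
      rcases j' with _ | j'
      · rw [b2]
        exact (hrest _).trans (load_length_le v 1)
      · rw [b3 _ (by omega), a2 _ (by omega)]
        exact load_length_le v _
    · rw [hlist] at h
      simpa using h
    · rw [hlist] at h
      simpa using h

end Pool.Agent.Lib.MP_2b5695_lc
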