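import Pool.Agent.Lib.MP_2b5695_lc.LvSwitch

/-!
One round: a restriction that simplifies all functions of a family and keeps the structure of
the tree.
-/

namespace Pool.Agent.Lib.MP_2b5695_lc

/-- counting functions that take values in `A` at prescribed places (the places may depend on a
choice `c`) -/
theorem card_places {V S G C : Type} [Finite V] [Finite S] [Finite G] [Finite C]
    (j : C → G → V) (hj : ∀ c, Function.Injective (j c)) (A : Set S) :
    Nat.card {ρ : V → S // ∃ c, ∀ g, ρ (j c g) ∈ A} * Nat.card S ^ Nat.card G ≤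
      Nat.card (V → S) * (Nat.card C * Nat.card A ^ Nat.card G) := by
  classical
  have hex : ∀ ρ : {ρ : V → S // ∃ c, ∀ g, ρ (j c g) ∈ A}, ∃ c, ∀ g, ρ.1 (j c g) ∈ A :=
    fun ρ => ρ.2
  choose c hc using hex
  have hinj : Function.Injective
      (fun p : {ρ : V → S // ∃ c, ∀ g, ρ (j c g) ∈ A} × (G → S) =>
        ((Function.extend (j (c p.1)) p.2 p.1.1, c p.1, fun g => (⟨p.1.1 (j (c p.1) g),
          hc p.1 g⟩ : A)) : (V → S) × C × (G → A))) := by
    rintro ⟨ρ₁, h₁⟩ ⟨ρ₂, h₂⟩ h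
    simp only [Prod.mk.injEq] at h
    obtain ⟨e1, e2, e3⟩ := h
    rw [← e2] at e1
    have e4 : ∀ g, ρ₁.1 (j (c ρ₁) g) = ρ₂.1 (j (c ρ₁) g) := by
      intro g
      have := congrArg Subtype.val (congrFun e3 g)
      simp only at this
      rw [this, e2]
    have e5 : h₁ = h₂ := by
      funext g
      have := congrFun e1 (j (c ρ₁) g)
      rwa [(hj _).extend_apply, (hj _).extend_apply] at this
    have e6 : ρ₁ = ρ₂ := by
      refine Subtype.ext (funext fun v => ?_)
      by_cases hv : ∃ g, j (c ρ₁) g = v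
      · obtain ⟨g, rfl⟩ := hv
        exact e4 g
      · have := congrFun e1 v
        rwa [Function.extend_apply' _ _ _ hv, Function.extend_apply' _ _ _ hv] at this
    rw [e5, e6]
  have hcard := Nat.card_le_card_of_injective _ hinj
  have e1 : Nat.card (G → S) = Nat.card S ^ Nat.card G := Nat.card_fun
  have e2 : Nat.card (G → A) = Nat.card A ^ Nat.card G := Nat.card_fun
  rw [Nat.card_prod, Nat.card_prod, Nat.card_prod, e1, e2] at hcard
  exact hcard

/-- union bound -/
theorem union_bound {Ω I : Type} [Finite Ω] (s : Finset I) (B : I → Ω → Prop) (a c : ℕ)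
    (ha : 0 < a) (h : ∀ i ∈ s, Nat.card {ω // B i ω} * a ≤ Nat.card Ω * c)
    (hm : 4 * s.card * c ≤ a) : 4 * Nat.card {ω // ∃ i ∈ s, B i ω} ≤ Nat.card Ω := by
  classical
  haveI := Fintype.ofFinite Ω
  have h1 : Nat.card {ω // ∃ i ∈ s, B i ω} ≤ ∑ i ∈ s, Nat.card {ω // B i ω} := by
    simp only [Nat.card_eq_fintype_card, Fintype.card_subtype]
    refine le_trans (Finset.card_le_card ?_) Finset.card_biUnion_le
    intro ω hω
    rw [Finset.mem_filter] at hω
    obtain ⟨-, i, hi, hB⟩ := hω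
    rw [Finset.mem_biUnion]
    exact ⟨i, hi, by rw [Finset.mem_filter]; exact ⟨Finset.mem_univ _, hB⟩⟩
  have h2 : (∑ i ∈ s, Nat.card {ω // B i ω}) * a ≤ s.card * (Nat.card Ω * c) := by
    rw [Finset.sum_mul]
    refine (Finset.sum_le_sum h).trans ?_
    rw [Finset.sum_const, smul_eq_mul]
  refine Nat.le_of_mul_le_mul_right ?_ ha
  calc 4 * Nat.card {ω // ∃ i ∈ s, B i ω} * a
      ≤ 4 * (∑ i ∈ s, Nat.card {ω // B i ω}) * a := by gcongr
    _ = 4 * ((∑ i ∈ s, Nat.card {ω // B i ω}) * a) := by ring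
    _ ≤ 4 * (s.card * (Nat.card Ω * c)) := by gcongr
    _ = (4 * s.card * c) * Nat.card Ω := by ring
    _ ≤ a * Nat.card Ω := by gcongr
    _ = Nat.card Ω * a := by ring

theorem card_St (U : Type) [Fintype U] (K : ℕ) :
    Nat.card (St U K) = Nat.card U + (Nat.card U * (4 * K) + K) := by
  simp [St, Nat.card_eq_fintype_card, Fintype.card_sum, Fintype.card_prod]

/-- one round -/
theorem round {P U' G : Type} [Fintype P] [Fintype U'] [Fintype G] [DecidableEq P]
    [DecidableEq U'] [DecidableEq G] {K t : ℕ} (hK : 0 < K) {J : Type} (s : Finset J)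
    (F : J → ((((P × (U' × G)) × (U' × G)) × (U' × G)) → Bool) → Prop)
    (hF : ∀ j ∈ s, Cert1 t (F j)) (h1 : 4 * s.card * (4 * t) ^ t ≤ K ^ t)
    (h2 : 4 * Nat.card ((P × (U' × G)) × U') *
      (Nat.card (U' × G) * (4 * K) + K) ^ Nat.card G ≤ Nat.card (St (U' × G) K) ^ Nat.card G)
    (h3 : 4 * Nat.card (P × U') * (Nat.card (U' × G) * K) ^ Nat.card G ≤
      Nat.card (St (U' × G) K) ^ Nat.card G) :
    ∃ ρ : (P × (U' × G)) × (U' × G) → St (U' × G) K,
      (∀ j ∈ s, Cert t fun z => F j (Phi ρ z)) ∧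
      (∀ (p : P × (U' × G)) (u' : U'), ∃ g r, ρ (p, (u', g)) = .inl r) ∧
      (∀ (p : P) (u' : U'), ∃ g, ∀ u l, ρ ((p, (u', g)), u) ≠ .inr (.inr l)) := by
  classical
  set Ω := (P × (U' × G)) × (U' × G) → St (U' × G) K with hΩ
  have hpos : 0 < Nat.card Ω := by
    haveI : Nonempty (St (U' × G) K) := ⟨.inr (.inr ⟨0, hK⟩)⟩
    exact Nat.card_pos
  have hS : 0 < Nat.card (St (U' × G) K) ^ Nat.card G := by
    haveI : Nonempty (St (U' × G) K) := ⟨.inr (.inr ⟨0, hK⟩)⟩
    exact pow_pos Nat.card_pos _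
  -- the three kinds of bad events
  have b1 : 4 * Nat.card {ρ : Ω // ∃ j ∈ s, ¬ Cert t fun z => F j (Phi ρ z)} ≤ Nat.card Ω := by
    refine union_bound s (fun j ρ => ¬ Cert t fun z => F j (Phi ρ z)) (K ^ t) ((4 * t) ^ t)
      (pow_pos hK _) (fun j hj => ?_) h1
    exact switching hK (hF j hj)
  have b2 : 4 * Nat.card {ρ : Ω // ∃ i ∈ (Finset.univ : Finset ((P × (U' × G)) × U')),
      ∀ g, ∀ r, ρ (i.1, (i.2, g)) ≠ .inl r} ≤ Nat.card Ω := by
    refine union_bound Finset.univ
      (fun (i : (P × (U' × G)) × U') (ρ : Ω) => ∀ g, ∀ r, ρ (i.1, (i.2, g)) ≠ .inl r)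
      (Nat.card (St (U' × G) K) ^ Nat.card G)
      ((Nat.card (U' × G) * (4 * K) + K) ^ Nat.card G) hS (fun i _ => ?_) ?_
    · have := card_places (V := (P × (U' × G)) × (U' × G)) (S := St (U' × G) K) (G := G)
        (C := Unit) (fun _ g => (i.1, (i.2, g))) (fun _ g g' h => by simpa using h)
        (Set.range (Sum.inr : ((U' × G) × Fin (4 * K)) ⊕ Fin K → St (U' × G) K))
      have eA : Nat.card (Set.range (Sum.inr : ((U' × G) × Fin (4 * K)) ⊕ Fin K →
          St (U' × G) K)) = Nat.card (U' × G) * (4 * K) + K := by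
        rw [Nat.card_range_of_injective Sum.inr_injective, Nat.card_sum,
          Nat.card_prod (U' × G), Nat.card_fin, Nat.card_fin]
      have eU : Nat.card Unit = 1 := Nat.card_unique
      rw [eA, eU, one_mul] at this
      refine le_trans (Nat.mul_le_mul_right _ ?_) this
      refine Nat.card_mono (Set.toFinite {ρ : Ω | ∃ _ : Unit, ∀ g, ρ (i.1, (i.2, g)) ∈
        Set.range (Sum.inr : ((U' × G) × Fin (4 * K)) ⊕ Fin K → St (U' × G) K)}) ?_
      intro ρ hρ
      refine ⟨(), fun g => ?_⟩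
      have h4 := hρ g
      cases h5 : ρ (i.1, (i.2, g)) with
      | inl r => exact absurd h5 (h4 r)
      | inr y => exact ⟨y, rfl⟩
    · rw [Finset.card_univ, ← Nat.card_eq_fintype_card]
      exact h2
  have b3 : 4 * Nat.card {ρ : Ω // ∃ i ∈ (Finset.univ : Finset (P × U')),
      ∀ g, ∃ u l, ρ ((i.1, (i.2, g)), u) = .inr (.inr l)} ≤ Nat.card Ω := by
    refine union_bound Finset.univ
      (fun (i : P × U') (ρ : Ω) => ∀ g, ∃ u l, ρ ((i.1, (i.2, g)), u) = .inr (.inr l))
      (Nat.card (St (U' × G) K) ^ Nat.card G)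
      ((Nat.card (U' × G) * K) ^ Nat.card G) hS (fun i _ => ?_) ?_
    · have := card_places (V := (P × (U' × G)) × (U' × G)) (S := St (U' × G) K) (G := G)
        (C := G → U' × G) (fun c g => ((i.1, (i.2, g)), c g))
        (fun _ g g' h => by
          simp only [Prod.mk.injEq, true_and] at h
          exact h.1)
        (Set.range (fun l : Fin K => (Sum.inr (Sum.inr l) : St (U' × G) K)))
      have eA : Nat.card (Set.range (fun l : Fin K =>
          (Sum.inr (Sum.inr l) : St (U' × G) K))) = K := by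
        rw [Nat.card_range_of_injective (fun a b h => by simpa using h), Nat.card_fin]
      have eC : Nat.card (G → U' × G) = Nat.card (U' × G) ^ Nat.card G := Nat.card_fun
      rw [eA, eC, ← mul_pow] at this
      refine le_trans (Nat.mul_le_mul_right _ ?_) this
      refine Nat.card_mono (Set.toFinite {ρ : Ω | ∃ c : G → U' × G,
        ∀ g, ρ ((i.1, (i.2, g)), c g) ∈
        Set.range (fun l : Fin K => (Sum.inr (Sum.inr l) : St (U' × G) K))}) ?_
      intro ρ hρ
      choose c l hc using hρ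
      exact ⟨c, fun g => ⟨l g, (hc g).symm⟩⟩
    · rw [Finset.card_univ, ← Nat.card_eq_fintype_card]
      exact h3
  -- a good restriction exists
  by_contra hcon
  push Not at hcon
  have hcov : Nat.card Ω ≤
      Nat.card {ρ : Ω // ∃ j ∈ s, ¬ Cert t fun z => F j (Phi ρ z)} +
      Nat.card {ρ : Ω // ∃ i ∈ (Finset.univ : Finset ((P × (U' × G)) × U')),
        ∀ g, ∀ r, ρ (i.1, (i.2, g)) ≠ .inl r} +
      Nat.card {ρ : Ω // ∃ i ∈ (Finset.univ : Finset (P × U')),
        ∀ g, ∃ u l, ρ ((i.1, (i.2, g)), u) = .inr (.inr l)} := by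
    haveI : Fintype Ω := Fintype.ofFinite Ω
    simp only [Nat.card_eq_fintype_card, Fintype.card_subtype]
    rw [← Finset.card_univ]
    refine le_trans (Finset.card_le_card ?_) (le_trans (Finset.card_union_le _ _)
      (Nat.add_le_add_right (Finset.card_union_le _ _) _))
    intro ρ _
    simp only [Finset.mem_union, Finset.mem_filter, Finset.mem_univ, true_and]
    by_cases c1 : ∀ j ∈ s, Cert t fun z => F j (Phi ρ z)
    · by_cases c2 : ∀ (p : P × (U' × G)) (u' : U'), ∃ g r, ρ (p, (u', g)) = .inl r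
      · obtain ⟨p, u', h4⟩ := hcon ρ c1 c2
        exact Or.inr ⟨(p, u'), h4⟩
      · push Not at c2
        obtain ⟨p, u', h4⟩ := c2
        exact Or.inl (Or.inr ⟨(p, u'), h4⟩)
    · push Not at c1
      exact Or.inl (Or.inl c1)
  omega

end Pool.Agent.Lib.MP_2b5695_lc
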