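import Mathlib

/-!
A switching lemma for selector restrictions, by an encoding argument.
-/

namespace Pool.Agent.Lib.MP_2b5695_lc

/-- every satisfying assignment has a certificate of size at most `s` -/
def Cert1 {X : Type} (s : ℕ) (f : (X → Bool) → Prop) : Prop :=
  ∀ α, f α → ∃ S : Finset X, S.card ≤ s ∧ ∀ β, (∀ x ∈ S, β x = α x) → f β

/-- every assignment has a certificate of size at most `s` -/
def Cert {X : Type} (s : ℕ) (f : (X → Bool) → Prop) : Prop :=
  ∀ α, ∃ S : Finset X, S.card ≤ s ∧ ∀ β, (∀ x ∈ S, β x = α x) → (f β ↔ f α)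

theorem Cert.mono {X : Type} {s s' : ℕ} (hs : s ≤ s') {f : (X → Bool) → Prop} (h : Cert s f) :
    Cert s' f := fun α => by
  obtain ⟨S, h1, h2⟩ := h α
  exact ⟨S, h1.trans hs, h2⟩

theorem Cert1.mono {X : Type} {s s' : ℕ} (hs : s ≤ s') {f : (X → Bool) → Prop}
    (h : Cert1 s f) : Cert1 s' f := fun α hα => by
  obtain ⟨S, h1, h2⟩ := h α hα
  exact ⟨S, h1.trans hs, h2⟩

theorem Cert1.of_exists {X J : Type} {s : ℕ} {F : J → (X → Bool) → Prop} {T : Set J}
    {f : (X → Bool) → Prop} (hf : ∀ α, f α ↔ ∃ j ∈ T, ¬ F j α) (h : ∀ j ∈ T, Cert s (F j)) :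
    Cert1 s f := by
  intro α hα
  obtain ⟨j, hj, hjα⟩ := (hf α).1 hα
  obtain ⟨S, h1, h2⟩ := h j hj α
  exact ⟨S, h1, fun β hβ => (hf β).2 ⟨j, hj, fun hc => hjα ((h2 β hβ).1 hc)⟩⟩

theorem Cert.comp_map {X X' : Type} [DecidableEq X'] {s : ℕ} {f : (X → Bool) → Prop}
    (h : Cert s f) (π : X → X') : Cert s (fun z : X' → Bool => f fun x => z (π x)) := by
  intro α
  obtain ⟨S, h1, h2⟩ := h fun x => α (π x)
  refine ⟨S.image π, (Finset.card_image_le).trans h1, fun β hβ => h2 _ fun x hx => ?_⟩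
  exact hβ _ (Finset.mem_image_of_mem _ hx)

/-- states of a block: a free representative, a representative that is `0`, or all ones -/
abbrev St (U : Type) (K : ℕ) : Type := U ⊕ ((U × Fin (4 * K)) ⊕ Fin K)

section

variable {V U : Type} [DecidableEq V] [DecidableEq U] {K : ℕ}

/-- the value of element `u` of a block (`none`: free) -/
def pv : St U K → U → Option Bool
  | .inl r, u => if u = r then none else some true
  | .inr (.inl (r, _)), u => if u = r then some false else some true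
  | .inr (.inr _), _ => some true

theorem pv_none {σ : St U K} {u : U} : pv σ u = none ↔ σ = .inl u := by
  rcases σ with r | ⟨r, j⟩ | j
  · by_cases h : u = r
    · subst h; simp [pv]
    · simp only [pv, if_neg h, Sum.inl.injEq]
      constructor
      · intro h'; cases h'
      · intro h'; exact absurd h'.symm h
  · by_cases h : u = r
    · simp [pv, h]
    · simp [pv, h]
  · simp [pv]

/-- the state of a block in which the representative `r` gets the value `b`, with a label -/
def sg (b : Bool) (r : U) (l : Fin K) : St U K :=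
  if b then .inr (.inr l) else .inr (.inl (r, Fin.castLE (by omega) l))

theorem pv_sg (b : Bool) (r u : U) (l : Fin K) :
    pv (sg b r l) u = some (if u = r then b else true) := by
  cases b
  · by_cases h : u = r <;> simp [sg, pv, h]
  · simp [sg, pv]

theorem sg_ne_inl {b : Bool} {r u : U} {l : Fin K} : sg b r l ≠ (.inl u : St U K) := by
  cases b <;> simp [sg]

theorem sg_inj {b : Bool} {r : U} {l l' : Fin K} (h : sg b r l = sg b r l') : l = l' := by
  cases b
  · simpa [sg] using h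
  · simpa [sg] using h

/-- the assignment of the variables under the restriction `ρ` and the values `z` of the
blocks -/
def Phi (ρ : V → St U K) (z : V → Bool) (x : V × U) : Bool :=
  (pv (ρ x.1) x.2).getD (!(z x.1))

/-- a term: a list of variables and the values required -/
structure Term (X : Type) where
  /-- the variables -/
  l : List X
  /-- the values -/
  a : X → Bool

/-- the term is not falsified by the restriction -/
def NonFals (ρ : V → St U K) (T : Term (V × U)) : Prop :=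
  ∀ x ∈ T.l, pv (ρ x.1) x.2 ≠ some (!(T.a x))

/-- the term contains no free variable -/
def NoLive (ρ : V → St U K) (T : Term (V × U)) : Prop :=
  ∀ x ∈ T.l, pv (ρ x.1) x.2 ≠ none

open Classical in
/-- the first term that is not falsified -/
noncomputable def first (Ts : List (Term (V × U))) (ρ : V → St U K) : Option (Term (V × U)) :=
  Ts.find? fun T => decide (NonFals ρ T)

theorem first_none {Ts : List (Term (V × U))} {ρ : V → St U K} (h : first Ts ρ = none) :
    ∀ T ∈ Ts, ¬ NonFals ρ T := by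
  intro T hT
  have := List.find?_eq_none.1 h T hT
  simpa using this

theorem first_some {Ts : List (Term (V × U))} {ρ : V → St U K} {T : Term (V × U)}
    (h : first Ts ρ = some T) : T ∈ Ts ∧ NonFals ρ T :=
  ⟨List.mem_of_find?_eq_some h, by simpa using List.find?_some h⟩

theorem first_ext {Ts : List (Term (V × U))} {ρ ρ' : V → St U K} {T : Term (V × U)}
    (h : first Ts ρ = some T) (hT : NonFals ρ' T)
    (hρ : ∀ T', ¬ NonFals ρ T' → ¬ NonFals ρ' T') : first Ts ρ' = some T := by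
  unfold first at h ⊢
  rw [List.find?_eq_some_iff_append] at h ⊢
  obtain ⟨h1, as, bs, h2, h3⟩ := h
  refine ⟨by simpa using hT, as, bs, h2, fun a ha => ?_⟩
  have h4 := h3 a ha
  simp only [Bool.not_eq_eq_eq_not, Bool.not_true, decide_eq_false_iff_not] at h4 ⊢
  exact hρ a h4

variable (Ts : List (Term (V × U))) (l₀ : Fin K)

/-- there is a canonical path of length `k` -/
def Bad : ℕ → Term (V × U) → (V → St U K) → Prop
  | 0, _, _ => True
  | k + 1, T, ρ => ∃ (T' : Term (V × U)) (x : V × U) (π : Bool),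
      ((first Ts ρ = some T' ∧ NoLive ρ T) ∨ T' = T) ∧ x ∈ T'.l ∧ ρ x.1 = .inl x.2 ∧
      Bad k T' (Function.update ρ x.1 (sg (!π) x.2 l₀))

/-- the encoding relation -/
def Enc {s : ℕ} : List (Bool × Fin s × Bool) → Term (V × U) → (V → St U K) → (V → St U K) →
    List (Fin K) → Prop
  | [], _, ρ, ρ', ls => ls = [] ∧ ρ' = ρ
  | (nw, i, π) :: c, T, ρ, ρ', ls => ∃ (l : Fin K) (ls' : List (Fin K)) (T' : Term (V × U))
      (x : V × U) (ρ'' : V → St U K), ls = l :: ls' ∧
      ((nw = true ∧ first Ts ρ = some T' ∧ NoLive ρ T) ∨ (nw = false ∧ T' = T)) ∧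
      T'.l[i.val]? = some x ∧ ρ x.1 = .inl x.2 ∧
      Enc c T' (Function.update ρ x.1 (sg (!π) x.2 l₀)) ρ'' ls' ∧
      ρ' = Function.update ρ'' x.1 (sg (T'.a x) x.2 l)

variable {Ts l₀}

theorem Enc.ext {s : ℕ} : ∀ {c : List (Bool × Fin s × Bool)} {T : Term (V × U)}
    {ρ ρ' : V → St U K} {ls : List (Fin K)}, Enc Ts l₀ c T ρ ρ' ls →
    ∀ v, ρ' v = ρ v ∨ ∃ r b l, ρ v = .inl r ∧ ρ' v = sg b r l
  | [], T, ρ, ρ', ls, h, v => by
    obtain ⟨-, rfl⟩ := h
    exact Or.inl rfl
  | (nw, i, π) :: c, T, ρ, ρ', ls, h, v => by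
    obtain ⟨l, ls', T', x, ρ'', -, -, -, hx, hE, rfl⟩ := h
    by_cases hv : v = x.1
    · subst hv
      exact Or.inr ⟨x.2, _, l, hx, by rw [Function.update_self]⟩
    · rw [Function.update_of_ne hv]
      have := Enc.ext hE v
      rw [Function.update_of_ne hv] at this
      exact this

theorem Enc.pv_some {s : ℕ} {c : List (Bool × Fin s × Bool)} {T : Term (V × U)}
    {ρ ρ' : V → St U K} {ls : List (Fin K)} (h : Enc Ts l₀ c T ρ ρ' ls) {v : V} {u : U}
    {b : Bool} (hb : pv (ρ v) u = some b) : pv (ρ' v) u = some b := by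
  rcases h.ext v with h1 | ⟨r, b', l, h1, h2⟩
  · rw [h1, hb]
  · rw [h2, pv_sg]
    rw [h1] at hb
    unfold pv at hb
    by_cases hur : u = r
    · simp [hur] at hb
    · simpa [hur] using hb

theorem Enc.fals {s : ℕ} {c : List (Bool × Fin s × Bool)} {T : Term (V × U)}
    {ρ ρ' : V → St U K} {ls : List (Fin K)} (h : Enc Ts l₀ c T ρ ρ' ls) (T' : Term (V × U))
    (hT : ¬ NonFals ρ T') : ¬ NonFals ρ' T' := by
  unfold NonFals at hT ⊢
  push Not at hT ⊢
  obtain ⟨x, hx, h1⟩ := hT
  exact ⟨x, hx, h.pv_some h1⟩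

theorem Enc.live {s : ℕ} : ∀ {c : List (Bool × Fin s × Bool)} {T : Term (V × U)}
    {ρ ρ' : V → St U K} {ls : List (Fin K)}, Enc Ts l₀ c T ρ ρ' ls →
    ∀ x ∈ T.l, ρ x.1 = .inl x.2 → ρ' x.1 = .inl x.2 ∨ ∃ l, ρ' x.1 = sg (T.a x) x.2 l
  | [], T, ρ, ρ', ls, h, x, _, hx => by
    obtain ⟨-, rfl⟩ := h
    exact Or.inl hx
  | (nw, i, π) :: c, T, ρ, ρ', ls, h, x, hxT, hx => by
    obtain ⟨l, ls', T', y, ρ'', -, h1, -, hy, hE, rfl⟩ := h
    rcases h1 with ⟨-, -, h1⟩ | ⟨-, rfl⟩
    · exact absurd (pv_none.2 hx) (h1 x hxT)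
    · by_cases hv : x.1 = y.1
      · have h2 : x.2 = y.2 := by
          rw [hv, hy] at hx
          simpa using hx.symm
        have h3 : x = y := Prod.ext hv h2
        subst h3
        exact Or.inr ⟨l, by rw [Function.update_self]⟩
      · rw [Function.update_of_ne hv]
        refine Enc.live hE x hxT ?_
        rw [Function.update_of_ne hv]
        exact hx

theorem Enc.nonFals {s : ℕ} {c : List (Bool × Fin s × Bool)} {T : Term (V × U)}
    {ρ ρ' : V → St U K} {ls : List (Fin K)} (h : Enc Ts l₀ c T ρ ρ' ls)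
    (hT : NonFals ρ T) : NonFals ρ' T := by
  intro x hx
  cases hp : pv (ρ x.1) x.2 with
  | some b => rw [h.pv_some hp, ← hp]; exact hT x hx
  | none =>
    rcases h.live x hx (pv_none.1 hp) with h1 | ⟨l, h1⟩
    · rw [pv_none.2 h1]; simp
    · rw [h1, pv_sg, if_pos rfl]
      simp

theorem Enc.inj {s : ℕ} : ∀ {c : List (Bool × Fin s × Bool)} {T : Term (V × U)}
    {ρ₁ ρ₂ ρ' : V → St U K} {ls₁ ls₂ : List (Fin K)}, Enc Ts l₀ c T ρ₁ ρ' ls₁ →
    Enc Ts l₀ c T ρ₂ ρ' ls₂ → ρ₁ = ρ₂ ∧ ls₁ = ls₂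
  | [], T, ρ₁, ρ₂, ρ', ls₁, ls₂, h₁, h₂ => by
    obtain ⟨rfl, rfl⟩ := h₁
    obtain ⟨rfl, rfl⟩ := h₂
    exact ⟨rfl, rfl⟩
  | (nw, i, π) :: c, T, ρ₁, ρ₂, ρ', ls₁, ls₂, h₁, h₂ => by
    have key : ∀ {ρ : V → St U K} {ls : List (Fin K)} {l : Fin K} {ls' : List (Fin K)}
        {T' : Term (V × U)} {x : V × U} {ρ'' : V → St U K}, ls = l :: ls' →
        first Ts ρ = some T' → T'.l[i.val]? = some x → ρ x.1 = .inl x.2 →
        Enc Ts l₀ c T' (Function.update ρ x.1 (sg (!π) x.2 l₀)) ρ'' ls' →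
        ρ' = Function.update ρ'' x.1 (sg (T'.a x) x.2 l) → first Ts ρ' = some T' := by
      intro ρ ls l ls' T' x ρ'' e1 e2 e3 e4 e5 e6
      have hE : Enc Ts l₀ ((false, i, π) :: c) T' ρ ρ' ls :=
        ⟨l, ls', T', x, ρ'', e1, Or.inr ⟨rfl, rfl⟩, e3, e4, e5, e6⟩
      exact first_ext e2 (hE.nonFals (first_some e2).2) fun T' hT' => hE.fals T' hT'
    obtain ⟨l, ls', T', x, ρ'', a1, a2, a3, a4, a5, a6⟩ := h₁
    obtain ⟨m, ms', S', y, σ'', b1, b2, b3, b4, b5, b6⟩ := h₂
    have hTS : T' = S' := by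
      rcases a2 with ⟨rfl, a2, -⟩ | ⟨rfl, rfl⟩
      · rcases b2 with ⟨-, b2, -⟩ | ⟨h, -⟩
        · have h1 := key a1 a2 a3 a4 a5 a6
          have h2 := key b1 b2 b3 b4 b5 b6
          rw [h1] at h2
          simpa using h2
        · exact absurd h (by simp)
      · rcases b2 with ⟨h, -⟩ | ⟨-, rfl⟩
        · exact absurd h (by simp)
        · rfl
    subst hTS
    have hxy : x = y := by
      rw [a3] at b3
      simpa using b3
    subst hxy
    have hl : l = m := by
      have := congrFun (a6.symm.trans b6) x.1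
      rw [Function.update_self, Function.update_self] at this
      exact sg_inj this
    subst hl
    have hself : ∀ {ρ ρ'' : V → St U K} {ls : List (Fin K)},
        Enc Ts l₀ c T' (Function.update ρ x.1 (sg (!π) x.2 l₀)) ρ'' ls →
        ρ'' x.1 = sg (!π) x.2 l₀ := by
      intro ρ ρ'' ls h
      rcases h.ext x.1 with h1 | ⟨r, b, l, h1, -⟩
      · rw [h1, Function.update_self]
      · rw [Function.update_self] at h1
        exact absurd h1 sg_ne_inl
    have h2 : ρ'' = σ'' := by
      funext v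
      by_cases hv : v = x.1
      · subst hv
        rw [hself a5, hself b5]
      · have := congrFun (a6.symm.trans b6) v
        rwa [Function.update_of_ne hv, Function.update_of_ne hv] at this
    subst h2
    obtain ⟨h3, h4⟩ := Enc.inj a5 b5
    refine ⟨?_, by rw [a1, b1, h4]⟩
    funext v
    by_cases hv : v = x.1
    · subst hv
      rw [a4, b4]
    · have := congrFun h3 v
      rwa [Function.update_of_ne hv, Function.update_of_ne hv] at this

theorem exists_enc {s : ℕ} (hs : ∀ T ∈ Ts, T.l.length ≤ s) :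
    ∀ (k : ℕ) (T : Term (V × U)) (ρ : V → St U K) (ls : List (Fin K)), T.l.length ≤ s →
      ls.length = k → Bad Ts l₀ k T ρ →
      ∃ (c : List (Bool × Fin s × Bool)) (ρ' : V → St U K), c.length = k ∧
        Enc Ts l₀ c T ρ ρ' ls
  | 0, T, ρ, ls, _, hls, _ => by
    rw [List.length_eq_zero_iff] at hls
    subst hls
    exact ⟨[], ρ, rfl, rfl, rfl⟩
  | k + 1, T, ρ, [], _, hls, _ => by simp at hls
  | k + 1, T, ρ, l :: ls, hT, hls, h => by
    obtain ⟨T', x, π, h1, h2, h3, h4⟩ := h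
    have hT' : T'.l.length ≤ s := by
      rcases h1 with ⟨h1, -⟩ | rfl
      · exact hs _ (first_some h1).1
      · exact hT
    obtain ⟨i, hi, hx⟩ := List.getElem_of_mem h2
    obtain ⟨c, ρ'', hc, hE⟩ := exists_enc hs k T' _ ls hT' (by simpa using hls) h4
    have hx' : T'.l[i]? = some x := by rw [List.getElem?_eq_getElem hi, hx]
    rcases h1 with ⟨h1, h1'⟩ | h1
    · exact ⟨(true, ⟨i, by omega⟩, π) :: c, _, by simp [hc], l, ls, T', x, ρ'', rfl,
        Or.inl ⟨rfl, h1, h1'⟩, hx', h3, hE, rfl⟩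
    · exact ⟨(false, ⟨i, by omega⟩, π) :: c, _, by simp [hc], l, ls, T', x, ρ'', rfl,
        Or.inr ⟨rfl, h1⟩, hx', h3, hE, rfl⟩

/-- counting the bad restrictions -/
theorem card_bad [Fintype V] [Fintype U] {s : ℕ} (hs : ∀ T ∈ Ts, T.l.length ≤ s)
    (T₀ : Term (V × U)) (hT₀ : T₀.l.length ≤ s) (k : ℕ) :
    Nat.card {ρ : V → St U K // Bad Ts l₀ k T₀ ρ} * K ^ k ≤
      Nat.card (V → St U K) * (4 * s) ^ k := by
  classical
  have hex : ∀ (ρ : {ρ : V → St U K // Bad Ts l₀ k T₀ ρ}) (ls : List.Vector (Fin K) k),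
      ∃ (c : List.Vector (Bool × Fin s × Bool) k) (ρ' : V → St U K),
        Enc Ts l₀ c.1 T₀ ρ.1 ρ' ls.1 := by
    intro ρ ls
    obtain ⟨c, ρ', h1, h2⟩ := exists_enc hs k T₀ ρ.1 ls.1 hT₀ ls.2 ρ.2
    exact ⟨⟨c, h1⟩, ρ', h2⟩
  choose c ρ' hE using hex
  have hinj : Function.Injective
      (fun p : {ρ : V → St U K // Bad Ts l₀ k T₀ ρ} × List.Vector (Fin K) k =>
        (ρ' p.1 p.2, c p.1 p.2)) := by
    rintro ⟨ρ₁, ls₁⟩ ⟨ρ₂, ls₂⟩ h
    simp only [Prod.mk.injEq] at h
    have h1 := hE ρ₁ ls₁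
    have h2 := hE ρ₂ ls₂
    rw [h.1, h.2] at h1
    obtain ⟨h3, h4⟩ := h1.inj h2
    exact Prod.ext (Subtype.ext h3) (Subtype.ext h4)
  have hcard := Nat.card_le_card_of_injective _ hinj
  rw [Nat.card_prod, Nat.card_prod] at hcard
  have e1 : Nat.card (List.Vector (Fin K) k) = K ^ k := by
    rw [Nat.card_eq_fintype_card, card_vector, Fintype.card_fin]
  have e2 : Nat.card (List.Vector (Bool × Fin s × Bool) k) = (4 * s) ^ k := by
    rw [Nat.card_eq_fintype_card, card_vector, Fintype.card_prod, Fintype.card_prod,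
      Fintype.card_fin, Fintype.card_bool]
    congr 1
    ring
  rw [e1, e2] at hcard
  exact hcard

/-- if there is no long path, all assignments have short certificates -/
theorem cert_of_not_bad {f : (V × U → Bool) → Prop}
    (hf : ∀ α, f α ↔ ∃ T ∈ Ts, ∀ x ∈ T.l, α x = T.a x) :
    ∀ (k : ℕ) (T : Term (V × U)) (ρ : V → St U K), ¬ Bad Ts l₀ k T ρ → ∀ z : V → Bool,
      ∃ S : Finset V, S.card < k ∧ ∀ z' : V → Bool, (∀ v ∈ S, z' v = z v) →
        (f (Phi ρ z') ↔ f (Phi ρ z))
  | 0, T, ρ, h, z => absurd trivial h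
  | k + 1, T, ρ, h, z => by
    have step : ∀ (T' : Term (V × U)) (x : V × U),
        ((first Ts ρ = some T' ∧ NoLive ρ T) ∨ T' = T) → x ∈ T'.l → ρ x.1 = .inl x.2 →
        ∃ S : Finset V, S.card < k + 1 ∧ ∀ z' : V → Bool, (∀ v ∈ S, z' v = z v) →
        (f (Phi ρ z') ↔ f (Phi ρ z)) := by
      intro T' x h1 h2 h3
      have h4 : ¬ Bad Ts l₀ k T' (Function.update ρ x.1 (sg (!(z x.1)) x.2 l₀)) :=
        fun hb => h ⟨T', x, z x.1, h1, h2, h3, hb⟩
      obtain ⟨S, hS, hS'⟩ := cert_of_not_bad hf k T' _ h4 z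
      have hPhi : ∀ z' : V → Bool, z' x.1 = z x.1 →
          Phi (Function.update ρ x.1 (sg (!(z x.1)) x.2 l₀)) z' = Phi ρ z' := by
        intro z' hz'
        funext y
        unfold Phi
        by_cases hy : y.1 = x.1
        · rw [hy, Function.update_self, pv_sg, h3]
          by_cases hy2 : y.2 = x.2
          · simp [pv, hy2, hz']
          · simp [pv, hy2]
        · rw [Function.update_of_ne hy]
      refine ⟨insert x.1 S, ?_, fun z' hz' => ?_⟩
      · have := Finset.card_insert_le x.1 S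
        omega
      · have h5 := hS' z' fun v hv => hz' v (Finset.mem_insert_of_mem hv)
        rwa [hPhi z' (hz' _ (Finset.mem_insert_self _ _)), hPhi z rfl] at h5
    by_cases hlive : ∃ x ∈ T.l, ρ x.1 = .inl x.2
    · obtain ⟨x, hx, hx'⟩ := hlive
      exact step T x (Or.inr rfl) hx hx'
    · have hno : NoLive ρ T := fun x hx hp => hlive ⟨x, hx, pv_none.1 hp⟩
      cases hfirst : first Ts ρ with
      | none =>
        have hfalse : ∀ z', ¬ f (Phi ρ z') := by
          intro z' hc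
          obtain ⟨T', hT', h1⟩ := (hf _).1 hc
          have h2 := first_none hfirst T' hT'
          unfold NonFals at h2
          push Not at h2
          obtain ⟨x, hx, h3⟩ := h2
          have h4 := h1 x hx
          unfold Phi at h4
          rw [h3] at h4
          simp at h4
        exact ⟨∅, by simp, fun z' _ => iff_of_false (hfalse _) (hfalse _)⟩
      | some T' =>
        by_cases hlive' : ∃ x ∈ T'.l, ρ x.1 = .inl x.2
        · obtain ⟨x, hx, hx'⟩ := hlive'
          exact step T' x (Or.inl ⟨hfirst, hno⟩) hx hx'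
        · have htrue : ∀ z', f (Phi ρ z') := by
            intro z'
            refine (hf _).2 ⟨T', (first_some hfirst).1, fun x hx => ?_⟩
            unfold Phi
            cases hp : pv (ρ x.1) x.2 with
            | none => exact absurd ⟨x, hx, pv_none.1 hp⟩ hlive'
            | some b =>
              have h1 := (first_some hfirst).2 x hx
              rw [hp] at h1
              cases b <;> cases hb : T'.a x <;> simp_all
          exact ⟨∅, by simp, fun z' _ => iff_of_true (htrue _) (htrue _)⟩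

end

/-- the list of terms of a function with short certificates -/
theorem exists_terms {X : Type} [Fintype X] {s : ℕ} {f : (X → Bool) → Prop}
    (h : Cert1 s f) : ∃ Ts : List (Term X), (∀ T ∈ Ts, T.l.length ≤ s) ∧
      ∀ α, f α ↔ ∃ T ∈ Ts, ∀ x ∈ T.l, α x = T.a x := by
  classical
  unfold Cert1 at h
  choose! S hS1 hS2 using h
  refine ⟨((Finset.univ : Finset (X → Bool)).filter f).toList.map
    (fun α => ⟨(S α).toList, α⟩), ?_, fun α => ⟨fun hα => ?_, ?_⟩⟩
  · intro T hT
    obtain ⟨α, hα, rfl⟩ := List.mem_map.1 hT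
    rw [Finset.mem_toList, Finset.mem_filter] at hα
    simpa using hS1 α hα.2
  · refine ⟨⟨(S α).toList, α⟩, List.mem_map.2 ⟨α, ?_, rfl⟩, fun x _ => rfl⟩
    rw [Finset.mem_toList, Finset.mem_filter]
    exact ⟨Finset.mem_univ _, hα⟩
  · rintro ⟨T, hT, h1⟩
    obtain ⟨β, hβ, rfl⟩ := List.mem_map.1 hT
    rw [Finset.mem_toList, Finset.mem_filter] at hβ
    exact hS2 β hβ.2 α fun x hx => h1 x (Finset.mem_toList.2 hx)

/-- **Switching lemma**: the number of restrictions after which a function with short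
`1`-certificates does not have short certificates. -/
theorem switching {V U : Type} [Fintype V] [Fintype U] [DecidableEq V] [DecidableEq U]
    {K s t : ℕ} (hK : 0 < K) {f : (V × U → Bool) → Prop} (hf : Cert1 s f) :
    Nat.card {ρ : V → St U K // ¬ Cert t fun z => f (Phi ρ z)} * K ^ t ≤
      Nat.card (V → St U K) * (4 * s) ^ t := by
  classical
  obtain ⟨Ts, hTs, hf'⟩ := exists_terms hf
  let T₀ : Term (V × U) := ⟨[], fun _ => false⟩
  have h1 := card_bad (l₀ := ⟨0, hK⟩) hTs T₀ (Nat.zero_le _) t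
  refine le_trans (Nat.mul_le_mul_right _ ?_) h1
  refine Nat.card_mono (Set.toFinite {ρ : V → St U K | Bad Ts ⟨0, hK⟩ t T₀ ρ}) fun ρ hρ => ?_
  by_contra hcon
  refine hρ fun z => ?_
  obtain ⟨S, hS, hS'⟩ := cert_of_not_bad hf' t T₀ ρ hcon z
  exact ⟨S, hS.le, hS'⟩

end Pool.Agent.Lib.MP_2b5695_lc
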