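import Pool.Agent.Lib.MP_2b5695_lc.BDef
import Pool.Agent.Lib.MP_2b5695_lc.LvGame

/-!
Codes of tuples, the predicates given by alternating quantification over the oracle, and the
optimization problems defined by them.
-/

namespace Pool.Agent.Lib.MP_2b5695_lc

/-- code of a (reversed) list of words -/
def cr : List (List Bool) → List Bool
  | [] => []
  | [a] => a
  | a :: b :: l => blk a.reverse ++ false :: cr (b :: l)

theorem cr_inj : ∀ {l l' : List (List Bool)}, l.length = l'.length → cr l = cr l' → l = l'
  | [], [], _, _ => rfl
  | [a], [b], _, h => by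
    have : a = b := h
    rw [this]
  | a :: b :: l, a' :: b' :: l', hl, h => by
    have h' : blk a.reverse ++ false :: cr (b :: l) = blk a'.reverse ++ false :: cr (b' :: l') := h
    obtain ⟨h1, h2⟩ := blk_append_inj h'
    rw [List.reverse_injective h1, cr_inj (by simpa using hl) h2]
  | [], _ :: _, hl, _ => by simp at hl
  | _ :: _, [], hl, _ => by simp at hl
  | [a], _ :: _ :: _, hl, _ => by simp at hl
  | _ :: _ :: _, [a], hl, _ => by simp at hl

theorem cr_cons {a : List Bool} {l : List (List Bool)} (hl : l ≠ []) :
    cr (a :: l) = blk a.reverse ++ false :: cr l := by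
  cases l with
  | nil => exact absurd rfl hl
  | cons b l => rfl

theorem cr_length_last : ∀ (l : List (List Bool)) (a : List Bool),
    a.length ≤ (cr (l ++ [a])).length
  | [], a => le_rfl
  | b :: l, a => by
    rw [List.cons_append, cr_cons (by simp)]
    have := cr_length_last l a
    simp only [List.length_append, List.length_cons]
    omega

/-- code of a tuple of words for level `i` -/
def codeW (i : ℕ) (v : List (List Bool)) : List Bool :=
  List.replicate i true ++ false :: cr v.reverse

theorem codeW_inj {i i' : ℕ} {v v' : List (List Bool)} (hv : v.length = i + 2)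
    (hv' : v'.length = i' + 2) (h : codeW i v = codeW i' v') : i = i' ∧ v = v' := by
  obtain ⟨h1, h2⟩ := replicate_false_inj h
  subst h1
  refine ⟨rfl, ?_⟩
  exact List.reverse_injective (cr_inj (by simp [hv, hv']) h2)

theorem codeW_length {i : ℕ} {a : List Bool} {v : List (List Bool)} :
    a.length < (codeW i (a :: v)).length := by
  unfold codeW
  have := cr_length_last v.reverse a
  simp only [List.reverse_cons, List.length_append, List.length_replicate, List.length_cons]
  omega

/-- instructions of the program for the matrix -/
def instr (i pc : ℕ) : Instr :=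
  if pc < 6 * (i + 1) then
    match pc % 6 with
    | 0 => .push 0 false (pc + 1)
    | 1 => .pop (pc / 6 + 1) (pc + 1) (pc + 3) (pc + 5)
    | 2 => .push 0 false (pc + 1)
    | 3 => .push 0 true (pc - 2)
    | 4 => .push 0 true (pc + 1)
    | _ => .push 0 true (pc - 4)
  else if pc = 6 * (i + 1) then .push 0 false (pc + 1)
  else if pc ≤ 6 * (i + 1) + i then .push 0 true (pc + 1)
  else if pc = 6 * (i + 1) + i + 1 then .query 0 (pc + 1) (pc + 2)
  else if pc = 6 * (i + 1) + i + 2 then .halt true
  else .halt false

/-- the program for the matrix -/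
def progM (i : ℕ) : Prog := (List.range (6 * (i + 1) + i + 4)).map (instr i)

theorem progM_get {i pc : ℕ} (h : pc < 6 * (i + 1) + i + 4) :
    (progM i)[pc]? = some (instr i pc) := by
  unfold progM
  rw [List.getElem?_map, List.getElem?_range h]
  rfl

section prog

variable {A : Set (List Bool)} {good : Bool → List Bool → Prop} {i : ℕ}

theorem progM_inner {j t : ℕ} (hj : j < i + 1) : ∀ (u w : List Bool) (stk : ℕ → List Bool),
    stk 0 = w → stk (j + 1) = u →
    (∀ stk' : ℕ → List Bool, stk' 0 = blk u.reverse ++ w → (∀ s, j + 1 < s → stk' s = stk s) →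
      Ensures (progM i) A noAdversary good t (6 * (j + 1)) stk') →
    Ensures (progM i) A noAdversary good (t + 3 * u.length + 1) (6 * j + 1) stk
  | [], w, stk, h0, h1, hg => by
    have hi : (progM i)[6 * j + 1]? = some (.pop (j + 1) (6 * j + 2) (6 * j + 4) (6 * j + 6)) := by
      rw [progM_get (by omega)]
      unfold instr
      rw [if_pos (by omega)]
      have h1 : (6 * j + 1) % 6 = 1 := by omega
      have h2 : (6 * j + 1) / 6 = j := by omega
      rw [h1, h2]
      rfl
    refine ens_pop_nil hi h1 ?_
    have := hg stk (by simpa [blk] using h0) (fun _ _ => rfl)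
    have e : 6 * (j + 1) = 6 * j + 6 := by ring
    rw [e] at this
    exact this
  | a :: u, w, stk, h0, h1, hg => by
    have hi : (progM i)[6 * j + 1]? = some (.pop (j + 1) (6 * j + 2) (6 * j + 4) (6 * j + 6)) := by
      rw [progM_get (by omega)]
      unfold instr
      rw [if_pos (by omega)]
      have h1 : (6 * j + 1) % 6 = 1 := by omega
      have h2 : (6 * j + 1) / 6 = j := by omega
      rw [h1, h2]
      rfl
    have hi2 : (progM i)[6 * j + 2]? = some (.push 0 false (6 * j + 3)) := by
      rw [progM_get (by omega)]
      unfold instr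
      rw [if_pos (by omega)]
      have h1 : (6 * j + 2) % 6 = 2 := by omega
      rw [h1]
      rfl
    have hi3 : (progM i)[6 * j + 3]? = some (.push 0 true (6 * j + 1)) := by
      rw [progM_get (by omega)]
      unfold instr
      rw [if_pos (by omega)]
      have h1 : (6 * j + 3) % 6 = 3 := by omega
      rw [h1]
      have h2 : 6 * j + 3 - 2 = 6 * j + 1 := by omega
      simp only [h2]
    have hi4 : (progM i)[6 * j + 4]? = some (.push 0 true (6 * j + 5)) := by
      rw [progM_get (by omega)]
      unfold instr
      rw [if_pos (by omega)]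
      have h1 : (6 * j + 4) % 6 = 4 := by omega
      rw [h1]
      rfl
    have hi5 : (progM i)[6 * j + 5]? = some (.push 0 true (6 * j + 1)) := by
      rw [progM_get (by omega)]
      unfold instr
      rw [if_pos (by omega)]
      have h1 : (6 * j + 5) % 6 = 5 := by omega
      rw [h1]
      have h2 : 6 * j + 5 - 4 = 6 * j + 1 := by omega
      simp only [h2]
    have ih := fun (stk : ℕ → List Bool) (h0 : stk 0 = true :: a :: w) (h1 : stk (j + 1) = u)
      (h2 : ∀ stk' : ℕ → List Bool, stk' 0 = blk u.reverse ++ (true :: a :: w) →
        (∀ s, j + 1 < s → stk' s = stk s) →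
        Ensures (progM i) A noAdversary good t (6 * (j + 1)) stk') =>
      progM_inner hj u (true :: a :: w) stk h0 h1 h2
    have e : t + 3 * (a :: u).length + 1 = (t + 3 * u.length + 1) + 1 + 1 + 1 := by
      simp only [List.length_cons]; ring
    have hb : blk (a :: u).reverse ++ w = blk u.reverse ++ (true :: a :: w) := by
      simp [blk]
    rw [e]
    rw [hb] at hg
    refine ens_pop_cons hi h1 ?_
    cases a
    · refine ens_push hi2 (ens_push hi3 (ih _ ?_ ?_ fun stk' g1 g2 => hg stk' g1 fun s hs => ?_))
      · simp [Function.update_of_ne, h0]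
      · simp [Function.update_of_ne]
      · rw [g2 s hs]
        rw [Function.update_of_ne (by omega), Function.update_of_ne (by omega),
          Function.update_of_ne (by omega)]
    · refine ens_push hi4 (ens_push hi5 (ih _ ?_ ?_ fun stk' g1 g2 => hg stk' g1 fun s hs => ?_))
      · simp [Function.update_of_ne, h0]
      · simp [Function.update_of_ne]
      · rw [g2 s hs]
        rw [Function.update_of_ne (by omega), Function.update_of_ne (by omega),
          Function.update_of_ne (by omega)]

theorem progM_tail {w : List Bool} (h1 : w ∈ A → ∀ s, good true s)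
    (h2 : w ∉ A → ∀ s, good false s) : ∀ (m : ℕ) (stk : ℕ → List Bool), m ≤ i →
      w = List.replicate m true ++ stk 0 →
      Ensures (progM i) A noAdversary good (m + 2) (6 * (i + 1) + 1 + (i - m)) stk
  | 0, stk, _, hw => by
    have hi : (progM i)[6 * (i + 1) + i + 1]? =
        some (.query 0 (6 * (i + 1) + i + 2) (6 * (i + 1) + i + 3)) := by
      rw [progM_get (by omega)]
      unfold instr
      rw [if_neg (by omega), if_neg (by omega), if_neg (by omega), if_pos (by omega)]
    have hi1 : (progM i)[6 * (i + 1) + i + 2]? = some (.halt true) := by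
      rw [progM_get (by omega)]
      unfold instr
      rw [if_neg (by omega), if_neg (by omega), if_neg (by omega), if_neg (by omega),
        if_pos (by omega)]
    have hi2 : (progM i)[6 * (i + 1) + i + 3]? = some (.halt false) := by
      rw [progM_get (by omega)]
      unfold instr
      rw [if_neg (by omega), if_neg (by omega), if_neg (by omega), if_neg (by omega),
        if_neg (by omega)]
    have e : 6 * (i + 1) + 1 + (i - 0) = 6 * (i + 1) + i + 1 := by omega
    rw [e]
    have hw' : w = stk 0 := hw
    refine ens_query hi (fun h => ens_halt hi1 (h1 (hw' ▸ h) _)) fun h =>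
      ens_halt hi2 (h2 (hw' ▸ h) _)
  | m + 1, stk, hm, hw => by
    have hi : (progM i)[6 * (i + 1) + 1 + (i - (m + 1))]? =
        some (.push 0 true (6 * (i + 1) + 1 + (i - m))) := by
      rw [progM_get (by omega)]
      unfold instr
      rw [if_neg (by omega), if_neg (by omega), if_pos (by omega)]
      have : 6 * (i + 1) + 1 + (i - (m + 1)) + 1 = 6 * (i + 1) + 1 + (i - m) := by omega
      rw [this]
    have e : m + 1 + 2 = (m + 2) + 1 := by ring
    rw [e]
    refine ens_push hi (progM_tail h1 h2 m _ (by omega) ?_)
    rw [Function.update_self, hw, List.replicate_succ']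
    simp

theorem progM_outer {v : List (List Bool)} (hv : v.length = i + 2)
    (h1 : codeW i v ∈ A → ∀ s, good true s) (h2 : codeW i v ∉ A → ∀ s, good false s) :
    ∀ (m j : ℕ) (stk : ℕ → List Bool), m + j = i + 1 →
      stk 0 = cr (v.take (j + 1)).reverse → (∀ s, j < s → stk s = load v s) →
      Ensures (progM i) A noAdversary good (i + 3 + m * (3 * size v + 2)) (6 * j) stk
  | 0, j, stk, hj, h0, hs => by
    have hj' : j = i + 1 := by omega
    subst hj'
    have hi : (progM i)[6 * (i + 1)]? = some (.push 0 false (6 * (i + 1) + 1)) := by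
      rw [progM_get (by omega)]
      unfold instr
      rw [if_neg (by omega), if_pos rfl]
    have e : i + 3 + 0 * (3 * size v + 2) = (i + 2) + 1 := by ring
    rw [e]
    refine ens_push hi ?_
    have := progM_tail (i := i) h1 h2 i (Function.update stk 0 (false :: stk 0)) le_rfl (by
      rw [Function.update_self, h0, List.take_of_length_le (by omega)]
      rfl)
    simpa using this
  | m + 1, j, stk, hj, h0, hs => by
    have hj' : j < i + 1 := by omega
    have hi : (progM i)[6 * j]? = some (.push 0 false (6 * j + 1)) := by
      rw [progM_get (by omega)]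
      unfold instr
      rw [if_pos (by omega)]
      have h1 : (6 * j) % 6 = 0 := by omega
      rw [h1]
      rfl
    have hvj : j + 1 < v.length := by omega
    have hload : load v (j + 1) = v[j + 1] := by
      unfold load
      rw [List.getD_eq_getElem _ _ hvj]
    have hlen : (load v (j + 1)).length ≤ size v := load_length_le v (j + 1)
    have e : i + 3 + (m + 1) * (3 * size v + 2) =
      ((i + 3 + m * (3 * size v + 2)) + 3 * size v + 1) + 1 := by ring
    rw [e]
    refine ens_push hi (Ensures.mono (fun _ _ h => h)
      (t := (i + 3 + m * (3 * size v + 2)) + 3 * (load v (j + 1)).length + 1) (by omega)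
      (progM_inner hj' (load v (j + 1)) (false :: stk 0) _ ?_ ?_ fun stk' g1 g2 => ?_))
    · rw [Function.update_self]
    · rw [Function.update_of_ne (by omega), hs _ (by omega)]
    · refine progM_outer hv h1 h2 m (j + 1) stk' (by omega) ?_ fun s hs' => ?_
      · rw [g1, h0, hload]
        have : v.take (j + 1 + 1) = v.take (j + 1) ++ [v[j + 1]] := by
          rw [List.take_succ_eq_append_getElem hvj]
        rw [this, List.reverse_append, List.reverse_singleton, List.singleton_append, cr_cons]
        intro hc
        have := congrArg List.length hc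
        simp only [List.length_reverse, List.length_take, List.length_nil] at this
        omega
      · rw [g2 s hs', Function.update_of_ne (by omega), hs s (by omega)]

end prog

/-- the matrix is in `P` relative to the oracle -/
theorem matrix_inP (A : Set (List Bool)) (i : ℕ) : InP A (i + 2) fun v => codeW i v ∈ A := by
  refine ⟨progM i, (i : Polynomial ℕ) + 3 + ((i : Polynomial ℕ) + 1) * (3 * Polynomial.X + 2),
    fun v hv => ?_⟩
  refine Ensures.mono (fun _ _ h => h) (t := i + 3 + (i + 1) * (3 * size v + 2)) ?_
    (progM_outer hv (fun h _ => by simpa using h) (fun h _ => by simpa using h) (i + 1) 0 _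
      (by omega) ?_ fun s _ => rfl)
  · simp
  · obtain ⟨a, l, rfl⟩ : ∃ a l, v = a :: l := by
      cases v with
      | nil => simp at hv
      | cons a l => exact ⟨a, l, rfl⟩
    rfl

/-- alternating quantification over the oracle, in NAND form -/
def NT (A : Set (List Bool)) (i : ℕ) : ℕ → List (List Bool) → Prop
  | 0, v => codeW i v ∈ A
  | k + 1, v => ∃ u : List Bool, u.length ≤ (Polynomial.X : Polynomial ℕ).eval (size v) ∧
      ¬ NT A i k (v ++ [u])

theorem NT_inSigma (A : Set (List Bool)) (i : ℕ) : ∀ (k r : ℕ), r + k = i + 2 →
    InSigma A k r (NT A i k)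
  | 0, r, h => by
    obtain rfl : r = i + 2 := by omega
    exact matrix_inP A i
  | k + 1, r, h => ⟨NT A i k, Polynomial.X, NT_inSigma A i k (r + 1) (by omega),
      fun v _ => Iff.rfl⟩

theorem NT_const {A : Set (List Bool)} {i : ℕ} {c : Prop} : ∀ (k : ℕ) (v : List (List Bool)),
    (∀ us : List (List Bool), us.length = k → (codeW i (v ++ us) ∈ A ↔ c)) →
    (NT A i k v ↔ ((Even k ∧ c) ∨ (¬ Even k ∧ ¬ c)))
  | 0, v, h => by
    have := h [] rfl
    rw [List.append_nil] at this
    simp [NT, this]
  | k + 1, v, h => by
    have ih := fun u : List Bool => NT_const (A := A) (i := i) (c := c) k (v ++ [u])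
      (fun us hus => by
        have := h (u :: us) (by simp [hus])
        simpa using this)
    unfold NT
    constructor
    · rintro ⟨u, -, hu⟩
      rw [ih u] at hu
      rw [Nat.even_add_one]
      tauto
    · intro hc
      refine ⟨[], by simp, ?_⟩
      rw [ih []]
      rw [Nat.even_add_one] at hc
      tauto

/-- the oracle built from the set `E` -/
def wd (E : Set (List Bool)) : Set (List Bool) :=
  {s | ∃ (i x y : ℕ) (us : List (List Bool)), us.length = i ∧
    s = codeW i (Nat.bits x :: Nat.bits y :: us) ∧
    ((y = 0 ∧ ¬ Even i) ∨ (x < y ∧ Even i) ∨ (0 < y ∧ y ≤ x ∧ s ∈ E))}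

theorem mem_wd {E : Set (List Bool)} {x y : ℕ} {us : List (List Bool)} :
    codeW us.length (Nat.bits x :: Nat.bits y :: us) ∈ wd E ↔
      ((y = 0 ∧ ¬ Even us.length) ∨ (x < y ∧ Even us.length) ∨
        (0 < y ∧ y ≤ x ∧ codeW us.length (Nat.bits x :: Nat.bits y :: us) ∈ E)) := by
  constructor
  · rintro ⟨i, x', y', us', h1, h2, h3⟩
    obtain ⟨h4, h5⟩ := codeW_inj (by simp) (by simp [h1]) h2
    simp only [List.cons.injEq] at h5
    obtain ⟨h6, h7, h8⟩ := h5
    obtain rfl := bits_inj h6
    obtain rfl := bits_inj h7
    rw [← h4] at h3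
    exact h3
  · intro h
    exact ⟨us.length, x, y, us, rfl, rfl, h⟩

/-- the feasible solutions -/
def CL (A : Set (List Bool)) (i : ℕ) (x y : ℕ) : Prop := ¬ NT A i i [Nat.bits x, Nat.bits y]

theorem CL_zero (E : Set (List Bool)) (i x : ℕ) : CL (wd E) i x 0 := by
  unfold CL
  rw [NT_const (c := ¬ Even i)]
  · tauto
  · intro us hus
    subst hus
    have := mem_wd (E := E) (x := x) (y := 0) (us := us)
    simp only [List.cons_append, List.nil_append]
    rw [this]
    simp

theorem CL_le (E : Set (List Bool)) (i x y : ℕ) (h : CL (wd E) i x y) : y ≤ x := by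
  by_contra hxy
  apply h
  rw [NT_const (c := Even i)]
  · tauto
  · intro us hus
    subst hus
    have := mem_wd (E := E) (x := x) (y := y) (us := us)
    simp only [List.cons_append, List.nil_append]
    rw [this]
    have h1 : y ≠ 0 := by omega
    have h2 : x < y := by omega
    have h3 : ¬ y ≤ x := by omega
    simp [h1, h2, h3]

theorem optL (E : Set (List Bool)) (i : ℕ) : OptProblem (wd E) i (CL (wd E) i) id := by
  refine ⟨CL_zero E i, CL_le E i, ?_, ?_⟩
  · refine ⟨[.halt true], 1, fun y => ?_⟩
    rw [Polynomial.eval_one]
    refine ens_halt rfl ?_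
    exact val_bits y
  · refine ⟨fun v => ¬ NT (wd E) i i v, ?_, fun x y => Iff.rfl⟩
    unfold InPi
    simp only [not_not]
    exact NT_inSigma (wd E) i i 2 (by omega)

end Pool.Agent.Lib.MP_2b5695_lc
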