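import Mathlib

/-!
Oracle machines, adversaries, the relativised polynomial hierarchy, optimization problems and
counterexample computations.
-/

namespace Pool.Agent.Lib.MP_2b5695_lc

/-- Instructions of a deterministic machine that works on finitely many stacks of bits (numbered
by natural numbers). The natural numbers `l`, `y`, `n`, … are the addresses of the next
instruction. -/
inductive Instr
  /-- push the bit `b` on stack `s` and continue at `l` -/
  | push (s : ℕ) (b : Bool) (l : ℕ)
  /-- remove the top bit of stack `s` and continue at `l₀` if it was `0` and at `l₁` if it was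
  `1`; if the stack is empty, continue at `e` -/
  | pop (s : ℕ) (l₀ l₁ e : ℕ)
  /-- ask the oracle whether the word on stack `s` belongs to it -/
  | query (s : ℕ) (y n : ℕ)
  /-- present the number written on stack `s` to the adversary; continue at `y` if the answer is
  that it is optimal, otherwise replace it by the counterexample and continue at `n` -/
  | present (s : ℕ) (y n : ℕ)
  /-- halt with the verdict `b` -/
  | halt (b : Bool)

/-- A program is a finite list of instructions; their addresses are `0, 1, 2, …`. -/
abbrev Prog := List Instr

/-- The number denoted by a word in binary, the least significant bit being the top (first)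
one. -/
def val : List Bool → ℕ
  | [] => 0
  | b :: w => Nat.bit b (val w)

/-- `Ensures P O Adv good t pc stk`: if the machine with program `P` and oracle `O` is started at
instruction `pc` with stack contents `stk`, then, however the adversary answers within the rule
`Adv` (`Adv y none`: it may say that `y` is optimal; `Adv y (some z)`: it may say no and return
`z`), the machine halts after at most `t` steps, and its verdict `b` and the word `w` on stack `0`
satisfy `good b w`. -/
def Ensures (P : Prog) (O : Set (List Bool)) (Adv : ℕ → Option ℕ → Prop)
    (good : Bool → List Bool → Prop) : ℕ → ℕ → (ℕ → List Bool) → Prop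
  | 0, _, _ => False
  | t + 1, pc, stk =>
    match P[pc]? with
    | none => False
    | some (.halt b) => good b (stk 0)
    | some (.push s b l) => Ensures P O Adv good t l (Function.update stk s (b :: stk s))
    | some (.pop s l₀ l₁ e) =>
      match stk s with
      | [] => Ensures P O Adv good t e stk
      | false :: w => Ensures P O Adv good t l₀ (Function.update stk s w)
      | true :: w => Ensures P O Adv good t l₁ (Function.update stk s w)
    | some (.query s y n) =>
      (stk s ∈ O → Ensures P O Adv good t y stk) ∧ (stk s ∉ O → Ensures P O Adv good t n stk)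
    | some (.present s y n) =>
      (Adv (val (stk s)) none → Ensures P O Adv good t y stk) ∧
      ∀ z, Adv (val (stk s)) (some z) →
        Ensures P O Adv good t n (Function.update stk s (Nat.bits z))

/-- In an ordinary computation there is no adversary: `present s y n` does nothing and continues
at `y`. -/
def noAdversary : ℕ → Option ℕ → Prop := fun _ a => a = none

/-- The initial stack contents for the input words `v`: one on each of the first stacks. -/
def load (v : List (List Bool)) : ℕ → List Bool := fun s => v.getD s []

/-- The total length of the input words. -/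
def size (v : List (List Bool)) : ℕ := (v.map List.length).sum

/-- The relation `L` between `r` words is decidable in polynomial time with oracle `A`. -/
def InP (A : Set (List Bool)) (r : ℕ) (L : List (List Bool) → Prop) : Prop :=
  ∃ (P : Prog) (p : Polynomial ℕ), ∀ v : List (List Bool), v.length = r →
    Ensures P A noAdversary (fun b _ => (b = true ↔ L v)) (p.eval (size v)) 0 (load v)

/-- The relation `L` between `r` words belongs to `Σ_i^p` relative to the oracle `A`. For `i = 0`
this is polynomial time, and the relations in `Σ_{i+1}^p` are those of the form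
`∃ u, |u| ≤ p(|v|) ∧ (v, u) ∈ Π_i^p`. -/
def InSigma (A : Set (List Bool)) : ℕ → ℕ → (List (List Bool) → Prop) → Prop
  | 0, r, L => InP A r L
  | i + 1, r, L => ∃ (L' : List (List Bool) → Prop) (p : Polynomial ℕ), InSigma A i (r + 1) L' ∧
      ∀ v : List (List Bool), v.length = r →
        (L v ↔ ∃ u : List Bool, u.length ≤ p.eval (size v) ∧ ¬ L' (v ++ [u]))

/-- The relation `L` between `r` words belongs to `Π_i^p` relative to the oracle `A`. -/
def InPi (A : Set (List Bool)) (i r : ℕ) (L : List (List Bool) → Prop) : Prop :=
  InSigma A i r fun v => ¬ L v

/-- The function `f` on natural numbers (in binary) is computable in polynomial time with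
oracle `A`. -/
def InFP (A : Set (List Bool)) (f : ℕ → ℕ) : Prop :=
  ∃ (P : Prog) (p : Polynomial ℕ), ∀ y : ℕ,
    Ensures P A noAdversary (fun _ w => val w = f y) (p.eval (Nat.bits y).length) 0
      (load [Nat.bits y])

/-- `(C, ρ)` is an optimization problem relative to the oracle `A`, with `C` in `Π_i^p`
relative to `A`. -/
structure OptProblem (A : Set (List Bool)) (i : ℕ) (C : ℕ → ℕ → Prop) (ρ : ℕ → ℕ) : Prop where
  zero : ∀ x, C x 0
  le : ∀ x y, C x y → y ≤ x
  cost : InFP A ρ
  feas : ∃ L, InPi A i 2 L ∧ ∀ x y, C x y ↔ L [Nat.bits x, Nat.bits y]

/-- The relation `B(x, y, z)` of the problem: `y` is feasible, and `z` does not improve on it. -/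
def RelB (C : ℕ → ℕ → Prop) (ρ : ℕ → ℕ) (x y z : ℕ) : Prop := C x y ∧ (ρ y < ρ z → ¬ C x z)

/-- `y` is an optimal solution of `x`. -/
def Optimal (C : ℕ → ℕ → Prop) (ρ : ℕ → ℕ) (x y : ℕ) : Prop :=
  C x y ∧ ∀ z, C x z → ρ z ≤ ρ y

/-- The answers that the adversary may give on input `x` when the number `y` is presented: that
`y` is optimal, if this is so, and otherwise any `z ≤ x` that violates `B(x, y, z)`. -/
def Answers (C : ℕ → ℕ → Prop) (ρ : ℕ → ℕ) (x y : ℕ) : Option ℕ → Prop
  | none => Optimal C ρ x y
  | some z => z ≤ x ∧ ¬ RelB C ρ x y z

/-- `(C, ρ)` is computed by a type 1 counterexample computation with a `Σ_i^p` oracle, relative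
to `A`: a polynomial-time machine with an oracle in `Σ_i^p` (relative to `A`) which, for every
input `x` and against every adversary, outputs an optimal solution of `x`. -/
def Computed (A : Set (List Bool)) (i : ℕ) (C : ℕ → ℕ → Prop) (ρ : ℕ → ℕ) : Prop :=
  ∃ (O : Set (List Bool)) (P : Prog) (p : Polynomial ℕ), InSigma A i 1 (fun v => ∃ w ∈ O, v = [w]) ∧
    ∀ x : ℕ, Ensures P O (Answers C ρ x) (fun _ w => Optimal C ρ x (val w))
      (p.eval (Nat.bits x).length) 0 (load [Nat.bits x])

/-- Like `Ensures`, but moreover the machine presents at most `c` numbers to the adversary. -/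
def EnsuresBounded (P : Prog) (O : Set (List Bool)) (Adv : ℕ → Option ℕ → Prop)
    (good : Bool → List Bool → Prop) : ℕ → ℕ → ℕ → (ℕ → List Bool) → Prop
  | 0, _, _, _ => False
  | t + 1, c, pc, stk =>
    match P[pc]? with
    | none => False
    | some (.halt b) => good b (stk 0)
    | some (.push s b l) =>
      EnsuresBounded P O Adv good t c l (Function.update stk s (b :: stk s))
    | some (.pop s l₀ l₁ e) =>
      match stk s with
      | [] => EnsuresBounded P O Adv good t c e stk
      | false :: w => EnsuresBounded P O Adv good t c l₀ (Function.update stk s w)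
      | true :: w => EnsuresBounded P O Adv good t c l₁ (Function.update stk s w)
    | some (.query s y n) =>
      (stk s ∈ O → EnsuresBounded P O Adv good t c y stk) ∧
      (stk s ∉ O → EnsuresBounded P O Adv good t c n stk)
    | some (.present s y n) =>
      0 < c ∧ (Adv (val (stk s)) none → EnsuresBounded P O Adv good t (c - 1) y stk) ∧
      ∀ z, Adv (val (stk s)) (some z) →
        EnsuresBounded P O Adv good t (c - 1) n (Function.update stk s (Nat.bits z))

/-- `(C, ρ)` is computed by a counterexample computation with a `Σ_i^p` oracle, relative to `A`,
whose number of adversary queries is bounded by a constant `c`. -/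
def ComputedBounded (A : Set (List Bool)) (i : ℕ) (C : ℕ → ℕ → Prop) (ρ : ℕ → ℕ) : Prop :=
  ∃ (O : Set (List Bool)) (P : Prog) (p : Polynomial ℕ) (c : ℕ),
    InSigma A i 1 (fun v => ∃ w ∈ O, v = [w]) ∧
    ∀ x : ℕ, EnsuresBounded P O (Answers C ρ x) (fun _ w => Optimal C ρ x (val w))
      (p.eval (Nat.bits x).length) c 0 (load [Nat.bits x])

end Pool.Agent.Lib.MP_2b5695_lc
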