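import Pool.Agent.Lib.MP_2b5695_lc.RProg
import Pool.Agent.Lib.MP_2b5695_lc.Coin

/-!
The game against a random oracle.
-/

namespace Pool.Agent.Lib.MP_2b5695_lc

open MeasureTheory

/-- the oracle coded by `ω` -/
def ora (ω : List Bool → Bool) : Set (List Bool) := {w | ω w = true}

theorem cell_inj {k k' : ℕ} {u u' : List Bool} (h : cell k u = cell k' u') : k = k' ∧ u = u' := by
  unfold cell at h
  induction k generalizing k' with
  | zero =>
    cases k' with
    | zero => simpa using h
    | succ k' => simp [List.replicate_succ] at h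
  | succ k ih =>
    cases k' with
    | zero => simp [List.replicate_succ] at h
    | succ k' =>
      simp only [List.replicate_succ, List.cons_append, List.cons.injEq, true_and] at h
      obtain ⟨h1, h2⟩ := ih h
      exact ⟨by omega, h2⟩

theorem bits_inj {y y' : ℕ} (h : Nat.bits y = Nat.bits y') : y = y' := by
  rw [← val_bits y, h, val_bits]

/-- the cells of the candidate `y` -/
def grp (m y : ℕ) : List (List Bool) := (List.range m).map fun k => cell k (Nat.bits y)

theorem grp_length (m y : ℕ) : (grp m y).length = m := by simp [grp]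

theorem mem_grp {m y : ℕ} {c : List Bool} : c ∈ grp m y ↔ ∃ k < m, cell k (Nat.bits y) = c := by
  simp [grp]

theorem grp_nodup (m y : ℕ) : (grp m y).Nodup := by
  unfold grp
  exact (List.nodup_map_iff fun k k' h => (cell_inj h).1).2 List.nodup_range

theorem grp_disj {m y y' : ℕ} (h : y ≠ y') {c : List Bool} (hc : c ∈ grp m y) :
    c ∉ grp m y' := by
  rw [mem_grp] at hc ⊢
  rintro ⟨k', hk', h2⟩
  obtain ⟨k, hk, h1⟩ := hc
  rw [← h2] at h1
  exact h (bits_inj (cell_inj h1).2)

/-- the known part of the oracle: the candidates up to `f` are known, the others below `M` are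
unknown, except for those in `K`, which are known and infeasible -/
structure Inv (m M : ℕ) (d : Finset (List Bool)) (v : List Bool → Bool) (f : ℕ)
    (K : Finset ℕ) : Prop where
  low : ∀ y, 1 ≤ y → y ≤ f → ∀ c ∈ grp m y, c ∈ d
  fresh : ∀ y, f < y → y < M → y ∉ K → ∀ c ∈ grp m y, c ∉ d
  dead : ∀ y ∈ K, f < y → y < M → (∀ c ∈ grp m y, c ∈ d) ∧ ∃ c ∈ grp m y, v c = false

/-- reveal an unknown candidate -/
theorem Inv.reveal {m M : ℕ} {d : Finset (List Bool)} {v : List Bool → Bool} {f : ℕ}
    {K : Finset ℕ} (h : Inv m M d v f K) {y : ℕ} (hy : f < y) (hM : y < M) (hK : y ∉ K)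
    {v' : List Bool → Bool} (hv : ∀ i, i ∉ grp m y → v' i = v i)
    (hf : ∃ c ∈ grp m y, v' c = false) :
    Inv m M (d ∪ (grp m y).toFinset) v' f (insert y K) := by
  refine ⟨fun y' h1 h2 c hc => Finset.mem_union_left _ (h.low y' h1 h2 c hc), ?_, ?_⟩
  · intro y' h1 h2 h3 c hc hmem
    rw [Finset.mem_insert, not_or] at h3
    rcases Finset.mem_union.1 hmem with hmem | hmem
    · exact h.fresh y' h1 h2 h3.2 c hc hmem
    · exact grp_disj h3.1 hc (List.mem_toFinset.1 hmem)
  · intro y' h0 h1 h2
    by_cases hyy : y' = y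
    · subst hyy
      exact ⟨fun c hc => Finset.mem_union_right _ (List.mem_toFinset.2 hc), hf⟩
    · obtain ⟨h3, c, hc, h4⟩ := h.dead y' ((Finset.mem_insert.1 h0).resolve_left hyy) h1 h2
      exact ⟨fun c hc => Finset.mem_union_left _ (h3 c hc), c, hc, by
        rw [hv c (grp_disj hyy hc), h4]⟩

/-- advance over the next candidate -/
theorem Inv.next {m M : ℕ} {d : Finset (List Bool)} {v : List Bool → Bool} {f : ℕ}
    {K : Finset ℕ} (h : Inv m M d v f K)
    {v' : List Bool → Bool} (hv : ∀ i, i ∉ grp m (f + 1) → v' i = v i) :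
    Inv m M (d ∪ (grp m (f + 1)).toFinset) v' (f + 1) K := by
  refine ⟨fun y' h1 h2 c hc => ?_, ?_, ?_⟩
  · rcases Nat.lt_or_ge f y' with h3 | h3
    · have : y' = f + 1 := by omega
      subst this
      exact Finset.mem_union_right _ (List.mem_toFinset.2 hc)
    · exact Finset.mem_union_left _ (h.low y' h1 h3 c hc)
  · intro y' h1 h2 h3 c hc hmem
    rcases Finset.mem_union.1 hmem with hmem | hmem
    · exact h.fresh y' (by omega) h2 h3 c hc hmem
    · exact grp_disj (by omega) hc (List.mem_toFinset.1 hmem)
  · intro y' h0 h1 h2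
    obtain ⟨h3, c, hc, h4⟩ := h.dead y' h0 (by omega) h2
    exact ⟨fun c hc => Finset.mem_union_left _ (h3 c hc), c, hc, by
      rw [hv c (grp_disj (by omega) hc), h4]⟩

theorem Inv.skip {m M : ℕ} {d : Finset (List Bool)} {v : List Bool → Bool} {f : ℕ}
    {K : Finset ℕ} (h : Inv m M d v f K) (hM : f + 1 < M) (hK : f + 1 ∈ K) :
    Inv m M d v (f + 1) K := by
  refine ⟨fun y' h1 h2 c hc => ?_, fun y' h1 h2 h3 => h.fresh y' (by omega) h2 h3,
    fun y' h0 h1 h2 => h.dead y' h0 (by omega) h2⟩
  rcases Nat.lt_or_ge f y' with h3 | h3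
  · have : y' = f + 1 := by omega
    subst this
    exact (h.dead _ hK (by omega) hM).1 c hc
  · exact h.low y' h1 h3 c hc

/-- reveal a word that is not a cell of an unknown candidate -/
theorem Inv.other {m M : ℕ} {d : Finset (List Bool)} {v : List Bool → Bool} {f : ℕ}
    {K : Finset ℕ} (h : Inv m M d v f K) {w : List Bool} (hd : w ∉ d)
    (hw : ∀ y, f < y → y < M → y ∉ K → w ∉ grp m y)
    {v' : List Bool → Bool} (hv : ∀ i, i ∉ [w] → v' i = v i) :
    Inv m M (d ∪ [w].toFinset) v' f K := by
  refine ⟨fun y' h1 h2 c hc => Finset.mem_union_left _ (h.low y' h1 h2 c hc), ?_, ?_⟩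
  · intro y' h1 h2 h3 c hc hmem
    rcases Finset.mem_union.1 hmem with hmem | hmem
    · exact h.fresh y' h1 h2 h3 c hc hmem
    · rw [List.mem_toFinset, List.mem_singleton] at hmem
      exact hw y' h1 h2 h3 (hmem ▸ hc)
  · intro y' h0 h1 h2
    obtain ⟨h3, c, hc, h4⟩ := h.dead y' h0 h1 h2
    refine ⟨fun c hc => Finset.mem_union_left _ (h3 c hc), c, hc, ?_⟩
    rw [hv c, h4]
    rw [List.mem_singleton]
    rintro rfl
    exact hd (h3 c hc)

/-- a computation with the random oracle -/
theorem qrun {Q : Prog} {S : Set (List Bool → Bool)} {β : ℝ} (hβ : 0 ≤ β) {m M f : ℕ} :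
    ∀ (t pc : ℕ) (stk : ℕ → List Bool) (d : Finset (List Bool)) (v : List Bool → Bool)
      (K : Finset ℕ), Inv m M d v f K →
      (∀ (d' : Finset (List Bool)) (v' : List Bool → Bool) (K' : Finset ℕ), Inv m M d' v' f K' →
        K'.card ≤ K.card + t → d ⊆ d' → (∀ i ∈ d, v' i = v i) →
        (∀ ω ∈ Zc d' v', out Q (ora ω) t pc stk = out Q (ora v') t pc stk) →
        pr d' v' S ≤ β) →
      pr d v S ≤ β + t * (1 / 2) ^ m
  | 0, pc, stk, d, v, K, hI, h => by
    have := h d v K hI le_rfl (Finset.Subset.refl _) (fun _ _ => rfl) (fun _ _ => rfl)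
    simpa using this
  | t + 1, pc, stk, d, v, K, hI, h => by
    classical
    have ih := fun pc stk d v K => qrun (Q := Q) (S := S) hβ (m := m) (M := M) (f := f)
      t pc stk d v K
    have hp : (0 : ℝ) ≤ (1 / 2) ^ m := by positivity
    have hp1 : (1 / 2 : ℝ) ^ m ≤ 1 := pow_le_one₀ (by norm_num) (by norm_num)
    have hle : ∀ a : ℝ, a ≤ β + t * (1 / 2) ^ m → a ≤ β + ((t + 1 : ℕ) : ℝ) * (1 / 2) ^ m := by
      intro a ha
      push_cast
      nlinarith
    -- a step that does not depend on the oracle
    have simple : ∀ (pc' : ℕ) (stk' : ℕ → List Bool),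
        (∀ A : Set (List Bool), out Q A (t + 1) pc stk = out Q A t pc' stk') →
        pr d v S ≤ β + ((t + 1 : ℕ) : ℝ) * (1 / 2) ^ m := by
      intro pc' stk' hst
      refine hle _ (ih pc' stk' d v K hI fun d' v' K' h1 h2 h3 h4 h5 => ?_)
      refine h d' v' K' h1 (by omega) h3 h4 fun ω hω => ?_
      rw [hst, hst]
      exact h5 ω hω
    cases hP : Q[pc]? with
    | none =>
      refine hle _ ((h d v K hI (by omega) (Finset.Subset.refl _) (fun _ _ => rfl)
        (fun ω _ => by simp only [out, hP])).trans ?_)
      nlinarith [(Nat.cast_nonneg t : (0 : ℝ) ≤ t)]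
    | some ins =>
      cases ins with
      | halt b =>
        refine hle _ ((h d v K hI (by omega) (Finset.Subset.refl _) (fun _ _ => rfl)
          (fun ω _ => by simp only [out, hP])).trans ?_)
        nlinarith [(Nat.cast_nonneg t : (0 : ℝ) ≤ t)]
      | push s b l =>
        exact simple l (Function.update stk s (b :: stk s)) fun A => by simp only [out, hP]
      | pop s l₀ l₁ e =>
        rcases hs : stk s with _ | ⟨b, w⟩
        · exact simple e stk fun A => by simp only [out, hP, hs]
        · cases b
          · exact simple l₀ (Function.update stk s w) fun A => by simp only [out, hP, hs]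
          · exact simple l₁ (Function.update stk s w) fun A => by simp only [out, hP, hs]
      | present s y n =>
        exact simple y stk fun A => by simp only [out, hP]
      | query s y n =>
        -- once the queried word is known
        have known : ∀ (d₁ : Finset (List Bool)) (v₁ : List Bool → Bool) (K₁ : Finset ℕ),
            Inv m M d₁ v₁ f K₁ → K₁.card ≤ K.card + 1 → d ⊆ d₁ → (∀ i ∈ d, v₁ i = v i) →
            stk s ∈ d₁ → pr d₁ v₁ S ≤ β + t * (1 / 2) ^ m := by
          intro d₁ v₁ K₁ hI₁ hK₁ hd₁ hv₁ hs₁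
          refine ih (if v₁ (stk s) = true then y else n) stk d₁ v₁ K₁ hI₁
            fun d' v' K' h1 h2 h3 h4 h5 => ?_
          refine h d' v' K' h1 (by omega) (hd₁.trans h3)
            (fun i hi => by rw [h4 i (hd₁ hi), hv₁ i hi]) fun ω hω => ?_
          have e1 : ω (stk s) = v₁ (stk s) := by
            rw [hω _ (h3 hs₁), h4 _ hs₁]
          have e2 : v' (stk s) = v₁ (stk s) := h4 _ hs₁
          have e3 : out Q (ora ω) (t + 1) pc stk =
              out Q (ora ω) t (if v₁ (stk s) = true then y else n) stk := by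
            simp only [out, hP]
            simp only [ora, Set.mem_ofPred_eq, e1]
          have e4 : out Q (ora v') (t + 1) pc stk =
              out Q (ora v') t (if v₁ (stk s) = true then y else n) stk := by
            simp only [out, hP]
            simp only [ora, Set.mem_ofPred_eq, e2]
          rw [e3, e4]
          exact h5 ω hω
        by_cases hsd : stk s ∈ d
        · exact hle _ (known d v K hI (by omega) (Finset.Subset.refl _) (fun _ _ => rfl) hsd)
        · by_cases hex : ∃ z, f < z ∧ z < M ∧ z ∉ K ∧ stk s ∈ grp m z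
          · obtain ⟨z, h1, h2, h3, h4⟩ := hex
            have h5 := pr_group (S := S) (b₁ := 1) (b₂ := β + t * (1 / 2) ^ m) (grp m z) d v
              (grp_nodup m z) (hI.fresh z h1 h2 h3)
              (fun v' _ _ => pr_le_one _ _ _)
              (fun v' hv' hf => known _ v' (insert z K) (hI.reveal h1 h2 h3 hv' hf)
                (Finset.card_insert_le _ _) Finset.subset_union_left
                (fun i hi => hv' i fun hh => hI.fresh z h1 h2 h3 i hh hi)
                (Finset.mem_union_right _ (List.mem_toFinset.2 h4)))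
            rw [grp_length] at h5
            have h6 : (0 : ℝ) ≤ β + t * (1 / 2) ^ m := by positivity
            push_cast
            nlinarith
          · push Not at hex
            refine hle _ (pr_reveal [stk s] d v (List.nodup_singleton _)
              (fun c hc => by rw [List.mem_singleton] at hc; rw [hc]; exact hsd)
              fun v' hv' => ?_)
            exact known _ v' K (hI.other hsd hex hv') (by omega) Finset.subset_union_left
              (fun i hi => hv' i fun hh => hsd (by rw [List.mem_singleton] at hh; rw [← hh]; exact hi))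
              (Finset.mem_union_right _ (by simp))

/-- the adversary looks for the next feasible solution -/
theorem scan {S : Set (List Bool → Bool)} {β : ℝ} (hβ : 0 ≤ β) {m M f₀ : ℕ} {K : Finset ℕ} :
    ∀ (j f : ℕ) (d : Finset (List Bool)) (v : List Bool → Bool), f₀ ≤ f → f + j < M →
      Inv m M d v f K →
      (∀ (z : ℕ) (d' : Finset (List Bool)) (v' : List Bool → Bool), f₀ < z → z ≤ f + j →
        Inv m M d' v' z K → (∀ c ∈ grp m z, v' c = true) → (d ⊆ d') → (∀ i ∈ d, v' i = v i) →
        pr d' v' S ≤ β) →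
      pr d v S ≤ β + (1 - (1 / 2) ^ m) ^ (Finset.Ioc f (f + j) \ K).card
  | 0, f, d, v, _, _, _, _ => by
    have := pr_le_one d v S
    simp
    linarith
  | j + 1, f, d, v, hf, hM, hI, h => by
    classical
    have hp : (0 : ℝ) ≤ (1 / 2) ^ m := by positivity
    have hp1 : (1 / 2 : ℝ) ^ m ≤ 1 := pow_le_one₀ (by norm_num) (by norm_num)
    have hioc : Finset.Ioc f (f + (j + 1)) = insert (f + 1) (Finset.Ioc (f + 1) (f + 1 + j)) := by
      ext i; simp only [Finset.mem_Ioc, Finset.mem_insert]; omega
    by_cases hK : f + 1 ∈ K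
    · have e : Finset.Ioc f (f + (j + 1)) \ K = Finset.Ioc (f + 1) (f + 1 + j) \ K := by
        rw [hioc, Finset.insert_sdiff_of_mem _ hK]
      rw [e]
      refine scan (f₀ := f₀) hβ j (f + 1) d v (by omega) (by omega) (hI.skip (by omega) hK)
        fun z d' v' h1 h2 h3 h4 h5 h6 => ?_
      exact h z d' v' h1 (by omega) h3 h4 h5 h6
    · have e : (Finset.Ioc f (f + (j + 1)) \ K).card =
          (Finset.Ioc (f + 1) (f + 1 + j) \ K).card + 1 := by
        rw [hioc, Finset.insert_sdiff_of_notMem _ hK, Finset.card_insert_of_notMem]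
        simp
      rw [e, pow_succ]
      have hag : ∀ v' : List Bool → Bool, (∀ i, i ∉ grp m (f + 1) → v' i = v i) →
          ∀ i ∈ d, v' i = v i := fun v' hv' i hi => hv' i fun hh =>
        hI.fresh (f + 1) (by omega) (by omega) hK i hh hi
      have h5 := pr_group (S := S) (b₁ := β)
        (b₂ := β + (1 - (1 / 2) ^ m) ^ (Finset.Ioc (f + 1) (f + 1 + j) \ K).card)
        (grp m (f + 1)) d v (grp_nodup m _) (hI.fresh (f + 1) (by omega) (by omega) hK)
        (fun v' hv' hall => h (f + 1) _ v' (by omega) (by omega) (hI.next hv') hall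
          Finset.subset_union_left (hag v' hv'))
        (fun v' hv' _ => scan (f₀ := f₀) hβ j (f + 1) _ v' (by omega) (by omega)
          (hI.next hv') fun z d' v'' h1 h2 h3 h4 h5 h6 => h z d' v'' h1 (by omega)
            h3 h4 (Finset.subset_union_left.trans h5) fun i hi => by
              rw [h6 i (Finset.mem_union_left _ hi), hag v' hv' i hi])
      rw [grp_length] at h5
      refine h5.trans (le_of_eq ?_)
      ring

end Pool.Agent.Lib.MP_2b5695_lc
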