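import Pool.Agent.Lib.MP_2b5695_lc.GameA

/-!
A simple optimization problem in `P`, relative to every oracle.
-/

namespace Pool.Agent.Lib.MP_2b5695_lc

/-- number of leading `false` symbols -/
def tz (x : List Bool) : ℕ := (x.takeWhile fun b => !b).length

/-- the `k`-th cell of the word `u` -/
def cell (k : ℕ) (u : List Bool) : List Bool := List.replicate k true ++ false :: u

/-- the relation decided by the program -/
def LR (A : Set (List Bool)) (v : List (List Bool)) : Prop :=
  v.getD 1 [] = [] ∨ ((v.getD 1 []).length < (v.getD 0 []).length ∧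
    ∀ k < tz (v.getD 0 []), cell k (v.getD 1 []) ∈ A)

/-- the feasible solutions -/
def CR (A : Set (List Bool)) (x y : ℕ) : Prop :=
  y = 0 ∨ ((Nat.bits y).length < (Nat.bits x).length ∧
    ∀ k < tz (Nat.bits x), cell k (Nat.bits y) ∈ A)

/-- a program for `LR` -/
def progX (b : Bool) : Prog :=
  [.pop 1 1 2 19,
   .push 1 false 3,
   .push 1 true 3,
   .pop 0 4 5 20,
   .push 2 false 6,
   .push 2 true 6,
   .pop 1 7 8 9,
   .push 3 false 3,
   .push 3 true 3,
   .pop 3 10 11 12,
   .push 1 false 9,
   .push 1 true 9,
   .pop 2 13 14 15,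
   .push 0 false 12,
   .push 0 true 12,
   .push 1 false 16,
   .pop 0 17 19 19,
   .query 1 18 20,
   .push 1 true 16,
   .halt b,
   .halt (!b)]

section

variable {A : Set (List Bool)} {b : Bool} {good : Bool → List Bool → Prop}

theorem tz_false (X : List Bool) : tz (false :: X) = tz X + 1 := by simp [tz]

theorem tz_true (X : List Bool) : tz (true :: X) = 0 := by simp [tz]

theorem loop16 (y : List Bool) : ∀ (X : List Bool) (k : ℕ) (stk : ℕ → List Bool),
    stk 0 = X → stk 1 = cell k y →
    ((∀ k', k ≤ k' → k' < k + tz X → cell k' y ∈ A) → ∀ s, good b s) →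
    ((¬ ∀ k', k ≤ k' → k' < k + tz X → cell k' y ∈ A) → ∀ s, good (!b) s) →
    Ensures (progX b) A noAdversary good (3 * X.length + 3) 16 stk
  | [], k, stk, h0, h1, hg1, hg2 => by
    refine ens_pop_nil rfl h0 (ens_halt rfl (hg1 ?_ _))
    intro k' h1 h2
    simp [tz] at h2
    omega
  | true :: X, k, stk, h0, h1, hg1, hg2 => by
    refine ens_pop_cons rfl h0 (ens_halt rfl (hg1 ?_ _))
    intro k' h1 h2
    rw [tz_true] at h2
    omega
  | false :: X, k, stk, h0, h1, hg1, hg2 => by
    have e : 3 * (false :: X).length + 3 = (3 * X.length + 3) + 1 + 1 + 1 := by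
      simp only [List.length_cons]; ring
    rw [e]
    rw [tz_false] at hg1 hg2
    refine ens_pop_cons rfl h0 (ens_query rfl ?_ ?_)
    · intro hq
      have h1' : Function.update stk 0 X 1 = cell k y := by
        rw [Function.update_of_ne (by norm_num), h1]
      rw [h1'] at hq
      refine ens_push rfl (loop16 y X (k + 1) _ ?_ ?_ ?_ ?_)
      · simp [Function.update_of_ne]
      · rw [Function.update_self, h1']
        simp [cell, List.replicate_succ]
      · intro h
        refine hg1 fun k' a1 a2 => ?_
        rcases Nat.eq_or_lt_of_le a1 with rfl | a1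
        · exact hq
        · exact h k' a1 (by omega)
      · intro h
        refine hg2 fun h' => h fun k' a1 a2 => h' k' (by omega) (by omega)
    · intro hq
      have h1' : Function.update stk 0 X 1 = cell k y := by
        rw [Function.update_of_ne (by norm_num), h1]
      rw [h1'] at hq
      refine ens_halt rfl (hg2 ?_ _)
      intro h
      exact hq (h k le_rfl (by omega))

theorem loop12 (t : ℕ) (Y : List Bool) : ∀ (X' W : List Bool) (stk : ℕ → List Bool),
    stk 2 = X' → stk 0 = W → stk 1 = Y →
    (∀ stk' : ℕ → List Bool, stk' 0 = X'.reverse ++ W → stk' 1 = Y →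
      Ensures (progX b) A noAdversary good t 15 stk') →
    Ensures (progX b) A noAdversary good (t + 2 * X'.length + 1) 12 stk
  | [], W, stk, h2, h0, h1, h => ens_pop_nil rfl h2 (h stk (by simpa using h0) h1)
  | a :: X', W, stk, h2, h0, h1, h => by
    have e : t + 2 * (a :: X').length + 1 = (t + 2 * X'.length + 1) + 1 + 1 := by
      simp only [List.length_cons]; ring
    rw [e]
    refine ens_pop_cons rfl h2 ?_
    have hh : ∀ stk' : ℕ → List Bool, stk' 0 = X'.reverse ++ (a :: W) → stk' 1 = Y →
        Ensures (progX b) A noAdversary good t 15 stk' := by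
      intro stk' b0 b1
      exact h stk' (by rw [b0]; simp) b1
    cases a
    · refine ens_push rfl (loop12 t Y X' (false :: W) _ ?_ ?_ ?_ hh)
      · simp [Function.update_of_ne]
      · simp [Function.update_of_ne, h0]
      · simp [Function.update_of_ne, h1]
    · refine ens_push rfl (loop12 t Y X' (true :: W) _ ?_ ?_ ?_ hh)
      · simp [Function.update_of_ne]
      · simp [Function.update_of_ne, h0]
      · simp [Function.update_of_ne, h1]

theorem loop9 (t : ℕ) (X X' : List Bool) : ∀ (Y' W : List Bool) (stk : ℕ → List Bool),
    stk 3 = Y' → stk 1 = W → stk 0 = X → stk 2 = X' →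
    (∀ stk' : ℕ → List Bool, stk' 1 = Y'.reverse ++ W → stk' 0 = X → stk' 2 = X' →
      Ensures (progX b) A noAdversary good t 12 stk') →
    Ensures (progX b) A noAdversary good (t + 2 * Y'.length + 1) 9 stk
  | [], W, stk, h3, h1, h0, h2, h => ens_pop_nil rfl h3 (h stk (by simpa using h1) h0 h2)
  | a :: Y', W, stk, h3, h1, h0, h2, h => by
    have e : t + 2 * (a :: Y').length + 1 = (t + 2 * Y'.length + 1) + 1 + 1 := by
      simp only [List.length_cons]; ring
    rw [e]
    refine ens_pop_cons rfl h3 ?_
    have hh : ∀ stk' : ℕ → List Bool, stk' 1 = Y'.reverse ++ (a :: W) → stk' 0 = X →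
        stk' 2 = X' → Ensures (progX b) A noAdversary good t 12 stk' := by
      intro stk' b1 b0 b2
      exact h stk' (by rw [b1]; simp) b0 b2
    cases a
    · refine ens_push rfl (loop9 t X X' Y' (false :: W) _ ?_ ?_ ?_ ?_ hh)
      · simp [Function.update_of_ne]
      · simp [Function.update_of_ne, h1]
      · simp [Function.update_of_ne, h0]
      · simp [Function.update_of_ne, h2]
    · refine ens_push rfl (loop9 t X X' Y' (true :: W) _ ?_ ?_ ?_ ?_ hh)
      · simp [Function.update_of_ne]
      · simp [Function.update_of_ne, h1]
      · simp [Function.update_of_ne, h0]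
      · simp [Function.update_of_ne, h2]

theorem loop3 (t : ℕ) : ∀ (Y X X' Y' : List Bool) (stk : ℕ → List Bool),
    stk 0 = X → stk 1 = Y → stk 2 = X' → stk 3 = Y' →
    (X.length ≤ Y.length → ∀ s, good (!b) s) →
    (∀ stk' : ℕ → List Bool, Y.length < X.length → (stk' 2).length ≤ Y.length + 1 + X'.length →
      (stk' 2).reverse ++ stk' 0 = X'.reverse ++ X →
      stk' 1 = [] → stk' 3 = Y.reverse ++ Y' →
      Ensures (progX b) A noAdversary good t 9 stk') →
    Ensures (progX b) A noAdversary good (t + 4 * Y.length + 3) 3 stk
  | Y, [], X', Y', stk, h0, h1, h2, h3, hr, h => by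
    refine ens_pop_nil rfl h0 ?_
    refine Ensures.mono (fun _ _ h => h) (t := 1) (by omega) (ens_halt rfl (hr (by simp) _))
  | [], a :: X, X', Y', stk, h0, h1, h2, h3, hr, h => by
    refine ens_pop_cons rfl h0 ?_
    cases a
    · refine ens_push rfl (ens_pop_nil rfl ?_ (h _ (by simp) ?_ ?_ ?_ ?_))
      · simp [Function.update_of_ne, h1]
      · simp [Function.update_of_ne, h2]
      · simp [Function.update_of_ne, h2]
      · simp [Function.update_of_ne, h1]
      · simp [Function.update_of_ne, h3]
    · refine ens_push rfl (ens_pop_nil rfl ?_ (h _ (by simp) ?_ ?_ ?_ ?_))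
      · simp [Function.update_of_ne, h1]
      · simp [Function.update_of_ne, h2]
      · simp [Function.update_of_ne, h2]
      · simp [Function.update_of_ne, h1]
      · simp [Function.update_of_ne, h3]
  | c :: Y, a :: X, X', Y', stk, h0, h1, h2, h3, hr, h => by
    have e : t + 4 * (c :: Y).length + 3 = (t + 4 * Y.length + 3) + 1 + 1 + 1 + 1 := by
      simp only [List.length_cons]; ring
    rw [e]
    have hr' : X.length ≤ Y.length → ∀ s, good (!b) s := fun hh => hr (by simp; omega)
    have hh : ∀ stk' : ℕ → List Bool, Y.length < X.length →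
        (stk' 2).length ≤ Y.length + 1 + (a :: X').length →
        (stk' 2).reverse ++ stk' 0 = (a :: X').reverse ++ X →
        stk' 1 = [] → stk' 3 = Y.reverse ++ (c :: Y') →
        Ensures (progX b) A noAdversary good t 9 stk' := by
      intro stk' b1 b2 b3 b4 b5
      refine h stk' (by simp; omega) ?_ ?_ b4 ?_
      · simp only [List.length_cons] at b2 ⊢; omega
      · rw [b3]; simp
      · rw [b5]; simp
    refine ens_pop_cons rfl h0 ?_
    cases a
    · refine ens_push rfl (ens_pop_cons (b := c) (w := Y) rfl ?_ ?_)
      · simp [Function.update_of_ne, h1]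
      cases c
      · refine ens_push rfl (loop3 t Y X (false :: X') (false :: Y') _ ?_ ?_ ?_ ?_ hr' hh)
        · simp [Function.update_of_ne]
        · simp [Function.update_of_ne]
        · simp [Function.update_of_ne, h2]
        · simp [Function.update_of_ne, h3]
      · refine ens_push rfl (loop3 t Y X (false :: X') (true :: Y') _ ?_ ?_ ?_ ?_ hr' hh)
        · simp [Function.update_of_ne]
        · simp [Function.update_of_ne]
        · simp [Function.update_of_ne, h2]
        · simp [Function.update_of_ne, h3]
    · refine ens_push rfl (ens_pop_cons (b := c) (w := Y) rfl ?_ ?_)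
      · simp [Function.update_of_ne, h1]
      cases c
      · refine ens_push rfl (loop3 t Y X (true :: X') (false :: Y') _ ?_ ?_ ?_ ?_ hr' hh)
        · simp [Function.update_of_ne]
        · simp [Function.update_of_ne]
        · simp [Function.update_of_ne, h2]
        · simp [Function.update_of_ne, h3]
      · refine ens_push rfl (loop3 t Y X (true :: X') (true :: Y') _ ?_ ?_ ?_ ?_ hr' hh)
        · simp [Function.update_of_ne]
        · simp [Function.update_of_ne]
        · simp [Function.update_of_ne, h2]
        · simp [Function.update_of_ne, h3]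

theorem progX_run (v : List (List Bool)) (hv : v.length = 2)
    (hg1 : LR A v → ∀ s, good b s) (hg2 : ¬ LR A v → ∀ s, good (!b) s) :
    Ensures (progX b) A noAdversary good (20 * size v + 20) 0 (load v) := by
  obtain ⟨x, y, rfl⟩ := List.length_eq_two.1 hv
  have hs : size [x, y] = x.length + y.length := by simp [size]
  have l0 : load [x, y] 0 = x := rfl
  have l1 : load [x, y] 1 = y := rfl
  have l2 : load [x, y] 2 = [] := rfl
  have l3 : load [x, y] 3 = [] := rfl
  unfold LR at hg1 hg2
  simp only [List.getD_cons_zero, List.getD_cons_succ] at hg1 hg2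
  rcases y with _ | ⟨c, y⟩
  · refine ens_pop_nil rfl l1 ?_
    exact Ensures.mono (fun _ _ h => h) (t := 1) (by omega) (ens_halt rfl (hg1 (Or.inl rfl) _))
  · set Y := c :: y with hY
    have hYne : Y ≠ [] := by simp [hY]
    -- after restoring the first symbol
    have main : ∀ stk : ℕ → List Bool, stk 0 = x → stk 1 = Y → stk 2 = [] → stk 3 = [] →
        Ensures (progX b) A noAdversary good
          (((((3 * x.length + 3) + 1) + 2 * (Y.length + 1) + 1) + 2 * Y.length + 1) +
            4 * Y.length + 3) 3 stk := by
      intro stk h0 h1 h2 h3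
      refine loop3 _ Y x [] [] stk h0 h1 h2 h3 (fun hle => hg2 ?_) ?_
      · rintro (h | ⟨h, -⟩)
        · exact hYne h
        · omega
      · intro stk1 hlt b2len b2 b1 b3
        simp only [List.length_nil, add_zero] at b2len
        simp only [List.reverse_nil, List.nil_append] at b2
        rw [List.append_nil] at b3
        have hl9 := loop9 (A := A) (b := b) (good := good)
          (((3 * x.length + 3) + 1) + 2 * (Y.length + 1) + 1) (stk1 0) (stk1 2) Y.reverse []
          stk1 b3 b1 rfl rfl ?_
        · rw [List.length_reverse] at hl9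
          exact hl9
        · intro stk2 c1 c0 c2
          rw [List.reverse_reverse, List.append_nil] at c1
          refine Ensures.mono (fun _ _ h => h) (t := ((3 * x.length + 3) + 1) +
            2 * (stk1 2).length + 1) (by omega) ?_
          refine loop12 _ Y (stk1 2) (stk1 0) stk2 c2 c0 c1 ?_
          intro stk3 d0 d1
          refine ens_push rfl (loop16 Y x 0 _ ?_ ?_ ?_ ?_)
          · rw [Function.update_of_ne (by norm_num), d0, b2]
          · rw [Function.update_self, d1]; simp [cell]
          · intro h
            refine hg1 (Or.inr ⟨hlt, fun k hk => h k (Nat.zero_le _) (by omega)⟩)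
          · intro h
            refine hg2 ?_
            rintro (h' | ⟨-, h'⟩)
            · exact hYne h'
            · exact h fun k' _ hk' => h' k' (by omega)
    refine ens_pop_cons (b := c) (w := y) rfl l1 ?_
    have hbound : (((((3 * x.length + 3) + 1) + 2 * (Y.length + 1) + 1) + 2 * Y.length + 1) +
        4 * Y.length + 3) + 1 ≤ 20 * size [x, Y] + 19 := by
      rw [hs]; omega
    cases c
    · refine Ensures.mono (fun _ _ h => h) hbound (ens_push rfl (main _ ?_ ?_ ?_ ?_))
      · simp [Function.update_of_ne, l0]
      · simp [hY]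
      · simp [Function.update_of_ne, l2]
      · simp [Function.update_of_ne, l3]
    · refine Ensures.mono (fun _ _ h => h) hbound (ens_push rfl (main _ ?_ ?_ ?_ ?_))
      · simp [Function.update_of_ne, l0]
      · simp [hY]
      · simp [Function.update_of_ne, l2]
      · simp [Function.update_of_ne, l3]

end

theorem le_of_bits_lt {x y : ℕ} (h : (Nat.bits y).length < (Nat.bits x).length) : y < x := by
  rw [Nat.size_eq_bits_len, Nat.size_eq_bits_len] at h
  by_contra hcon
  have := Nat.size_le_size (not_lt.1 hcon)
  omega

/-- relative to every oracle, this is an optimization problem in `P` -/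
theorem optR (A : Set (List Bool)) : OptProblem A 0 (CR A) id := by
  refine ⟨fun x => Or.inl rfl, ?_, ?_, ?_⟩
  · rintro x y (rfl | ⟨h, -⟩)
    · exact Nat.zero_le _
    · exact (le_of_bits_lt h).le
  · refine ⟨[.halt true], 1, fun y => ?_⟩
    rw [Polynomial.eval_one]
    refine ens_halt rfl ?_
    exact val_bits y
  · refine ⟨LR A, ⟨progX false, 20 * Polynomial.X + 20, fun v hv => ?_⟩, fun x y => ?_⟩
    · have h := progX_run (A := A) (b := false) (good := fun b _ => (b = true ↔ ¬ LR A v)) v hv
        (fun h s => by simp [h]) (fun h s => by simp [h])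
      simpa using h
    · unfold CR LR
      simp only [List.getD_cons_zero, List.getD_cons_succ]
      have : Nat.bits y = [] ↔ y = 0 := by
        constructor
        · intro h; rw [← val_bits y, h]; rfl
        · rintro rfl; simp
      rw [this]

end Pool.Agent.Lib.MP_2b5695_lc
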