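import Pool.Agent.Lib.MP_2b5695_lc.RGame

/-!
Relative to a random oracle, counterexample computations with an oracle in `P` do not solve all
optimization problems in `P`.
-/

namespace Pool.Agent.Lib.MP_2b5695_lc

open MeasureTheory

/-- the input on which the students fail -/
def inst (m : ℕ) : ℕ := 2 ^ (2 * m) + 2 ^ m

theorem bits_two_pow_mul_add (m : ℕ) (a : ℕ) (ha : a ≠ 0) :
    Nat.bits (2 ^ m * a) = List.replicate m false ++ Nat.bits a := by
  induction m with
  | zero => simp
  | succ m ih =>
    have h0 : 2 ^ m * a ≠ 0 := Nat.mul_ne_zero (by positivity) ha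
    have e : 2 ^ (m + 1) * a = Nat.bit false (2 ^ m * a) := by
      rw [Nat.bit_val]; simp; ring
    rw [e, Nat.bits_append_bit _ _ (fun h => absurd h h0), ih, List.replicate_succ]
    rfl

theorem inst_bits (m : ℕ) (hm : 1 ≤ m) :
    (Nat.bits (inst m)).length = 2 * m + 1 ∧ tz (Nat.bits (inst m)) = m := by
  have e : inst m = 2 ^ m * (2 ^ m + 1) := by unfold inst; rw [two_mul, pow_add]; ring
  obtain ⟨n, rfl⟩ : ∃ n, m = n + 1 := ⟨m - 1, by omega⟩
  have e2 : 2 ^ (n + 1) + 1 = Nat.bit true (2 ^ n) := by
    rw [Nat.bit_val]; simp; ring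
  have h0 : (2 : ℕ) ^ n ≠ 0 := by positivity
  rw [e, bits_two_pow_mul_add _ _ (by omega), e2,
    Nat.bits_append_bit _ _ (fun h => absurd h h0)]
  constructor
  · rw [List.length_append, List.length_replicate, List.length_cons, bits_two_pow]
    omega
  · unfold tz
    rw [List.takeWhile_append_of_pos (by
      intro a ha; rw [List.eq_of_mem_replicate ha]; rfl)]
    simp

theorem length_bits_lt_iff {y n : ℕ} : (Nat.bits y).length < n + 1 ↔ y < 2 ^ n := by
  rw [Nat.size_eq_bits_len, Nat.lt_succ_iff, Nat.size_le]

theorem CR_iff {A : Set (List Bool)} {m y : ℕ} (hm : 1 ≤ m) :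
    CR A (inst m) y ↔ y = 0 ∨ (y < 2 ^ (2 * m) ∧ ∀ c ∈ grp m y, c ∈ A) := by
  obtain ⟨h1, h2⟩ := inst_bits m hm
  unfold CR
  rw [h1, h2, length_bits_lt_iff]
  refine or_congr Iff.rfl (and_congr Iff.rfl ?_)
  constructor
  · intro h c hc
    obtain ⟨k, hk, rfl⟩ := mem_grp.1 hc
    exact h k hk
  · intro h k hk
    exact h _ (mem_grp.2 ⟨k, hk, rfl⟩)

theorem gameR {P Q : Prog} {q : Polynomial ℕ} {T κ D m : ℕ} {ε : ℝ} (hm : 1 ≤ m)
    (hκ : κ = q.eval (2 * m + 1 + T) + 1) (hD : (T + 1) * D < 2 ^ (2 * m))
    (hε : ∀ n, D ≤ n + T * κ → (κ : ℝ) * (1 / 2) ^ m + (1 - (1 / 2) ^ m) ^ n ≤ ε) :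
    ∀ (t e : ℕ), e + t = T → ∀ (pc : ℕ) (stk : ℕ → List Bool) (d : Finset (List Bool))
      (v : List Bool → Bool) (f : ℕ) (K : Finset ℕ), Inv m (2 ^ (2 * m)) d v f K →
      (f = 0 ∨ ∀ c ∈ grp m f, v c = true) → f ≤ e * D → K.card ≤ e * κ →
      (∀ s, (stk s).length ≤ 2 * m + 1 + e) →
      pr d v {ω | Ensures P (decO Q q (ora ω)) (Answers (CR (ora ω)) id (inst m))
        (fun _ w => Optimal (CR (ora ω)) id (inst m) (val w)) t pc stk} ≤ t * ε := by
  classical
  set x := inst m with hx
  obtain ⟨hbits, -⟩ := inst_bits m hm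
  rw [← hx] at hbits
  have hp : (0 : ℝ) ≤ (1 / 2) ^ m := by positivity
  have hp1 : (1 / 2 : ℝ) ^ m ≤ 1 := pow_le_one₀ (by norm_num) (by norm_num)
  have hp2 : (0 : ℝ) ≤ 1 - (1 / 2) ^ m := by linarith
  have hκpos : 1 ≤ κ := by omega
  have hκpos' : (1 : ℝ) ≤ κ := by exact_mod_cast hκpos
  have hεκ : (κ : ℝ) * (1 / 2) ^ m ≤ ε := by
    have h1 := hε D (by omega)
    have h2 : (0 : ℝ) ≤ (1 - (1 / 2) ^ m) ^ D := pow_nonneg hp2 _
    linarith
  have hεp : (1 / 2 : ℝ) ^ m ≤ ε := by nlinarith
  have hεpos : 0 ≤ ε := hp.trans hεp
  have hεδ : ∀ n, D ≤ n + T * κ → (1 - (1 / 2) ^ m : ℝ) ^ n ≤ ε := by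
    intro n hn
    have h1 := hε n hn
    nlinarith
  intro t
  induction t with
  | zero =>
    intro e he pc stk d v f K hI hF hfD hK hs
    rw [pr_empty]
    · simp
    · rintro ω ⟨hω, -⟩
      exact hω
  | succ t ih =>
    intro e he pc stk d v f K hI hF hfD hK hs
    have he' : (e + 1) + t = T := by omega
    have hexpκ : (e + 1) * κ = e * κ + κ := by ring
    have hexpD : (e + 1) * D = e * D + D := by ring
    have hK1 : K.card ≤ (e + 1) * κ := by omega
    have hKT : (e + 1) * κ ≤ T * κ := Nat.mul_le_mul_right _ (by omega)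
    have hDT : (e + 1) * D ≤ (T + 1) * D := Nat.mul_le_mul_right _ (by omega)
    have hf1 : f ≤ (e + 1) * D := by omega
    have hs' : ∀ s, (stk s).length ≤ 2 * m + 1 + (e + 1) := fun s => by have := hs s; omega
    have htε : (0 : ℝ) ≤ t * ε := by positivity
    have hle : ∀ a : ℝ, a ≤ t * ε → a ≤ ((t + 1 : ℕ) : ℝ) * ε := by
      intro a ha; push_cast; nlinarith
    have hle2 : ∀ a : ℝ, a ≤ t * ε + ε → a ≤ ((t + 1 : ℕ) : ℝ) * ε := by
      intro a ha; push_cast; nlinarith
    -- feasibility of known numbers
    have feas_iff : ∀ (ω : List Bool → Bool) (y : ℕ), CR (ora ω) x y ↔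
        y = 0 ∨ (y < 2 ^ (2 * m) ∧ ∀ c ∈ grp m y, ω c = true) := fun ω y => CR_iff hm
    have hsb : ∀ (s z : ℕ), z < 2 ^ (2 * m) → ∀ s', (Function.update stk s (Nat.bits z) s').length ≤
        2 * m + 1 + (e + 1) := by
      intro s z hz s'
      by_cases h : s' = s
      · subst h
        rw [Function.update_self]
        have := length_bits_lt_iff.2 hz
        omega
      · rw [Function.update_of_ne h]; exact hs' s'
    cases hP : P[pc]? with
    | none =>
      rw [pr_empty]
      · positivity
      · rintro ω ⟨hω, -⟩
        simp only [Set.mem_ofPred_eq, Ensures, hP] at hω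
    | some ins =>
      cases ins with
      | push s b l =>
        refine hle _ ((pr_mono ?_).trans (ih (e + 1) he' l (Function.update stk s (b :: stk s))
          d v f K hI hF hf1 hK1 ?_))
        · rintro ω ⟨hω, -⟩
          simp only [Set.mem_ofPred_eq, Ensures, hP] at hω
          exact hω
        · intro s'
          by_cases h : s' = s
          · subst h; rw [Function.update_self]; have := hs s'; simp; omega
          · rw [Function.update_of_ne h]; exact hs' s'
      | pop s l₀ l₁ e₀ =>
        rcases hst : stk s with _ | ⟨b, w⟩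
        · refine hle _ ((pr_mono ?_).trans (ih (e + 1) he' e₀ stk d v f K hI hF hf1 hK1 hs'))
          rintro ω ⟨hω, -⟩
          simp only [Set.mem_ofPred_eq, Ensures, hP, hst] at hω
          exact hω
        · refine hle _ ((pr_mono ?_).trans (ih (e + 1) he' (if b then l₁ else l₀)
            (Function.update stk s w) d v f K hI hF hf1 hK1 ?_))
          · rintro ω ⟨hω, -⟩
            cases b <;> (simp only [Set.mem_ofPred_eq, Ensures, hP, hst] at hω; simpa using hω)
          · intro s'
            by_cases h : s' = s
            · subst h; rw [Function.update_self]; have := hs s'; rw [hst] at this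
              simp at this; omega
            · rw [Function.update_of_ne h]; exact hs' s'
      | query s y' n' =>
        set w := stk s with hw
        have hwl : w.length ≤ 2 * m + 1 + T := by have := hs s; rw [← hw] at this; omega
        have hsz : size [w] = w.length := by simp [size]
        have hqκ : q.eval (size [w]) ≤ κ := by
          have := eval_mono q hwl
          rw [hsz]; omega
        have h1 := qrun (Q := Q) (S := {ω | Ensures P (decO Q q (ora ω))
          (Answers (CR (ora ω)) id x) (fun _ w => Optimal (CR (ora ω)) id x (val w))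
          (t + 1) pc stk}) htε (m := m) (M := 2 ^ (2 * m)) (f := f) (q.eval (size [w])) 0
          (load [w]) d v K hI ?_
        · refine hle2 _ (h1.trans ?_)
          have h2 : ((q.eval (size [w]) : ℕ) : ℝ) ≤ κ := by exact_mod_cast hqκ
          nlinarith
        · intro d' v' K' hI' hK' hd' hv' hout
          have hdec : ∀ ω ∈ Zc d' v', (w ∈ decO Q q (ora ω) ↔ w ∈ decO Q q (ora v')) := by
            intro ω hω
            unfold decO
            show sigE _ _ _ _ _ ↔ sigE _ _ _ _ _
            unfold sigE
            rw [hout ω hω]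
          have hF' : f = 0 ∨ ∀ c ∈ grp m f, v' c = true := by
            rcases Nat.eq_zero_or_pos f with h0 | h0
            · exact Or.inl h0
            · refine Or.inr fun c hc => ?_
              rw [hv' c (hI.low f h0 le_rfl c hc)]
              exact (hF.resolve_left (by omega)) c hc
          by_cases hacc : w ∈ decO Q q (ora v')
          · refine (pr_mono ?_).trans (ih (e + 1) he' y' stk d' v' f K' hI' hF' hf1 (by omega) hs')
            rintro ω ⟨hω, hZ⟩
            simp only [Set.mem_ofPred_eq, Ensures, hP] at hω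
            exact hω.1 ((hdec ω hZ).2 hacc)
          · refine (pr_mono ?_).trans (ih (e + 1) he' n' stk d' v' f K' hI' hF' hf1 (by omega) hs')
            rintro ω ⟨hω, hZ⟩
            simp only [Set.mem_ofPred_eq, Ensures, hP] at hω
            exact hω.2 fun h => hacc ((hdec ω hZ).1 h)
      | present s y' n' =>
        set y := val (stk s) with hy
        -- the presented number is infeasible
        have bad : ∀ (d' : Finset (List Bool)) (v' : List Bool → Bool) (K' : Finset ℕ),
            Inv m (2 ^ (2 * m)) d' v' f K' → K'.card ≤ (e + 1) * κ →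
            (f = 0 ∨ ∀ c ∈ grp m f, v' c = true) →
            (∀ ω ∈ Zc d' v', ¬ CR (ora ω) x y) →
            pr d' v' {ω | Ensures P (decO Q q (ora ω)) (Answers (CR (ora ω)) id x)
              (fun _ w => Optimal (CR (ora ω)) id x (val w)) (t + 1) pc stk} ≤ t * ε := by
          intro d' v' K' hI' hK' hF' hbad
          refine (pr_mono ?_).trans (ih (e + 1) he' n' (Function.update stk s (Nat.bits 0))
            d' v' f K' hI' hF' hf1 hK' (hsb s 0 (by positivity)))
          rintro ω ⟨hω, hZ⟩
          simp only [Set.mem_ofPred_eq, Ensures, hP] at hω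
          refine hω.2 0 ⟨Nat.zero_le _, fun hB => ?_⟩
          rw [← hy] at hB
          exact hbad ω hZ hB.1
        -- the presented number is feasible and at most `f`
        by_cases hgood : y = 0 ∨ (y ≤ f ∧ ∀ c ∈ grp m y, v c = true)
        · have hyf : y ≤ f := by
            rcases hgood with h | h
            · omega
            · exact h.1
          have h1 := scan (S := {ω | Ensures P (decO Q q (ora ω))
            (Answers (CR (ora ω)) id x) (fun _ w => Optimal (CR (ora ω)) id x (val w))
            (t + 1) pc stk}) htε (m := m) (M := 2 ^ (2 * m)) (f₀ := f) (K := K) D f d v le_rfl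
            (by omega) hI ?_
          · refine hle2 _ (h1.trans ?_)
            have h2 := hεδ (Finset.Ioc f (f + D) \ K).card (by
              have := Finset.le_card_sdiff K (Finset.Ioc f (f + D))
              simp only [Nat.card_Ioc, add_tsub_cancel_left] at this
              omega)
            linarith
          · intro z d' v' hz1 hz2 hI' hall hd' hv'
            have hzM : z < 2 ^ (2 * m) := by omega
            refine (pr_mono ?_).trans (ih (e + 1) he' n' (Function.update stk s (Nat.bits z))
              d' v' z K hI' (Or.inr hall) (by omega) hK1 (hsb s z hzM))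
            rintro ω ⟨hω, hZ⟩
            simp only [Set.mem_ofPred_eq, Ensures, hP] at hω
            have hzx : z ≤ x := hzM.le.trans (Nat.le_add_right _ _)
            refine hω.2 z ⟨hzx, fun hB => ?_⟩
            rw [← hy] at hB
            refine hB.2 (show y < z by omega) ((feas_iff ω z).2 (Or.inr ⟨hzM, fun c hc => ?_⟩))
            rw [hZ c (hI'.low z (by omega) le_rfl c hc)]
            exact hall c hc
        · push Not at hgood
          obtain ⟨hy0, hgood⟩ := hgood
          rcases Nat.lt_or_ge f y with hfy | hfy
          · rcases Nat.lt_or_ge y (2 ^ (2 * m)) with hyM | hyM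
            · by_cases hyK : y ∈ K
              · refine hle _ (bad d v K hI hK1 hF fun ω hω hC => ?_)
                obtain ⟨h1, c, hc, h2⟩ := hI.dead y hyK hfy hyM
                have h3 := ((feas_iff ω y).1 hC).resolve_left hy0
                have h4 := h3.2 c hc
                rw [hω c (h1 c hc), h2] at h4
                exact Bool.false_ne_true h4
              · have h5 := pr_group (S := {ω | Ensures P (decO Q q (ora ω))
                  (Answers (CR (ora ω)) id x) (fun _ w => Optimal (CR (ora ω)) id x (val w))
                  (t + 1) pc stk}) (b₁ := 1) (b₂ := t * ε) (grp m y) d v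
                  (grp_nodup m y) (hI.fresh y hfy hyM hyK) (fun v' _ _ => pr_le_one _ _ _) ?_
                · rw [grp_length] at h5
                  refine hle2 _ (h5.trans ?_)
                  nlinarith
                · intro v' hv' hf
                  refine bad _ v' (insert y K) (hI.reveal hfy hyM hyK hv' hf) ?_ ?_ ?_
                  · have := Finset.card_insert_le y K
                    omega
                  · rcases Nat.eq_zero_or_pos f with h0 | h0
                    · exact Or.inl h0
                    · refine Or.inr fun c hc => ?_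
                      rw [hv' c (grp_disj (by omega) hc)]
                      exact (hF.resolve_left (by omega)) c hc
                  · intro ω hω hC
                    obtain ⟨c, hc, h2⟩ := hf
                    have h3 := ((feas_iff ω y).1 hC).resolve_left hy0
                    have h4 := h3.2 c hc
                    rw [hω c (Finset.mem_union_right _ (List.mem_toFinset.2 hc)), h2] at h4
                    exact Bool.false_ne_true h4
            · refine hle _ (bad d v K hI hK1 hF fun ω hω hC => ?_)
              have h3 := ((feas_iff ω y).1 hC).resolve_left hy0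
              omega
          · refine hle _ (bad d v K hI hK1 hF fun ω hω hC => ?_)
            obtain ⟨c, hc, h2⟩ := hgood hfy
            have h3 := ((feas_iff ω y).1 hC).resolve_left hy0
            have h4 := h3.2 c hc
            rw [hω c (hI.low y (by omega) hfy c hc)] at h4
            exact h2 h4
      | halt b =>
        set y := val (stk 0) with hy
        -- the output is infeasible
        have bad : ∀ (d' : Finset (List Bool)) (v' : List Bool → Bool),
            (∀ ω ∈ Zc d' v', ¬ CR (ora ω) x y) →
            pr d' v' {ω | Ensures P (decO Q q (ora ω)) (Answers (CR (ora ω)) id x)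
              (fun _ w => Optimal (CR (ora ω)) id x (val w)) (t + 1) pc stk} ≤ 0 := by
          intro d' v' hbad
          rw [pr_empty]
          rintro ω ⟨hω, hZ⟩
          simp only [Set.mem_ofPred_eq, Ensures, hP] at hω
          exact hbad ω hZ hω.1
        by_cases hgood : y = 0 ∨ (y ≤ f ∧ ∀ c ∈ grp m y, v c = true)
        · have hyf : y ≤ f := by
            rcases hgood with h | h
            · omega
            · exact h.1
          have h1 := scan (S := {ω | Ensures P (decO Q q (ora ω))
            (Answers (CR (ora ω)) id x) (fun _ w => Optimal (CR (ora ω)) id x (val w))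
            (t + 1) pc stk}) le_rfl (m := m) (M := 2 ^ (2 * m)) (f₀ := f) (K := K) D f d v le_rfl
            (by omega) hI ?_
          · refine hle2 _ (h1.trans ?_)
            have h2 := hεδ (Finset.Ioc f (f + D) \ K).card (by
              have := Finset.le_card_sdiff K (Finset.Ioc f (f + D))
              simp only [Nat.card_Ioc, add_tsub_cancel_left] at this
              omega)
            linarith
          · intro z d' v' hz1 hz2 hI' hall hd' hv'
            have hzM : z < 2 ^ (2 * m) := by omega
            rw [pr_empty]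
            rintro ω ⟨hω, hZ⟩
            simp only [Set.mem_ofPred_eq, Ensures, hP] at hω
            have h3 := hω.2 z ((feas_iff ω z).2 (Or.inr ⟨hzM, fun c hc => by
              rw [hZ c (hI'.low z (by omega) le_rfl c hc)]
              exact hall c hc⟩))
            simp only [id] at h3
            omega
        · push Not at hgood
          obtain ⟨hy0, hgood⟩ := hgood
          rcases Nat.lt_or_ge f y with hfy | hfy
          · rcases Nat.lt_or_ge y (2 ^ (2 * m)) with hyM | hyM
            · by_cases hyK : y ∈ K
              · refine hle _ ((bad d v fun ω hω hC => ?_).trans htε)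
                obtain ⟨h1, c, hc, h2⟩ := hI.dead y hyK hfy hyM
                have h3 := ((feas_iff ω y).1 hC).resolve_left hy0
                have h4 := h3.2 c hc
                rw [hω c (h1 c hc), h2] at h4
                exact Bool.false_ne_true h4
              · have h5 := pr_group (S := {ω | Ensures P (decO Q q (ora ω))
                  (Answers (CR (ora ω)) id x) (fun _ w => Optimal (CR (ora ω)) id x (val w))
                  (t + 1) pc stk}) (b₁ := 1) (b₂ := 0) (grp m y) d v
                  (grp_nodup m y) (hI.fresh y hfy hyM hyK) (fun v' _ _ => pr_le_one _ _ _) ?_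
                · rw [grp_length] at h5
                  refine hle2 _ (h5.trans ?_)
                  linarith
                · intro v' hv' hf
                  refine bad _ v' ?_
                  intro ω hω hC
                  obtain ⟨c, hc, h2⟩ := hf
                  have h3 := ((feas_iff ω y).1 hC).resolve_left hy0
                  have h4 := h3.2 c hc
                  rw [hω c (Finset.mem_union_right _ (List.mem_toFinset.2 hc)), h2] at h4
                  exact Bool.false_ne_true h4
            · refine hle _ ((bad d v fun ω hω hC => ?_).trans htε)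
              have h3 := ((feas_iff ω y).1 hC).resolve_left hy0
              omega
          · refine hle _ ((bad d v fun ω hω hC => ?_).trans htε)
            obtain ⟨c, hc, h2⟩ := hgood hfy
            have h3 := ((feas_iff ω y).1 hC).resolve_left hy0
            have h4 := h3.2 c hc
            rw [hω c (hI.low y (by omega) hfy c hc)] at h4
            exact h2 h4

/-- the oracles relative to which a student solves the special problem -/
def Win (P : Prog) (p : Polynomial ℕ) (Q : Prog) (q : Polynomial ℕ) : Set (List Bool → Bool) :=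
  {ω | ∀ x : ℕ, Ensures P (decO Q q (ora ω)) (Answers (CR (ora ω)) id x)
    (fun _ w => Optimal (CR (ora ω)) id x (val w)) (p.eval (Nat.bits x).length) 0
    (load [Nat.bits x])}

theorem win_le (P : Prog) (p : Polynomial ℕ) (Q : Prog) (q : Polynomial ℕ) (N : ℕ) :
    coin.real (Win P p Q q) * N ≤ 1 := by
  classical
  -- polynomials
  set pT := p.comp (2 * Polynomial.X + 1) with hpT
  set pκ := q.comp (2 * Polynomial.X + 1 + pT) + 1 with hpκ
  obtain ⟨m, hm, hbig⟩ := exists_pow_gt
    ((N : Polynomial ℕ) * pT * (pκ + 1) + (pT + 1) * (Polynomial.X + pT * pκ)) 1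
  set T := p.eval (2 * m + 1) with hT
  set κ := q.eval (2 * m + 1 + T) + 1 with hκ
  have hTe : pT.eval m = T := by simp [hpT, hT]
  have hκe : pκ.eval m = κ := by
    rw [hpκ]
    simp only [Polynomial.eval_add, Polynomial.eval_mul, Polynomial.eval_comp, Polynomial.eval_X,
      Polynomial.eval_one, Polynomial.eval_ofNat, hTe]
    rfl
  have hbig' : N * T * (κ + 1) + (T + 1) * (m + T * κ) < 2 ^ m := by
    simp only [Polynomial.eval_mul, Polynomial.eval_add, Polynomial.eval_natCast,
      Polynomial.eval_X, Polynomial.eval_one, hTe, hκe, Nat.cast_id] at hbig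
    exact hbig
  have hp : (0 : ℝ) < (1 / 2) ^ m := by positivity
  have hp1 : (1 / 2 : ℝ) ^ m ≤ 1 := pow_le_one₀ (by norm_num) (by norm_num)
  set D := 2 ^ m * m + T * κ with hD
  have hDle : (T + 1) * D < 2 ^ (2 * m) := by
    have h1 : (T + 1) * D ≤ 2 ^ m * ((T + 1) * (m + T * κ)) := by
      have : D ≤ 2 ^ m * (m + T * κ) := by
        have key : ∀ c : ℕ, 2 ^ m * m + c ≤ 2 ^ m * (m + c) := fun c => by
          rw [Nat.mul_add]
          exact Nat.add_le_add_left (Nat.le_mul_of_pos_left _ (by positivity)) _
        exact key _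
      calc (T + 1) * D ≤ (T + 1) * (2 ^ m * (m + T * κ)) := Nat.mul_le_mul_left _ this
        _ = _ := by ring
    have h2 : 2 ^ m * ((T + 1) * (m + T * κ)) < 2 ^ m * 2 ^ m := by
      refine Nat.mul_lt_mul_of_pos_left ?_ (by positivity)
      omega
    have h3 : 2 ^ (2 * m) = 2 ^ m * 2 ^ m := by rw [two_mul, pow_add]
    omega
  have hdelta : ∀ n, D ≤ n + T * κ →
      (κ : ℝ) * (1 / 2) ^ m + (1 - (1 / 2) ^ m) ^ n ≤ (κ + 1) * (1 / 2) ^ m := by
    intro n hn
    have h1 : 2 ^ m * m ≤ n := by omega
    have h2 : (1 - (1 / 2 : ℝ) ^ m) ^ n ≤ (1 - (1 / 2 : ℝ) ^ m) ^ (2 ^ m * m) :=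
      pow_le_pow_of_le_one (by linarith) (by linarith) h1
    have h3 : (1 - (1 / 2 : ℝ) ^ m) ^ (2 ^ m) ≤ 1 / 2 := by
      have h4 : 1 - (1 / 2 : ℝ) ^ m ≤ Real.exp (-(1 / 2) ^ m) := by
        have := Real.add_one_le_exp (-(1 / 2 : ℝ) ^ m)
        linarith
      have h5 : (1 - (1 / 2 : ℝ) ^ m) ^ (2 ^ m) ≤ Real.exp (-(1 / 2) ^ m) ^ (2 ^ m) :=
        pow_le_pow_left₀ (by linarith) h4 _
      have h6 : Real.exp (-(1 / 2 : ℝ) ^ m) ^ (2 ^ m) = Real.exp (-1) := by
        rw [← Real.exp_nat_mul]
        congr 1
        push_cast
        rw [mul_neg, ← mul_pow]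
        norm_num
      rw [h6] at h5
      refine h5.trans ?_
      have h7 : (2 : ℝ) ≤ Real.exp 1 := by
        have := Real.add_one_le_exp (1 : ℝ)
        linarith
      rw [Real.exp_neg, one_div]
      exact inv_anti₀ (by norm_num) h7
    have h4 : (1 - (1 / 2 : ℝ) ^ m) ^ (2 ^ m * m) ≤ (1 / 2) ^ m := by
      rw [pow_mul]
      exact pow_le_pow_left₀ (pow_nonneg (by linarith) _) h3 m
    linarith
  obtain ⟨hbits, -⟩ := inst_bits m hm
  have hgame := gameR (P := P) (Q := Q) (q := q) (T := T) (κ := κ) (D := D) (m := m)
    (ε := (κ + 1) * (1 / 2) ^ m) hm hκ hDle hdelta T 0 (by omega) 0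
    (load [Nat.bits (inst m)]) ∅ (fun _ => false) 0 ∅
    ⟨fun y h1 h2 => by omega, fun y _ _ _ c _ => Finset.notMem_empty c,
      fun y hy => absurd hy (Finset.notMem_empty y)⟩ (Or.inl rfl) (by simp) (by simp)
    (fun s => by
      have h1 := load_length_le [Nat.bits (inst m)] s
      have h2 : size [Nat.bits (inst m)] = 2 * m + 1 := by simp [size, hbits]
      omega)
  have hsub : Win P p Q q ⊆ {ω | Ensures P (decO Q q (ora ω))
      (Answers (CR (ora ω)) id (inst m))
      (fun _ w => Optimal (CR (ora ω)) id (inst m) (val w)) T 0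
      (load [Nat.bits (inst m)])} := by
    intro ω hω
    have := hω (inst m)
    rw [hbits] at this
    exact this
  have h1 : coin.real (Win P p Q q) ≤ T * ((κ + 1) * (1 / 2) ^ m) := by
    refine le_trans ?_ hgame
    unfold pr
    rw [Finset.card_empty, pow_zero, one_mul]
    refine measureReal_mono ?_
    exact fun ω hω => ⟨hsub hω, fun i hi => absurd hi (Finset.notMem_empty i)⟩
  have h2 : ((N * T * (κ + 1) : ℕ) : ℝ) ≤ 2 ^ m := by
    have : N * T * (κ + 1) ≤ 2 ^ m := by omega
    exact_mod_cast this
  push_cast at h2
  have h3 : (0 : ℝ) ≤ N := Nat.cast_nonneg N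
  calc coin.real (Win P p Q q) * N ≤ T * ((κ + 1) * (1 / 2) ^ m) * N :=
        mul_le_mul_of_nonneg_right h1 h3
    _ = (N * T * (κ + 1)) * (1 / 2) ^ m := by ring
    _ ≤ 2 ^ m * (1 / 2) ^ m := mul_le_mul_of_nonneg_right h2 hp.le
    _ = 1 := by rw [← mul_pow]; norm_num

theorem win_null (P : Prog) (p : Polynomial ℕ) (Q : Prog) (q : Polynomial ℕ) :
    coin (Win P p Q q) = 0 := by
  have h1 : coin.real (Win P p Q q) = 0 := by
    by_contra hne
    have hpos : 0 < coin.real (Win P p Q q) := lt_of_le_of_ne measureReal_nonneg (Ne.symm hne)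
    obtain ⟨N, hN⟩ := exists_nat_gt (1 / coin.real (Win P p Q q))
    have h2 := win_le P p Q q N
    rw [div_lt_iff₀ hpos] at hN
    linarith
  rw [Measure.real, ENNReal.toReal_eq_zero_iff] at h1
  exact h1.resolve_right (measure_ne_top _ _)

instance : Countable Instr := by
  let f : Instr → ℕ × ℕ × ℕ × ℕ × ℕ × Bool := fun i => match i with
    | .push s b l => (0, s, l, 0, 0, b)
    | .pop s l₀ l₁ e => (1, s, l₀, l₁, e, false)
    | .query s y n => (2, s, y, n, 0, false)
    | .present s y n => (3, s, y, n, 0, false)
    | .halt b => (4, 0, 0, 0, 0, b)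
  refine Function.Injective.countable (f := f) ?_
  intro a b h
  cases a <;> cases b <;> simp [f] at h ⊢ <;> tauto

/-- The random oracle theorem. -/
theorem randomOracle : ∀ᵐ ω ∂coin, ∃ (C : ℕ → ℕ → Prop) (ρ : ℕ → ℕ),
    OptProblem {w | ω w = true} 0 C ρ ∧ ¬ Computed {w | ω w = true} 0 C ρ := by
  have h1 : ∀ᵐ ω ∂coin, ∀ c : Prog × Polynomial ℕ × Prog × Polynomial ℕ,
      ω ∉ Win c.1 c.2.1 c.2.2.1 c.2.2.2 := by
    rw [ae_all_iff]
    intro c
    exact measure_eq_zero_iff_ae_notMem.1 (win_null _ _ _ _)
  filter_upwards [h1] with ω hω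
  refine ⟨CR (ora ω), id, optR _, ?_⟩
  rintro ⟨O, P, p, hO, hP⟩
  obtain ⟨Q, q, ps, h1, h2⟩ := exists_sigE 0 1 _ hO
  have hps : ps = [] := List.eq_nil_of_length_eq_zero h1
  subst hps
  have hOe : O = decO Q q (ora ω) := by
    ext w
    have := h2 [w] rfl
    simp only [List.cons.injEq, and_true] at this
    unfold decO
    show _ ↔ sigE _ _ _ _ _
    rw [show ora ω = {w | ω w = true} from rfl, ← this]
    constructor
    · intro h; exact ⟨w, h, rfl⟩
    · rintro ⟨w', h, rfl⟩; exact h
  refine hω (P, p, Q, q) fun x => ?_
  show Ensures P (decO Q q (ora ω)) _ _ _ _ _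
  rw [← hOe]
  exact hP x

end Pool.Agent.Lib.MP_2b5695_lc
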