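import Pool.Agent.Lib.MP_2b5695_lc.Basic

/-!
Interaction trees, and the fixed machine that is driven by a part of its oracle.
-/

namespace Pool.Agent.Lib.MP_2b5695_lc

/-- interaction trees: what to do next, depending on the answers obtained so far -/
inductive Tree
  | push (b : Bool) (t : Tree)
  | pop (t : Option Bool → Tree)
  | query (t : Bool → Tree)
  | present (y n : Tree)
  | halt (b : Bool)

namespace Tree

/-- number of the action at the root -/
def idx : Tree → ℕ
  | .push false _ => 0
  | .push true _ => 1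
  | .pop _ => 2
  | .query _ => 3
  | .present _ _ => 4
  | .halt true => 5
  | .halt false => 6

/-- follow the recorded responses -/
def walk : Tree → List Bool → Tree
  | .push _ t, _ :: r => t.walk r
  | .pop t, false :: _ :: r => (t none).walk r
  | .pop t, true :: b :: _ :: r => (t (some b)).walk r
  | .query t, b :: _ :: r => (t b).walk r
  | .present y _, true :: _ :: r => y.walk r
  | .present _ n, false :: _ :: r => n.walk r
  | t, _ => t

/-- running a tree, with oracle `D` and an adversary; at most `n` nodes -/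
def Ens (D : Set (List Bool)) (Adv : ℕ → Option ℕ → Prop) (good : Bool → List Bool → Prop) :
    ℕ → Tree → List Bool → Prop
  | 0, _, _ => False
  | _ + 1, .halt b, buf => good b buf
  | n + 1, .push b t, buf => Ens D Adv good n t (b :: buf)
  | n + 1, .pop t, [] => Ens D Adv good n (t none) []
  | n + 1, .pop t, b :: buf => Ens D Adv good n (t (some b)) buf
  | n + 1, .query t, buf =>
    (buf ∈ D → Ens D Adv good n (t true) buf) ∧ (buf ∉ D → Ens D Adv good n (t false) buf)
  | n + 1, .present y no, buf => (Adv (val buf) none → Ens D Adv good n y buf) ∧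
    ∀ z, Adv (val buf) (some z) → Ens D Adv good n no (Nat.bits z)

theorem Ens.mono {D : Set (List Bool)} {Adv : ℕ → Option ℕ → Prop}
    {good : Bool → List Bool → Prop} : ∀ {n n' : ℕ} (_ : n ≤ n') {t : Tree} {buf : List Bool},
      Ens D Adv good n t buf → Ens D Adv good n' t buf
  | 0, _, _, _, _, h => h.elim
  | n + 1, 0, hle, _, _, _ => absurd hle (by omega)
  | n + 1, n' + 1, hle, t, buf, h => by
    have hle' : n ≤ n' := by omega
    cases t with
    | push b t => exact Ens.mono hle' (h : Ens D Adv good n t (b :: buf))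
    | pop t =>
      cases buf with
      | nil => exact Ens.mono hle' (h : Ens D Adv good n (t none) [])
      | cons b buf => exact Ens.mono hle' (h : Ens D Adv good n (t (some b)) buf)
    | query t =>
      have h' : (buf ∈ D → Ens D Adv good n (t true) buf) ∧
        (buf ∉ D → Ens D Adv good n (t false) buf) := h
      exact ⟨fun hh => Ens.mono hle' (h'.1 hh), fun hh => Ens.mono hle' (h'.2 hh)⟩
    | present y no =>
      have h' : (Adv (val buf) none → Ens D Adv good n y buf) ∧
        ∀ z, Adv (val buf) (some z) → Ens D Adv good n no (Nat.bits z) := h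
      exact ⟨fun hh => Ens.mono hle' (h'.1 hh), fun z hh => Ens.mono hle' (h'.2 z hh)⟩
    | halt b => exact h

end Tree

/-- self-delimiting record of a word -/
def blk (x : List Bool) : List Bool := x.flatMap fun b => [true, b]

/-- header of a transcript -/
def pre (j : ℕ) (x u : List Bool) : List Bool :=
  List.replicate j true ++ false :: (blk x ++ false :: (blk u ++ [false]))

/-- content of the transcript stack -/
def Tr (j : ℕ) (x u resp : List Bool) : List Bool := (pre j x u ++ resp).reverse

/-- the fixed part of the driver -/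
def driverFixed (τ : ℕ) : Prog :=
  [.pop τ 62 62 62,
   .pop 0 2 4 6,
   .push τ true 3,
   .push τ false 1,
   .push τ true 5,
   .push τ true 1,
   .push τ false 7,
   .pop 1 8 10 12,
   .push τ true 9,
   .push τ false 7,
   .push τ true 11,
   .push τ true 7,
   .push τ false 13,
   .push τ true 14,
   .query τ 26 15,
   .push τ true 16,
   .query τ 29 17,
   .push τ true 18,
   .query τ 32 19,
   .push τ true 20,
   .query τ 43 21,
   .push τ true 22,
   .query τ 53 23,
   .push τ true 24,
   .query τ 61 25,
   .halt false,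
   .pop τ 27 27 27,
   .push 0 false 28,
   .push τ false 13,
   .pop τ 30 30 30,
   .pop τ 31 31 31,
   .push 0 true 28,
   .pop τ 33 33 33,
   .pop τ 34 34 34,
   .pop τ 35 35 35,
   .pop 0 36 39 42,
   .push τ true 37,
   .push τ false 28,
   .halt false,
   .push τ true 40,
   .push τ true 28,
   .halt false,
   .push τ false 28,
   .pop τ 44 44 44,
   .pop τ 45 45 45,
   .pop τ 46 46 46,
   .pop τ 47 47 47,
   .push 0 false 48,
   .query 0 49 50,
   .pop 0 51 51 51,
   .pop 0 52 52 52,
   .push τ true 28,
   .push τ false 28,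
   .pop τ 54 54 54,
   .pop τ 55 55 55,
   .pop τ 56 56 56,
   .pop τ 57 57 57,
   .pop τ 58 58 58,
   .present 0 59 60,
   .push τ true 28,
   .push τ false 28,
   .halt true]

/-- the driver for task number `j`, with the transcript on stack `τ` -/
def driver (τ j : ℕ) : Prog :=
  driverFixed τ ++ ((List.range j).map (fun i => Instr.push τ true (62 + i + 1)) ++
    [Instr.push τ false 1])

section

variable {P : Prog} {O : Set (List Bool)} {Adv : ℕ → Option ℕ → Prop}
  {good : Bool → List Bool → Prop}

/-- from instruction `pc`, with buffer `buf` and transcript `T`, the machine succeeds in time `t` -/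
def Reach (P : Prog) (O : Set (List Bool)) (Adv : ℕ → Option ℕ → Prop)
    (good : Bool → List Bool → Prop) (τ t pc : ℕ) (buf T : List Bool) : Prop :=
  ∀ stk : ℕ → List Bool, stk 0 = buf → stk τ = T → Ensures P O Adv good t pc stk

variable {τ t pc : ℕ} {buf T : List Bool}

theorem r_pushT {b : Bool} {l : ℕ} (hτ : τ ≠ 0) (h : P[pc]? = some (.push τ b l))
    (hg : Reach P O Adv good τ t l buf (b :: T)) : Reach P O Adv good τ (t + 1) pc buf T := by
  intro stk h0 h1
  refine ens_push h (hg _ ?_ ?_)
  · rw [Function.update_of_ne hτ.symm, h0]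
  · rw [Function.update_self, h1]

theorem r_push0 {b : Bool} {l : ℕ} (hτ : τ ≠ 0) (h : P[pc]? = some (.push 0 b l))
    (hg : Reach P O Adv good τ t l (b :: buf) T) : Reach P O Adv good τ (t + 1) pc buf T := by
  intro stk h0 h1
  refine ens_push h (hg _ ?_ ?_)
  · rw [Function.update_self, h0]
  · rw [Function.update_of_ne hτ, h1]

theorem r_popT {b : Bool} {l : ℕ} (hτ : τ ≠ 0) (h : P[pc]? = some (.pop τ l l l))
    (hg : Reach P O Adv good τ t l buf T) : Reach P O Adv good τ (t + 1) pc buf (b :: T) := by
  intro stk h0 h1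
  refine ens_pop_cons h h1 ?_
  rw [ite_self]
  refine hg _ ?_ ?_
  · rw [Function.update_of_ne hτ.symm, h0]
  · rw [Function.update_self]

theorem r_pop0_nil {l₀ l₁ e : ℕ} (h : P[pc]? = some (.pop 0 l₀ l₁ e))
    (hg : Reach P O Adv good τ t e [] T) : Reach P O Adv good τ (t + 1) pc [] T := by
  intro stk h0 h1
  exact ens_pop_nil h h0 (hg _ h0 h1)

theorem r_pop0_cons {b : Bool} {l₀ l₁ e : ℕ} (hτ : τ ≠ 0) (h : P[pc]? = some (.pop 0 l₀ l₁ e))
    (hg : Reach P O Adv good τ t (if b then l₁ else l₀) buf T) :
    Reach P O Adv good τ (t + 1) pc (b :: buf) T := by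
  intro stk h0 h1
  refine ens_pop_cons h h0 (hg _ ?_ ?_)
  · rw [Function.update_self]
  · rw [Function.update_of_ne hτ, h1]

theorem r_queryT {y n : ℕ} (h : P[pc]? = some (.query τ y n))
    (h1 : T ∈ O → Reach P O Adv good τ t y buf T)
    (h2 : T ∉ O → Reach P O Adv good τ t n buf T) : Reach P O Adv good τ (t + 1) pc buf T := by
  intro stk h0 hT
  refine ens_query h (fun hh => h1 (hT ▸ hh) _ h0 hT) (fun hh => h2 (hT ▸ hh) _ h0 hT)

theorem r_query0 {y n : ℕ} (h : P[pc]? = some (.query 0 y n))
    (h1 : buf ∈ O → Reach P O Adv good τ t y buf T)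
    (h2 : buf ∉ O → Reach P O Adv good τ t n buf T) : Reach P O Adv good τ (t + 1) pc buf T := by
  intro stk h0 hT
  refine ens_query h (fun hh => h1 (h0 ▸ hh) _ h0 hT) (fun hh => h2 (h0 ▸ hh) _ h0 hT)

theorem r_present0 {y n : ℕ} (hτ : τ ≠ 0) (h : P[pc]? = some (.present 0 y n))
    (h1 : Adv (val buf) none → Reach P O Adv good τ t y buf T)
    (h2 : ∀ z, Adv (val buf) (some z) → Reach P O Adv good τ t n (Nat.bits z) T) :
    Reach P O Adv good τ (t + 1) pc buf T := by
  intro stk h0 hT
  refine ens_present h (fun hh => h1 (h0 ▸ hh) _ h0 hT) (fun z hh => h2 z (h0 ▸ hh) _ ?_ ?_)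
  · rw [Function.update_self]
  · rw [Function.update_of_ne hτ, hT]

theorem r_halt {b : Bool} (h : P[pc]? = some (.halt b)) (hg : good b buf) :
    Reach P O Adv good τ (t + 1) pc buf T := by
  intro stk h0 _
  exact ens_halt h (h0 ▸ hg)

theorem Reach.mono {t' : ℕ} (h : t ≤ t') (hg : Reach P O Adv good τ t pc buf T) :
    Reach P O Adv good τ t' pc buf T :=
  fun stk h0 hT => Ensures.mono (fun _ _ h => h) h (hg stk h0 hT)

end

section driver

variable {O : Set (List Bool)} {Adv : ℕ → Option ℕ → Prop}
  {good : Bool → List Bool → Prop} {τ j t : ℕ} {buf T : List Bool}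

/-- the brain part of the oracle `O` tells the root action of `t` at transcript `T` -/
def Tells (O : Set (List Bool)) (T : List Bool) (i : ℕ) : Prop :=
  ∀ k < 6, (true :: (List.replicate k true ++ T)) ∈ O ↔ i = k

theorem find0 (hτ : τ ≠ 0) (h : Tells O T 0)
    (hg : Reach (driver τ j) O Adv good τ t 26 buf (true :: T)) :
    Reach (driver τ j) O Adv good τ (t + 2) 13 buf T := by
  have h0 := h 0 (by norm_num)
  simp only [List.replicate_zero, List.nil_append] at h0
  exact r_pushT hτ rfl (r_queryT rfl (fun _ => hg) fun hh => absurd (h0.2 trivial) hh)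

theorem find1 (hτ : τ ≠ 0) (h : Tells O T 1)
    (hg : Reach (driver τ j) O Adv good τ t 29 buf (true :: true :: T)) :
    Reach (driver τ j) O Adv good τ (t + 4) 13 buf T := by
  have h0 := h 0 (by norm_num)
  have h1 := h 1 (by norm_num)
  simp only [List.replicate_zero, List.nil_append, List.replicate_succ, List.cons_append] at h0 h1
  exact r_pushT hτ rfl (r_queryT rfl (fun hh => absurd (h0.1 hh) (by norm_num)) fun _ =>
    r_pushT hτ rfl (r_queryT rfl (fun _ => hg) fun hh => absurd (h1.2 trivial) hh))

theorem find2 (hτ : τ ≠ 0) (h : Tells O T 2)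
    (hg : Reach (driver τ j) O Adv good τ t 32 buf (true :: true :: true :: T)) :
    Reach (driver τ j) O Adv good τ (t + 6) 13 buf T := by
  have h0 := h 0 (by norm_num)
  have h1 := h 1 (by norm_num)
  have h2 := h 2 (by norm_num)
  simp only [List.replicate_zero, List.nil_append, List.replicate_succ, List.cons_append]
    at h0 h1 h2
  exact r_pushT hτ rfl (r_queryT rfl (fun hh => absurd (h0.1 hh) (by norm_num)) fun _ =>
    r_pushT hτ rfl (r_queryT rfl (fun hh => absurd (h1.1 hh) (by norm_num)) fun _ =>
    r_pushT hτ rfl (r_queryT rfl (fun _ => hg) fun hh => absurd (h2.2 trivial) hh)))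

theorem find3 (hτ : τ ≠ 0) (h : Tells O T 3)
    (hg : Reach (driver τ j) O Adv good τ t 43 buf (true :: true :: true :: true :: T)) :
    Reach (driver τ j) O Adv good τ (t + 8) 13 buf T := by
  have h0 := h 0 (by norm_num)
  have h1 := h 1 (by norm_num)
  have h2 := h 2 (by norm_num)
  have h3 := h 3 (by norm_num)
  simp only [List.replicate_zero, List.nil_append, List.replicate_succ, List.cons_append]
    at h0 h1 h2 h3
  exact r_pushT hτ rfl (r_queryT rfl (fun hh => absurd (h0.1 hh) (by norm_num)) fun _ =>
    r_pushT hτ rfl (r_queryT rfl (fun hh => absurd (h1.1 hh) (by norm_num)) fun _ =>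
    r_pushT hτ rfl (r_queryT rfl (fun hh => absurd (h2.1 hh) (by norm_num)) fun _ =>
    r_pushT hτ rfl (r_queryT rfl (fun _ => hg) fun hh => absurd (h3.2 trivial) hh))))

theorem find4 (hτ : τ ≠ 0) (h : Tells O T 4)
    (hg : Reach (driver τ j) O Adv good τ t 53 buf
      (true :: true :: true :: true :: true :: T)) :
    Reach (driver τ j) O Adv good τ (t + 10) 13 buf T := by
  have h0 := h 0 (by norm_num)
  have h1 := h 1 (by norm_num)
  have h2 := h 2 (by norm_num)
  have h3 := h 3 (by norm_num)
  have h4 := h 4 (by norm_num)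
  simp only [List.replicate_zero, List.nil_append, List.replicate_succ, List.cons_append]
    at h0 h1 h2 h3 h4
  exact r_pushT hτ rfl (r_queryT rfl (fun hh => absurd (h0.1 hh) (by norm_num)) fun _ =>
    r_pushT hτ rfl (r_queryT rfl (fun hh => absurd (h1.1 hh) (by norm_num)) fun _ =>
    r_pushT hτ rfl (r_queryT rfl (fun hh => absurd (h2.1 hh) (by norm_num)) fun _ =>
    r_pushT hτ rfl (r_queryT rfl (fun hh => absurd (h3.1 hh) (by norm_num)) fun _ =>
    r_pushT hτ rfl (r_queryT rfl (fun _ => hg) fun hh => absurd (h4.2 trivial) hh)))))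

theorem find5 (hτ : τ ≠ 0) (h : Tells O T 5) (hg : good true buf) :
    Reach (driver τ j) O Adv good τ (t + 13) 13 buf T := by
  have h0 := h 0 (by norm_num)
  have h1 := h 1 (by norm_num)
  have h2 := h 2 (by norm_num)
  have h3 := h 3 (by norm_num)
  have h4 := h 4 (by norm_num)
  have h5 := h 5 (by norm_num)
  simp only [List.replicate_zero, List.nil_append, List.replicate_succ, List.cons_append]
    at h0 h1 h2 h3 h4 h5
  exact r_pushT hτ rfl (r_queryT rfl (fun hh => absurd (h0.1 hh) (by norm_num)) fun _ =>
    r_pushT hτ rfl (r_queryT rfl (fun hh => absurd (h1.1 hh) (by norm_num)) fun _ =>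
    r_pushT hτ rfl (r_queryT rfl (fun hh => absurd (h2.1 hh) (by norm_num)) fun _ =>
    r_pushT hτ rfl (r_queryT rfl (fun hh => absurd (h3.1 hh) (by norm_num)) fun _ =>
    r_pushT hτ rfl (r_queryT rfl (fun hh => absurd (h4.1 hh) (by norm_num)) fun _ =>
    r_pushT hτ rfl (r_queryT rfl (fun _ => r_halt rfl hg) fun hh => absurd (h5.2 trivial) hh))))))

theorem find6 (hτ : τ ≠ 0) (h : Tells O T 6) (hg : good false buf) :
    Reach (driver τ j) O Adv good τ (t + 13) 13 buf T := by
  have h0 := h 0 (by norm_num)
  have h1 := h 1 (by norm_num)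
  have h2 := h 2 (by norm_num)
  have h3 := h 3 (by norm_num)
  have h4 := h 4 (by norm_num)
  have h5 := h 5 (by norm_num)
  simp only [List.replicate_zero, List.nil_append, List.replicate_succ, List.cons_append]
    at h0 h1 h2 h3 h4 h5
  exact r_pushT hτ rfl (r_queryT rfl (fun hh => absurd (h0.1 hh) (by norm_num)) fun _ =>
    r_pushT hτ rfl (r_queryT rfl (fun hh => absurd (h1.1 hh) (by norm_num)) fun _ =>
    r_pushT hτ rfl (r_queryT rfl (fun hh => absurd (h2.1 hh) (by norm_num)) fun _ =>
    r_pushT hτ rfl (r_queryT rfl (fun hh => absurd (h3.1 hh) (by norm_num)) fun _ =>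
    r_pushT hτ rfl (r_queryT rfl (fun hh => absurd (h4.1 hh) (by norm_num)) fun _ =>
    r_pushT hτ rfl (r_queryT rfl (fun hh => absurd (h5.1 hh) (by norm_num)) fun _ =>
      r_halt rfl hg))))))

/-- The main loop of the driver follows the tree, as long as the oracle tells its actions. -/
theorem driver_loop (hτ : τ ≠ 0) (x u : List Bool) (D : Set (List Bool)) (t₀ : Tree)
    (hD : ∀ w, (false :: w) ∈ O ↔ w ∈ D)
    (hO : ∀ resp, (resp = [] ∨ ∃ r, resp = r ++ [false]) →
      Tells O (Tr j x u resp) (t₀.walk resp).idx) :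
    ∀ (n : ℕ) (t : Tree) (buf resp : List Bool), (resp = [] ∨ ∃ r, resp = r ++ [false]) →
      (∀ r, t₀.walk (resp ++ r) = t.walk r) → Tree.Ens D Adv good n t buf →
      Reach (driver τ j) O Adv good τ (18 * n) 13 buf (Tr j x u resp)
  | 0, _, _, _, _, _, h => h.elim
  | n + 1, t, buf, resp, hr, hw, h => by
    have ih := driver_loop hτ x u D t₀ hD hO n
    have htell : Tells O (Tr j x u resp) t.idx := by
      have := hO resp hr
      have h2 := hw []
      rw [List.append_nil] at h2
      rw [h2] at this
      have h3 : t.walk [] = t := by cases t <;> simp [Tree.walk]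
      rwa [h3] at this
    have e1 : ∀ r, Tr j x u (resp ++ [r]) = r :: Tr j x u resp := by
      intro r; simp [Tr]
    have e2 : ∀ r s, Tr j x u (resp ++ [r, s]) = s :: r :: Tr j x u resp := by
      intro r s; simp [Tr]
    have e3 : ∀ r s q, Tr j x u (resp ++ [r, s, q]) = q :: s :: r :: Tr j x u resp := by
      intro r s q; simp [Tr]
    cases t with
    | push b t =>
      have h' : Tree.Ens D Adv good n t (b :: buf) := h
      have h1 := ih t (b :: buf) (resp ++ [false]) (Or.inr ⟨_, rfl⟩)
        (fun r => by rw [List.append_assoc, hw]; rfl) h'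
      rw [e1] at h1
      cases b
      · refine (find0 hτ htell (r_popT hτ rfl (r_push0 hτ rfl (r_pushT hτ rfl h1)))).mono ?_
        omega
      · refine (find1 hτ htell (r_popT hτ rfl (r_popT hτ rfl
          (r_push0 hτ rfl (r_pushT hτ rfl h1))))).mono ?_
        omega
    | pop t =>
      cases buf with
      | nil =>
        have h' : Tree.Ens D Adv good n (t none) [] := h
        have h1 := ih (t none) [] (resp ++ [false, false])
          (Or.inr ⟨resp ++ [false], by simp⟩)
          (fun r => by rw [List.append_assoc, hw]; rfl) h'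
        rw [e2] at h1
        refine (find2 hτ htell (r_popT hτ rfl (r_popT hτ rfl (r_popT hτ rfl
          (r_pop0_nil rfl (r_pushT hτ rfl (r_pushT hτ rfl h1))))))).mono ?_
        omega
      | cons b buf =>
        have h' : Tree.Ens D Adv good n (t (some b)) buf := h
        have h1 := ih (t (some b)) buf (resp ++ [true, b, false])
          (Or.inr ⟨resp ++ [true, b], by simp⟩)
          (fun r => by rw [List.append_assoc, hw]; rfl) h'
        rw [e3] at h1
        cases b
        · refine (find2 hτ htell (r_popT hτ rfl (r_popT hτ rfl (r_popT hτ rfl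
            (r_pop0_cons hτ rfl (r_pushT hτ rfl (r_pushT hτ rfl (r_pushT hτ rfl h1)))))))).mono ?_
          omega
        · refine (find2 hτ htell (r_popT hτ rfl (r_popT hτ rfl (r_popT hτ rfl
            (r_pop0_cons hτ rfl (r_pushT hτ rfl (r_pushT hτ rfl (r_pushT hτ rfl h1)))))))).mono ?_
          omega
    | query t =>
      have h' : (buf ∈ D → Tree.Ens D Adv good n (t true) buf) ∧
        (buf ∉ D → Tree.Ens D Adv good n (t false) buf) := h
      have hgo : ∀ b : Bool, Tree.Ens D Adv good n (t b) buf →
          Reach (driver τ j) O Adv good τ (18 * n + 1) 28 buf (b :: Tr j x u resp) := by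
        intro b hb
        have h1 := ih (t b) buf (resp ++ [b, false])
          (Or.inr ⟨resp ++ [b], by simp⟩)
          (fun r => by rw [List.append_assoc, hw]; rfl) hb
        rw [e2] at h1
        exact r_pushT hτ rfl h1
      refine (find3 (t := 18 * n + 9) hτ htell ((r_popT hτ rfl (r_popT hτ rfl (r_popT hτ rfl
        (r_popT hτ rfl (r_push0 hτ rfl (r_query0 (t := 18 * n + 3) rfl (fun hh => ?_)
          (fun hh => ?_))))))))).mono ?_
      · exact (r_pop0_cons hτ rfl (r_pushT hτ rfl (hgo true (h'.1 ((hD _).1 hh)))))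
      · exact (r_pop0_cons hτ rfl (r_pushT hτ rfl (hgo false (h'.2 (fun h => hh ((hD _).2 h))))))
      · omega
    | present y no =>
      have h' : (Adv (val buf) none → Tree.Ens D Adv good n y buf) ∧
        ∀ z, Adv (val buf) (some z) → Tree.Ens D Adv good n no (Nat.bits z) := h
      refine (find4 (t := 18 * n + 8) hτ htell ((r_popT hτ rfl (r_popT hτ rfl (r_popT hτ rfl
        (r_popT hτ rfl (r_popT hτ rfl (r_present0 (t := 18 * n + 2) hτ rfl (fun hh => ?_)
          (fun z hh => ?_))))))))).mono ?_
      · have h1 := ih y buf (resp ++ [true, false])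
          (Or.inr ⟨resp ++ [true], by simp⟩)
          (fun r => by rw [List.append_assoc, hw]; rfl) (h'.1 hh)
        rw [e2] at h1
        exact r_pushT hτ rfl (r_pushT hτ rfl h1)
      · have h1 := ih no (Nat.bits z) (resp ++ [false, false])
          (Or.inr ⟨resp ++ [false], by simp⟩)
          (fun r => by rw [List.append_assoc, hw]; rfl) (h'.2 z hh)
        rw [e2] at h1
        exact r_pushT hτ rfl (r_pushT hτ rfl h1)
      · omega
    | halt b =>
      cases b
      · refine (find6 (t := 0) hτ htell h).mono ?_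
        omega
      · refine (find5 (t := 0) hτ htell h).mono ?_
        omega

end driver

end Pool.Agent.Lib.MP_2b5695_lc
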